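import Mathlib

set_option autoImplicit false

namespace Pool.Agent.H28.AN

open scoped InnerProductSpace
open Submodule

variable {H : Type} [NormedAddCommGroup H] [InnerProductSpace ℂ H] [CompleteSpace H]
variable {ι κ : Type}

/-- Two bounded operators which agree on a Hilbert basis are equal. -/
lemma ext_basis (b : HilbertBasis ι ℂ H) {A B : H →L[ℂ] H} (h : ∀ i, A (b i) = B (b i)) :
    A = B := by
  apply ContinuousLinearMap.ext_on (s := Set.range b)
  · exact Submodule.dense_iff_topologicalClosure_eq_top.mpr b.dense_span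
  · rintro _ ⟨i, rfl⟩
    exact h i

/-- An isometry with prescribed orthonormal images of a Hilbert basis. -/
lemma exists_isom (b : HilbertBasis ι ℂ H) (v : ι → H) (hv : Orthonormal ℂ v) :
    ∃ U : H →L[ℂ] H, star U * U = 1 ∧ ∀ i, U (b i) = v i := by
  classical
  let L : H →ₗᵢ[ℂ] H := (hv.orthogonalFamily.linearIsometry).comp b.repr.toLinearIsometry
  refine ⟨L.toContinuousLinearMap, ?_, ?_⟩
  · ext x
    apply ext_inner_left ℂ
    intro y
    rw [mul_apply_eq_comp, ContinuousLinearMap.star_eq_adjoint,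
      ContinuousLinearMap.adjoint_inner_right]
    simp
  · intro i
    show L (b i) = v i
    simp [L, HilbertBasis.repr_self, OrthogonalFamily.linearIsometry_apply_single]

/-- Bounded real diagonal operators. -/
lemma exists_diag (b : HilbertBasis ι ℂ H) (g : ι → ℝ) (C : ℝ) (hg : ∀ i, |g i| ≤ C) :
    ∃ D : H →L[ℂ] H, star D = D ∧ ∀ i, D (b i) = (g i : ℂ) • b i := by
  classical
  by_cases hC : C ≤ 0
  · refine ⟨0, by simp, fun i => ?_⟩
    have h0 : g i = 0 := by
      have := hg i
      have h1 := abs_nonneg (g i)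
      have h2 : |g i| = 0 := by linarith
      simpa using h2
    simp [h0]
  push Not at hC
  let φ : ι → ℝ := fun i => Real.arccos (g i / C)
  have hcos : ∀ i, Real.cos (φ i) = g i / C := by
    intro i
    have h1 := abs_le.mp (hg i)
    apply Real.cos_arccos
    · rw [le_div_iff₀ hC]; linarith [h1.1]
    · rw [div_le_iff₀ hC]; linarith [h1.2]
  let z : ι → ℂ := fun i => Complex.exp (φ i * Complex.I)
  have hz : ∀ i, ‖z i‖ = 1 := fun i => Complex.norm_exp_ofReal_mul_I (φ i)
  have hon : Orthonormal ℂ (fun i => z i • b i) := by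
    constructor
    · intro i
      rw [norm_smul, hz, b.orthonormal.1 i, one_mul]
    · intro i j hij
      simp only
      rw [inner_smul_left, inner_smul_right, b.orthonormal.2 hij]
      simp
  obtain ⟨U, hU1, hU⟩ := exists_isom b _ hon
  have hUs : ∀ i, (star U) (b i) = (starRingEnd ℂ (z i)) • b i := by
    intro i
    have h1 : (star U) (U (b i)) = b i := by
      have := congrArg (fun A : H →L[ℂ] H => A (b i)) hU1
      simpa using this
    rw [hU i, map_smul] at h1
    have hzz : starRingEnd ℂ (z i) * z i = 1 := by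
      rw [Complex.conj_mul', hz]; simp
    have h2 := congrArg (fun x => (starRingEnd ℂ (z i)) • x) h1
    simp only [smul_smul, hzz, one_smul] at h2
    exact h2
  refine ⟨((C / 2 : ℝ) : ℂ) • (U + star U), ?_, ?_⟩
  · rw [star_smul, star_add, star_star]
    simp [add_comm]
  · intro i
    rw [smul_apply, add_apply, hU, hUs, ← add_smul,
      smul_smul]
    congr 1
    have h3 : z i + starRingEnd ℂ (z i) = ((2 * Real.cos (φ i) : ℝ) : ℂ) := by
      rw [Complex.add_conj]
      simp [z, Complex.exp_ofReal_mul_I_re]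
    rw [h3, hcos]
    rw [← Complex.ofReal_mul]
    congr 1
    field_simp

/-- Parseval. -/
lemma hasSum_parseval (e : HilbertBasis ι ℂ H) (x : H) :
    HasSum (fun k => ‖⟪e k, x⟫_ℂ‖ ^ 2) (‖x‖ ^ 2) := by
  have h := e.hasSum_inner_mul_inner x x
  have h1 : (fun k => ⟪x, e k⟫_ℂ * ⟪e k, x⟫_ℂ)
      = fun k => ((‖⟪e k, x⟫_ℂ‖ ^ 2 : ℝ) : ℂ) := by
    funext k
    rw [← inner_conj_symm x (e k), Complex.conj_mul']
    push_cast; rfl
  have h2 : ⟪x, x⟫_ℂ = ((‖x‖ ^ 2 : ℝ) : ℂ) := by
    rw [inner_self_eq_norm_sq_to_K]; push_cast; rfl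
  rw [h1, h2] at h
  exact Complex.hasSum_ofReal.mp h

lemma hs_adjoint (b' : HilbertBasis ι ℂ H) (e : HilbertBasis κ ℂ H) {A : H →L[ℂ] H}
    (h : Summable fun i => ‖A (b' i)‖ ^ 2) : Summable fun k => ‖(star A) (e k)‖ ^ 2 := by
  have h1 : Summable fun p : ι × κ => ‖⟪e p.2, A (b' p.1)⟫_ℂ‖ ^ 2 := by
    rw [summable_prod_of_nonneg (fun _ => by positivity)]
    refine ⟨fun i => (hasSum_parseval e (A (b' i))).summable, ?_⟩
    refine h.congr fun i => ?_
    exact (hasSum_parseval e (A (b' i))).tsum_eq.symm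
  have h2 : Summable fun p : κ × ι => ‖⟪e p.1, A (b' p.2)⟫_ℂ‖ ^ 2 :=
    h1.prod_symm
  rw [summable_prod_of_nonneg (fun _ => by positivity)] at h2
  refine h2.2.congr fun k => ?_
  have h3 := hasSum_parseval b' ((star A) (e k))
  rw [← h3.tsum_eq]
  congr 1
  funext i
  rw [ContinuousLinearMap.star_eq_adjoint, ContinuousLinearMap.adjoint_inner_right,
    norm_inner_symm]

/-- The Hilbert-Schmidt property does not depend on the basis. -/
lemma hs_indep (b' : HilbertBasis ι ℂ H) (e : HilbertBasis κ ℂ H) {A : H →L[ℂ] H}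
    (h : Summable fun i => ‖A (b' i)‖ ^ 2) : Summable fun k => ‖A (e k)‖ ^ 2 := by
  have h1 := hs_adjoint b' e h
  have h2 := hs_adjoint e e h1
  simpa using h2

/-- The diagonal of a trace class operator (a product of two Hilbert-Schmidt operators) is
summable. -/
lemma tc_diag {ι₁ ι₂ : Type} (b₁ : HilbertBasis ι₁ ℂ H) (b₂ : HilbertBasis ι₂ ℂ H)
    (e : HilbertBasis κ ℂ H) {B C : H →L[ℂ] H}
    (hB : Summable fun i => ‖B (b₁ i)‖ ^ 2) (hC : Summable fun i => ‖C (b₂ i)‖ ^ 2) :
    Summable fun k => ‖⟪e k, (B * C) (e k)⟫_ℂ‖ := by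
  have h1 := hs_adjoint b₁ e hB
  have h2 := hs_indep b₂ e hC
  refine Summable.of_nonneg_of_le (fun _ => norm_nonneg _) (fun k => ?_) (h1.add h2)
  rw [mul_apply_eq_comp, ← ContinuousLinearMap.adjoint_inner_left,
    ← ContinuousLinearMap.star_eq_adjoint]
  have h3 := norm_inner_le_norm (𝕜 := ℂ) ((star B) (e k)) (C (e k))
  nlinarith [sq_nonneg (‖(star B) (e k)‖ - ‖C (e k)‖), norm_nonneg ((star B) (e k)),
    norm_nonneg (C (e k))]

end Pool.Agent.H28.AN
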