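import Mathlib
import Pool.Agent.H28.AN.A

set_option autoImplicit false
set_option linter.unusedSectionVars false
set_option linter.unusedSimpArgs false

namespace Pool.Agent.H28.AN

open scoped InnerProductSpace

variable {H : Type} [NormedAddCommGroup H] [InnerProductSpace ℂ H] [CompleteSpace H]

/-- Elements of the star algebra generated by an operator commute modulo a star ideal, if the
operator is normal modulo the ideal. -/
lemma comm_mod (I : (H →L[ℂ] H) → Prop) (h0 : I 0) (hadd : ∀ A B, I A → I B → I (A + B))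
    (hml : ∀ X A, I A → I (X * A)) (hmr : ∀ X A, I A → I (A * X)) (hstar : ∀ A, I A → I (star A))
    (S : H →L[ℂ] H) (hS : I (star S * S - S * star S)) (A B : H →L[ℂ] H)
    (hA : A ∈ StarAlgebra.adjoin ℂ ({S} : Set (H →L[ℂ] H)))
    (hB : B ∈ StarAlgebra.adjoin ℂ ({S} : Set (H →L[ℂ] H))) : I (A * B - B * A) := by
  have hneg : ∀ A, I A → I (-A) := fun A h => by
    have := hml (-1) A h
    rwa [neg_one_mul] at this
  have step1 : ∀ A ∈ StarAlgebra.adjoin ℂ ({S} : Set (H →L[ℂ] H)),
      I (A * S - S * A) ∧ I (A * star S - star S * A) := by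
    intro A hA
    induction hA using StarAlgebra.adjoin_induction with
    | mem x hx =>
      rw [Set.mem_singleton_iff.mp hx]
      refine ⟨by rw [sub_self]; exact h0, ?_⟩
      have := hneg _ hS
      rwa [neg_sub] at this
    | algebraMap r =>
      have e : ∀ Y : H →L[ℂ] H, (algebraMap ℂ (H →L[ℂ] H)) r * Y
          - Y * (algebraMap ℂ (H →L[ℂ] H)) r = 0 := fun Y => by
        rw [Algebra.commutes, sub_self]
      rw [e, e]
      exact ⟨h0, h0⟩
    | add x y _ _ hx hy =>
      have e : ∀ Y : H →L[ℂ] H, (x + y) * Y - Y * (x + y) = (x * Y - Y * x) + (y * Y - Y * y) :=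
        fun Y => by noncomm_ring
      rw [e, e]
      exact ⟨hadd _ _ hx.1 hy.1, hadd _ _ hx.2 hy.2⟩
    | mul x y _ _ hx hy =>
      have e : ∀ Y : H →L[ℂ] H, (x * y) * Y - Y * (x * y)
          = x * (y * Y - Y * y) + (x * Y - Y * x) * y := fun Y => by noncomm_ring
      rw [e, e]
      exact ⟨hadd _ _ (hml _ _ hy.1) (hmr _ _ hx.1), hadd _ _ (hml _ _ hy.2) (hmr _ _ hx.2)⟩
    | star x _ hx =>
      have e1 : star x * S - S * star x = -star (x * star S - star S * x) := by
        simp only [star_sub, star_mul, star_star]; noncomm_ring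
      have e2 : star x * star S - star S * star x = -star (x * S - S * x) := by
        simp only [star_sub, star_mul, star_star]; noncomm_ring
      rw [e1, e2]
      exact ⟨hneg _ (hstar _ hx.2), hneg _ (hstar _ hx.1)⟩
  have step2 : ∀ B ∈ StarAlgebra.adjoin ℂ ({S} : Set (H →L[ℂ] H)),
      ∀ A ∈ StarAlgebra.adjoin ℂ ({S} : Set (H →L[ℂ] H)), I (A * B - B * A) := by
    intro B hB
    induction hB using StarAlgebra.adjoin_induction with
    | mem x hx =>
      intro A hA
      rw [Set.mem_singleton_iff.mp hx]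
      exact (step1 A hA).1
    | algebraMap r =>
      intro A _
      rw [Algebra.commutes, sub_self]
      exact h0
    | add x y _ _ hx hy =>
      intro A hA
      have e : A * (x + y) - (x + y) * A = (A * x - x * A) + (A * y - y * A) := by noncomm_ring
      rw [e]
      exact hadd _ _ (hx A hA) (hy A hA)
    | mul x y _ _ hx hy =>
      intro A hA
      have e : A * (x * y) - (x * y) * A = (A * x - x * A) * y + x * (A * y - y * A) := by
        noncomm_ring
      rw [e]
      exact hadd _ _ (hmr _ _ (hx A hA)) (hml _ _ (hy A hA))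
    | star x _ hx =>
      intro A hA
      have e : A * star x - star x * A = -star (star A * x - x * star A) := by
        simp only [star_sub, star_mul, star_star]; noncomm_ring
      rw [e]
      exact hneg _ (hstar _ (hx _ (star_mem hA)))
  exact step2 B hB A hA

section
variable {D : Type} (e : HilbertBasis D ℂ H)

/-- Square summability on the basis `e`. -/
def hs (A : H →L[ℂ] H) : Prop := Summable fun d => ‖A (e d)‖ ^ 2

/-- A product of two operators which are square summable on `e`. -/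
def tc (A : H →L[ℂ] H) : Prop := ∃ B C : H →L[ℂ] H, hs e B ∧ hs e C ∧ A = B * C

variable {e}

lemma hs_add {A B : H →L[ℂ] H} (hA : hs e A) (hB : hs e B) : hs e (A + B) := by
  have h := (hA.mul_left 2).add (hB.mul_left 2)
  refine Summable.of_nonneg_of_le (fun _ => sq_nonneg _) (fun d => ?_) h
  rw [add_apply]
  have h1 : ‖A (e d) + B (e d)‖ ^ 2 ≤ (‖A (e d)‖ + ‖B (e d)‖) ^ 2 :=
    pow_le_pow_left₀ (norm_nonneg _) (norm_add_le _ _) 2
  nlinarith [sq_nonneg (‖A (e d)‖ - ‖B (e d)‖)]

lemma hs_mul_left (X : H →L[ℂ] H) {A : H →L[ℂ] H} (hA : hs e A) : hs e (X * A) := by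
  have h := hA.mul_left (‖X‖ ^ 2)
  refine Summable.of_nonneg_of_le (fun _ => sq_nonneg _) (fun d => ?_) h
  rw [mul_apply_eq_comp, ← mul_pow]
  exact pow_le_pow_left₀ (norm_nonneg _) (X.le_opNorm _) 2

lemma hs_star {A : H →L[ℂ] H} (hA : hs e A) : hs e (star A) := hs_adjoint e e hA

lemma hs_mul_right (X : H →L[ℂ] H) {A : H →L[ℂ] H} (hA : hs e A) : hs e (A * X) := by
  have h := hs_star (hs_mul_left (star X) (hs_star hA))
  rwa [star_mul, star_star, star_star] at h

lemma hs_zero : hs e (0 : H →L[ℂ] H) := by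
  unfold hs
  simpa using summable_zero

lemma hs_neg {A : H →L[ℂ] H} (hA : hs e A) : hs e (-A) := by
  have := hs_mul_left (-1) hA
  rwa [neg_one_mul] at this

lemma tc_zero : tc e (0 : H →L[ℂ] H) := ⟨0, 0, hs_zero, hs_zero, by simp⟩

lemma tc_mul_left (X A : H →L[ℂ] H) (hA : tc e A) : tc e (X * A) := by
  obtain ⟨B, C, hB, hC, rfl⟩ := hA
  exact ⟨X * B, C, hs_mul_left X hB, hC, by rw [mul_assoc]⟩

lemma tc_mul_right (X A : H →L[ℂ] H) (hA : tc e A) : tc e (A * X) := by
  obtain ⟨B, C, hB, hC, rfl⟩ := hA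
  exact ⟨B, C * X, hB, hs_mul_right X hC, by rw [mul_assoc]⟩

lemma tc_star (A : H →L[ℂ] H) (hA : tc e A) : tc e (star A) := by
  obtain ⟨B, C, hB, hC, rfl⟩ := hA
  exact ⟨star C, star B, hs_star hC, hs_star hB, by rw [star_mul]⟩

lemma tc_add {J₁ J₂ : H →L[ℂ] H} (j11 : star J₁ * J₁ = 1) (j22 : star J₂ * J₂ = 1)
    (j12 : star J₁ * J₂ = 0) (j21 : star J₂ * J₁ = 0) (A A' : H →L[ℂ] H) (hA : tc e A)
    (hA' : tc e A') : tc e (A + A') := by
  obtain ⟨B, C, hB, hC, rfl⟩ := hA
  obtain ⟨B', C', hB', hC', rfl⟩ := hA'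
  refine ⟨B * star J₁ + B' * star J₂, J₁ * C + J₂ * C',
    hs_add (hs_mul_right _ hB) (hs_mul_right _ hB'),
    hs_add (hs_mul_left _ hC) (hs_mul_left _ hC'), ?_⟩
  have e1 : (B * star J₁ + B' * star J₂) * (J₁ * C + J₂ * C')
      = B * (star J₁ * J₁) * C + B * (star J₁ * J₂) * C' + B' * (star J₂ * J₁) * C
        + B' * (star J₂ * J₂) * C' := by noncomm_ring
  rw [e1, j11, j22, j12, j21]
  noncomm_ring

/-- The class of operators with a partner is stable under passing to the generated star algebra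
and under Hilbert-Schmidt perturbations. -/
theorem algebra_step {J₁ J₂ : H →L[ℂ] H} (j11 : star J₁ * J₁ = 1) (j22 : star J₂ * J₂ = 1)
    (j12 : star J₁ * J₂ = 0) (j21 : star J₂ * J₁ = 0) (hJ : J₁ * star J₁ + J₂ * star J₂ = 1)
    (T S N : H →L[ℂ] H) (hN : star N * N = N * star N)
    (hX : hs e (J₁ * T * star J₁ + J₂ * S * star J₂ - N))
    (hS : tc e (star S * S - S * star S)) (A : H →L[ℂ] H)
    (hA : A ∈ StarAlgebra.adjoin ℂ ({T} : Set (H →L[ℂ] H))) :
    ∃ B M : H →L[ℂ] H, star M * M = M * star M ∧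
      hs e (J₁ * A * star J₁ + J₂ * B * star J₂ - M) ∧ tc e (star B * B - B * star B) := by
  have key : ∃ B M : H →L[ℂ] H, B ∈ StarAlgebra.adjoin ℂ ({S} : Set (H →L[ℂ] H)) ∧
      M ∈ StarAlgebra.adjoin ℂ ({N} : Set (H →L[ℂ] H)) ∧
      hs e (J₁ * A * star J₁ + J₂ * B * star J₂ - M) := by
    induction hA using StarAlgebra.adjoin_induction with
    | mem x hx =>
      rw [Set.mem_singleton_iff.mp hx]
      exact ⟨S, N, StarAlgebra.self_mem_adjoin_singleton ℂ S,
        StarAlgebra.self_mem_adjoin_singleton ℂ N, hX⟩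
    | algebraMap r =>
      refine ⟨algebraMap ℂ _ r, algebraMap ℂ _ r, algebraMap_mem _ r, algebraMap_mem _ r, ?_⟩
      have e1 : J₁ * (algebraMap ℂ (H →L[ℂ] H)) r * star J₁
          + J₂ * (algebraMap ℂ (H →L[ℂ] H)) r * star J₂ - (algebraMap ℂ (H →L[ℂ] H)) r = 0 := by
        rw [← Algebra.commutes r J₁, ← Algebra.commutes r J₂, mul_assoc, mul_assoc, ← mul_add, hJ,
          mul_one, sub_self]
      rw [e1]
      exact hs_zero
    | add x y _ _ hx hy =>
      obtain ⟨B, M, hB, hM, h⟩ := hx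
      obtain ⟨B', M', hB', hM', h'⟩ := hy
      refine ⟨B + B', M + M', add_mem hB hB', add_mem hM hM', ?_⟩
      have e1 : J₁ * (x + y) * star J₁ + J₂ * (B + B') * star J₂ - (M + M')
          = (J₁ * x * star J₁ + J₂ * B * star J₂ - M)
            + (J₁ * y * star J₁ + J₂ * B' * star J₂ - M') := by noncomm_ring
      rw [e1]
      exact hs_add h h'
    | mul x y _ _ hx hy =>
      obtain ⟨B, M, hB, hM, h⟩ := hx
      obtain ⟨B', M', hB', hM', h'⟩ := hy
      refine ⟨B * B', M * M', mul_mem hB hB', mul_mem hM hM', ?_⟩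
      have e0 : (J₁ * x * star J₁ + J₂ * B * star J₂) * (J₁ * y * star J₁ + J₂ * B' * star J₂)
          = J₁ * (x * y) * star J₁ + J₂ * (B * B') * star J₂ := by
        have e1 : (J₁ * x * star J₁ + J₂ * B * star J₂) * (J₁ * y * star J₁ + J₂ * B' * star J₂)
            = J₁ * x * (star J₁ * J₁) * y * star J₁ + J₁ * x * (star J₁ * J₂) * B' * star J₂
              + J₂ * B * (star J₂ * J₁) * y * star J₁
              + J₂ * B * (star J₂ * J₂) * B' * star J₂ := by noncomm_ring
        rw [e1, j11, j22, j12, j21]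
        noncomm_ring
      have e2 : J₁ * (x * y) * star J₁ + J₂ * (B * B') * star J₂ - M * M'
          = (J₁ * x * star J₁ + J₂ * B * star J₂ - M)
              * (J₁ * y * star J₁ + J₂ * B' * star J₂)
            + M * (J₁ * y * star J₁ + J₂ * B' * star J₂ - M') := by
        rw [← e0]; noncomm_ring
      rw [e2]
      exact hs_add (hs_mul_right _ h) (hs_mul_left _ h')
    | star x _ hx =>
      obtain ⟨B, M, hB, hM, h⟩ := hx
      refine ⟨star B, star M, star_mem hB, star_mem hM, ?_⟩
      have e1 : J₁ * star x * star J₁ + J₂ * star B * star J₂ - star M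
          = star (J₁ * x * star J₁ + J₂ * B * star J₂ - M) := by
        simp only [star_sub, star_add, star_mul, star_star]; noncomm_ring
      rw [e1]
      exact hs_star h
  obtain ⟨B, M, hB, hM, h⟩ := key
  refine ⟨B, M, ?_, h, ?_⟩
  · have h1 := comm_mod (fun A => A = 0) rfl (fun A B hA hB => by rw [hA, hB, add_zero])
      (fun X A hA => by rw [hA, mul_zero]) (fun X A hA => by rw [hA, zero_mul])
      (fun A hA => by rw [hA, star_zero]) N (by rw [hN, sub_self]) (star M) M (star_mem hM) hM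
    exact sub_eq_zero.mp h1
  · exact comm_mod (tc e) tc_zero (tc_add j11 j22 j12 j21) tc_mul_left tc_mul_right tc_star S hS
      (star B) B (star_mem hB) hB

end

end Pool.Agent.H28.AN
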