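import Mathlib

set_option autoImplicit false

namespace Pool.Agent.H28.AN

/-- The start of the block containing `n`, when a block starting at `a` ends at `nx a`. -/
def lo (nx : ℕ → ℕ) : ℕ → ℕ
  | 0 => 0
  | n + 1 => if n + 1 = nx (lo nx n) then n + 1 else lo nx n

/-- The end of the block containing `n`. -/
def hi (nx : ℕ → ℕ) (n : ℕ) : ℕ := nx (lo nx n)

/-- The reflection of `n` in its block. -/
def rho (nx : ℕ → ℕ) (n : ℕ) : ℕ := lo nx n + hi nx n - 1 - n

section

variable {nx : ℕ → ℕ} (hnx : ∀ a, a < nx a)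

lemma lo_succ_eq {n : ℕ} (h : n + 1 = hi nx n) : lo nx (n + 1) = n + 1 := by
  unfold hi at h
  rw [lo, if_pos h]

lemma lo_succ_ne {n : ℕ} (h : n + 1 ≠ hi nx n) : lo nx (n + 1) = lo nx n := by
  unfold hi at h
  rw [lo, if_neg h]

include hnx

lemma lo_le_lt (n : ℕ) : lo nx n ≤ n ∧ n < hi nx n := by
  induction n with
  | zero => exact ⟨le_refl _, hnx 0⟩
  | succ n ih =>
    by_cases h : n + 1 = hi nx n
    · have h1 := lo_succ_eq h
      refine ⟨h1.le, ?_⟩
      unfold hi
      rw [h1]
      exact hnx _
    · have h1 := lo_succ_ne h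
      have h2 : hi nx (n + 1) = hi nx n := by unfold hi; rw [h1]
      rw [h1, h2]
      omega

lemma lo_le (n : ℕ) : lo nx n ≤ n := (lo_le_lt hnx n).1

lemma lt_hi (n : ℕ) : n < hi nx n := (lo_le_lt hnx n).2

omit hnx in
lemma lo_lo (n : ℕ) : lo nx (lo nx n) = lo nx n := by
  induction n with
  | zero => rfl
  | succ n ih =>
    by_cases h : n + 1 = hi nx n
    · rw [lo_succ_eq h, lo_succ_eq h]
    · rw [lo_succ_ne h, ih]

omit hnx in
lemma hi_lo (n : ℕ) : hi nx (lo nx n) = hi nx n := by
  unfold hi
  rw [lo_lo]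

omit hnx in
lemma lo_block {n m : ℕ} (h1 : lo nx n ≤ m) (h2 : m < hi nx n) : lo nx m = lo nx n := by
  induction m, h1 using Nat.le_induction with
  | base => exact lo_lo n
  | succ k hk ih =>
    have h3 := ih (by omega)
    have h4 : hi nx k = hi nx n := by unfold hi; rw [h3]
    rw [lo_succ_ne (by omega), h3]

omit hnx in
lemma hi_block {n m : ℕ} (h1 : lo nx n ≤ m) (h2 : m < hi nx n) : hi nx m = hi nx n := by
  unfold hi
  rw [lo_block h1 h2]

lemma last_block (n : ℕ) : lo nx (hi nx n - 1) = lo nx n ∧ hi nx (hi nx n - 1) = hi nx n := by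
  have h1 := lo_le_lt hnx n
  exact ⟨lo_block (by omega) (by omega), hi_block (by omega) (by omega)⟩

lemma lo_hi (n : ℕ) : lo nx (hi nx n) = hi nx n := by
  have h1 := lo_le_lt hnx n
  have h2 := (last_block hnx n).2
  have h3 : hi nx n - 1 + 1 = hi nx n := by omega
  have h4 := lo_succ_eq (nx := nx) (n := hi nx n - 1) (by rw [h2]; exact h3)
  rw [h3] at h4
  exact h4

lemma rho_mem (n : ℕ) : lo nx n ≤ rho nx n ∧ rho nx n < hi nx n := by
  have h1 := lo_le_lt hnx n
  unfold rho
  omega

lemma lo_rho (n : ℕ) : lo nx (rho nx n) = lo nx n :=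
  lo_block (rho_mem hnx n).1 (rho_mem hnx n).2

lemma hi_rho (n : ℕ) : hi nx (rho nx n) = hi nx n :=
  hi_block (rho_mem hnx n).1 (rho_mem hnx n).2

lemma rho_rho (n : ℕ) : rho nx (rho nx n) = n := by
  have h1 := lo_le_lt hnx n
  have h2 := lo_rho hnx n
  have h3 := hi_rho hnx n
  have h4 := rho_mem hnx n
  rw [rho, h2, h3]
  unfold rho at *
  omega

end

/-- The permutation carrying the shift to the cycles. -/
def perm (nx : ℕ → ℕ) : ℕ ⊕ ℕ → ℕ ⊕ ℕ
  | Sum.inl n => if n + 1 = hi nx n then Sum.inr (lo nx n) else Sum.inl (n + 1)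
  | Sum.inr 0 => Sum.inl 0
  | Sum.inr (k + 1) => if lo nx k = k then Sum.inl (hi nx k) else Sum.inr k

/-- The signs. -/
def sgn (nx : ℕ → ℕ) : ℕ ⊕ ℕ → ℂ
  | Sum.inl _ => 1
  | Sum.inr 0 => 1
  | Sum.inr (k + 1) => if lo nx k = k then -1 else 1

/-- The weights of the normal operator: constant along the cycles. -/
def wt (nx : ℕ → ℕ) (w : ℕ → ℝ) : ℕ ⊕ ℕ → ℝ
  | Sum.inl n => w (lo nx n)
  | Sum.inr 0 => w 0
  | Sum.inr (k + 1) => w (hi nx k)

section

variable {nx : ℕ → ℕ} (hnx : ∀ a, a < nx a)

lemma norm_sgn (i : ℕ ⊕ ℕ) : ‖sgn nx i‖ = 1 := by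
  rcases i with n | _ | k
  · simp [sgn]
  · simp [sgn]
  · simp only [sgn]; split_ifs <;> simp

include hnx

lemma perm_inj : Function.Injective (perm nx) := by
  have key : ∀ n k : ℕ, lo nx n = n → n < k → hi nx n ≠ hi nx k ∨ lo nx k ≠ k := by
    intro n k h1 h2
    by_contra h
    push Not at h
    obtain ⟨h3, h4⟩ := h
    have h5 := lt_hi hnx k
    have h6 := lo_block (nx := nx) (n := n) (m := k) (by omega) (by omega)
    omega
  rintro (n | _ | k) (n' | _ | k') h
  · simp only [perm] at h
    split_ifs at h with h1 h2 h2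
    · have h3 : lo nx n = lo nx n' := by simpa using h
      have h4 : hi nx n = hi nx n' := by unfold hi; rw [h3]
      congr 1; omega
    · have : n + 1 = n' + 1 := by simpa using h
      congr 1; omega
  · simp only [perm] at h
    split_ifs at h
    simp at h
  · simp only [perm] at h
    split_ifs at h with h1 h2 h2
    · have h3 : lo nx n = k' := by simpa using h
      exact absurd (h3 ▸ lo_lo n) h2
    · have h3 : n + 1 = hi nx k' := by simpa using h
      have h4 := lo_hi hnx k'
      rw [← h3, lo_succ_ne h1] at h4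
      have := lo_le hnx n
      omega
  · simp only [perm] at h
    split_ifs at h
    simp at h
  · rfl
  · simp only [perm] at h
    split_ifs at h
    have h3 : 0 = hi nx k' := by simpa using h
    have := lt_hi hnx k'
    omega
  · simp only [perm] at h
    split_ifs at h with h1 h2 h2
    · have h3 : hi nx k = n' + 1 := by simpa using h
      have h4 := lo_hi hnx k
      rw [h3, lo_succ_ne h2] at h4
      have := lo_le hnx n'
      omega
    · have h3 : k = lo nx n' := by simpa using h
      exact absurd (h3 ▸ lo_lo n') h1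
  · simp only [perm] at h
    split_ifs at h
    have h3 : hi nx k = 0 := by simpa using h
    have := lt_hi hnx k
    omega
  · simp only [perm] at h
    split_ifs at h with h1 h2 h2
    · have h3 : hi nx k = hi nx k' := by simpa using h
      rcases lt_trichotomy k k' with h4 | h4 | h4
      · rcases key k k' h1 h4 with h5 | h5 <;> contradiction
      · rw [h4]
      · rcases key k' k h2 h4 with h5 | h5
        · exact absurd h3.symm h5
        · contradiction
    · have h3 : k = k' := by simpa using h
      rw [h3]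

lemma perm_surj : Function.Surjective (perm nx) := by
  rintro (n | m)
  · by_cases h : lo nx n = n
    · rcases n with _ | m
      · exact ⟨Sum.inr 0, rfl⟩
      · have h1 : m + 1 = hi nx m := by
          by_contra h2
          rw [lo_succ_ne h2] at h
          have := lo_le hnx m
          omega
        refine ⟨Sum.inr (lo nx m + 1), ?_⟩
        simp only [perm]
        rw [if_pos (lo_lo m), hi_lo, ← h1]
    · rcases n with _ | m
      · exact absurd rfl h
      · refine ⟨Sum.inl m, ?_⟩
        simp only [perm]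
        rw [if_neg]
        intro h2
        exact h (lo_succ_eq h2)
  · by_cases h : lo nx m = m
    · refine ⟨Sum.inl (hi nx m - 1), ?_⟩
      have h1 := last_block hnx m
      have h2 := lt_hi hnx m
      simp only [perm]
      rw [if_pos (by omega), h1.1, h]
    · refine ⟨Sum.inr (m + 1), ?_⟩
      simp only [perm]
      rw [if_neg h]

lemma wt_perm (w : ℕ → ℝ) (i : ℕ ⊕ ℕ) : wt nx w (perm nx i) = wt nx w i := by
  rcases i with n | _ | k
  · simp only [perm]
    split_ifs with h
    · rcases hl : lo nx n with _ | k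
      · simp [wt, hl]
      · have h1 : k + 1 = hi nx k := by
          by_contra h2
          have h3 := lo_lo (nx := nx) n
          rw [hl, lo_succ_ne h2] at h3
          have := lo_le hnx k
          omega
        simp only [wt]
        rw [hl, ← h1]
    · simp only [wt]
      rw [lo_succ_ne h]
  · rfl
  · simp only [perm]
    split_ifs with h
    · simp only [wt]
      rw [lo_hi hnx]
    · rcases k with _ | j
      · exact absurd rfl h
      · have h1 : j + 1 ≠ hi nx j := fun h2 => h (lo_succ_eq h2)
        have h2 : hi nx (j + 1) = hi nx j := by unfold hi; rw [lo_succ_ne h1]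
        simp only [wt]
        rw [h2]

end

end Pool.Agent.H28.AN
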