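import Mathlib
import Pool.Agent.H28.AN.A
import Pool.Agent.H28.AN.B

set_option autoImplicit false
set_option linter.unusedSectionVars false
set_option linter.unusedSimpArgs false

namespace Pool.Agent.H28.AN

open scoped InnerProductSpace
open Submodule

variable {H : Type} [NormedAddCommGroup H] [InnerProductSpace ℂ H] [CompleteSpace H]

lemma basis_inner {ι : Type} [DecidableEq ι] (b : HilbertBasis ι ℂ H) (i j : ι) :
    ⟪b i, b j⟫_ℂ = if i = j then 1 else 0 :=
  orthonormal_iff_ite.mp b.orthonormal i j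

/-- Reindexing by `ℕ ⊕ ℕ`, with the two isometries onto the halves. -/
lemma exists_doubling (e : HilbertBasis ℕ ℂ H) :
    ∃ (b : HilbertBasis (ℕ ⊕ ℕ) ℂ H) (J₁ J₂ : H →L[ℂ] H),
      star J₁ * J₁ = 1 ∧ star J₂ * J₂ = 1 ∧ star J₁ * J₂ = 0 ∧ star J₂ * J₁ = 0 ∧
      J₁ * star J₁ + J₂ * star J₂ = 1 ∧
      (∀ n, J₁ (e n) = b (Sum.inl n)) ∧ (∀ n, J₂ (e n) = b (Sum.inr n)) := by
  classical
  let φ : ℕ ⊕ ℕ ≃ ℕ := Equiv.natSumNatEquivNat
  have hon : Orthonormal ℂ (fun i : ℕ ⊕ ℕ => e (φ i)) :=
    e.orthonormal.comp _ φ.injective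
  have hsp : ⊤ ≤ (span ℂ (Set.range (fun i : ℕ ⊕ ℕ => e (φ i)))).topologicalClosure := by
    have h : Set.range (fun i : ℕ ⊕ ℕ => e (φ i)) = Set.range e :=
      φ.surjective.range_comp (fun n => e n)
    rw [h, e.dense_span]
  let b : HilbertBasis (ℕ ⊕ ℕ) ℂ H := HilbertBasis.mk hon hsp
  obtain ⟨J₁, h11, hJ₁⟩ := exists_isom e (fun n => b (Sum.inl n))
    (b.orthonormal.comp _ Sum.inl_injective)
  obtain ⟨J₂, h22, hJ₂⟩ := exists_isom e (fun n => b (Sum.inr n))
    (b.orthonormal.comp _ Sum.inr_injective)
  have h21 : star J₂ * J₁ = 0 := by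
    apply ext_basis e
    intro n
    rw [mul_apply_eq_comp, hJ₁]
    have : (star J₂) (b (Sum.inl n)) = 0 := by
      have h0 : ∀ m, ⟪e m, (star J₂) (b (Sum.inl n))⟫_ℂ = 0 := by
        intro m
        rw [ContinuousLinearMap.star_eq_adjoint, ContinuousLinearMap.adjoint_inner_right, hJ₂,
          basis_inner]
        simp
      have h1 := (hasSum_parseval e ((star J₂) (b (Sum.inl n)))).tsum_eq
      simp only [h0] at h1
      simpa using h1.symm
    rw [this]; rfl
  have h12 : star J₁ * J₂ = 0 := by
    have := congrArg star h21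
    rw [star_mul, star_star, star_zero] at this
    exact this
  refine ⟨b, J₁, J₂, h11, h22, h12, h21, ?_, hJ₁, hJ₂⟩
  apply ext_basis b
  have a11 : ∀ x, (star J₁) (J₁ x) = x := fun x => by
    have := congrArg (fun A : H →L[ℂ] H => A x) h11
    simpa using this
  have a22 : ∀ x, (star J₂) (J₂ x) = x := fun x => by
    have := congrArg (fun A : H →L[ℂ] H => A x) h22
    simpa using this
  have a12 : ∀ x, (star J₁) (J₂ x) = 0 := fun x => by
    have := congrArg (fun A : H →L[ℂ] H => A x) h12
    simpa using this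
  have a21 : ∀ x, (star J₂) (J₁ x) = 0 := fun x => by
    have := congrArg (fun A : H →L[ℂ] H => A x) h21
    simpa using this
  rintro (n | n)
  · rw [← hJ₁, add_apply, mul_apply_eq_comp, mul_apply_eq_comp, a11, a21]
    simp
  · rw [← hJ₂, add_apply, mul_apply_eq_comp, mul_apply_eq_comp, a12, a22]
    simp

/-- The rotated basis vectors. -/
noncomputable def rot (b : ℕ ⊕ ℕ → H) (ρ : ℕ → ℕ) (c s : ℕ → ℝ) : ℕ ⊕ ℕ → H
  | Sum.inl n => (c n : ℂ) • b (Sum.inl n) + (s n : ℂ) • b (Sum.inr (ρ n + 1))
  | Sum.inr 0 => b (Sum.inr 0)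
  | Sum.inr (k + 1) => (-(s (ρ k)) : ℂ) • b (Sum.inl (ρ k)) + (c (ρ k) : ℂ) • b (Sum.inr (k + 1))

lemma exists_rot (b : HilbertBasis (ℕ ⊕ ℕ) ℂ H) (ρ : ℕ → ℕ) (hρ : ∀ n, ρ (ρ n) = n)
    (c s : ℕ → ℝ) (hcs : ∀ n, c n ^ 2 + s n ^ 2 = 1) :
    ∃ r : HilbertBasis (ℕ ⊕ ℕ) ℂ H, ∀ i, r i = rot b ρ c s i := by
  classical
  have hinj : ∀ n m, ρ n = ρ m ↔ n = m := fun n m =>
    ⟨fun h => by rw [← hρ n, h, hρ], fun h => by rw [h]⟩
  have hcsC : ∀ n, (c n : ℂ) * c n + (s n : ℂ) * s n = 1 := by
    intro n
    have := hcs n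
    have h2 : ((c n * c n + s n * s n : ℝ) : ℂ) = ((1 : ℝ) : ℂ) := by
      congr 1; linarith [this]
    push_cast at h2
    exact h2
  have hon : Orthonormal ℂ (rot b ρ c s) := by
    rw [orthonormal_iff_ite]
    rintro (n | _ | k) (n' | _ | k')
    · simp only [rot, inner_add_left, inner_add_right, inner_smul_left, inner_smul_right,
        basis_inner, Complex.conj_ofReal]
      by_cases h : n = n'
      · subst h; simp [hcsC]
      · simp [h, hinj]
    · simp only [rot, inner_add_left, inner_add_right, inner_smul_left, inner_smul_right,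
        basis_inner, Complex.conj_ofReal, map_neg]
      simp
    · simp only [rot, inner_add_left, inner_add_right, inner_smul_left, inner_smul_right,
        basis_inner, Complex.conj_ofReal]
      by_cases h : n = ρ k'
      · subst h; simp [hρ]; ring
      · have h2 : ρ n ≠ k' := fun h3 => h (by rw [← h3, hρ])
        simp [h, h2]
    · simp only [rot, inner_add_left, inner_add_right, inner_smul_left, inner_smul_right,
        basis_inner, Complex.conj_ofReal, map_neg]
      simp
    · simp only [rot, basis_inner, if_true]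
    · simp only [rot, inner_add_left, inner_add_right, inner_smul_left, inner_smul_right,
        basis_inner, Complex.conj_ofReal, map_neg]
      simp
    · simp only [rot, inner_add_left, inner_add_right, inner_smul_left, inner_smul_right,
        basis_inner, Complex.conj_ofReal, map_neg]
      by_cases h : ρ k = n'
      · subst h; simp [hρ]; ring
      · have h2 : k ≠ ρ n' := fun h3 => h (by rw [h3, hρ])
        simp [h, h2]
    · simp only [rot, inner_add_left, inner_add_right, inner_smul_left, inner_smul_right,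
        basis_inner, Complex.conj_ofReal, map_neg]
      simp
    · simp only [rot, inner_add_left, inner_add_right, inner_smul_left, inner_smul_right,
        basis_inner, Complex.conj_ofReal, map_neg]
      by_cases h : k = k'
      · subst h
        have := hcsC (ρ k)
        simp
        linear_combination this
      · simp [h, hinj]
  have hsp : ⊤ ≤ (span ℂ (Set.range (rot b ρ c s))).topologicalClosure := by
    rw [← b.dense_span]
    apply Submodule.topologicalClosure_mono
    rw [span_le]
    have key : ∀ n, b (Sum.inl n) ∈ span ℂ (Set.range (rot b ρ c s)) ∧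
        b (Sum.inr (ρ n + 1)) ∈ span ℂ (Set.range (rot b ρ c s)) := by
      intro n
      have h1 : rot b ρ c s (Sum.inl n) ∈ span ℂ (Set.range (rot b ρ c s)) :=
        subset_span ⟨_, rfl⟩
      have h2 : rot b ρ c s (Sum.inr (ρ n + 1)) ∈ span ℂ (Set.range (rot b ρ c s)) :=
        subset_span ⟨_, rfl⟩
      have e1 : b (Sum.inl n) = (c n : ℂ) • rot b ρ c s (Sum.inl n)
          - (s n : ℂ) • rot b ρ c s (Sum.inr (ρ n + 1)) := by
        simp only [rot, hρ, smul_add, smul_smul]
        have : b (Sum.inl n) = ((c n : ℂ) * c n + (s n : ℂ) * s n) • b (Sum.inl n) := by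
          rw [hcsC, one_smul]
        conv_lhs => rw [this]
        module
      have e2 : b (Sum.inr (ρ n + 1)) = (s n : ℂ) • rot b ρ c s (Sum.inl n)
          + (c n : ℂ) • rot b ρ c s (Sum.inr (ρ n + 1)) := by
        simp only [rot, hρ, smul_add, smul_smul]
        have : b (Sum.inr (ρ n + 1))
            = ((c n : ℂ) * c n + (s n : ℂ) * s n) • b (Sum.inr (ρ n + 1)) := by
          rw [hcsC, one_smul]
        conv_lhs => rw [this]
        module
      constructor
      · rw [e1]; exact sub_mem (smul_mem _ _ h1) (smul_mem _ _ h2)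
      · rw [e2]; exact add_mem (smul_mem _ _ h1) (smul_mem _ _ h2)
    rintro _ ⟨(n | _ | k), rfl⟩
    · exact (key n).1
    · exact subset_span ⟨Sum.inr 0, rfl⟩
    · have := (key (ρ k)).2
      rw [hρ] at this
      exact this
  exact ⟨HilbertBasis.mk hon hsp, fun i => by rw [HilbertBasis.coe_mk]⟩

/-- A weighted signed permutation of a Hilbert basis, with weights constant along the orbits, is
normal. -/
lemma exists_normal {ι : Type} (r : HilbertBasis ι ℂ H) (π : ι → ι)
    (hinj : Function.Injective π) (hsurj : Function.Surjective π) (σ : ι → ℂ)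
    (hσ : ∀ i, ‖σ i‖ = 1) (g : ι → ℝ) (C : ℝ) (hg : ∀ i, |g i| ≤ C)
    (hgπ : ∀ i, g (π i) = g i) :
    ∃ N : H →L[ℂ] H, star N * N = N * star N ∧
      ∀ i, N (r i) = (g i : ℂ) • (σ i • r (π i)) := by
  have hon : Orthonormal ℂ (fun i => σ i • r (π i)) := by
    constructor
    · intro i
      rw [norm_smul, hσ, r.orthonormal.1, one_mul]
    · intro i j hij
      simp only
      rw [inner_smul_left, inner_smul_right, r.orthonormal.2 (fun h => hij (hinj h))]
      simp
  obtain ⟨V, hV1, hV⟩ := exists_isom r _ hon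
  obtain ⟨D, hD1, hD⟩ := exists_diag r g C hg
  have hVV : V * star V = 1 := by
    apply ext_basis r
    intro j
    obtain ⟨i, rfl⟩ := hsurj j
    have hz : starRingEnd ℂ (σ i) * σ i = 1 := by
      rw [Complex.conj_mul', hσ]; simp
    have h1 : r (π i) = (starRingEnd ℂ (σ i)) • V (r i) := by
      rw [hV, smul_smul, hz, one_smul]
    have h2 : (star V) (V (r i)) = r i := by
      have := congrArg (fun A : H →L[ℂ] H => A (r i)) hV1
      simpa using this
    rw [mul_apply_eq_comp, h1, map_smul, h2, map_smul]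
    rfl
  have hcomm : V * D = D * V := by
    apply ext_basis r
    intro i
    rw [mul_apply_eq_comp, mul_apply_eq_comp, hD, map_smul, hV, map_smul, hD, hgπ]
    rw [smul_comm]
  have hcomm2 : D * star V = star V * D := by
    have := congrArg star hcomm
    rw [star_mul, star_mul, hD1] at this
    exact this
  refine ⟨V * D, ?_, ?_⟩
  · rw [star_mul, hD1]
    calc D * star V * (V * D) = D * (star V * V) * D := by noncomm_ring
      _ = D * D := by rw [hV1, mul_one]
      _ = D * D * (V * star V) := by rw [hVV, mul_one]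
      _ = D * (D * V) * star V := by noncomm_ring
      _ = D * (V * D) * star V := by rw [hcomm]
      _ = (D * V) * (D * star V) := by noncomm_ring
      _ = V * D * (D * star V) := by rw [hcomm]
  · intro i
    rw [mul_apply_eq_comp, hD, map_smul, hV]

end Pool.Agent.H28.AN
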