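import Mathlib
import Pool.Agent.H28.AN.B

set_option autoImplicit false

namespace Pool.Agent.H28.AN

open Finset

/-- Telescoping estimate over the blocks. -/
lemma sum_blocks (nx : ℕ → ℕ) (hnx : ∀ a, a < nx a) (p : ℕ → ℝ) (hp : ∀ n, 0 ≤ p n)
    (P : ℕ → ℝ) (hP : ∀ n, P n = ∑ i ∈ range n, p i) (G : ℕ → ℝ)
    (hG : ∀ a, G a * ((nx a : ℝ) - a) = P (nx a + 1) - P a) (n : ℕ) :
    ∑ i ∈ range n, G (lo nx i) ≤ P (lo nx n) + P (lo nx n + 1)
      + ((n : ℝ) - lo nx n) * G (lo nx n) := by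
  have hPs : ∀ n, P (n + 1) = P n + p n := by
    intro n; rw [hP, hP, sum_range_succ]
  have hPm : Monotone P := monotone_nat_of_le_succ (fun n => by rw [hPs]; linarith [hp n])
  have hP0 : P 0 = 0 := by rw [hP]; simp
  induction n with
  | zero =>
    simp only [range_zero, sum_empty, lo]
    have h1 : 0 ≤ P (0 + 1) := by rw [hPs, hP0]; linarith [hp 0]
    rw [hP0]
    push_cast
    linarith
  | succ n ih =>
    rw [sum_range_succ]
    by_cases h : n + 1 = hi nx n
    · rw [lo_succ_eq h]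
      have h1 := hG (lo nx n)
      have h2 : nx (lo nx n) = n + 1 := h.symm
      rw [h2] at h1
      push_cast at h1 ⊢
      have h3 : P (lo nx n + 1) ≤ P (n + 1) := hPm (by have := lo_le hnx n; omega)
      have h4 : ((n : ℝ) - lo nx n) * G (lo nx n) + G (lo nx n)
          = P (n + 1 + 1) - P (lo nx n) := by
        rw [← h1]; ring
      linarith
    · rw [lo_succ_ne h]
      push_cast
      linarith

theorem greedy (w : ℕ → ℝ) (hw : ∀ n, 0 ≤ w n)
    (hs : Summable fun n => |w (n + 1) ^ 2 - w n ^ 2|) :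
    ∃ nx : ℕ → ℕ, (∀ a, a < nx a) ∧ ∃ q : ℕ → ℝ, Summable q ∧ (∀ n, 0 ≤ q n) ∧
      (∀ n, q (rho nx n) = q n) ∧
      (∀ n m, lo nx n ≤ m → m < hi nx n →
        (w m - w (lo nx n)) ^ 2 ≤ q n ∧ (w m - w (hi nx n)) ^ 2 ≤ q n) ∧
      (∀ n, w (lo nx n) ^ 2 ≤ ((hi nx n : ℝ) - lo nx n) ^ 2 * q n ∧
        w (hi nx n) ^ 2 ≤ ((hi nx n : ℝ) - lo nx n) ^ 2 * q n) := by
  classical
  let p : ℕ → ℝ := fun n => |w (n + 1) ^ 2 - w n ^ 2| + (1 / 2 : ℝ) ^ n
  have hp : ∀ n, 0 < p n := fun n => by positivity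
  have hps : Summable p := hs.add (summable_geometric_of_lt_one (by norm_num) (by norm_num))
  let P : ℕ → ℝ := fun n => ∑ i ∈ range n, p i
  have hPs : ∀ n, P (n + 1) = P n + p n := fun n => sum_range_succ _ _
  have hPm : Monotone P := monotone_nat_of_le_succ (fun n => by rw [hPs]; linarith [hp n])
  have hPle : ∀ n, P n ≤ ∑' i, p i := fun n => hps.sum_le_tsum _ (fun i _ => (hp i).le)
  have hP0 : ∀ n, 0 ≤ P n := fun n => sum_nonneg (fun i _ => (hp i).le)
  -- variation bound
  have hvar : ∀ a m, a ≤ m → |w m ^ 2 - w a ^ 2| ≤ P m - P a := by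
    intro a m h
    induction m, h using Nat.le_induction with
    | base => simp
    | succ k hk ih =>
      rw [hPs]
      have h1 : |w (k + 1) ^ 2 - w a ^ 2| ≤ |w (k + 1) ^ 2 - w k ^ 2| + |w k ^ 2 - w a ^ 2| := by
        have := abs_add_le (w (k + 1) ^ 2 - w k ^ 2) (w k ^ 2 - w a ^ 2)
        rwa [sub_add_sub_cancel] at this
      have h2 : |w (k + 1) ^ 2 - w k ^ 2| ≤ p k := by
        show _ ≤ |w (k + 1) ^ 2 - w k ^ 2| + (1 / 2 : ℝ) ^ k
        have : (0 : ℝ) < (1 / 2 : ℝ) ^ k := by positivity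
        linarith
      linarith
  -- the greedy choice
  have hex : ∀ a : ℕ, ∃ b : ℕ, a < b ∧ w a ^ 2 < ((b : ℝ) + 1 - a) * (P (b + 1) - P a) := by
    intro a
    obtain ⟨n, hn⟩ := exists_nat_gt (w a ^ 2 / p a)
    refine ⟨a + n + 1, by omega, ?_⟩
    rw [div_lt_iff₀ (hp a)] at hn
    have h1 : p a ≤ P (a + n + 1 + 1) - P a := by
      have := hPm (show a + 1 ≤ a + n + 1 + 1 by omega)
      rw [hPs a] at this
      linarith
    have h2 : (n : ℝ) * p a ≤ (((a + n + 1 : ℕ) : ℝ) + 1 - a) * (P (a + n + 1 + 1) - P a) := by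
      apply mul_le_mul
      · push_cast; linarith
      · exact h1
      · exact (hp a).le
      · push_cast; have : (0 : ℝ) ≤ n := Nat.cast_nonneg n; linarith
    linarith
  let nx : ℕ → ℕ := fun a => Nat.find (hex a)
  have hnx : ∀ a, a < nx a := fun a => (Nat.find_spec (hex a)).1
  have hnx2 : ∀ a, w a ^ 2 < ((nx a : ℝ) + 1 - a) * (P (nx a + 1) - P a) :=
    fun a => (Nat.find_spec (hex a)).2
  have hnx3 : ∀ a, nx a = a + 1 ∨ ((nx a : ℝ) - a) * (P (nx a) - P a) ≤ w a ^ 2 := by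
    intro a
    by_cases h : nx a = a + 1
    · exact Or.inl h
    right
    have h1 := hnx a
    have h2 := Nat.find_min (hex a) (m := nx a - 1) (by show nx a - 1 < nx a; omega)
    have h3 : nx a - 1 + 1 = nx a := by omega
    have h4 : ((nx a - 1 : ℕ) : ℝ) + 1 = nx a := by exact_mod_cast h3
    rw [h3, h4] at h2
    push Not at h2
    exact h2 (by omega)
  let G : ℕ → ℝ := fun a => (P (nx a + 1) - P a) / ((nx a : ℝ) - a)
  have hL : ∀ a, (1 : ℝ) ≤ (nx a : ℝ) - a := by
    intro a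
    have h1 : a + 1 ≤ nx a := hnx a
    have h2 : ((a + 1 : ℕ) : ℝ) ≤ nx a := by exact_mod_cast h1
    push_cast at h2
    linarith
  have hGm : ∀ a, G a * ((nx a : ℝ) - a) = P (nx a + 1) - P a := by
    intro a
    have := hL a
    exact div_mul_cancel₀ _ (by linarith)
  have hG0 : ∀ a, 0 ≤ G a := by
    intro a
    have := hL a
    apply div_nonneg
    · have := hPm (show a ≤ nx a + 1 by have := hnx a; omega)
      linarith
    · linarith
  have hGs : Summable fun n => G (lo nx n) := by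
    apply summable_of_sum_range_le (c := 3 * ∑' i, p i) (fun n => hG0 _)
    intro n
    have h1 := sum_blocks nx hnx p (fun n => (hp n).le) P (fun _ => rfl) G hGm n
    have h2 : ((n : ℝ) - lo nx n) * G (lo nx n) ≤ ∑' i, p i := by
      have h3 : ((n : ℝ) - lo nx n) ≤ (nx (lo nx n) : ℝ) - lo nx n := by
        have := lt_hi hnx n
        have h4 : (n : ℝ) ≤ nx (lo nx n) := by exact_mod_cast this.le
        linarith
      have h5 := mul_le_mul_of_nonneg_right h3 (hG0 (lo nx n))
      rw [mul_comm ((nx (lo nx n) : ℝ) - lo nx n), hGm] at h5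
      have h6 := hPle (nx (lo nx n) + 1)
      have h7 := hP0 (lo nx n)
      linarith
    have h3 := hPle (lo nx n)
    have h4 := hPle (lo nx n + 1)
    linarith
  -- the key block estimate
  have hblock : ∀ a m, a ≤ m → m ≤ nx a → (w m - w a) ^ 2 ≤ G a := by
    intro a m h1 h2
    have hLa := hL a
    have hσ : |w m ^ 2 - w a ^ 2| ≤ P (nx a) - P a := by
      have := hvar a m h1
      have h3 := hPm h2
      linarith
    have hσ0 : 0 ≤ P (nx a) - P a := le_trans (abs_nonneg _) hσ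
    have hσG : (P (nx a) - P a) / ((nx a : ℝ) - a) ≤ G a := by
      apply div_le_div_of_nonneg_right _ (by linarith)
      rw [hPs]
      linarith [hp (nx a)]
    refine le_trans ?_ hσG
    rw [le_div_iff₀ (by linarith)]
    have habs : |w m ^ 2 - w a ^ 2| = |w m - w a| * (w m + w a) := by
      rw [show w m ^ 2 - w a ^ 2 = (w m - w a) * (w m + w a) by ring, abs_mul,
        abs_of_nonneg (add_nonneg (hw m) (hw a))]
    have hd0 := abs_nonneg (w m - w a)
    have hdle : |w m - w a| ≤ w m + w a := by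
      rw [abs_le]; constructor <;> linarith [hw m, hw a]
    rw [← sq_abs]
    set d := |w m - w a| with hd
    rcases hnx3 a with h | h
    · have h4 : (nx a : ℝ) - a = 1 := by rw [h]; push_cast; ring
      rw [h4, mul_one]
      calc d ^ 2 = d * d := by ring
        _ ≤ d * (w m + w a) := mul_le_mul_of_nonneg_left hdle hd0
        _ = |w m ^ 2 - w a ^ 2| := habs.symm
        _ ≤ _ := hσ
    · -- d * w a ≤ σ, L σ ≤ w a ^ 2
      set σ := P (nx a) - P a with hσdef
      set L := (nx a : ℝ) - a with hLdef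
      have h5 : d * w a ≤ σ := by
        calc d * w a ≤ d * (w m + w a) :=
              mul_le_mul_of_nonneg_left (by linarith [hw m]) hd0
          _ = |w m ^ 2 - w a ^ 2| := habs.symm
          _ ≤ σ := hσ
      by_cases hw0 : w a = 0
      · -- then σ = 0
        rw [hw0] at h
        have h6 : σ ≤ 0 := by nlinarith
        have h7 : σ = 0 := le_antisymm h6 hσ0
        have h8 : d * (w m + w a) ≤ 0 := by rw [← habs]; rw [h7] at hσ; exact hσ
        have h9 : d * d ≤ 0 := le_trans (mul_le_mul_of_nonneg_left hdle hd0) h8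
        have h10 : d = 0 := by nlinarith
        rw [h10, h7]; simp
      · have hwa : 0 < w a := lt_of_le_of_ne (hw a) (Ne.symm hw0)
        have hwa2 : 0 < w a ^ 2 := by positivity
        -- d^2 * L * w a^2 ≤ σ^2 L ≤ σ w a^2
        have h6 : (d * w a) ^ 2 ≤ σ ^ 2 := by
          apply pow_le_pow_left₀ (by positivity) h5
        have h7 : d ^ 2 * L * w a ^ 2 ≤ σ * w a ^ 2 := by
          calc d ^ 2 * L * w a ^ 2 = (d * w a) ^ 2 * L := by ring
            _ ≤ σ ^ 2 * L := mul_le_mul_of_nonneg_right h6 (by linarith)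
            _ = σ * (L * σ) := by ring
            _ ≤ σ * w a ^ 2 := mul_le_mul_of_nonneg_left h hσ0
        exact le_of_mul_le_mul_right h7 hwa2
  have hwa : ∀ a, w a ^ 2 ≤ ((nx a : ℝ) - a) ^ 2 * (2 * G a) := by
    intro a
    have h1 := hnx2 a
    have h2 := hL a
    have h3 := hG0 a
    rw [← hGm a] at h1
    nlinarith [mul_nonneg h3 (by linarith : (0 : ℝ) ≤ (nx a : ℝ) - a),
      mul_nonneg (mul_nonneg h3 (by linarith : (0 : ℝ) ≤ (nx a : ℝ) - a))
        (by linarith : (0 : ℝ) ≤ (nx a : ℝ) - a - 1)]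
  refine ⟨nx, hnx, fun n => 6 * G (lo nx n), hGs.mul_left 6,
    fun n => by have := hG0 (lo nx n); positivity, fun n => by
      show 6 * G (lo nx (rho nx n)) = 6 * G (lo nx n)
      rw [lo_rho hnx], ?_, ?_⟩
  · intro n m h1 h2
    have h3 := hblock (lo nx n) m h1 h2.le
    have h4 := hblock (lo nx n) (hi nx n) (by have := lo_le_lt hnx n; omega) le_rfl
    have h5 := hG0 (lo nx n)
    constructor
    · linarith
    · have h6 : (w m - w (hi nx n)) ^ 2
          ≤ 2 * (w m - w (lo nx n)) ^ 2 + 2 * (w (hi nx n) - w (lo nx n)) ^ 2 := by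
        nlinarith [sq_nonneg ((w m - w (lo nx n)) + (w (hi nx n) - w (lo nx n)))]
      linarith
  · intro n
    have h1 := hwa (lo nx n)
    have h2 := hblock (lo nx n) (hi nx n) (by have := lo_le_lt hnx n; omega) le_rfl
    have h3 := hL (lo nx n)
    have h5 := hG0 (lo nx n)
    have h4 : (nx (lo nx n) : ℝ) = hi nx n := rfl
    rw [h4] at h1 h3
    have h6 : (1 : ℝ) ≤ ((hi nx n : ℝ) - lo nx n) ^ 2 := by nlinarith
    have h7 : G (lo nx n) ≤ ((hi nx n : ℝ) - lo nx n) ^ 2 * G (lo nx n) := by nlinarith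
    constructor
    · nlinarith
    · have h8 : w (hi nx n) ^ 2 ≤ 2 * (w (hi nx n) - w (lo nx n)) ^ 2 + 2 * w (lo nx n) ^ 2 := by
        nlinarith [sq_nonneg (w (hi nx n) - 2 * w (lo nx n))]
      nlinarith

end Pool.Agent.H28.AN
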