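import Mathlib
import Pool.Agent.H28.AN.A
import Pool.Agent.H28.AN.B
import Pool.Agent.H28.AN.C
import Pool.Agent.H28.AN.D

set_option autoImplicit false
set_option linter.unusedSectionVars false
set_option linter.unusedSimpArgs false

namespace Pool.Agent.H28.AN

open scoped InnerProductSpace
open Submodule

/-- The rotation angle at `n`. -/
noncomputable def th (nx : ℕ → ℕ) (n : ℕ) : ℝ :=
  (Real.pi / 2) * (((n : ℝ) - lo nx n) / ((hi nx n : ℝ) - lo nx n))

/-- The rotation angle at `n + 1`, computed in the block of `n`. -/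
noncomputable def thp (nx : ℕ → ℕ) (n : ℕ) : ℝ :=
  (Real.pi / 2) * (((n : ℝ) + 1 - lo nx n) / ((hi nx n : ℝ) - lo nx n))

lemma th_lo {nx : ℕ → ℕ} {n : ℕ} (h : lo nx n = n) : th nx n = 0 := by
  unfold th
  rw [h]
  simp

section
variable {nx : ℕ → ℕ} (hnx : ∀ a, a < nx a)
include hnx

lemma one_le_len (n : ℕ) : (1 : ℝ) ≤ (hi nx n : ℝ) - lo nx n := by
  have h1 := lo_le_lt hnx n
  have h2 : lo nx n + 1 ≤ hi nx n := by omega
  have h3 : ((lo nx n + 1 : ℕ) : ℝ) ≤ hi nx n := by exact_mod_cast h2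
  push_cast at h3
  linarith

lemma thp_last {n : ℕ} (h : n + 1 = hi nx n) : thp nx n = Real.pi / 2 := by
  have h1 := one_le_len hnx n
  unfold thp
  have h2 : (n : ℝ) + 1 = hi nx n := by exact_mod_cast h
  rw [h2, div_self (by linarith), mul_one]

omit hnx in
lemma th_succ {n : ℕ} (h : n + 1 ≠ hi nx n) : th nx (n + 1) = thp nx n := by
  unfold th thp
  have h1 : hi nx (n + 1) = hi nx n := by unfold hi; rw [lo_succ_ne h]
  rw [h1, lo_succ_ne h]
  push_cast
  ring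

lemma thp_sub (n : ℕ) : |th nx n - thp nx n| * ((hi nx n : ℝ) - lo nx n) = Real.pi / 2 := by
  have h1 := one_le_len hnx n
  have h2 : th nx n - thp nx n = -(Real.pi / 2 / ((hi nx n : ℝ) - lo nx n)) := by
    unfold th thp
    have : ((hi nx n : ℝ) - lo nx n) ≠ 0 := by linarith
    field_simp
    ring
  rw [h2, abs_neg, abs_of_nonneg (div_nonneg (by positivity) (by linarith)), div_mul_cancel₀ _ (by linarith)]

lemma rho_last {n : ℕ} (h : n + 1 = hi nx n) : rho nx n = lo nx n := by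
  unfold rho
  omega

lemma rho_succ {n : ℕ} (h : n + 1 ≠ hi nx n) : rho nx (n + 1) + 1 = rho nx n := by
  have h0 := lo_le_lt hnx n
  have h1 : hi nx (n + 1) = hi nx n := by unfold hi; rw [lo_succ_ne h]
  unfold rho
  rw [h1, lo_succ_ne h]
  omega

variable {H : Type} [NormedAddCommGroup H] [InnerProductSpace ℂ H]

/-- The image of the rotated first-half vector. -/
lemma step_e (b : ℕ ⊕ ℕ → H) (n : ℕ) :
    rot b (rho nx) (fun n => Real.cos (th nx n)) (fun n => Real.sin (th nx n))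
      (perm nx (Sum.inl n))
      = (Real.cos (thp nx n) : ℂ) • b (Sum.inl (n + 1))
        + (Real.sin (thp nx n) : ℂ) • b (Sum.inr (rho nx n)) := by
  by_cases h : n + 1 = hi nx n
  · have hp : perm nx (Sum.inl n) = Sum.inr (lo nx n) := by simp only [perm]; rw [if_pos h]
    rw [hp, thp_last hnx h, rho_last hnx h, Real.cos_pi_div_two, Real.sin_pi_div_two]
    rcases hl : lo nx n with _ | k
    · simp [rot]
    · have h1 : k + 1 = hi nx k := by
        by_contra h2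
        have h3 := lo_lo (nx := nx) n
        rw [hl, lo_succ_ne h2] at h3
        have := lo_le hnx k
        omega
      have h2 : rho nx k = lo nx k := rho_last hnx h1
      have h3 : th nx (rho nx k) = 0 := by rw [h2]; exact th_lo (lo_lo k)
      simp [rot, h3]
  · have hp : perm nx (Sum.inl n) = Sum.inl (n + 1) := by simp only [perm]; rw [if_neg h]
    rw [hp]
    simp only [rot]
    rw [rho_succ hnx h, th_succ h]

/-- The image of the rotated second-half vector. -/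
lemma step_f (b : ℕ ⊕ ℕ → H) (k : ℕ) :
    sgn nx (Sum.inr (k + 1)) •
      rot b (rho nx) (fun n => Real.cos (th nx n)) (fun n => Real.sin (th nx n))
        (perm nx (Sum.inr (k + 1)))
      = (-(Real.sin (thp nx (rho nx k))) : ℂ) • b (Sum.inl (rho nx k + 1))
        + (Real.cos (thp nx (rho nx k)) : ℂ) • b (Sum.inr k) := by
  by_cases h : lo nx k = k
  · have hp : perm nx (Sum.inr (k + 1)) = Sum.inl (hi nx k) := by
      simp only [perm]; rw [if_pos h]
    have hsg : sgn nx (Sum.inr (k + 1)) = -1 := by simp only [sgn]; rw [if_pos h]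
    have h0 := lo_le_lt hnx k
    have h1 : rho nx k + 1 = hi nx k := by unfold rho; omega
    have h2 : thp nx (rho nx k) = Real.pi / 2 := by
      apply thp_last hnx
      rw [h1, hi_rho hnx]
    have h3 : th nx (hi nx k) = 0 := th_lo (lo_hi hnx k)
    rw [hp, hsg, h2, h1, Real.cos_pi_div_two, Real.sin_pi_div_two]
    simp [rot, h3]
  · have hp : perm nx (Sum.inr (k + 1)) = Sum.inr k := by
      simp only [perm]; rw [if_neg h]
    have hsg : sgn nx (Sum.inr (k + 1)) = 1 := by simp only [sgn]; rw [if_neg h]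
    rcases k with _ | j
    · exact absurd rfl h
    · have h1 : j + 1 ≠ hi nx j := fun h2 => h (lo_succ_eq h2)
      have h2 : rho nx (j + 1) + 1 = rho nx j := rho_succ hnx h1
      have h3 : hi nx (j + 1) = hi nx j := by unfold hi; rw [lo_succ_ne h1]
      have h4 : rho nx (j + 1) + 1 ≠ hi nx (rho nx (j + 1)) := by
        rw [h2, hi_rho hnx, h3]
        exact (rho_mem hnx j).2.ne
      have h5 : th nx (rho nx j) = thp nx (rho nx (j + 1)) := by
        rw [← h2]; exact th_succ h4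
      rw [hp, hsg, one_smul, h2]
      simp only [rot]
      rw [h5]

omit hnx in
lemma scalar_bound {x y c c' L q : ℝ} (hL : 1 ≤ L) (hc : |c| ≤ 1)
    (hcc : |c - c'| * L ≤ Real.pi / 2) (hxy : (x - y) ^ 2 ≤ q) (hy : y ^ 2 ≤ L ^ 2 * q) :
    (c * x - y * c') ^ 2 ≤ 8 * q := by
  have hq : 0 ≤ q := le_trans (sq_nonneg _) hxy
  have h1 : (c * x - y * c') ^ 2 ≤ 2 * (c * (x - y)) ^ 2 + 2 * (y * (c - c')) ^ 2 := by
    have : c * x - y * c' = c * (x - y) + y * (c - c') := by ring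
    rw [this]
    nlinarith [sq_nonneg (c * (x - y) - y * (c - c'))]
  have hc2 : c ^ 2 ≤ 1 := by
    rw [← sq_abs]
    nlinarith [abs_nonneg c]
  have h2 : (c * (x - y)) ^ 2 ≤ q := by
    rw [mul_pow]
    nlinarith [sq_nonneg (x - y)]
  have h3 : (c - c') ^ 2 * L ^ 2 ≤ 3 := by
    have h4 : (|c - c'| * L) ^ 2 ≤ (Real.pi / 2) ^ 2 :=
      pow_le_pow_left₀ (by positivity) hcc 2
    have h5 : Real.pi < 3.1416 := Real.pi_lt_d4
    have h6 := Real.pi_pos
    rw [mul_pow, sq_abs] at h4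
    nlinarith
  have h4 : (y * (c - c')) ^ 2 ≤ 3 * q := by
    calc (y * (c - c')) ^ 2 = y ^ 2 * (c - c') ^ 2 := by ring
      _ ≤ (L ^ 2 * q) * (c - c') ^ 2 := mul_le_mul_of_nonneg_right hy (sq_nonneg _)
      _ = q * ((c - c') ^ 2 * L ^ 2) := by ring
      _ ≤ q * 3 := mul_le_mul_of_nonneg_left h3 hq
      _ = 3 * q := by ring
  linarith

omit hnx in
lemma norm_comb {u v : H} {z₁ z₂ : ℂ} {a₁ a₂ : ℝ} {Q : ℝ} (hu : ‖u‖ ^ 2 ≤ Q) (hv : ‖v‖ ^ 2 ≤ Q)
    (h1 : ‖z₁‖ ^ 2 ≤ a₁) (h2 : ‖z₂‖ ^ 2 ≤ a₂) :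
    ‖z₁ • u + z₂ • v‖ ^ 2 ≤ 2 * (a₁ + a₂) * Q := by
  have hQ : 0 ≤ Q := le_trans (sq_nonneg _) hu
  have h3 : ‖z₁ • u + z₂ • v‖ ≤ ‖z₁‖ * ‖u‖ + ‖z₂‖ * ‖v‖ := by
    refine (norm_add_le _ _).trans ?_
    rw [norm_smul, norm_smul]
  have h4 : ‖z₁ • u + z₂ • v‖ ^ 2 ≤ (‖z₁‖ * ‖u‖ + ‖z₂‖ * ‖v‖) ^ 2 :=
    pow_le_pow_left₀ (norm_nonneg _) h3 2
  have h5 : (‖z₁‖ * ‖u‖) ^ 2 ≤ a₁ * Q := by
    rw [mul_pow]
    exact mul_le_mul h1 hu (sq_nonneg _) (le_trans (sq_nonneg _) h1)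
  have h6 : (‖z₂‖ * ‖v‖) ^ 2 ≤ a₂ * Q := by
    rw [mul_pow]
    exact mul_le_mul h2 hv (sq_nonneg _) (le_trans (sq_nonneg _) h2)
  nlinarith [sq_nonneg (‖z₁‖ * ‖u‖ - ‖z₂‖ * ‖v‖)]

end

end Pool.Agent.H28.AN
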