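import Mathlib
import Pool.Agent.H28.AN.E

set_option autoImplicit false
set_option linter.unusedSectionVars false
set_option linter.unusedSimpArgs false

namespace Pool.Agent.H28.AN

open scoped InnerProductSpace
open Submodule

variable {H : Type} [NormedAddCommGroup H] [InnerProductSpace ℂ H] [CompleteSpace H]

lemma norm_ofReal_sq (x : ℝ) : ‖(x : ℂ)‖ ^ 2 = x ^ 2 := by
  rw [Complex.norm_real, Real.norm_eq_abs, sq_abs]

/-- The comparison of the doubled shift with a normal operator. -/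
theorem diff_bound (nx : ℕ → ℕ) (hnx : ∀ a, a < nx a) (b : HilbertBasis (ℕ ⊕ ℕ) ℂ H)
    (w : ℕ → ℝ) (C : ℝ) (hC : ∀ n, |w n| ≤ C) (q : ℕ → ℝ) (hqρ : ∀ n, q (rho nx n) = q n)
    (h1 : ∀ n m, lo nx n ≤ m → m < hi nx n →
        (w m - w (lo nx n)) ^ 2 ≤ q n ∧ (w m - w (hi nx n)) ^ 2 ≤ q n)
    (h2 : ∀ n, w (lo nx n) ^ 2 ≤ ((hi nx n : ℝ) - lo nx n) ^ 2 * q n ∧
        w (hi nx n) ^ 2 ≤ ((hi nx n : ℝ) - lo nx n) ^ 2 * q n)
    (X : H →L[ℂ] H)
    (hX1 : ∀ n, X (b (Sum.inl n)) = (w n : ℂ) • b (Sum.inl (n + 1)))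
    (hX3 : ∀ k, X (b (Sum.inr (k + 1))) = (w k : ℂ) • b (Sum.inr k)) :
    ∃ N : H →L[ℂ] H, star N * N = N * star N ∧
      (∀ n, ‖(X - N) (b (Sum.inl n))‖ ^ 2 ≤ 128 * q n) ∧
      (∀ k, ‖(X - N) (b (Sum.inr (k + 1)))‖ ^ 2 ≤ 128 * q k) := by
  classical
  set c : ℕ → ℝ := fun n => Real.cos (th nx n) with hc
  set s : ℕ → ℝ := fun n => Real.sin (th nx n) with hs
  have hcs : ∀ n, c n ^ 2 + s n ^ 2 = 1 := fun n => Real.cos_sq_add_sin_sq _
  obtain ⟨r, hr⟩ := exists_rot b (rho nx) (rho_rho hnx) c s hcs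
  obtain ⟨N, hN1, hN⟩ := exists_normal r (perm nx) (perm_inj hnx) (perm_surj hnx) (sgn nx)
    norm_sgn (wt nx w) C (by rintro (n | _ | k) <;> exact hC _) (wt_perm hnx w)
  have hq0 : ∀ n, 0 ≤ q n := fun n =>
    le_trans (sq_nonneg _) (h1 n n (lo_le hnx n) (lt_hi hnx n)).1
  have hb1 : ∀ i, ‖b i‖ ^ 2 ≤ 1 := fun i => by rw [b.orthonormal.1 i]; norm_num
  have habsc : ∀ n, |c n| ≤ 1 := fun n => Real.abs_cos_le_one _
  have habss : ∀ n, |s n| ≤ 1 := fun n => Real.abs_sin_le_one _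
  have hcd : ∀ n, |c n - Real.cos (thp nx n)| * ((hi nx n : ℝ) - lo nx n) ≤ Real.pi / 2 := by
    intro n
    rw [← thp_sub hnx n]
    exact mul_le_mul_of_nonneg_right (Real.abs_cos_sub_cos_le _ _)
      (by linarith [one_le_len hnx n])
  have hsd : ∀ n, |s n - Real.sin (thp nx n)| * ((hi nx n : ℝ) - lo nx n) ≤ Real.pi / 2 := by
    intro n
    rw [← thp_sub hnx n]
    exact mul_le_mul_of_nonneg_right (Real.abs_sin_sub_sin_le _ _)
      (by linarith [one_le_len hnx n])
  -- the rotated vectors of the first half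
  have hE : ∀ n, (X - N) (r (Sum.inl n))
      = ((c n * w n - w (lo nx n) * Real.cos (thp nx n) : ℝ) : ℂ) • b (Sum.inl (n + 1))
        + ((s n * w (rho nx n) - w (lo nx n) * Real.sin (thp nx n) : ℝ) : ℂ)
          • b (Sum.inr (rho nx n)) := by
    intro n
    rw [sub_apply, hN, hr (perm nx (Sum.inl n)), step_e hnx, hr (Sum.inl n)]
    simp only [rot, map_add, map_smul, hX1, hX3, sgn, wt]
    push_cast
    module
  have hF : ∀ k, (X - N) (r (Sum.inr (k + 1)))
      = ((-(s (rho nx k) * w (rho nx k) - w (hi nx k) * Real.sin (thp nx (rho nx k))) : ℝ) : ℂ)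
          • b (Sum.inl (rho nx k + 1))
        + ((c (rho nx k) * w k - w (hi nx k) * Real.cos (thp nx (rho nx k)) : ℝ) : ℂ)
          • b (Sum.inr k) := by
    intro k
    rw [sub_apply, hN, hr (perm nx (Sum.inr (k + 1))), step_f hnx, hr (Sum.inr (k + 1))]
    simp only [rot, map_add, map_smul, hX1, hX3, wt]
    push_cast
    module
  have hE2 : ∀ n, ‖(X - N) (r (Sum.inl n))‖ ^ 2 ≤ 32 * q n := by
    intro n
    rw [hE]
    have hm := rho_mem hnx n
    have hL := one_le_len hnx n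
    have e1 := scalar_bound hL (habsc n) (hcd n)
      (h1 n n (lo_le hnx n) (lt_hi hnx n)).1 (h2 n).1
    have e2 := scalar_bound hL (habss n) (hsd n)
      (h1 n (rho nx n) hm.1 hm.2).1 (h2 n).1
    rw [← norm_ofReal_sq] at e1 e2
    have e3 := norm_comb (hb1 (Sum.inl (n + 1))) (hb1 (Sum.inr (rho nx n))) e1 e2
    linarith
  have hF2 : ∀ k, ‖(X - N) (r (Sum.inr (k + 1)))‖ ^ 2 ≤ 32 * q k := by
    intro k
    rw [hF]
    have hm := rho_mem hnx k
    have hL := one_le_len hnx k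
    have hlo := lo_rho hnx k
    have hhi := hi_rho hnx k
    have d1 := hsd (rho nx k)
    have d2 := hcd (rho nx k)
    rw [hlo, hhi] at d1 d2
    have e1 := scalar_bound hL (habss (rho nx k)) d1 (h1 k (rho nx k) hm.1 hm.2).2 (h2 k).2
    have e2 := scalar_bound hL (habsc (rho nx k)) d2
      (h1 k k (lo_le hnx k) (lt_hi hnx k)).2 (h2 k).2
    rw [← neg_sq, ← norm_ofReal_sq] at e1
    rw [← norm_ofReal_sq] at e2
    have e3 := norm_comb (hb1 (Sum.inl (rho nx k + 1))) (hb1 (Sum.inr k)) e1 e2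
    linarith
  have hcsC : ∀ n, (c n : ℂ) * c n + (s n : ℂ) * s n = 1 := by
    intro n
    have := hcs n
    have h2 : ((c n * c n + s n * s n : ℝ) : ℂ) = ((1 : ℝ) : ℂ) := by
      congr 1; linarith [this]
    push_cast at h2
    exact h2
  have inv1 : ∀ n, b (Sum.inl n) = (c n : ℂ) • r (Sum.inl n)
      + (-(s n : ℂ)) • r (Sum.inr (rho nx n + 1)) := by
    intro n
    rw [hr, hr]
    simp only [rot, rho_rho hnx, smul_add, smul_smul]
    have : b (Sum.inl n) = ((c n : ℂ) * c n + (s n : ℂ) * s n) • b (Sum.inl n) := by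
      rw [hcsC, one_smul]
    conv_lhs => rw [this]
    module
  have inv2 : ∀ n, b (Sum.inr (rho nx n + 1)) = (s n : ℂ) • r (Sum.inl n)
      + (c n : ℂ) • r (Sum.inr (rho nx n + 1)) := by
    intro n
    rw [hr, hr]
    simp only [rot, rho_rho hnx, smul_add, smul_smul]
    have : b (Sum.inr (rho nx n + 1))
        = ((c n : ℂ) * c n + (s n : ℂ) * s n) • b (Sum.inr (rho nx n + 1)) := by
      rw [hcsC, one_smul]
    conv_lhs => rw [this]
    module
  have hc1 : ∀ n, ‖(c n : ℂ)‖ ^ 2 ≤ 1 := fun n => by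
    rw [norm_ofReal_sq]; nlinarith [hcs n, sq_nonneg (s n)]
  have hs1 : ∀ n, ‖(s n : ℂ)‖ ^ 2 ≤ 1 := fun n => by
    rw [norm_ofReal_sq]; nlinarith [hcs n, sq_nonneg (c n)]
  have hs1' : ∀ n, ‖(-(s n : ℂ))‖ ^ 2 ≤ 1 := fun n => by rw [norm_neg]; exact hs1 n
  refine ⟨N, hN1, ?_, ?_⟩
  · intro n
    have f1 := hE2 n
    have f2 := hF2 (rho nx n)
    rw [hqρ] at f2
    rw [inv1 n, map_add, map_smul, map_smul]
    have f3 := norm_comb f1 f2 (hc1 n) (hs1' n)
    linarith
  · have key : ∀ n, ‖(X - N) (b (Sum.inr (rho nx n + 1)))‖ ^ 2 ≤ 128 * q n := by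
      intro n
      have f1 := hE2 n
      have f2 := hF2 (rho nx n)
      rw [hqρ] at f2
      rw [inv2 n, map_add, map_smul, map_smul]
      have f3 := norm_comb f1 f2 (hs1 n) (hc1 n)
      linarith
    intro k
    have := key (rho nx k)
    rw [rho_rho hnx, hqρ] at this
    exact this

/-- A one-sided inverse bound: the adjoint of an isometry is a contraction. -/
lemma star_isom_le {U : H →L[ℂ] H} (hU : star U * U = 1) (x : H) : ‖(star U) x‖ ≤ ‖x‖ := by
  have h1 : ∀ y, ‖U y‖ ≤ 1 * ‖y‖ := by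
    intro y
    have h2 : ‖U y‖ ^ 2 = ‖y‖ ^ 2 := by
      have h3 : ⟪U y, U y⟫_ℂ = ⟪y, y⟫_ℂ := by
        rw [← ContinuousLinearMap.adjoint_inner_right, ← ContinuousLinearMap.star_eq_adjoint]
        have := congrArg (fun A : H →L[ℂ] H => A y) hU
        simp only [mul_apply_eq_comp] at this
        rw [this]; rfl
      rw [inner_self_eq_norm_sq_to_K, inner_self_eq_norm_sq_to_K] at h3
      exact_mod_cast h3
    have := (pow_left_inj₀ (norm_nonneg _) (norm_nonneg _) two_ne_zero).mp h2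
    linarith
  have h2 : ‖U‖ ≤ 1 := ContinuousLinearMap.opNorm_le_bound _ zero_le_one h1
  have h3 : ‖star U‖ ≤ 1 := by rw [norm_star]; exact h2
  calc ‖(star U) x‖ ≤ ‖star U‖ * ‖x‖ := ContinuousLinearMap.le_opNorm _ _
    _ ≤ 1 * ‖x‖ := mul_le_mul_of_nonneg_right h3 (norm_nonneg _)
    _ = ‖x‖ := one_mul _

/-- The decomposition for a weighted shift with nonnegative weights. -/
theorem core (e : HilbertBasis ℕ ℂ H) (T : H →L[ℂ] H) (w : ℕ → ℝ) (hw : ∀ n, 0 ≤ w n)
    (hT : ∀ n, T (e n) = (w n : ℂ) • e (n + 1))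
    (hs : Summable fun n => |w (n + 1) ^ 2 - w n ^ 2|) :
    ∃ N11 N12 N21 N22 : H →L[ℂ] H,
      star N11 * N11 + star N21 * N21 = N11 * star N11 + N12 * star N12 ∧
      star N11 * N12 + star N21 * N22 = N11 * star N21 + N12 * star N22 ∧
      star N12 * N11 + star N22 * N21 = N21 * star N11 + N22 * star N12 ∧
      star N12 * N12 + star N22 * N22 = N21 * star N21 + N22 * star N22 ∧
      Summable (fun n => ‖(T - N11) (e n)‖ ^ 2) ∧ Summable (fun n => ‖N12 (e n)‖ ^ 2) ∧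
      Summable (fun n => ‖N21 (e n)‖ ^ 2) ∧ Summable (fun n => ‖(star T - N22) (e n)‖ ^ 2) := by
  classical
  obtain ⟨nx, hnx, q, hqs, hq0, hqρ, h1, h2⟩ := greedy w hw hs
  obtain ⟨b, J₁, J₂, j11, j22, j12, j21, hJ, hJ1, hJ2⟩ := exists_doubling e
  have hC : ∀ n, |w n| ≤ ‖T‖ := by
    intro n
    have h3 := T.le_opNorm (e n)
    rw [hT, norm_smul, e.orthonormal.1, e.orthonormal.1, Complex.norm_real] at h3
    simpa using h3
  -- the adjoint of T
  have hTs : ∀ k, (star T) (e (k + 1)) = (w k : ℂ) • e k := by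
    intro k
    have h3 : ∀ m, ⟪e m, (star T) (e (k + 1)) - (w k : ℂ) • e k⟫_ℂ = 0 := by
      intro m
      rw [inner_sub_right, ContinuousLinearMap.star_eq_adjoint,
        ContinuousLinearMap.adjoint_inner_right, hT, inner_smul_left, inner_smul_right,
        basis_inner, basis_inner]
      by_cases h : m = k
      · subst h; simp
      · simp [h]
    have h4 := (hasSum_parseval e ((star T) (e (k + 1)) - (w k : ℂ) • e k)).tsum_eq
    simp only [h3] at h4
    have h5 : ‖(star T) (e (k + 1)) - (w k : ℂ) • e k‖ = 0 := by simpa using h4.symm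
    exact sub_eq_zero.mp (norm_eq_zero.mp h5)
  let X : H →L[ℂ] H := J₁ * T * star J₁ + J₂ * star T * star J₂
  have a11 : ∀ x, (star J₁) (J₁ x) = x := fun x => by
    have := congrArg (fun A : H →L[ℂ] H => A x) j11
    simpa using this
  have a22 : ∀ x, (star J₂) (J₂ x) = x := fun x => by
    have := congrArg (fun A : H →L[ℂ] H => A x) j22
    simpa using this
  have a12 : ∀ x, (star J₁) (J₂ x) = 0 := fun x => by
    have := congrArg (fun A : H →L[ℂ] H => A x) j12
    simpa using this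
  have a21 : ∀ x, (star J₂) (J₁ x) = 0 := fun x => by
    have := congrArg (fun A : H →L[ℂ] H => A x) j21
    simpa using this
  have hXJ1 : ∀ x, X (J₁ x) = J₁ (T x) := by
    intro x
    simp only [X, add_apply, mul_apply_eq_comp, a11, a21, map_zero, add_zero]
  have hXJ2 : ∀ x, X (J₂ x) = J₂ ((star T) x) := by
    intro x
    simp only [X, add_apply, mul_apply_eq_comp, a12, a22, map_zero, zero_add]
  obtain ⟨N, hN, hd1, hd2⟩ := diff_bound nx hnx b w ‖T‖ hC q hqρ h1 h2 X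
    (fun n => by rw [← hJ1, ← hJ1, hXJ1, hT, map_smul])
    (fun k => by rw [← hJ2, ← hJ2, hXJ2, hTs, map_smul])
  have s1 : Summable (fun n => ‖(X - N) (J₁ (e n))‖ ^ 2) := by
    refine Summable.of_nonneg_of_le (fun _ => sq_nonneg _) (fun n => ?_) (hqs.mul_left 128)
    rw [hJ1]; exact hd1 n
  have s2 : Summable (fun n => ‖(X - N) (J₂ (e n))‖ ^ 2) := by
    rw [← summable_nat_add_iff 1]
    refine Summable.of_nonneg_of_le (fun _ => sq_nonneg _) (fun n => ?_) (hqs.mul_left 128)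
    rw [hJ2]; exact hd2 n
  have comp : ∀ U V : H →L[ℂ] H, ∀ A B : H →L[ℂ] H,
      (star U * A * J₁) * (star J₁ * B * V) + (star U * A * J₂) * (star J₂ * B * V)
        = star U * (A * B) * V := by
    intro U V A B
    calc (star U * A * J₁) * (star J₁ * B * V) + (star U * A * J₂) * (star J₂ * B * V)
        = star U * A * (J₁ * star J₁ + J₂ * star J₂) * B * V := by noncomm_ring
      _ = star U * (A * B) * V := by rw [hJ, mul_one]; noncomm_ring
  have hst : ∀ U V : H →L[ℂ] H, star (star U * N * V) = star V * star N * U := by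
    intro U V
    rw [star_mul, star_mul, star_star, mul_assoc]
  have le1 : ∀ x, ‖(star J₁) x‖ ^ 2 ≤ ‖x‖ ^ 2 := fun x =>
    pow_le_pow_left₀ (norm_nonneg _) (star_isom_le j11 x) 2
  have le2 : ∀ x, ‖(star J₂) x‖ ^ 2 ≤ ‖x‖ ^ 2 := fun x =>
    pow_le_pow_left₀ (norm_nonneg _) (star_isom_le j22 x) 2
  refine ⟨star J₁ * N * J₁, star J₁ * N * J₂, star J₂ * N * J₁, star J₂ * N * J₂,
    ?_, ?_, ?_, ?_, ?_, ?_, ?_, ?_⟩
  · rw [hst, hst, hst, comp, comp, hN]
  · rw [hst, hst, hst, comp, comp, hN]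
  · rw [hst, hst, hst, comp, comp, hN]
  · rw [hst, hst, hst, comp, comp, hN]
  · refine Summable.of_nonneg_of_le (fun _ => sq_nonneg _) (fun n => ?_) s1
    have : (T - star J₁ * N * J₁) (e n) = (star J₁) ((X - N) (J₁ (e n))) := by
      simp only [sub_apply, mul_apply_eq_comp, map_sub, hXJ1, a11]
    rw [this]; exact le1 _
  · refine Summable.of_nonneg_of_le (fun _ => sq_nonneg _) (fun n => ?_) s2
    have : (star J₁ * N * J₂) (e n) = -(star J₁) ((X - N) (J₂ (e n))) := by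
      simp only [sub_apply, mul_apply_eq_comp, map_sub, hXJ2, a12]
      simp
    rw [this, norm_neg]; exact le1 _
  · refine Summable.of_nonneg_of_le (fun _ => sq_nonneg _) (fun n => ?_) s1
    have : (star J₂ * N * J₁) (e n) = -(star J₂) ((X - N) (J₁ (e n))) := by
      simp only [sub_apply, mul_apply_eq_comp, map_sub, hXJ1, a21]
      simp
    rw [this, norm_neg]; exact le2 _
  · refine Summable.of_nonneg_of_le (fun _ => sq_nonneg _) (fun n => ?_) s2
    have : (star T - star J₂ * N * J₂) (e n) = (star J₂) ((X - N) (J₂ (e n))) := by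
      simp only [sub_apply, mul_apply_eq_comp, map_sub, hXJ2, a22]
    rw [this]; exact le2 _

end Pool.Agent.H28.AN
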