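import Mathlib
import Pool.Agent.H28.AN.F

set_option autoImplicit false
set_option linter.unusedSectionVars false
set_option linter.unusedSimpArgs false

namespace Pool.Agent.H28.AN

open scoped InnerProductSpace
open Submodule

/-- A decomposition of the orbits of a permutation `s` into finite blocks: `lo i` and `hi i` are
the endpoints of the block containing `i`, `rho i` is the reflection of `i` in its block, `pos i`
is the distance from `lo i` to `i`, and `len i` is the length of the block. -/
structure BS {ι : Type} (s : ι ≃ ι) (lo hi rho : ι → ι) (pos len : ι → ℝ) : Prop where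
  endp : ∀ i, lo (s i) = s i → hi i = s i ∧ pos i + 1 = len i ∧ rho i = lo i
  inner : ∀ i, lo (s i) ≠ s i → lo (s i) = lo i ∧ hi (s i) = hi i ∧ pos (s i) = pos i + 1 ∧
    len (s i) = len i ∧ s (rho (s i)) = rho i
  start : ∀ i, lo i = i → pos i = 0
  last : ∀ i, lo i = i → s (rho i) = hi i
  lo_lo : ∀ i, lo (lo i) = lo i
  hi_lo : ∀ i, hi (lo i) = hi i
  lo_hi : ∀ i, lo (hi i) = hi i
  rho_rho : ∀ i, rho (rho i) = i
  lo_rho : ∀ i, lo (rho i) = lo i
  hi_rho : ∀ i, hi (rho i) = hi i
  len_rho : ∀ i, len (rho i) = len i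
  one_le : ∀ i, 1 ≤ len i

section
variable {ι : Type} {s : ι ≃ ι} {lo hi rho : ι → ι} {pos len : ι → ℝ}

open Classical in
/-- The permutation carrying the doubled shift to the cycles. -/
noncomputable def bperm (s : ι ≃ ι) (lo hi : ι → ι) : ι ⊕ ι → ι ⊕ ι
  | Sum.inl i => if lo (s i) = s i then Sum.inr (lo i) else Sum.inl (s i)
  | Sum.inr j => if lo (s.symm j) = s.symm j then Sum.inl (hi (s.symm j)) else Sum.inr (s.symm j)

open Classical in
/-- The signs and phases. -/
noncomputable def bsgn (s : ι ≃ ι) (lo rho : ι → ι) (ζ : ι → ℂ) : ι ⊕ ι → ℂ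
  | Sum.inl i => ζ i
  | Sum.inr j => if lo (s.symm j) = s.symm j then -ζ (rho (s.symm j)) else ζ (rho (s.symm j))

/-- The weights. -/
def bwt (s : ι ≃ ι) (lo hi : ι → ι) (w : ι → ℝ) : ι ⊕ ι → ℝ
  | Sum.inl i => w (lo i)
  | Sum.inr j => w (hi (s.symm j))

lemma norm_bsgn {ζ : ι → ℂ} (hζ : ∀ i, ‖ζ i‖ = 1) (i : ι ⊕ ι) : ‖bsgn s lo rho ζ i‖ = 1 := by
  rcases i with i | j
  · simp [bsgn, hζ]
  · simp only [bsgn]; split_ifs <;> simp [hζ]

lemma bperm_inj (B : BS s lo hi rho pos len) : Function.Injective (bperm s lo hi) := by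
  rintro (i | j) (i' | j') h
  · simp only [bperm] at h
    split_ifs at h with h1 h2 h2
    · have h3 : lo i = lo i' := by simpa using h
      have h4 := (B.endp i h1).2.2
      have h5 := (B.endp i' h2).2.2
      have h6 : rho i = rho i' := by rw [h4, h5, h3]
      have h7 := congrArg rho h6
      rw [B.rho_rho, B.rho_rho] at h7
      rw [h7]
    · have h3 : s i = s i' := by simpa using h
      rw [s.injective h3]
  · simp only [bperm] at h
    split_ifs at h with h1 h2 h2
    · have h3 : lo i = s.symm j' := by simpa using h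
      exact absurd (h3 ▸ B.lo_lo i) h2
    · have h3 : s i = hi (s.symm j') := by simpa using h
      exact absurd (h3 ▸ B.lo_hi (s.symm j')) (h3 ▸ h1)
  · simp only [bperm] at h
    split_ifs at h with h1 h2 h2
    · have h3 : hi (s.symm j) = s i' := by simpa using h
      exact absurd (h3 ▸ B.lo_hi (s.symm j)) h2
    · have h3 : s.symm j = lo i' := by simpa using h
      exact absurd (h3 ▸ B.lo_lo i') h1
  · simp only [bperm] at h
    split_ifs at h with h1 h2 h2
    · have h3 : hi (s.symm j) = hi (s.symm j') := by simpa using h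
      have h4 := B.last _ h1
      have h5 := B.last _ h2
      have h6 : rho (s.symm j) = rho (s.symm j') := s.injective (by rw [h4, h5, h3])
      have h7 := congrArg rho h6
      rw [B.rho_rho, B.rho_rho] at h7
      rw [s.symm.injective h7]
    · have h3 : s.symm j = s.symm j' := by simpa using h
      rw [s.symm.injective h3]

lemma bperm_surj (B : BS s lo hi rho pos len) : Function.Surjective (bperm s lo hi) := by
  rintro (i | j)
  · by_cases h : lo i = i
    · have h1 : lo (s (s.symm i)) = s (s.symm i) := by rw [s.apply_symm_apply]; exact h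
      have h2 := (B.endp _ h1).1
      rw [s.apply_symm_apply] at h2
      refine ⟨Sum.inr (s (lo (s.symm i))), ?_⟩
      simp only [bperm]
      rw [s.symm_apply_apply, if_pos (B.lo_lo _), B.hi_lo, h2]
    · refine ⟨Sum.inl (s.symm i), ?_⟩
      simp only [bperm]
      rw [s.apply_symm_apply, if_neg h]
  · by_cases h : lo j = j
    · refine ⟨Sum.inl (rho j), ?_⟩
      simp only [bperm]
      rw [B.last j h, if_pos (B.lo_hi j), B.lo_rho, h]
    · refine ⟨Sum.inr (s j), ?_⟩
      simp only [bperm]
      rw [s.symm_apply_apply, if_neg h]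

lemma bwt_perm (B : BS s lo hi rho pos len) (w : ι → ℝ) (i : ι ⊕ ι) :
    bwt s lo hi w (bperm s lo hi i) = bwt s lo hi w i := by
  rcases i with i | j
  · simp only [bperm]
    split_ifs with h
    · simp only [bwt]
      have h1 : lo (s (s.symm (lo i))) = s (s.symm (lo i)) := by
        rw [s.apply_symm_apply]; exact B.lo_lo i
      have h2 := (B.endp _ h1).1
      rw [h2, s.apply_symm_apply]
    · simp only [bwt]
      rw [(B.inner i h).1]
  · simp only [bperm]
    split_ifs with h
    · simp only [bwt]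
      rw [B.lo_hi]
    · simp only [bwt]
      have h1 : lo (s (s.symm (s.symm j))) ≠ s (s.symm (s.symm j)) := by
        rw [s.apply_symm_apply]; exact h
      have h2 := (B.inner _ h1).2.1
      rw [s.apply_symm_apply] at h2
      rw [h2]

/-- The rotation angle. -/
noncomputable def bth (pos len : ι → ℝ) (i : ι) : ℝ := (Real.pi / 2) * (pos i / len i)

/-- The next rotation angle. -/
noncomputable def bthp (pos len : ι → ℝ) (i : ι) : ℝ := (Real.pi / 2) * ((pos i + 1) / len i)

lemma bth_lo (B : BS s lo hi rho pos len) {i : ι} (h : lo i = i) : bth pos len i = 0 := by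
  unfold bth
  rw [B.start i h]
  simp

lemma bthp_last (B : BS s lo hi rho pos len) {i : ι} (h : lo (s i) = s i) :
    bthp pos len i = Real.pi / 2 := by
  have h1 := B.one_le i
  unfold bthp
  rw [(B.endp i h).2.1, div_self (by linarith), mul_one]

lemma bth_succ (B : BS s lo hi rho pos len) {i : ι} (h : lo (s i) ≠ s i) :
    bth pos len (s i) = bthp pos len i := by
  unfold bth bthp
  obtain ⟨-, -, h1, h2, -⟩ := B.inner i h
  rw [h1, h2]

lemma bthp_sub (B : BS s lo hi rho pos len) (i : ι) :
    |bth pos len i - bthp pos len i| * len i = Real.pi / 2 := by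
  have h1 := B.one_le i
  have h2 : bth pos len i - bthp pos len i = -(Real.pi / 2 / len i) := by
    unfold bth bthp
    have : len i ≠ 0 := by linarith
    field_simp
    ring
  rw [h2, abs_neg, abs_of_nonneg (div_nonneg (by positivity) (by linarith)),
    div_mul_cancel₀ _ (by linarith)]

variable {H : Type} [NormedAddCommGroup H] [InnerProductSpace ℂ H]

/-- The rotated basis vectors. -/
noncomputable def brot (b : ι ⊕ ι → H) (s : ι ≃ ι) (rho : ι → ι) (c d : ι → ℝ) : ι ⊕ ι → H
  | Sum.inl i => (c i : ℂ) • b (Sum.inl i) + (d i : ℂ) • b (Sum.inr (s (rho i)))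
  | Sum.inr j => (-(d (rho (s.symm j))) : ℂ) • b (Sum.inl (rho (s.symm j)))
      + (c (rho (s.symm j)) : ℂ) • b (Sum.inr j)

lemma bstep_e (B : BS s lo hi rho pos len) (b : ι ⊕ ι → H) (i : ι) :
    brot b s rho (fun i => Real.cos (bth pos len i)) (fun i => Real.sin (bth pos len i))
      (bperm s lo hi (Sum.inl i))
      = (Real.cos (bthp pos len i) : ℂ) • b (Sum.inl (s i))
        + (Real.sin (bthp pos len i) : ℂ) • b (Sum.inr (rho i)) := by
  by_cases h : lo (s i) = s i
  · have hp : bperm s lo hi (Sum.inl i) = Sum.inr (lo i) := by simp only [bperm]; rw [if_pos h]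
    obtain ⟨e1, e2, e3⟩ := B.endp i h
    rw [hp, bthp_last B h, e3, Real.cos_pi_div_two, Real.sin_pi_div_two]
    have h1 : lo (s (s.symm (lo i))) = s (s.symm (lo i)) := by
      rw [s.apply_symm_apply]; exact B.lo_lo i
    have h2 := (B.endp _ h1).2.2
    have h3 : bth pos len (rho (s.symm (lo i))) = 0 := by
      rw [h2]; exact bth_lo B (B.lo_lo _)
    simp [brot, h3]
  · have hp : bperm s lo hi (Sum.inl i) = Sum.inl (s i) := by simp only [bperm]; rw [if_neg h]
    rw [hp]
    simp only [brot]
    rw [(B.inner i h).2.2.2.2, bth_succ B h]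

lemma bstep_f (B : BS s lo hi rho pos len) (b : ι ⊕ ι → H) (ζ : ι → ℂ) (k : ι) :
    bsgn s lo rho ζ (Sum.inr (s k)) •
      brot b s rho (fun i => Real.cos (bth pos len i)) (fun i => Real.sin (bth pos len i))
        (bperm s lo hi (Sum.inr (s k)))
      = ζ (rho k) • ((-(Real.sin (bthp pos len (rho k))) : ℂ) • b (Sum.inl (s (rho k)))
        + (Real.cos (bthp pos len (rho k)) : ℂ) • b (Sum.inr k)) := by
  by_cases h : lo k = k
  · have hp : bperm s lo hi (Sum.inr (s k)) = Sum.inl (hi k) := by
      simp only [bperm]; rw [s.symm_apply_apply, if_pos h]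
    have hsg : bsgn s lo rho ζ (Sum.inr (s k)) = -ζ (rho k) := by
      simp only [bsgn]; rw [s.symm_apply_apply, if_pos h]
    have h1 : s (rho k) = hi k := B.last k h
    have h2 : bthp pos len (rho k) = Real.pi / 2 := by
      apply bthp_last B
      rw [h1]; exact B.lo_hi k
    have h3 : bth pos len (hi k) = 0 := bth_lo B (B.lo_hi k)
    rw [hp, hsg, h2, h1, Real.cos_pi_div_two, Real.sin_pi_div_two]
    simp [brot, h3]
  · have hp : bperm s lo hi (Sum.inr (s k)) = Sum.inr k := by
      simp only [bperm]; rw [s.symm_apply_apply, if_neg h]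
    have hsg : bsgn s lo rho ζ (Sum.inr (s k)) = ζ (rho k) := by
      simp only [bsgn]; rw [s.symm_apply_apply, if_neg h]
    have h1 : lo (s (s.symm k)) ≠ s (s.symm k) := by rw [s.apply_symm_apply]; exact h
    have h2 := (B.inner _ h1).2.2.2.2
    rw [s.apply_symm_apply] at h2
    have h4 : lo (s (rho k)) ≠ s (rho k) := by
      rw [h2]
      intro h5
      have h6 := B.last _ h5
      rw [B.rho_rho, s.apply_symm_apply, B.hi_rho] at h6
      exact h (h6 ▸ B.lo_hi _)
    have h5 : bth pos len (rho (s.symm k)) = bthp pos len (rho k) := by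
      rw [← h2]; exact bth_succ B h4
    rw [hp, hsg]
    simp only [brot]
    rw [h5, h2]

lemma exists_brot [CompleteSpace H] (b : HilbertBasis (ι ⊕ ι) ℂ H) (s : ι ≃ ι) (rho : ι → ι)
    (hρ : ∀ i, rho (rho i) = i) (c d : ι → ℝ) (hcs : ∀ n, c n ^ 2 + d n ^ 2 = 1) :
    ∃ r : HilbertBasis (ι ⊕ ι) ℂ H, ∀ i, r i = brot b s rho c d i := by
  classical
  have hinj : ∀ n m, rho n = rho m ↔ n = m := fun n m =>
    ⟨fun h => by rw [← hρ n, h, hρ], fun h => by rw [h]⟩
  have hcsC : ∀ n, (c n : ℂ) * c n + (d n : ℂ) * d n = 1 := by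
    intro n
    have := hcs n
    have h2 : ((c n * c n + d n * d n : ℝ) : ℂ) = ((1 : ℝ) : ℂ) := by
      congr 1; linarith [this]
    push_cast at h2
    exact h2
  have hon : Orthonormal ℂ (brot b s rho c d) := by
    rw [orthonormal_iff_ite]
    rintro (i | j) (i' | j')
    · simp only [brot, inner_add_left, inner_add_right, inner_smul_left, inner_smul_right,
        basis_inner, Complex.conj_ofReal]
      by_cases h : i = i'
      · subst h; simp [hcsC]
      · simp [h, hinj]
    · simp only [brot, inner_add_left, inner_add_right, inner_smul_left, inner_smul_right,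
        basis_inner, Complex.conj_ofReal]
      by_cases h : i = rho (s.symm j')
      · subst h; simp [hρ]; ring
      · have h2 : s (rho i) ≠ j' := fun h3 => h (by rw [← h3, s.symm_apply_apply, hρ])
        simp [h, h2]
    · simp only [brot, inner_add_left, inner_add_right, inner_smul_left, inner_smul_right,
        basis_inner, Complex.conj_ofReal, map_neg]
      by_cases h : rho (s.symm j) = i'
      · subst h; simp [hρ]; ring
      · have h2 : j ≠ s (rho i') := fun h3 => h (by rw [h3, s.symm_apply_apply, hρ])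
        simp [h, h2]
    · simp only [brot, inner_add_left, inner_add_right, inner_smul_left, inner_smul_right,
        basis_inner, Complex.conj_ofReal, map_neg]
      by_cases h : j = j'
      · subst h
        have := hcsC (rho (s.symm j))
        simp
        linear_combination this
      · have h2 : s.symm j ≠ s.symm j' := fun h3 => h (s.symm.injective h3)
        simp [h, h2, hinj]
  have hsp : ⊤ ≤ (span ℂ (Set.range (brot b s rho c d))).topologicalClosure := by
    rw [← b.dense_span]
    apply Submodule.topologicalClosure_mono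
    rw [span_le]
    have key : ∀ i, b (Sum.inl i) ∈ span ℂ (Set.range (brot b s rho c d)) ∧
        b (Sum.inr (s (rho i))) ∈ span ℂ (Set.range (brot b s rho c d)) := by
      intro n
      have h1 : brot b s rho c d (Sum.inl n) ∈ span ℂ (Set.range (brot b s rho c d)) :=
        subset_span ⟨_, rfl⟩
      have h2 : brot b s rho c d (Sum.inr (s (rho n))) ∈ span ℂ (Set.range (brot b s rho c d)) :=
        subset_span ⟨_, rfl⟩
      have e1 : b (Sum.inl n) = (c n : ℂ) • brot b s rho c d (Sum.inl n)
          - (d n : ℂ) • brot b s rho c d (Sum.inr (s (rho n))) := by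
        simp only [brot, hρ, s.symm_apply_apply, smul_add, smul_smul]
        have : b (Sum.inl n) = ((c n : ℂ) * c n + (d n : ℂ) * d n) • b (Sum.inl n) := by
          rw [hcsC, one_smul]
        conv_lhs => rw [this]
        module
      have e2 : b (Sum.inr (s (rho n))) = (d n : ℂ) • brot b s rho c d (Sum.inl n)
          + (c n : ℂ) • brot b s rho c d (Sum.inr (s (rho n))) := by
        simp only [brot, hρ, s.symm_apply_apply, smul_add, smul_smul]
        have : b (Sum.inr (s (rho n)))
            = ((c n : ℂ) * c n + (d n : ℂ) * d n) • b (Sum.inr (s (rho n))) := by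
          rw [hcsC, one_smul]
        conv_lhs => rw [this]
        module
      constructor
      · rw [e1]; exact sub_mem (smul_mem _ _ h1) (smul_mem _ _ h2)
      · rw [e2]; exact add_mem (smul_mem _ _ h1) (smul_mem _ _ h2)
    rintro _ ⟨(i | j), rfl⟩
    · exact (key i).1
    · have := (key (rho (s.symm j))).2
      rw [hρ, s.apply_symm_apply] at this
      exact this
  exact ⟨HilbertBasis.mk hon hsp, fun i => by rw [HilbertBasis.coe_mk]⟩

end

section
variable {ι : Type} {s : ι ≃ ι} {lo hi rho : ι → ι} {pos len : ι → ℝ}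
variable {H : Type} [NormedAddCommGroup H] [InnerProductSpace ℂ H] [CompleteSpace H]

/-- The comparison of the doubled weighted shift with a normal operator. -/
theorem bdiff_bound (BB : BS s lo hi rho pos len) (b : HilbertBasis (ι ⊕ ι) ℂ H)
    (w : ι → ℝ) (C : ℝ) (hC : ∀ n, |w n| ≤ C) (q : ι → ℝ) (hqρ : ∀ n, q (rho n) = q n)
    (h1 : ∀ n, (w n - w (lo n)) ^ 2 ≤ q n ∧ (w n - w (hi n)) ^ 2 ≤ q n)
    (h2 : ∀ n, w (lo n) ^ 2 ≤ len n ^ 2 * q n ∧ w (hi n) ^ 2 ≤ len n ^ 2 * q n)
    (ζ : ι → ℂ) (hζ : ∀ i, ‖ζ i‖ = 1) (X : H →L[ℂ] H)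
    (hX1 : ∀ n, X (b (Sum.inl n)) = (w n : ℂ) • ζ n • b (Sum.inl (s n)))
    (hX3 : ∀ k, X (b (Sum.inr (s k))) = (w k : ℂ) • ζ (rho k) • b (Sum.inr k)) :
    ∃ N : H →L[ℂ] H, star N * N = N * star N ∧
      (∀ n, ‖(X - N) (b (Sum.inl n))‖ ^ 2 ≤ 128 * q n) ∧
      (∀ k, ‖(X - N) (b (Sum.inr (s k)))‖ ^ 2 ≤ 128 * q k) := by
  classical
  set c : ι → ℝ := fun n => Real.cos (bth pos len n) with hc
  set d : ι → ℝ := fun n => Real.sin (bth pos len n) with hs
  have hcs : ∀ n, c n ^ 2 + d n ^ 2 = 1 := fun n => Real.cos_sq_add_sin_sq _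
  obtain ⟨r, hr⟩ := exists_brot b s rho BB.rho_rho c d hcs
  obtain ⟨N, hN1, hN⟩ := exists_normal r (bperm s lo hi) (bperm_inj BB) (bperm_surj BB)
    (bsgn s lo rho ζ) (norm_bsgn hζ) (bwt s lo hi w) C (by rintro (n | k) <;> exact hC _) (bwt_perm BB w)
  have hq0 : ∀ n, 0 ≤ q n := fun n => le_trans (sq_nonneg _) (h1 n).1
  have hb1 : ∀ i, ‖b i‖ ^ 2 ≤ 1 := fun i => by rw [b.orthonormal.1 i]; norm_num
  have habsc : ∀ n, |c n| ≤ 1 := fun n => Real.abs_cos_le_one _
  have habss : ∀ n, |d n| ≤ 1 := fun n => Real.abs_sin_le_one _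
  have hcd : ∀ n, |c n - Real.cos (bthp pos len n)| * len n ≤ Real.pi / 2 := by
    intro n
    rw [← bthp_sub BB n]
    exact mul_le_mul_of_nonneg_right (Real.abs_cos_sub_cos_le _ _)
      (by linarith [BB.one_le n])
  have hsd : ∀ n, |d n - Real.sin (bthp pos len n)| * len n ≤ Real.pi / 2 := by
    intro n
    rw [← bthp_sub BB n]
    exact mul_le_mul_of_nonneg_right (Real.abs_sin_sub_sin_le _ _)
      (by linarith [BB.one_le n])
  -- the rotated vectors of the first half
  have hE : ∀ n, (X - N) (r (Sum.inl n))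
      = ζ n • (((c n * w n - w (lo n) * Real.cos (bthp pos len n) : ℝ) : ℂ) • b (Sum.inl (s n))
        + ((d n * w (rho n) - w (lo n) * Real.sin (bthp pos len n) : ℝ) : ℂ)
          • b (Sum.inr (rho n))) := by
    intro n
    rw [sub_apply, hN, hr (bperm s lo hi (Sum.inl n)), bstep_e BB, hr (Sum.inl n)]
    simp only [brot, map_add, map_smul, hX1, hX3, bsgn, bwt, BB.rho_rho]
    push_cast
    module
  have hF : ∀ k, (X - N) (r (Sum.inr (s k)))
      = ζ (rho k) •
        (((-(d (rho k) * w (rho k) - w (hi k) * Real.sin (bthp pos len (rho k))) : ℝ) : ℂ)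
          • b (Sum.inl (s (rho k)))
        + ((c (rho k) * w k - w (hi k) * Real.cos (bthp pos len (rho k)) : ℝ) : ℂ)
          • b (Sum.inr k)) := by
    intro k
    rw [sub_apply, hN, hr (bperm s lo hi (Sum.inr (s k))), bstep_f BB, hr (Sum.inr (s k))]
    simp only [brot, map_add, map_smul, hX1, hX3, bwt, s.symm_apply_apply]
    push_cast
    module
  have hE2 : ∀ n, ‖(X - N) (r (Sum.inl n))‖ ^ 2 ≤ 32 * q n := by
    intro n
    rw [hE, norm_smul, hζ, one_mul]
    have hL := BB.one_le n
    have e1 := scalar_bound hL (habsc n) (hcd n) (h1 n).1 (h2 n).1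
    have g1 := (h1 (rho n)).1
    rw [BB.lo_rho, hqρ] at g1
    have e2 := scalar_bound hL (habss n) (hsd n) g1 (h2 n).1
    rw [← norm_ofReal_sq] at e1 e2
    have e3 := norm_comb (hb1 (Sum.inl (s n))) (hb1 (Sum.inr (rho n))) e1 e2
    linarith
  have hF2 : ∀ k, ‖(X - N) (r (Sum.inr (s k)))‖ ^ 2 ≤ 32 * q k := by
    intro k
    rw [hF, norm_smul, hζ, one_mul]
    have hL := BB.one_le k
    have d1 := hsd (rho k)
    have d2 := hcd (rho k)
    rw [BB.len_rho] at d1 d2
    have g1 := (h1 (rho k)).2
    rw [BB.hi_rho, hqρ] at g1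
    have e1 := scalar_bound hL (habss (rho k)) d1 g1 (h2 k).2
    have e2 := scalar_bound hL (habsc (rho k)) d2 (h1 k).2 (h2 k).2
    rw [← neg_sq, ← norm_ofReal_sq] at e1
    rw [← norm_ofReal_sq] at e2
    have e3 := norm_comb (hb1 (Sum.inl (s (rho k)))) (hb1 (Sum.inr k)) e1 e2
    linarith
  have hcsC : ∀ n, (c n : ℂ) * c n + (d n : ℂ) * d n = 1 := by
    intro n
    have := hcs n
    have h2 : ((c n * c n + d n * d n : ℝ) : ℂ) = ((1 : ℝ) : ℂ) := by
      congr 1; linarith [this]
    push_cast at h2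
    exact h2
  have inv1 : ∀ n, b (Sum.inl n) = (c n : ℂ) • r (Sum.inl n)
      + (-(d n : ℂ)) • r (Sum.inr (s (rho n))) := by
    intro n
    rw [hr, hr]
    simp only [brot, BB.rho_rho, s.symm_apply_apply, smul_add, smul_smul]
    have : b (Sum.inl n) = ((c n : ℂ) * c n + (d n : ℂ) * d n) • b (Sum.inl n) := by
      rw [hcsC, one_smul]
    conv_lhs => rw [this]
    module
  have inv2 : ∀ n, b (Sum.inr (s (rho n))) = (d n : ℂ) • r (Sum.inl n)
      + (c n : ℂ) • r (Sum.inr (s (rho n))) := by
    intro n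
    rw [hr, hr]
    simp only [brot, BB.rho_rho, s.symm_apply_apply, smul_add, smul_smul]
    have : b (Sum.inr (s (rho n)))
        = ((c n : ℂ) * c n + (d n : ℂ) * d n) • b (Sum.inr (s (rho n))) := by
      rw [hcsC, one_smul]
    conv_lhs => rw [this]
    module
  have hc1 : ∀ n, ‖(c n : ℂ)‖ ^ 2 ≤ 1 := fun n => by
    rw [norm_ofReal_sq]; nlinarith [hcs n, sq_nonneg (d n)]
  have hs1 : ∀ n, ‖(d n : ℂ)‖ ^ 2 ≤ 1 := fun n => by
    rw [norm_ofReal_sq]; nlinarith [hcs n, sq_nonneg (c n)]
  have hs1' : ∀ n, ‖(-(d n : ℂ))‖ ^ 2 ≤ 1 := fun n => by rw [norm_neg]; exact hs1 n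
  refine ⟨N, hN1, ?_, ?_⟩
  · intro n
    have f1 := hE2 n
    have f2 := hF2 (rho n)
    rw [hqρ] at f2
    rw [inv1 n, map_add, map_smul, map_smul]
    have f3 := norm_comb f1 f2 (hc1 n) (hs1' n)
    linarith
  · have key : ∀ n, ‖(X - N) (b (Sum.inr (s (rho n))))‖ ^ 2 ≤ 128 * q n := by
      intro n
      have f1 := hE2 n
      have f2 := hF2 (rho n)
      rw [hqρ] at f2
      rw [inv2 n, map_add, map_smul, map_smul]
      have f3 := norm_comb f1 f2 (hs1 n) (hc1 n)
      linarith
    intro k
    have := key (rho k)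
    rw [BB.rho_rho, hqρ] at this
    exact this

end

end Pool.Agent.H28.AN
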