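import Mathlib
import Pool.Agent.H28.AN.D
import Pool.Agent.H28.AN.G

set_option autoImplicit false
set_option linter.unusedSectionVars false
set_option linter.unusedSimpArgs false

namespace Pool.Agent.H28.AN

open Finset

theorem greedy2 (w p : ℕ → ℝ) (hw : ∀ n, 0 ≤ w n) (hp : ∀ n, 0 < p n) (hps : Summable p)
    (hv : ∀ n, |w (n + 1) ^ 2 - w n ^ 2| ≤ p n) :
    ∃ nx : ℕ → ℕ, (∀ a, a < nx a) ∧ ∃ q : ℕ → ℝ, Summable q ∧ (∑' n, q n ≤ 18 * ∑' n, p n) ∧
      (∀ n, 0 ≤ q n) ∧
      (∀ n m, lo nx n ≤ m → m < hi nx n → q m = q n) ∧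
      (∀ n m, lo nx n ≤ m → m ≤ hi nx n →
        (w m - w (lo nx n)) ^ 2 ≤ q n ∧ (w m - w (hi nx n)) ^ 2 ≤ q n) ∧
      (∀ n, w (lo nx n) ^ 2 ≤ ((hi nx n : ℝ) - lo nx n) ^ 2 * q n ∧
        w (hi nx n) ^ 2 ≤ ((hi nx n : ℝ) - lo nx n) ^ 2 * q n) := by
  classical
  let P : ℕ → ℝ := fun n => ∑ i ∈ range n, p i
  have hPs : ∀ n, P (n + 1) = P n + p n := fun n => sum_range_succ _ _
  have hPm : Monotone P := monotone_nat_of_le_succ (fun n => by rw [hPs]; linarith [hp n])
  have hPle : ∀ n, P n ≤ ∑' i, p i := fun n => hps.sum_le_tsum _ (fun i _ => (hp i).le)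
  have hP0 : ∀ n, 0 ≤ P n := fun n => sum_nonneg (fun i _ => (hp i).le)
  -- variation bound
  have hvar : ∀ a m, a ≤ m → |w m ^ 2 - w a ^ 2| ≤ P m - P a := by
    intro a m h
    induction m, h using Nat.le_induction with
    | base => simp
    | succ k hk ih =>
      rw [hPs]
      have h1 : |w (k + 1) ^ 2 - w a ^ 2| ≤ |w (k + 1) ^ 2 - w k ^ 2| + |w k ^ 2 - w a ^ 2| := by
        have := abs_add_le (w (k + 1) ^ 2 - w k ^ 2) (w k ^ 2 - w a ^ 2)
        rwa [sub_add_sub_cancel] at this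
      have h2 := hv k
      linarith
  -- the greedy choice
  have hex : ∀ a : ℕ, ∃ b : ℕ, a < b ∧ w a ^ 2 < ((b : ℝ) + 1 - a) * (P (b + 1) - P a) := by
    intro a
    obtain ⟨n, hn⟩ := exists_nat_gt (w a ^ 2 / p a)
    refine ⟨a + n + 1, by omega, ?_⟩
    rw [div_lt_iff₀ (hp a)] at hn
    have h1 : p a ≤ P (a + n + 1 + 1) - P a := by
      have := hPm (show a + 1 ≤ a + n + 1 + 1 by omega)
      rw [hPs a] at this
      linarith
    have h2 : (n : ℝ) * p a ≤ (((a + n + 1 : ℕ) : ℝ) + 1 - a) * (P (a + n + 1 + 1) - P a) := by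
      apply mul_le_mul
      · push_cast; linarith
      · exact h1
      · exact (hp a).le
      · push_cast; have : (0 : ℝ) ≤ n := Nat.cast_nonneg n; linarith
    linarith
  let nx : ℕ → ℕ := fun a => Nat.find (hex a)
  have hnx : ∀ a, a < nx a := fun a => (Nat.find_spec (hex a)).1
  have hnx2 : ∀ a, w a ^ 2 < ((nx a : ℝ) + 1 - a) * (P (nx a + 1) - P a) :=
    fun a => (Nat.find_spec (hex a)).2
  have hnx3 : ∀ a, nx a = a + 1 ∨ ((nx a : ℝ) - a) * (P (nx a) - P a) ≤ w a ^ 2 := by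
    intro a
    by_cases h : nx a = a + 1
    · exact Or.inl h
    right
    have h1 := hnx a
    have h2 := Nat.find_min (hex a) (m := nx a - 1) (by show nx a - 1 < nx a; omega)
    have h3 : nx a - 1 + 1 = nx a := by omega
    have h4 : ((nx a - 1 : ℕ) : ℝ) + 1 = nx a := by exact_mod_cast h3
    rw [h3, h4] at h2
    push Not at h2
    exact h2 (by omega)
  let G : ℕ → ℝ := fun a => (P (nx a + 1) - P a) / ((nx a : ℝ) - a)
  have hL : ∀ a, (1 : ℝ) ≤ (nx a : ℝ) - a := by
    intro a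
    have h1 : a + 1 ≤ nx a := hnx a
    have h2 : ((a + 1 : ℕ) : ℝ) ≤ nx a := by exact_mod_cast h1
    push_cast at h2
    linarith
  have hGm : ∀ a, G a * ((nx a : ℝ) - a) = P (nx a + 1) - P a := by
    intro a
    have := hL a
    exact div_mul_cancel₀ _ (by linarith)
  have hG0 : ∀ a, 0 ≤ G a := by
    intro a
    have := hL a
    apply div_nonneg
    · have := hPm (show a ≤ nx a + 1 by have := hnx a; omega)
      linarith
    · linarith
  have hGb : ∀ n, ∑ i ∈ range n, G (lo nx i) ≤ 3 * ∑' i, p i := by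
    intro n
    have h1 := sum_blocks nx hnx p (fun n => (hp n).le) P (fun _ => rfl) G hGm n
    have h2 : ((n : ℝ) - lo nx n) * G (lo nx n) ≤ ∑' i, p i := by
      have h3 : ((n : ℝ) - lo nx n) ≤ (nx (lo nx n) : ℝ) - lo nx n := by
        have := lt_hi hnx n
        have h4 : (n : ℝ) ≤ nx (lo nx n) := by exact_mod_cast this.le
        linarith
      have h5 := mul_le_mul_of_nonneg_right h3 (hG0 (lo nx n))
      rw [mul_comm ((nx (lo nx n) : ℝ) - lo nx n), hGm] at h5
      have h6 := hPle (nx (lo nx n) + 1)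
      have h7 := hP0 (lo nx n)
      linarith
    have h3 := hPle (lo nx n)
    have h4 := hPle (lo nx n + 1)
    linarith
  have hGs : Summable fun n => G (lo nx n) :=
    summable_of_sum_range_le (c := 3 * ∑' i, p i) (fun n => hG0 _) hGb
  have hGt : ∑' n, G (lo nx n) ≤ 3 * ∑' i, p i :=
    hGs.tsum_le_of_sum_range_le hGb
  -- the key block estimate
  have hblock : ∀ a m, a ≤ m → m ≤ nx a → (w m - w a) ^ 2 ≤ G a := by
    intro a m h1 h2
    have hLa := hL a
    have hσ : |w m ^ 2 - w a ^ 2| ≤ P (nx a) - P a := by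
      have := hvar a m h1
      have h3 := hPm h2
      linarith
    have hσ0 : 0 ≤ P (nx a) - P a := le_trans (abs_nonneg _) hσ
    have hσG : (P (nx a) - P a) / ((nx a : ℝ) - a) ≤ G a := by
      apply div_le_div_of_nonneg_right _ (by linarith)
      rw [hPs]
      linarith [hp (nx a)]
    refine le_trans ?_ hσG
    rw [le_div_iff₀ (by linarith)]
    have habs : |w m ^ 2 - w a ^ 2| = |w m - w a| * (w m + w a) := by
      rw [show w m ^ 2 - w a ^ 2 = (w m - w a) * (w m + w a) by ring, abs_mul,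
        abs_of_nonneg (add_nonneg (hw m) (hw a))]
    have hd0 := abs_nonneg (w m - w a)
    have hdle : |w m - w a| ≤ w m + w a := by
      rw [abs_le]; constructor <;> linarith [hw m, hw a]
    rw [← sq_abs]
    set d := |w m - w a| with hd
    rcases hnx3 a with h | h
    · have h4 : (nx a : ℝ) - a = 1 := by rw [h]; push_cast; ring
      rw [h4, mul_one]
      calc d ^ 2 = d * d := by ring
        _ ≤ d * (w m + w a) := mul_le_mul_of_nonneg_left hdle hd0
        _ = |w m ^ 2 - w a ^ 2| := habs.symm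
        _ ≤ _ := hσ
    · -- d * w a ≤ σ, L σ ≤ w a ^ 2
      set σ := P (nx a) - P a with hσdef
      set L := (nx a : ℝ) - a with hLdef
      have h5 : d * w a ≤ σ := by
        calc d * w a ≤ d * (w m + w a) :=
              mul_le_mul_of_nonneg_left (by linarith [hw m]) hd0
          _ = |w m ^ 2 - w a ^ 2| := habs.symm
          _ ≤ σ := hσ
      by_cases hw0 : w a = 0
      · -- then σ = 0
        rw [hw0] at h
        have h6 : σ ≤ 0 := by nlinarith
        have h7 : σ = 0 := le_antisymm h6 hσ0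
        have h8 : d * (w m + w a) ≤ 0 := by rw [← habs]; rw [h7] at hσ; exact hσ
        have h9 : d * d ≤ 0 := le_trans (mul_le_mul_of_nonneg_left hdle hd0) h8
        have h10 : d = 0 := by nlinarith
        rw [h10, h7]; simp
      · have hwa : 0 < w a := lt_of_le_of_ne (hw a) (Ne.symm hw0)
        have hwa2 : 0 < w a ^ 2 := by positivity
        -- d^2 * L * w a^2 ≤ σ^2 L ≤ σ w a^2
        have h6 : (d * w a) ^ 2 ≤ σ ^ 2 := by
          apply pow_le_pow_left₀ (by positivity) h5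
        have h7 : d ^ 2 * L * w a ^ 2 ≤ σ * w a ^ 2 := by
          calc d ^ 2 * L * w a ^ 2 = (d * w a) ^ 2 * L := by ring
            _ ≤ σ ^ 2 * L := mul_le_mul_of_nonneg_right h6 (by linarith)
            _ = σ * (L * σ) := by ring
            _ ≤ σ * w a ^ 2 := mul_le_mul_of_nonneg_left h hσ0
        exact le_of_mul_le_mul_right h7 hwa2
  have hwa : ∀ a, w a ^ 2 ≤ ((nx a : ℝ) - a) ^ 2 * (2 * G a) := by
    intro a
    have h1 := hnx2 a
    have h2 := hL a
    have h3 := hG0 a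
    rw [← hGm a] at h1
    nlinarith [mul_nonneg h3 (by linarith : (0 : ℝ) ≤ (nx a : ℝ) - a),
      mul_nonneg (mul_nonneg h3 (by linarith : (0 : ℝ) ≤ (nx a : ℝ) - a))
        (by linarith : (0 : ℝ) ≤ (nx a : ℝ) - a - 1)]
  refine ⟨nx, hnx, fun n => 6 * G (lo nx n), hGs.mul_left 6, ?_,
    fun n => by have := hG0 (lo nx n); positivity, fun n m h1 h2 => by
      show 6 * G (lo nx m) = 6 * G (lo nx n)
      rw [lo_block h1 h2], ?_, ?_⟩
  · rw [tsum_mul_left]; linarith
  · intro n m h1 h2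
    have h3 := hblock (lo nx n) m h1 h2
    have h4 := hblock (lo nx n) (hi nx n) (by have := lo_le_lt hnx n; omega) le_rfl
    have h5 := hG0 (lo nx n)
    constructor
    · linarith
    · have h6 : (w m - w (hi nx n)) ^ 2
          ≤ 2 * (w m - w (lo nx n)) ^ 2 + 2 * (w (hi nx n) - w (lo nx n)) ^ 2 := by
        nlinarith [sq_nonneg ((w m - w (lo nx n)) + (w (hi nx n) - w (lo nx n)))]
      linarith
  · intro n
    have h1 := hwa (lo nx n)
    have h2 := hblock (lo nx n) (hi nx n) (by have := lo_le_lt hnx n; omega) le_rfl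
    have h3 := hL (lo nx n)
    have h5 := hG0 (lo nx n)
    have h4 : (nx (lo nx n) : ℝ) = hi nx n := rfl
    rw [h4] at h1 h3
    have h6 : (1 : ℝ) ≤ ((hi nx n : ℝ) - lo nx n) ^ 2 := by nlinarith
    have h7 : G (lo nx n) ≤ ((hi nx n : ℝ) - lo nx n) ^ 2 * G (lo nx n) := by nlinarith
    constructor
    · nlinarith
    · have h8 : w (hi nx n) ^ 2 ≤ 2 * (w (hi nx n) - w (lo nx n)) ^ 2 + 2 * w (lo nx n) ^ 2 := by
        nlinarith [sq_nonneg (w (hi nx n) - 2 * w (lo nx n))]
      nlinarith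

/-- The permutation `s` of the index set with weights `w` has a block decomposition of total cost
at most `K`. -/
def Good {ι : Type} (s : ι ≃ ι) (w : ι → ℝ) (K : ℝ) : Prop :=
  ∃ (lo hi rho : ι → ι) (pos len q : ι → ℝ), BS s lo hi rho pos len ∧ Summable q ∧
    (∑' n, q n ≤ K) ∧ (∀ n, 0 ≤ q n) ∧ (∀ n, q (rho n) = q n) ∧
    (∀ n, (w n - w (lo n)) ^ 2 ≤ q n ∧ (w n - w (hi n)) ^ 2 ≤ q n) ∧
    (∀ n, w (lo n) ^ 2 ≤ len n ^ 2 * q n ∧ w (hi n) ^ 2 ≤ len n ^ 2 * q n)

/-- Intervals decompositions of the integers give block structures. -/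
lemma BS_int (l h : ℤ → ℤ) (h1 : ∀ n, l n ≤ n) (h2 : ∀ n, n < h n)
    (h3 : ∀ n m, l n ≤ m → m < h n → l m = l n ∧ h m = h n) (h4 : ∀ n, l (h n) = h n) :
    BS (Equiv.addRight (1 : ℤ)) l h (fun n => l n + h n - 1 - n)
      (fun n => (n : ℝ) - l n) (fun n => (h n : ℝ) - l n) := by
  have hll : ∀ n, l (l n) = l n ∧ h (l n) = h n := fun n =>
    h3 n (l n) le_rfl (by have := h1 n; have := h2 n; omega)
  have hrho : ∀ n, l (l n + h n - 1 - n) = l n ∧ h (l n + h n - 1 - n) = h n := fun n =>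
    h3 n _ (by have := h1 n; have := h2 n; omega) (by have := h1 n; have := h2 n; omega)
  refine ⟨?_, ?_, ?_, ?_, fun n => (hll n).1, fun n => (hll n).2, h4, ?_, fun n => (hrho n).1,
    fun n => (hrho n).2, ?_, ?_⟩
  · intro n hn
    simp only [Equiv.coe_addRight] at hn ⊢
    have e1 : h n = n + 1 := by
      by_contra hne
      have := h2 n
      have := h1 n
      have e2 := (h3 n (n + 1) (by omega) (by omega)).1
      omega
    refine ⟨e1, ?_, by omega⟩
    rw [e1]; push_cast; ring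
  · intro n hn
    simp only [Equiv.coe_addRight] at hn ⊢
    have e1 : h n ≠ n + 1 := fun e => hn (by rw [← e]; exact h4 n)
    have := h2 n
    have := h1 n
    obtain ⟨e2, e3⟩ := h3 n (n + 1) (by omega) (by omega)
    refine ⟨e2, e3, ?_, ?_, ?_⟩
    · rw [e2]; push_cast; ring
    · rw [e2, e3]
    · rw [e2, e3]; ring
  · intro n hn
    simp only [hn]; ring
  · intro n hn
    simp only [Equiv.coe_addRight]
    omega
  · intro n
    rw [(hrho n).1, (hrho n).2]; ring
  · intro n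
    rw [(hrho n).1, (hrho n).2]
  · intro n
    have := h2 n
    have := h1 n
    have e : l n + 1 ≤ h n := by omega
    have e' : ((l n + 1 : ℤ) : ℝ) ≤ h n := by exact_mod_cast e
    push_cast at e'
    show (1 : ℝ) ≤ (h n : ℝ) - l n
    linarith

/-- Left endpoints on the integers from two decompositions of the natural numbers. -/
def zl (nx₁ nx₂ : ℕ → ℕ) : ℤ → ℤ
  | Int.ofNat n => (lo nx₁ n : ℤ)
  | Int.negSucc n => -(hi nx₂ n : ℤ)

/-- Right endpoints on the integers from two decompositions of the natural numbers. -/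
def zh (nx₁ nx₂ : ℕ → ℕ) : ℤ → ℤ
  | Int.ofNat n => (hi nx₁ n : ℤ)
  | Int.negSucc n => -(lo nx₂ n : ℤ)

/-- Costs on the integers. -/
def zq (q₁ q₂ : ℕ → ℝ) : ℤ → ℝ
  | Int.ofNat n => q₁ n
  | Int.negSucc n => q₂ n

theorem good_int (w p : ℤ → ℝ) (hw : ∀ n, 0 ≤ w n) (hp : ∀ n, 0 < p n) (hps : Summable p)
    (hv : ∀ n, |w (n + 1) ^ 2 - w n ^ 2| ≤ p n) :
    Good (Equiv.addRight (1 : ℤ)) w (18 * ∑' n, p n) := by
  classical
  have hps1 : Summable fun n : ℕ => p (n : ℤ) :=
    hps.comp_injective (fun a b h => by exact_mod_cast h)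
  have hps2 : Summable fun n : ℕ => p (-((n : ℤ) + 1)) :=
    hps.comp_injective (fun a b h => by
      have h' : -((a : ℤ) + 1) = -((b : ℤ) + 1) := h
      omega)
  obtain ⟨nx₁, hnx₁, q₁, a1, a2, a3, a4, a5, a6⟩ := greedy2 (fun n : ℕ => w (n : ℤ))
    (fun n : ℕ => p (n : ℤ)) (fun n => hw _) (fun n => hp _) hps1
    (fun n => by have := hv (n : ℤ); push_cast; exact this)
  obtain ⟨nx₂, hnx₂, q₂, b1, b2, b3, b4, b5, b6⟩ := greedy2 (fun n : ℕ => w (-(n : ℤ)))
    (fun n : ℕ => p (-((n : ℤ) + 1))) (fun n => hw _) (fun n => hp _) hps2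
    (fun n => by
      have := hv (-((n : ℤ) + 1))
      rw [show -((n : ℤ) + 1) + 1 = -(n : ℤ) by ring, abs_sub_comm] at this
      push_cast; exact this)
  have g3 : ∀ n m, zl nx₁ nx₂ n ≤ m → m < zh nx₁ nx₂ n →
      zl nx₁ nx₂ m = zl nx₁ nx₂ n ∧ zh nx₁ nx₂ m = zh nx₁ nx₂ n ∧ zq q₁ q₂ m = zq q₁ q₂ n := by
    rintro (n | n) (m | m) h1 h2
    · simp only [zl, zh, zq] at h1 h2 ⊢
      have h1' : lo nx₁ n ≤ m := by simpa using h1
      have h2' : m < hi nx₁ n := by simpa using h2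
      rw [lo_block h1' h2', hi_block h1' h2', a4 n m h1' h2']
      simp
    · simp only [zl, zh, zq] at h1 h2 ⊢
      omega
    · simp only [zl, zh, zq] at h1 h2 ⊢
      have : (Int.ofNat m) = (m : ℤ) := rfl
      omega
    · simp only [zl, zh, zq] at h1 h2 ⊢
      have h1' : lo nx₂ n ≤ m := by omega
      have h2' : m < hi nx₂ n := by omega
      rw [lo_block h1' h2', hi_block h1' h2', b4 n m h1' h2']
      simp
  have g1 : ∀ n, zl nx₁ nx₂ n ≤ n := by
    rintro (n | n)
    · simp only [zl]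
      have := lo_le hnx₁ n
      have : (Int.ofNat n) = (n : ℤ) := rfl
      omega
    · simp only [zl]
      have := lt_hi hnx₂ n
      omega
  have g2 : ∀ n, n < zh nx₁ nx₂ n := by
    rintro (n | n)
    · simp only [zh]
      have := lt_hi hnx₁ n
      have : (Int.ofNat n) = (n : ℤ) := rfl
      omega
    · simp only [zh]
      have := lo_le hnx₂ n
      omega
  have g4 : ∀ n, zl nx₁ nx₂ (zh nx₁ nx₂ n) = zh nx₁ nx₂ n := by
    rintro (n | n)
    · simp only [zh]
      have e : ((hi nx₁ n : ℕ) : ℤ) = Int.ofNat (hi nx₁ n) := rfl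
      rw [e]
      simp only [zl]
      rw [lo_hi hnx₁]
      rfl
    · simp only [zh]
      rcases hl : lo nx₂ n with _ | k
      · show zl nx₁ nx₂ (Int.ofNat 0) = 0
        simp only [zl]
        rfl
      · have h1 : k + 1 = hi nx₂ k := by
          by_contra h2
          have h3 := lo_lo (nx := nx₂) n
          rw [hl, lo_succ_ne h2] at h3
          have := lo_le hnx₂ k
          omega
        have e : -((k + 1 : ℕ) : ℤ) = Int.negSucc k := rfl
        rw [e]
        simp only [zl]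
        rw [← h1]
        rfl
  have sq : HasSum (zq q₁ q₂) ((∑' n, q₁ n) + ∑' n, q₂ n) := by
    apply HasSum.of_nat_of_neg_add_one
    · exact a1.hasSum
    · exact b1.hasSum
  refine ⟨zl nx₁ nx₂, zh nx₁ nx₂, _, _, _, zq q₁ q₂,
    BS_int _ _ g1 g2 (fun n m h1 h2 => ⟨(g3 n m h1 h2).1, (g3 n m h1 h2).2.1⟩) g4,
    sq.summable, ?_, ?_, ?_, ?_, ?_⟩
  · rw [sq.tsum_eq, tsum_of_nat_of_neg_add_one hps1 hps2, mul_add]
    exact add_le_add a2 b2
  · rintro (n | n)
    · exact a3 n
    · exact b3 n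
  · intro n
    have := g1 n
    have := g2 n
    exact (g3 n _ (by omega) (by omega)).2.2
  · rintro (n | n)
    · exact a5 n n (lo_le hnx₁ n) (lt_hi hnx₁ n).le
    · have h1 := lo_le hnx₂ n
      have h2 := lt_hi hnx₂ n
      have h3 := b5 n (n + 1) (by omega) (by omega)
      exact ⟨h3.2, h3.1⟩
  · rintro (n | n)
    · have h1 := a6 n
      simp only [zl, zh, zq]
      push_cast
      exact h1
    · have h1 := b6 n
      simp only [zl, zh, zq]
      push_cast
      have e : (-(lo nx₂ n : ℝ) - -(hi nx₂ n : ℝ)) = (hi nx₂ n : ℝ) - lo nx₂ n := by ring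
      rw [e]
      exact ⟨h1.2, h1.1⟩

/-- Block structures on a disjoint union. -/
lemma BS_sigma {κ : Type} {τ : κ → Type} {s : ∀ j, τ j ≃ τ j} {lo hi rho : ∀ j, τ j → τ j}
    {pos len : ∀ j, τ j → ℝ} (B : ∀ j, BS (s j) (lo j) (hi j) (rho j) (pos j) (len j)) :
    BS (Equiv.sigmaCongrRight s) (fun x => ⟨x.1, lo x.1 x.2⟩) (fun x => ⟨x.1, hi x.1 x.2⟩)
      (fun x => ⟨x.1, rho x.1 x.2⟩) (fun x => pos x.1 x.2) (fun x => len x.1 x.2) := by
  refine ⟨?_, ?_, ?_, ?_, ?_, ?_, ?_, ?_, ?_, ?_, ?_, ?_⟩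
  · rintro ⟨j, x⟩ h
    have h' : lo j (s j x) = s j x := by
      have h1 : (⟨j, lo j (s j x)⟩ : Sigma τ) = ⟨j, s j x⟩ := h
      simpa using h1
    obtain ⟨e1, e2, e3⟩ := (B j).endp x h'
    exact ⟨congrArg (Sigma.mk j) e1, e2, congrArg (Sigma.mk j) e3⟩
  · rintro ⟨j, x⟩ h
    have h' : lo j (s j x) ≠ s j x := fun e => h (congrArg (Sigma.mk j) e)
    obtain ⟨e1, e2, e3, e4, e5⟩ := (B j).inner x h'
    exact ⟨congrArg (Sigma.mk j) e1, congrArg (Sigma.mk j) e2, e3, e4,
      congrArg (Sigma.mk j) e5⟩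
  · rintro ⟨j, x⟩ h
    simp only [Sigma.mk.injEq, heq_eq_eq, true_and] at h ⊢
    exact (B j).start x h
  · rintro ⟨j, x⟩ h
    simp only [Equiv.sigmaCongrRight_apply, Sigma.map, id, Sigma.mk.injEq, heq_eq_eq,
      true_and] at h ⊢
    exact (B j).last x h
  · rintro ⟨j, x⟩
    simp only [Sigma.mk.injEq, heq_eq_eq, true_and]
    exact (B j).lo_lo x
  · rintro ⟨j, x⟩
    simp only [Sigma.mk.injEq, heq_eq_eq, true_and]
    exact (B j).hi_lo x
  · rintro ⟨j, x⟩
    simp only [Sigma.mk.injEq, heq_eq_eq, true_and]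
    exact (B j).lo_hi x
  · rintro ⟨j, x⟩
    simp only [Sigma.mk.injEq, heq_eq_eq, true_and]
    exact (B j).rho_rho x
  · rintro ⟨j, x⟩
    simp only [Sigma.mk.injEq, heq_eq_eq, true_and]
    exact (B j).lo_rho x
  · rintro ⟨j, x⟩
    simp only [Sigma.mk.injEq, heq_eq_eq, true_and]
    exact (B j).hi_rho x
  · rintro ⟨j, x⟩
    exact (B j).len_rho x
  · rintro ⟨j, x⟩
    exact (B j).one_le x

lemma good_sigma {κ : Type} {τ : κ → Type} (s : ∀ j, τ j ≃ τ j) (w : ∀ j, τ j → ℝ)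
    (K : κ → ℝ) (hK : Summable K) (h : ∀ j, Good (s j) (w j) (K j)) :
    Good (Equiv.sigmaCongrRight s) (fun x : Sigma τ => w x.1 x.2) (∑' j, K j) := by
  choose lo hi rho pos len q B g1 g2 g3 g4 g5 g6 using h
  have hsum : Summable (fun x : Sigma τ => q x.1 x.2) := by
    rw [summable_sigma_of_nonneg (fun x => g3 x.1 x.2)]
    exact ⟨g1, Summable.of_nonneg_of_le (fun j => tsum_nonneg (g3 j)) g2 hK⟩
  refine ⟨_, _, _, _, _, fun x => q x.1 x.2, BS_sigma B, hsum, ?_, fun x => g3 x.1 x.2,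
    fun x => g4 x.1 x.2, fun x => g5 x.1 x.2, fun x => g6 x.1 x.2⟩
  rw [hsum.tsum_sigma' g1]
  exact Summable.tsum_le_tsum g2
    (Summable.of_nonneg_of_le (fun j => tsum_nonneg (g3 j)) g2 hK) hK

/-- Transport of block structures along a bijection. -/
lemma good_equiv {ι ι' : Type} (φ : ι ≃ ι') (s : ι ≃ ι) (s' : ι' ≃ ι') (w : ι → ℝ) (w' : ι' → ℝ)
    (K : ℝ) (hs : ∀ i, s' (φ i) = φ (s i)) (hw : ∀ i, w' (φ i) = w i) (h : Good s w K) :
    Good s' w' K := by
  obtain ⟨lo, hi, rho, pos, len, q, B, g1, g2, g3, g4, g5, g6⟩ := h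
  have hs' : ∀ y, s' y = φ (s (φ.symm y)) := fun y => by
    rw [← hs, φ.apply_symm_apply]
  have hw' : ∀ y, w' y = w (φ.symm y) := fun y => by
    rw [← hw, φ.apply_symm_apply]
  refine ⟨fun y => φ (lo (φ.symm y)), fun y => φ (hi (φ.symm y)), fun y => φ (rho (φ.symm y)),
    fun y => pos (φ.symm y), fun y => len (φ.symm y), fun y => q (φ.symm y), ?_, ?_, ?_,
    fun y => g3 _, fun y => by simp only [φ.symm_apply_apply]; exact g4 _,
    fun y => by simp only [hw', φ.symm_apply_apply]; exact g5 _,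
    fun y => by simp only [hw', φ.symm_apply_apply]; exact g6 _⟩
  · constructor
    · intro y h
      simp only [hs', φ.symm_apply_apply, EmbeddingLike.apply_eq_iff_eq] at h ⊢
      exact B.endp _ h
    · intro y h
      simp only [hs', φ.symm_apply_apply, EmbeddingLike.apply_eq_iff_eq, ne_eq] at h ⊢
      exact B.inner _ h
    · intro y h
      have h' : lo (φ.symm y) = φ.symm y := by
        have := congrArg φ.symm h
        simpa using this
      exact B.start _ h'
    · intro y h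
      have h' : lo (φ.symm y) = φ.symm y := by
        have := congrArg φ.symm h
        simpa using this
      simp only [hs', φ.symm_apply_apply, EmbeddingLike.apply_eq_iff_eq]
      exact B.last _ h'
    · intro y; simp only [φ.symm_apply_apply, EmbeddingLike.apply_eq_iff_eq]; exact B.lo_lo _
    · intro y; simp only [φ.symm_apply_apply, EmbeddingLike.apply_eq_iff_eq]; exact B.hi_lo _
    · intro y; simp only [φ.symm_apply_apply, EmbeddingLike.apply_eq_iff_eq]; exact B.lo_hi _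
    · intro y; simp only [φ.symm_apply_apply, B.rho_rho, φ.apply_symm_apply]
    · intro y; simp only [φ.symm_apply_apply, EmbeddingLike.apply_eq_iff_eq]; exact B.lo_rho _
    · intro y; simp only [φ.symm_apply_apply, EmbeddingLike.apply_eq_iff_eq]; exact B.hi_rho _
    · intro y; simp only [φ.symm_apply_apply]; exact B.len_rho _
    · intro y; exact B.one_le _
  · exact (φ.symm.summable_iff (f := q)).mpr g1
  · rw [φ.symm.tsum_eq (f := q)]
    exact g2

end Pool.Agent.H28.AN
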