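import Mathlib
import Pool.Agent.H28.AN.G
import Pool.Agent.H28.AN.I

set_option autoImplicit false
set_option linter.unusedSectionVars false
set_option linter.unusedSimpArgs false

namespace Pool.Agent.H28.AN

open scoped InnerProductSpace
open Submodule

/-- A decomposition of the orbits of a permutation `s` into blocks; `E` is the set of
endpoints, `lo i` and `hi i` are the endpoints of the block of `i`, `rho` is the reflection,
`th i` is the rotation angle at `i` and `thp i` the angle after one step. Orbits without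
endpoints (on which no exchange is made) are allowed. -/
structure CS {ι : Type} (s : ι ≃ ι) (E : ι → Prop) (lo hi rho : ι → ι) (th thp : ι → ℝ) :
    Prop where
  endp : ∀ i, E (s i) → hi i = s i ∧ thp i = Real.pi / 2 ∧ rho i = lo i
  inner : ∀ i, ¬ E (s i) → lo (s i) = lo i ∧ hi (s i) = hi i ∧ th (s i) = thp i ∧
    s (rho (s i)) = rho i
  start : ∀ i, E i → th i = 0
  last : ∀ i, E i → s (rho i) = hi i
  E_lo : ∀ i, E (s i) → E (lo i)
  E_hi : ∀ i, E i → E (hi i)
  lo_self : ∀ i, E i → lo i = i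
  hi_lo : ∀ i, E (s i) → hi (lo i) = hi i
  rho_rho : ∀ i, rho (rho i) = i
  lo_rho : ∀ i, lo (rho i) = lo i
  hi_rho : ∀ i, hi (rho i) = hi i

section
variable {ι : Type} {s : ι ≃ ι} {E : ι → Prop} {lo hi rho : ι → ι} {th thp : ι → ℝ}

open Classical in
/-- The permutation carrying the doubled shift to the cycles. -/
noncomputable def cperm (s : ι ≃ ι) (E : ι → Prop) (lo hi : ι → ι) : ι ⊕ ι → ι ⊕ ι
  | Sum.inl i => if E (s i) then Sum.inr (lo i) else Sum.inl (s i)
  | Sum.inr j => if E (s.symm j) then Sum.inl (hi (s.symm j)) else Sum.inr (s.symm j)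

open Classical in
/-- The signs and phases. -/
noncomputable def csgn (s : ι ≃ ι) (E : ι → Prop) (rho : ι → ι) (ζ : ι → ℂ) : ι ⊕ ι → ℂ
  | Sum.inl i => ζ i
  | Sum.inr j => if E (s.symm j) then -ζ (rho (s.symm j)) else ζ (rho (s.symm j))

lemma norm_csgn {ζ : ι → ℂ} (hζ : ∀ i, ‖ζ i‖ = 1) (i : ι ⊕ ι) : ‖csgn s E rho ζ i‖ = 1 := by
  rcases i with i | j
  · simp [csgn, hζ]
  · simp only [csgn]; split_ifs <;> simp [hζ]

lemma cperm_inj (B : CS s E lo hi rho th thp) : Function.Injective (cperm s E lo hi) := by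
  rintro (i | j) (i' | j') h
  · simp only [cperm] at h
    split_ifs at h with h1 h2 h2
    · have h3 : lo i = lo i' := by simpa using h
      have h4 := (B.endp i h1).2.2
      have h5 := (B.endp i' h2).2.2
      have h6 : rho i = rho i' := by rw [h4, h5, h3]
      have h7 := congrArg rho h6
      rw [B.rho_rho, B.rho_rho] at h7
      rw [h7]
    · have h3 : s i = s i' := by simpa using h
      rw [s.injective h3]
  · simp only [cperm] at h
    split_ifs at h with h1 h2 h2
    · have h3 : lo i = s.symm j' := by simpa using h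
      exact absurd (h3 ▸ B.E_lo i h1) h2
    · have h3 : s i = hi (s.symm j') := by simpa using h
      exact absurd (h3 ▸ B.E_hi _ h2) h1
  · simp only [cperm] at h
    split_ifs at h with h1 h2 h2
    · have h3 : hi (s.symm j) = s i' := by simpa using h
      exact absurd (h3 ▸ B.E_hi _ h1) h2
    · have h3 : s.symm j = lo i' := by simpa using h
      exact absurd (h3 ▸ B.E_lo i' h2) h1
  · simp only [cperm] at h
    split_ifs at h with h1 h2 h2
    · have h3 : hi (s.symm j) = hi (s.symm j') := by simpa using h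
      have h4 := B.last _ h1
      have h5 := B.last _ h2
      have h6 : rho (s.symm j) = rho (s.symm j') := s.injective (by rw [h4, h5, h3])
      have h7 := congrArg rho h6
      rw [B.rho_rho, B.rho_rho] at h7
      rw [s.symm.injective h7]
    · have h3 : s.symm j = s.symm j' := by simpa using h
      rw [s.symm.injective h3]

lemma cperm_surj (B : CS s E lo hi rho th thp) : Function.Surjective (cperm s E lo hi) := by
  rintro (i | j)
  · by_cases h : E i
    · have h1 : E (s (s.symm i)) := by rw [s.apply_symm_apply]; exact h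
      have h2 := (B.endp _ h1).1
      rw [s.apply_symm_apply] at h2
      refine ⟨Sum.inr (s (lo (s.symm i))), ?_⟩
      simp only [cperm]
      rw [s.symm_apply_apply, if_pos (B.E_lo _ h1), B.hi_lo _ h1, h2]
    · refine ⟨Sum.inl (s.symm i), ?_⟩
      simp only [cperm]
      rw [s.apply_symm_apply, if_neg h]
  · by_cases h : E j
    · refine ⟨Sum.inl (rho j), ?_⟩
      simp only [cperm]
      rw [B.last j h, if_pos (B.E_hi j h), B.lo_rho, B.lo_self j h]
    · refine ⟨Sum.inr (s j), ?_⟩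
      simp only [cperm]
      rw [s.symm_apply_apply, if_neg h]

lemma cwt_perm (B : CS s E lo hi rho th thp) (w : ι → ℝ) (i : ι ⊕ ι) :
    bwt s lo hi w (cperm s E lo hi i) = bwt s lo hi w i := by
  rcases i with i | j
  · simp only [cperm]
    split_ifs with h
    · simp only [bwt]
      have h1 : E (s (s.symm (lo i))) := by
        rw [s.apply_symm_apply]; exact B.E_lo i h
      have h2 := (B.endp _ h1).1
      rw [h2, s.apply_symm_apply]
    · simp only [bwt]
      rw [(B.inner i h).1]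
  · simp only [cperm]
    split_ifs with h
    · simp only [bwt]
      rw [B.lo_self _ (B.E_hi _ h)]
    · simp only [bwt]
      have h1 : ¬ E (s (s.symm (s.symm j))) := by
        rw [s.apply_symm_apply]; exact h
      have h2 := (B.inner _ h1).2.1
      rw [s.apply_symm_apply] at h2
      rw [h2]

variable {H : Type} [NormedAddCommGroup H] [InnerProductSpace ℂ H]

lemma cstep_e (B : CS s E lo hi rho th thp) (b : ι ⊕ ι → H) (i : ι) :
    brot b s rho (fun i => Real.cos (th i)) (fun i => Real.sin (th i))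
      (cperm s E lo hi (Sum.inl i))
      = (Real.cos (thp i) : ℂ) • b (Sum.inl (s i))
        + (Real.sin (thp i) : ℂ) • b (Sum.inr (rho i)) := by
  by_cases h : E (s i)
  · have hp : cperm s E lo hi (Sum.inl i) = Sum.inr (lo i) := by simp only [cperm]; rw [if_pos h]
    obtain ⟨e1, e2, e3⟩ := B.endp i h
    rw [hp, e2, e3, Real.cos_pi_div_two, Real.sin_pi_div_two]
    have h1 : E (s (s.symm (lo i))) := by
      rw [s.apply_symm_apply]; exact B.E_lo i h
    have h2 := (B.endp _ h1).2.2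
    have h3 : th (rho (s.symm (lo i))) = 0 := by
      rw [h2]; exact B.start _ (B.E_lo _ h1)
    simp [brot, h3]
  · have hp : cperm s E lo hi (Sum.inl i) = Sum.inl (s i) := by simp only [cperm]; rw [if_neg h]
    rw [hp]
    simp only [brot]
    obtain ⟨-, -, e3, e4⟩ := B.inner i h
    rw [e4, e3]

lemma cstep_f (B : CS s E lo hi rho th thp) (b : ι ⊕ ι → H) (ζ : ι → ℂ) (k : ι) :
    csgn s E rho ζ (Sum.inr (s k)) •
      brot b s rho (fun i => Real.cos (th i)) (fun i => Real.sin (th i))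
        (cperm s E lo hi (Sum.inr (s k)))
      = ζ (rho k) • ((-(Real.sin (thp (rho k))) : ℂ) • b (Sum.inl (s (rho k)))
        + (Real.cos (thp (rho k)) : ℂ) • b (Sum.inr k)) := by
  by_cases h : E k
  · have hp : cperm s E lo hi (Sum.inr (s k)) = Sum.inl (hi k) := by
      simp only [cperm]; rw [s.symm_apply_apply, if_pos h]
    have hsg : csgn s E rho ζ (Sum.inr (s k)) = -ζ (rho k) := by
      simp only [csgn]; rw [s.symm_apply_apply, if_pos h]
    have h1 : s (rho k) = hi k := B.last k h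
    have h2 : thp (rho k) = Real.pi / 2 :=
      (B.endp _ (by rw [h1]; exact B.E_hi k h)).2.1
    have h3 : th (hi k) = 0 := B.start _ (B.E_hi k h)
    rw [hp, hsg, h2, h1, Real.cos_pi_div_two, Real.sin_pi_div_two]
    simp [brot, h3]
  · have hp : cperm s E lo hi (Sum.inr (s k)) = Sum.inr k := by
      simp only [cperm]; rw [s.symm_apply_apply, if_neg h]
    have hsg : csgn s E rho ζ (Sum.inr (s k)) = ζ (rho k) := by
      simp only [csgn]; rw [s.symm_apply_apply, if_neg h]
    have h1 : ¬ E (s (s.symm k)) := by rw [s.apply_symm_apply]; exact h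
    have h2 := (B.inner _ h1).2.2.2
    rw [s.apply_symm_apply] at h2
    have h4 : ¬ E (s (rho k)) := by
      rw [h2]
      intro h5
      have h6 := B.last _ h5
      rw [B.rho_rho, s.apply_symm_apply] at h6
      exact h (h6 ▸ B.E_hi _ h5)
    have h5 : th (rho (s.symm k)) = thp (rho k) := by
      rw [← h2]; exact (B.inner _ h4).2.2.1
    rw [hp, hsg]
    simp only [brot]
    rw [h5, h2]

end

lemma scalar_bound2 {x y c c' τ q : ℝ} (hc : |c| ≤ 1)
    (hcc : |c - c'| ≤ |τ|) (hxy : (x - y) ^ 2 ≤ q) (hy : y ^ 2 * τ ^ 2 ≤ 3 * q) :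
    (c * x - y * c') ^ 2 ≤ 8 * q := by
  have hq : 0 ≤ q := le_trans (sq_nonneg _) hxy
  have h1 : (c * x - y * c') ^ 2 ≤ 2 * (c * (x - y)) ^ 2 + 2 * (y * (c - c')) ^ 2 := by
    have : c * x - y * c' = c * (x - y) + y * (c - c') := by ring
    rw [this]
    nlinarith [sq_nonneg (c * (x - y) - y * (c - c'))]
  have hc2 : c ^ 2 ≤ 1 := by
    rw [← sq_abs]
    nlinarith [abs_nonneg c]
  have h2 : (c * (x - y)) ^ 2 ≤ q := by
    rw [mul_pow]
    nlinarith [sq_nonneg (x - y)]
  have h3 : (c - c') ^ 2 ≤ τ ^ 2 := sq_le_sq.mpr hcc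
  have h4 : (y * (c - c')) ^ 2 ≤ 3 * q := by
    rw [mul_pow]
    exact (mul_le_mul_of_nonneg_left h3 (sq_nonneg _)).trans hy
  linarith

section
variable {ι : Type} {s : ι ≃ ι} {E : ι → Prop} {lo hi rho : ι → ι} {th thp : ι → ℝ}
variable {H : Type} [NormedAddCommGroup H] [InnerProductSpace ℂ H] [CompleteSpace H]

/-- The comparison of the doubled weighted shift with a normal operator. -/
theorem cdiff_bound (BB : CS s E lo hi rho th thp) (b : HilbertBasis (ι ⊕ ι) ℂ H)
    (w : ι → ℝ) (C : ℝ) (hC : ∀ n, |w n| ≤ C) (q : ι → ℝ) (hqρ : ∀ n, q (rho n) = q n)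
    (h1 : ∀ n, (w n - w (lo n)) ^ 2 ≤ q n ∧ (w n - w (hi n)) ^ 2 ≤ q n)
    (h2 : ∀ n, w (lo n) ^ 2 * (th n - thp n) ^ 2 ≤ 3 * q n ∧
      w (hi n) ^ 2 * (th n - thp n) ^ 2 ≤ 3 * q n)
    (ζ : ι → ℂ) (hζ : ∀ i, ‖ζ i‖ = 1) (X : H →L[ℂ] H)
    (hX1 : ∀ n, X (b (Sum.inl n)) = (w n : ℂ) • ζ n • b (Sum.inl (s n)))
    (hX3 : ∀ k, X (b (Sum.inr (s k))) = (w k : ℂ) • ζ (rho k) • b (Sum.inr k)) :
    ∃ N : H →L[ℂ] H, star N * N = N * star N ∧
      (∀ n, ‖(X - N) (b (Sum.inl n))‖ ^ 2 ≤ 128 * q n) ∧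
      (∀ k, ‖(X - N) (b (Sum.inr (s k)))‖ ^ 2 ≤ 128 * q k) := by
  classical
  set c : ι → ℝ := fun n => Real.cos (th n) with hc
  set d : ι → ℝ := fun n => Real.sin (th n) with hs
  have hcs : ∀ n, c n ^ 2 + d n ^ 2 = 1 := fun n => Real.cos_sq_add_sin_sq _
  obtain ⟨r, hr⟩ := exists_brot b s rho BB.rho_rho c d hcs
  obtain ⟨N, hN1, hN⟩ := exists_normal r (cperm s E lo hi) (cperm_inj BB) (cperm_surj BB)
    (csgn s E rho ζ) (norm_csgn hζ) (bwt s lo hi w) C (by rintro (n | k) <;> exact hC _)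
    (cwt_perm BB w)
  have hq0 : ∀ n, 0 ≤ q n := fun n => le_trans (sq_nonneg _) (h1 n).1
  have hb1 : ∀ i, ‖b i‖ ^ 2 ≤ 1 := fun i => by rw [b.orthonormal.1 i]; norm_num
  have habsc : ∀ n, |c n| ≤ 1 := fun n => Real.abs_cos_le_one _
  have habss : ∀ n, |d n| ≤ 1 := fun n => Real.abs_sin_le_one _
  have hcd : ∀ n, |c n - Real.cos (thp n)| ≤ |th n - thp n| :=
    fun n => Real.abs_cos_sub_cos_le _ _
  have hsd : ∀ n, |d n - Real.sin (thp n)| ≤ |th n - thp n| :=
    fun n => Real.abs_sin_sub_sin_le _ _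
  -- the rotated vectors of the first half
  have hE : ∀ n, (X - N) (r (Sum.inl n))
      = ζ n • (((c n * w n - w (lo n) * Real.cos (thp n) : ℝ) : ℂ) • b (Sum.inl (s n))
        + ((d n * w (rho n) - w (lo n) * Real.sin (thp n) : ℝ) : ℂ)
          • b (Sum.inr (rho n))) := by
    intro n
    rw [sub_apply, hN, hr (cperm s E lo hi (Sum.inl n)), cstep_e BB, hr (Sum.inl n)]
    simp only [brot, map_add, map_smul, hX1, hX3, csgn, bwt, BB.rho_rho]
    push_cast
    module
  have hF : ∀ k, (X - N) (r (Sum.inr (s k)))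
      = ζ (rho k) •
        (((-(d (rho k) * w (rho k) - w (hi k) * Real.sin (thp (rho k))) : ℝ) : ℂ)
          • b (Sum.inl (s (rho k)))
        + ((c (rho k) * w k - w (hi k) * Real.cos (thp (rho k)) : ℝ) : ℂ)
          • b (Sum.inr k)) := by
    intro k
    rw [sub_apply, hN, hr (cperm s E lo hi (Sum.inr (s k))), cstep_f BB, hr (Sum.inr (s k))]
    simp only [brot, map_add, map_smul, hX1, hX3, bwt, s.symm_apply_apply]
    push_cast
    module
  have hE2 : ∀ n, ‖(X - N) (r (Sum.inl n))‖ ^ 2 ≤ 32 * q n := by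
    intro n
    rw [hE, norm_smul, hζ, one_mul]
    have e1 := scalar_bound2 (habsc n) (hcd n) (h1 n).1 (h2 n).1
    have g1 := (h1 (rho n)).1
    rw [BB.lo_rho, hqρ] at g1
    have e2 := scalar_bound2 (habss n) (hsd n) g1 (h2 n).1
    rw [← norm_ofReal_sq] at e1 e2
    have e3 := norm_comb (hb1 (Sum.inl (s n))) (hb1 (Sum.inr (rho n))) e1 e2
    linarith
  have hF2 : ∀ k, ‖(X - N) (r (Sum.inr (s k)))‖ ^ 2 ≤ 32 * q k := by
    intro k
    rw [hF, norm_smul, hζ, one_mul]
    have g1 := (h1 (rho k)).2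
    rw [BB.hi_rho, hqρ] at g1
    have g2 := (h2 (rho k)).2
    rw [BB.hi_rho, hqρ] at g2
    have e1 := scalar_bound2 (habss (rho k)) (hsd (rho k)) g1 g2
    have e2 := scalar_bound2 (habsc (rho k)) (hcd (rho k)) (h1 k).2 g2
    rw [← neg_sq, ← norm_ofReal_sq] at e1
    rw [← norm_ofReal_sq] at e2
    have e3 := norm_comb (hb1 (Sum.inl (s (rho k)))) (hb1 (Sum.inr k)) e1 e2
    linarith
  have hcsC : ∀ n, (c n : ℂ) * c n + (d n : ℂ) * d n = 1 := by
    intro n
    have := hcs n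
    have h2 : ((c n * c n + d n * d n : ℝ) : ℂ) = ((1 : ℝ) : ℂ) := by
      congr 1; linarith [this]
    push_cast at h2
    exact h2
  have inv1 : ∀ n, b (Sum.inl n) = (c n : ℂ) • r (Sum.inl n)
      + (-(d n : ℂ)) • r (Sum.inr (s (rho n))) := by
    intro n
    rw [hr, hr]
    simp only [brot, BB.rho_rho, s.symm_apply_apply, smul_add, smul_smul]
    have : b (Sum.inl n) = ((c n : ℂ) * c n + (d n : ℂ) * d n) • b (Sum.inl n) := by
      rw [hcsC, one_smul]
    conv_lhs => rw [this]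
    module
  have inv2 : ∀ n, b (Sum.inr (s (rho n))) = (d n : ℂ) • r (Sum.inl n)
      + (c n : ℂ) • r (Sum.inr (s (rho n))) := by
    intro n
    rw [hr, hr]
    simp only [brot, BB.rho_rho, s.symm_apply_apply, smul_add, smul_smul]
    have : b (Sum.inr (s (rho n)))
        = ((c n : ℂ) * c n + (d n : ℂ) * d n) • b (Sum.inr (s (rho n))) := by
      rw [hcsC, one_smul]
    conv_lhs => rw [this]
    module
  have hc1 : ∀ n, ‖(c n : ℂ)‖ ^ 2 ≤ 1 := fun n => by
    rw [norm_ofReal_sq]; nlinarith [hcs n, sq_nonneg (d n)]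
  have hs1 : ∀ n, ‖(d n : ℂ)‖ ^ 2 ≤ 1 := fun n => by
    rw [norm_ofReal_sq]; nlinarith [hcs n, sq_nonneg (c n)]
  have hs1' : ∀ n, ‖(-(d n : ℂ))‖ ^ 2 ≤ 1 := fun n => by rw [norm_neg]; exact hs1 n
  refine ⟨N, hN1, ?_, ?_⟩
  · intro n
    have f1 := hE2 n
    have f2 := hF2 (rho n)
    rw [hqρ] at f2
    rw [inv1 n, map_add, map_smul, map_smul]
    have f3 := norm_comb f1 f2 (hc1 n) (hs1' n)
    linarith
  · have key : ∀ n, ‖(X - N) (b (Sum.inr (s (rho n))))‖ ^ 2 ≤ 128 * q n := by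
      intro n
      have f1 := hE2 n
      have f2 := hF2 (rho n)
      rw [hqρ] at f2
      rw [inv2 n, map_add, map_smul, map_smul]
      have f3 := norm_comb f1 f2 (hs1 n) (hc1 n)
      linarith
    intro k
    have := key (rho k)
    rw [BB.rho_rho, hqρ] at this
    exact this

end

/-- The permutation `s` with weights `w` has a block decomposition of total cost at most `K`. -/
def Good2 {ι : Type} (s : ι ≃ ι) (w : ι → ℝ) (K : ℝ) : Prop :=
  ∃ (E : ι → Prop) (lo hi rho : ι → ι) (th thp q : ι → ℝ), CS s E lo hi rho th thp ∧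
    Summable q ∧ (∑' n, q n ≤ K) ∧ (∀ n, 0 ≤ q n) ∧ (∀ n, q (rho n) = q n) ∧
    (∀ n, (w n - w (lo n)) ^ 2 ≤ q n ∧ (w n - w (hi n)) ^ 2 ≤ q n) ∧
    (∀ n, w (lo n) ^ 2 * (th n - thp n) ^ 2 ≤ 3 * q n ∧
      w (hi n) ^ 2 * (th n - thp n) ^ 2 ≤ 3 * q n)

lemma good2_of_good {ι : Type} {s : ι ≃ ι} {w : ι → ℝ} {K : ℝ} (h : Good s w K) :
    Good2 s w K := by
  obtain ⟨lo, hi, rho, pos, len, q, B, g1, g2, g3, g4, g5, g6⟩ := h
  have key : ∀ n, (bth pos len n - bthp pos len n) ^ 2 * len n ^ 2 ≤ 3 := by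
    intro n
    have h1 := bthp_sub B n
    have h5 : Real.pi < 3.1416 := Real.pi_lt_d4
    have h6 := Real.pi_pos
    have h7 : (|bth pos len n - bthp pos len n| * len n) ^ 2 = (Real.pi / 2) ^ 2 := by rw [h1]
    rw [mul_pow, sq_abs] at h7
    nlinarith
  have key2 : ∀ n (y : ℝ), y ^ 2 ≤ len n ^ 2 * q n →
      y ^ 2 * (bth pos len n - bthp pos len n) ^ 2 ≤ 3 * q n := by
    intro n y hy
    calc y ^ 2 * (bth pos len n - bthp pos len n) ^ 2
        ≤ (len n ^ 2 * q n) * (bth pos len n - bthp pos len n) ^ 2 :=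
          mul_le_mul_of_nonneg_right hy (sq_nonneg _)
      _ = q n * ((bth pos len n - bthp pos len n) ^ 2 * len n ^ 2) := by ring
      _ ≤ q n * 3 := mul_le_mul_of_nonneg_left (key n) (g3 n)
      _ = 3 * q n := by ring
  refine ⟨fun i => lo i = i, lo, hi, rho, bth pos len, bthp pos len, q, ?_, g1, g2, g3, g4, g5,
    fun n => ⟨key2 n _ (g6 n).1, key2 n _ (g6 n).2⟩⟩
  constructor
  · intro i h
    exact ⟨(B.endp i h).1, bthp_last B h, (B.endp i h).2.2⟩
  · intro i h
    obtain ⟨e1, e2, e3, e4, e5⟩ := B.inner i h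
    exact ⟨e1, e2, bth_succ B h, e5⟩
  · intro i h
    exact bth_lo B h
  · exact B.last
  · intro i _
    exact B.lo_lo i
  · intro i _
    exact B.lo_hi i
  · intro i h
    exact h
  · intro i _
    exact B.hi_lo i
  · exact B.rho_rho
  · exact B.lo_rho
  · exact B.hi_rho

/-- Block structures on a disjoint union. -/
lemma CS_sigma {κ : Type} {τ : κ → Type} {s : ∀ j, τ j ≃ τ j} {E : ∀ j, τ j → Prop}
    {lo hi rho : ∀ j, τ j → τ j} {th thp : ∀ j, τ j → ℝ}
    (B : ∀ j, CS (s j) (E j) (lo j) (hi j) (rho j) (th j) (thp j)) :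
    CS (Equiv.sigmaCongrRight s) (fun x => E x.1 x.2) (fun x => ⟨x.1, lo x.1 x.2⟩)
      (fun x => ⟨x.1, hi x.1 x.2⟩) (fun x => ⟨x.1, rho x.1 x.2⟩)
      (fun x => th x.1 x.2) (fun x => thp x.1 x.2) := by
  refine ⟨?_, ?_, ?_, ?_, ?_, ?_, ?_, ?_, ?_, ?_, ?_⟩
  · rintro ⟨j, x⟩ h
    obtain ⟨e1, e2, e3⟩ := (B j).endp x h
    exact ⟨congrArg (Sigma.mk j) e1, e2, congrArg (Sigma.mk j) e3⟩
  · rintro ⟨j, x⟩ h
    obtain ⟨e1, e2, e3, e4⟩ := (B j).inner x h
    exact ⟨congrArg (Sigma.mk j) e1, congrArg (Sigma.mk j) e2, e3, congrArg (Sigma.mk j) e4⟩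
  · rintro ⟨j, x⟩ h
    exact (B j).start x h
  · rintro ⟨j, x⟩ h
    exact congrArg (Sigma.mk j) ((B j).last x h)
  · rintro ⟨j, x⟩ h
    exact (B j).E_lo x h
  · rintro ⟨j, x⟩ h
    exact (B j).E_hi x h
  · rintro ⟨j, x⟩ h
    exact congrArg (Sigma.mk j) ((B j).lo_self x h)
  · rintro ⟨j, x⟩ h
    exact congrArg (Sigma.mk j) ((B j).hi_lo x h)
  · rintro ⟨j, x⟩
    exact congrArg (Sigma.mk j) ((B j).rho_rho x)
  · rintro ⟨j, x⟩
    exact congrArg (Sigma.mk j) ((B j).lo_rho x)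
  · rintro ⟨j, x⟩
    exact congrArg (Sigma.mk j) ((B j).hi_rho x)

lemma good2_sigma {κ : Type} {τ : κ → Type} (s : ∀ j, τ j ≃ τ j) (w : ∀ j, τ j → ℝ)
    (K : κ → ℝ) (hK : Summable K) (h : ∀ j, Good2 (s j) (w j) (K j)) :
    Good2 (Equiv.sigmaCongrRight s) (fun x : Sigma τ => w x.1 x.2) (∑' j, K j) := by
  choose E lo hi rho th thp q B g1 g2 g3 g4 g5 g6 using h
  have hsum : Summable (fun x : Sigma τ => q x.1 x.2) := by
    rw [summable_sigma_of_nonneg (fun x => g3 x.1 x.2)]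
    exact ⟨g1, Summable.of_nonneg_of_le (fun j => tsum_nonneg (g3 j)) g2 hK⟩
  refine ⟨_, _, _, _, _, _, fun x => q x.1 x.2, CS_sigma B, hsum, ?_, fun x => g3 x.1 x.2,
    fun x => g4 x.1 x.2, fun x => g5 x.1 x.2, fun x => g6 x.1 x.2⟩
  rw [hsum.tsum_sigma' g1]
  exact Summable.tsum_le_tsum g2
    (Summable.of_nonneg_of_le (fun j => tsum_nonneg (g3 j)) g2 hK) hK

/-- Transport of block structures along a bijection. -/
lemma good2_equiv {ι ι' : Type} (φ : ι ≃ ι') (s : ι ≃ ι) (s' : ι' ≃ ι') (w : ι → ℝ)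
    (w' : ι' → ℝ) (K : ℝ) (hs : ∀ i, s' (φ i) = φ (s i)) (hw : ∀ i, w' (φ i) = w i)
    (h : Good2 s w K) : Good2 s' w' K := by
  obtain ⟨E, lo, hi, rho, th, thp, q, B, g1, g2, g3, g4, g5, g6⟩ := h
  have hs' : ∀ y, s' y = φ (s (φ.symm y)) := fun y => by
    rw [← hs, φ.apply_symm_apply]
  have hw' : ∀ y, w' y = w (φ.symm y) := fun y => by
    rw [← hw, φ.apply_symm_apply]
  refine ⟨fun y => E (φ.symm y), fun y => φ (lo (φ.symm y)), fun y => φ (hi (φ.symm y)),
    fun y => φ (rho (φ.symm y)), fun y => th (φ.symm y), fun y => thp (φ.symm y),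
    fun y => q (φ.symm y), ?_, ?_, ?_,
    fun y => g3 _, fun y => by simp only [φ.symm_apply_apply]; exact g4 _,
    fun y => by simp only [hw', φ.symm_apply_apply]; exact g5 _,
    fun y => by simp only [hw', φ.symm_apply_apply]; exact g6 _⟩
  · constructor
    · intro y h
      simp only [hs', φ.symm_apply_apply, EmbeddingLike.apply_eq_iff_eq] at h ⊢
      exact B.endp _ h
    · intro y h
      simp only [hs', φ.symm_apply_apply, EmbeddingLike.apply_eq_iff_eq] at h ⊢
      exact B.inner _ h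
    · intro y h
      exact B.start _ h
    · intro y h
      simp only [hs', φ.symm_apply_apply, EmbeddingLike.apply_eq_iff_eq]
      exact B.last _ h
    · intro y h
      simp only [hs', φ.symm_apply_apply] at h ⊢
      exact B.E_lo _ h
    · intro y h
      simp only [φ.symm_apply_apply]
      exact B.E_hi _ h
    · intro y h
      show φ (lo (φ.symm y)) = y
      rw [B.lo_self _ h, φ.apply_symm_apply]
    · intro y h
      simp only [hs', φ.symm_apply_apply, EmbeddingLike.apply_eq_iff_eq] at h ⊢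
      exact B.hi_lo _ h
    · intro y; simp only [φ.symm_apply_apply, B.rho_rho, φ.apply_symm_apply]
    · intro y; simp only [φ.symm_apply_apply, EmbeddingLike.apply_eq_iff_eq]; exact B.lo_rho _
    · intro y; simp only [φ.symm_apply_apply, EmbeddingLike.apply_eq_iff_eq]; exact B.hi_rho _
  · exact (φ.symm.summable_iff (f := q)).mpr g1
  · rw [φ.symm.tsum_eq (f := q)]
    exact g2

end Pool.Agent.H28.AN
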