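import Mathlib
import Pool.Agent.H28.AN.B
import Pool.Agent.H28.AN.D

set_option autoImplicit false
set_option linter.unusedSectionVars false
set_option linter.unusedSimpArgs false

namespace Pool.Agent.H28.AN

open Finset

/-- Oscillation bound. -/
lemma osc_bound {x y S Λ : ℝ} (hx : 0 ≤ x) (hy : 0 ≤ y) (h : |x ^ 2 - y ^ 2| ≤ S) (hΛ : 1 ≤ Λ)
    (h2 : Λ = 1 ∨ Λ * S ≤ y ^ 2) : (x - y) ^ 2 * Λ ≤ S := by
  have hS : 0 ≤ S := le_trans (abs_nonneg _) h
  have habs : |x ^ 2 - y ^ 2| = |x - y| * (x + y) := by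
    rw [show x ^ 2 - y ^ 2 = (x - y) * (x + y) by ring, abs_mul, abs_of_nonneg (add_nonneg hx hy)]
  have hd0 := abs_nonneg (x - y)
  have hdle : |x - y| ≤ x + y := by rw [abs_le]; constructor <;> linarith
  rw [← sq_abs]
  set d := |x - y|
  rcases h2 with h2 | h2
  · rw [h2, mul_one]
    calc d ^ 2 = d * d := by ring
      _ ≤ d * (x + y) := mul_le_mul_of_nonneg_left hdle hd0
      _ = |x ^ 2 - y ^ 2| := habs.symm
      _ ≤ _ := h
  · have h5 : d * y ≤ S := by
      calc d * y ≤ d * (x + y) := mul_le_mul_of_nonneg_left (by linarith) hd0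
        _ = |x ^ 2 - y ^ 2| := habs.symm
        _ ≤ S := h
    by_cases hy0 : y = 0
    · rw [hy0] at h2
      have h6 : S ≤ 0 := by nlinarith
      have h8 : d * (x + y) ≤ 0 := by rw [← habs]; linarith
      have h9 : d * d ≤ 0 := le_trans (mul_le_mul_of_nonneg_left hdle hd0) h8
      have h10 : d = 0 := by nlinarith
      rw [h10]; simpa using hS
    · have hy1 : 0 < y := lt_of_le_of_ne hy (Ne.symm hy0)
      have hy2 : 0 < y ^ 2 := by positivity
      have h6 : (d * y) ^ 2 ≤ S ^ 2 := pow_le_pow_left₀ (by positivity) h5 2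
      have h7 : d ^ 2 * Λ * y ^ 2 ≤ S * y ^ 2 := by
        calc d ^ 2 * Λ * y ^ 2 = (d * y) ^ 2 * Λ := by ring
          _ ≤ S ^ 2 * Λ := mul_le_mul_of_nonneg_right h6 (by linarith)
          _ = S * (Λ * S) := by ring
          _ ≤ S * y ^ 2 := mul_le_mul_of_nonneg_left h2 hS
      exact le_of_mul_le_mul_right h7 hy2

/-- The conditions on a block `[a, b)` with cost `Q` per element. -/
def BC (w : ℕ → ℝ) (a b : ℕ) (Q : ℝ) : Prop :=
  (∀ m, a ≤ m → m ≤ b → (w m - w a) ^ 2 ≤ Q ∧ (w m - w b) ^ 2 ≤ Q) ∧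
    w a ^ 2 ≤ ((b : ℝ) - a) ^ 2 * Q ∧ w b ^ 2 ≤ ((b : ℝ) - a) ^ 2 * Q

lemma block_ok (w : ℕ → ℝ) (hw : ∀ n, 0 ≤ w n) {a b : ℕ} (hab : a < b) {S R : ℝ}
    (hS : ∀ m, a ≤ m → m ≤ b → |w m ^ 2 - w a ^ 2| ≤ S)
    (h1 : (b : ℝ) - a = 1 ∨ ((b : ℝ) - a) * S ≤ w a ^ 2) (hSR : S ≤ R)
    (h2 : w a ^ 2 + S ≤ 10 * (((b : ℝ) - a) * R)) :
    BC w a b (10 * (R / ((b : ℝ) - a))) := by
  have hΛ : (1 : ℝ) ≤ (b : ℝ) - a := by
    have h2 : ((a + 1 : ℕ) : ℝ) ≤ b := by exact_mod_cast hab
    push_cast at h2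
    linarith
  set Λ := (b : ℝ) - a
  have hΛ0 : 0 < Λ := by linarith
  have hS0 : 0 ≤ S := le_trans (abs_nonneg _) (hS a le_rfl hab.le)
  have key : ∀ m, a ≤ m → m ≤ b → (w m - w a) ^ 2 ≤ R / Λ := by
    intro m hm1 hm2
    rw [le_div_iff₀ hΛ0]
    exact (osc_bound (hw m) (hw a) (hS m hm1 hm2) hΛ h1).trans hSR
  have hR0 : 0 ≤ R / Λ := div_nonneg (hS0.trans hSR) hΛ0.le
  have hmul : Λ ^ 2 * (10 * (R / Λ)) = 10 * (Λ * R) := by field_simp
  refine ⟨fun m hm1 hm2 => ⟨?_, ?_⟩, ?_, ?_⟩
  · linarith [key m hm1 hm2]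
  · have k1 := key m hm1 hm2
    have k2 := key b hab.le le_rfl
    have h6 : (w m - w b) ^ 2 ≤ 2 * (w m - w a) ^ 2 + 2 * (w b - w a) ^ 2 := by
      nlinarith [sq_nonneg ((w m - w a) + (w b - w a))]
    linarith
  · rw [hmul]; linarith
  · rw [hmul]
    have := (abs_le.mp (hS b hab.le le_rfl)).2
    linarith

/-- `lo` only depends on the previous values. -/
lemma lo_congr {nx nx' : ℕ → ℕ} (hnx : ∀ a, a < nx a) (N : ℕ) (h : ∀ a, a < N → nx a = nx' a) :
    ∀ n, n ≤ N → lo nx n = lo nx' n := by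
  intro n
  induction n with
  | zero => intro _; rfl
  | succ n ih =>
    intro hn
    have h1 := ih (by omega)
    have h2 := lo_le hnx n
    rw [lo, lo, ← h1, h (lo nx n) (by omega)]

/-- The greedy choice of block ends. -/
lemma greedy_next (w p P : ℕ → ℝ) (hp : ∀ n, 0 < p n) (hPs : ∀ n, P (n + 1) = P n + p n) :
    ∃ nx : ℕ → ℕ, (∀ a, a < nx a) ∧
      (∀ a, w a ^ 2 < ((nx a : ℝ) + 1 - a) * (P (nx a + 1) - P a)) ∧
      (∀ a b, a < b → b < nx a → ((b : ℝ) + 1 - a) * (P (b + 1) - P a) ≤ w a ^ 2) := by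
  classical
  have hPm : Monotone P := monotone_nat_of_le_succ (fun n => by rw [hPs]; linarith [hp n])
  have hex : ∀ a : ℕ, ∃ b : ℕ, a < b ∧ w a ^ 2 < ((b : ℝ) + 1 - a) * (P (b + 1) - P a) := by
    intro a
    obtain ⟨n, hn⟩ := exists_nat_gt (w a ^ 2 / p a)
    refine ⟨a + n + 1, by omega, ?_⟩
    rw [div_lt_iff₀ (hp a)] at hn
    have h1 : p a ≤ P (a + n + 1 + 1) - P a := by
      have := hPm (show a + 1 ≤ a + n + 1 + 1 by omega)
      rw [hPs a] at this
      linarith
    have h2 : (n : ℝ) * p a ≤ (((a + n + 1 : ℕ) : ℝ) + 1 - a) * (P (a + n + 1 + 1) - P a) := by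
      apply mul_le_mul
      · push_cast; linarith
      · exact h1
      · exact (hp a).le
      · push_cast; have : (0 : ℝ) ≤ n := Nat.cast_nonneg n; linarith
    linarith
  refine ⟨fun a => Nat.find (hex a), fun a => (Nat.find_spec (hex a)).1,
    fun a => (Nat.find_spec (hex a)).2, ?_⟩
  intro a b hab hb
  have h2 := Nat.find_min (hex a) hb
  push Not at h2
  exact h2 hab

/-- Partition of a finite segment into blocks of controlled cost. -/
theorem partition_segment (L : ℕ) (hL : 2 ≤ L) (w p P : ℕ → ℝ) (hw : ∀ n, 0 ≤ w n)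
    (hp : ∀ n, 0 < p n) (hP : ∀ n, P n = ∑ i ∈ range n, p i)
    (hv : ∀ n, |w (n + 1) ^ 2 - w n ^ 2| ≤ p n) (hbig : w 0 ^ 2 < L * P L) (hp0 : p L ≤ P L) :
    ∃ nx : ℕ → ℕ, (∀ a, a < nx a) ∧ lo nx L = L ∧ ∃ Q : ℕ → ℝ, (∀ n, 0 ≤ Q n) ∧
      (∀ n < L, BC w (lo nx n) (hi nx n) (Q (lo nx n))) ∧
      ∑ n ∈ range L, Q (lo nx n) ≤ 40 * P L := by
  classical
  have hPs : ∀ n, P (n + 1) = P n + p n := fun n => by rw [hP, hP, sum_range_succ]
  have hPm : Monotone P := monotone_nat_of_le_succ (fun n => by rw [hPs]; linarith [hp n])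
  have hP00 : P 0 = 0 := by rw [hP]; simp
  have hP0 : ∀ n, 0 ≤ P n := fun n => by rw [← hP00]; exact hPm (Nat.zero_le n)
  have hvar : ∀ a m, a ≤ m → |w m ^ 2 - w a ^ 2| ≤ P m - P a := by
    intro a m h
    induction m, h using Nat.le_induction with
    | base => simp
    | succ k hk ih =>
      rw [hPs]
      have h1 : |w (k + 1) ^ 2 - w a ^ 2| ≤ |w (k + 1) ^ 2 - w k ^ 2| + |w k ^ 2 - w a ^ 2| := by
        have := abs_add_le (w (k + 1) ^ 2 - w k ^ 2) (w k ^ 2 - w a ^ 2)
        rwa [sub_add_sub_cancel] at this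
      have h2 := hv k
      linarith
  obtain ⟨nx, hnx, g1, g2⟩ := greedy_next w p P hp hPs
  -- the length condition for initial parts of greedy blocks
  have hshort : ∀ a b, a < b → b ≤ nx a →
      (b : ℝ) - a = 1 ∨ ((b : ℝ) - a) * (P b - P a) ≤ w a ^ 2 := by
    intro a b hab hb
    by_cases h : b = a + 1
    · left; rw [h]; push_cast; ring
    · right
      have h2 := g2 a (b - 1) (by omega) (by omega)
      have h3 : b - 1 + 1 = b := by omega
      have h4 : ((b - 1 : ℕ) : ℝ) + 1 = b := by exact_mod_cast h3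
      rw [h3, h4] at h2
      exact h2
  have hΛ : ∀ a b : ℕ, a < b → (1 : ℝ) ≤ (b : ℝ) - a := by
    intro a b hab
    have h2 : ((a + 1 : ℕ) : ℝ) ≤ b := by exact_mod_cast hab
    push_cast at h2
    linarith
  have hPS : ∀ a b m, a ≤ m → m ≤ b → |w m ^ 2 - w a ^ 2| ≤ P b - P a := by
    intro a b m h1 h2
    have := hvar a m h1
    have := hPm h2
    linarith
  -- complete greedy blocks
  let G : ℕ → ℝ := fun a => (P (nx a + 1) - P a) / ((nx a : ℝ) - a)
  have hGm : ∀ a, G a * ((nx a : ℝ) - a) = P (nx a + 1) - P a := by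
    intro a
    have := hΛ a (nx a) (hnx a)
    exact div_mul_cancel₀ _ (by linarith)
  have hG0 : ∀ a, 0 ≤ G a := by
    intro a
    have := hΛ a (nx a) (hnx a)
    apply div_nonneg
    · have := hPm (show a ≤ nx a + 1 by have := hnx a; omega)
      linarith
    · linarith
  have hfull : ∀ a, BC w a (nx a) (10 * G a) := by
    intro a
    have h1 := hΛ a (nx a) (hnx a)
    have h2 := g1 a
    have h3 := hPm (show nx a ≤ nx a + 1 by omega)
    have h4 := hPm (hnx a).le
    apply block_ok w hw (hnx a) (S := P (nx a) - P a) (R := P (nx a + 1) - P a)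
      (fun m hm1 hm2 => hPS a (nx a) m hm1 hm2) (hshort a (nx a) (hnx a) le_rfl) (by linarith)
    nlinarith
  by_cases hcase : lo nx L = L
  · -- the last block is complete
    refine ⟨nx, hnx, hcase, fun a => 10 * G a, fun a => by have := hG0 a; positivity,
      fun n _ => hfull (lo nx n), ?_⟩
    have h1 := sum_blocks nx hnx p (fun n => (hp n).le) P hP G hGm L
    rw [hcase] at h1
    rw [← mul_sum]
    have h2 := hPs L
    have h3 : ((L : ℝ) - L) * G L = 0 := by ring
    nlinarith [hP0 L]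
  -- the last block is incomplete
  have hβL : lo nx L < L := lt_of_le_of_ne (lo_le hnx L) hcase
  have hLhi := lt_hi hnx L
  set β := lo nx L with hβ
  have hnβ : L < nx β := hLhi
  have hβ0 : β ≠ 0 := by
    intro h0
    rw [h0] at hnβ
    have h1 := hshort 0 L (by omega) hnβ.le
    rcases h1 with h1 | h1
    · push_cast at h1
      have h2 : (2 : ℝ) ≤ L := by exact_mod_cast hL
      linarith
    · rw [hP00] at h1
      push_cast at h1
      linarith
  have hββ : lo nx β = β := lo_lo L
  set α := lo nx (β - 1) with hα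
  have hαβ : nx α = β := by
    have h1 : β - 1 + 1 = hi nx (β - 1) := by
      by_contra h2
      have h3 := lo_succ_ne h2
      rw [show β - 1 + 1 = β by omega, hββ] at h3
      have := lo_le hnx (β - 1)
      omega
    have h2 : hi nx (β - 1) = nx α := rfl
    omega
  have hαα : lo nx α = α := lo_lo _
  have hαlt : α < β := by rw [← hαβ]; exact hnx α
  set σ := P L - P α with hσ
  have hσ0 : 0 < σ := by
    have h1 := hPm (show α + 1 ≤ L by omega)
    rw [hPs] at h1
    have := hp α
    linarith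
  have hσL : σ ≤ P L := by have := hP0 α; linarith
  have hu : w α ^ 2 < ((β : ℝ) + 1 - α) * σ := by
    have h1 := g1 α
    rw [hαβ] at h1
    have h2 := hPm (show β + 1 ≤ L by omega)
    have h3 := hΛ α β hαlt
    nlinarith
  -- the choice of the cut
  obtain ⟨t, ht1, ht2, T2, T3, T4, T5⟩ : ∃ t : ℕ, α < t ∧ t < L ∧
      ((t : ℝ) - α = 1 ∨ ((t : ℝ) - α) * (P t - P α) ≤ w α ^ 2) ∧
      ((L : ℝ) - t = 1 ∨ ((L : ℝ) - t) * (P L - P t) ≤ w t ^ 2) ∧
      w α ^ 2 + σ ≤ 5 * (((t : ℝ) - α) * σ) ∧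
      w α ^ 2 + σ ≤ 9 * (((L : ℝ) - t) * σ) := by
    have hβ2 : (L : ℝ) - β = 1 ∨ ((L : ℝ) - β) * (P L - P β) ≤ w β ^ 2 :=
      hshort β L hβL hnβ.le
    have hβ1 := hshort α β hαlt (by rw [hαβ])
    have hl1 := hΛ α β hαlt
    have hl2 := hΛ β L hβL
    have T4β : w α ^ 2 + σ ≤ 5 * (((β : ℝ) - α) * σ) := by nlinarith
    by_cases c1 : w α ^ 2 ≤ 8 * σ
    · refine ⟨β, hαlt, hβL, hβ1, hβ2, T4β, ?_⟩
      nlinarith
    · push Not at c1
      by_cases c2 : w α ^ 2 ≤ 4 * (((L : ℝ) - β) * σ)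
      · refine ⟨β, hαlt, hβL, hβ1, hβ2, T4β, ?_⟩
        nlinarith
      · push Not at c2
        set u := w α ^ 2 with hudef
        let k := ⌊u / (2 * σ)⌋₊
        have hk1 : (k : ℝ) * (2 * σ) ≤ u := by
          have := Nat.floor_le (show 0 ≤ u / (2 * σ) by positivity)
          rwa [le_div_iff₀ (by positivity)] at this
        have hk2 : u < ((k : ℝ) + 1) * (2 * σ) := by
          have := Nat.lt_floor_add_one (u / (2 * σ))
          rwa [div_lt_iff₀ (by positivity)] at this
        have hk4 : 3 < (k : ℝ) := by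
          by_contra hc
          push Not at hc
          nlinarith
        have hkβ : (L : ℝ) - β < k := by
          by_contra hc
          push Not at hc
          nlinarith
        have hkα : (k : ℝ) < (L : ℝ) - α := by
          by_contra hc
          push Not at hc
          have : (β : ℝ) + 1 ≤ L := by
            have : β + 1 ≤ L := hβL
            exact_mod_cast this
          nlinarith
        have hkL : k < L - α := by
          have h1 : ((L - α : ℕ) : ℝ) = (L : ℝ) - α := by
            rw [Nat.cast_sub (by omega)]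
          rw [← h1] at hkα
          exact_mod_cast hkα
        have hkβ' : L - β < k := by
          have h1 : ((L - β : ℕ) : ℝ) = (L : ℝ) - β := by
            rw [Nat.cast_sub (by omega)]
          rw [← h1] at hkβ
          exact_mod_cast hkβ
        have htc : ((L - k : ℕ) : ℝ) = (L : ℝ) - k := by
          rw [Nat.cast_sub (by omega)]
        have hβL' : (β : ℝ) + 1 ≤ L := by
          have : β + 1 ≤ L := hβL
          exact_mod_cast this
        have hPt1 := hPm (show α ≤ L - k by omega)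
        have hwt : u ≤ w (L - k) ^ 2 + σ := by
          have h1 := (abs_le.mp (hvar α (L - k) (by omega))).1
          have h2 := hPm (show L - k ≤ L by omega)
          rw [← hudef] at h1
          linarith
        refine ⟨L - k, by omega, by omega, hshort α (L - k) (by omega) (by rw [hαβ]; omega),
          ?_, ?_, ?_⟩
        · right
          rw [htc]
          have h2 : P L - P (L - k) ≤ σ := by linarith
          have h3 : 0 ≤ P L - P (L - k) := by
            have := hPm (show L - k ≤ L by omega)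
            linarith
          have h5 : ((L : ℝ) - ((L : ℝ) - k)) * (P L - P (L - k)) ≤ k * σ := by
            have : (L : ℝ) - ((L : ℝ) - k) = k := by ring
            rw [this]
            exact mul_le_mul_of_nonneg_left h2 (by positivity)
          nlinarith
        · rw [htc]
          nlinarith
        · rw [htc]
          have : (L : ℝ) - ((L : ℝ) - k) = k := by ring
          rw [this]
          nlinarith
  -- the modified block ends
  let nx' : ℕ → ℕ := fun a => if a = α then t else if a = t then L else nx a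
  have hnx' : ∀ a, a < nx' a := by
    intro a
    simp only [nx']
    split_ifs with h1 h2
    · rw [h1]; exact ht1
    · rw [h2]; exact ht2
    · exact hnx a
  have e1 : ∀ a, a < α → nx' a = nx a := by
    intro a ha
    simp only [nx']
    rw [if_neg (by omega), if_neg (by omega)]
  have e2 : ∀ n, n ≤ α → lo nx' n = lo nx n := lo_congr hnx' α e1
  have e3 : lo nx' α = α := by rw [e2 α le_rfl, hαα]
  have e4 : nx' α = t := by simp [nx']
  have hne : t ≠ α := by omega
  have e5 : nx' t = L := by simp [nx', hne]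
  have e6 : hi nx' α = t := by unfold hi; rw [e3, e4]
  have e7 : lo nx' t = t := by
    have := lo_hi hnx' α
    rw [e6] at this
    exact this
  have e8 : hi nx' t = L := by unfold hi; rw [e7, e5]
  have e9 : lo nx' L = L := by
    have := lo_hi hnx' t
    rw [e8] at this
    exact this
  have f1 : ∀ n, α ≤ n → n < t → lo nx' n = α := by
    intro n h1 h2
    have := lo_block (nx := nx') (n := α) (m := n) (by rw [e3]; exact h1) (by rw [e6]; exact h2)
    rw [this, e3]
  have f2 : ∀ n, t ≤ n → n < L → lo nx' n = t := by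
    intro n h1 h2
    have := lo_block (nx := nx') (n := t) (m := n) (by rw [e7]; exact h1) (by rw [e8]; exact h2)
    rw [this, e7]
  let Q : ℕ → ℝ := fun a => if a = α then 10 * (σ / ((t : ℝ) - α))
    else if a = t then 10 * (σ / ((L : ℝ) - t)) else 10 * G a
  have hΛ1 := hΛ α t ht1
  have hΛ2 := hΛ t L ht2
  have hQα : Q α = 10 * (σ / ((t : ℝ) - α)) := by simp [Q]
  have hQt : Q t = 10 * (σ / ((L : ℝ) - t)) := by simp [Q, hne]
  have hQ0 : ∀ n, 0 ≤ Q n := by
    intro n
    simp only [Q]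
    split_ifs
    · have : 0 ≤ σ / ((t : ℝ) - α) := div_nonneg hσ0.le (by linarith)
      linarith
    · have : 0 ≤ σ / ((L : ℝ) - t) := div_nonneg hσ0.le (by linarith)
      linarith
    · have := hG0 n
      linarith
  have hPtL := hPm ht2.le
  have hPαt := hPm ht1.le
  have B1 : BC w α t (Q α) := by
    rw [hQα]
    apply block_ok w hw ht1 (S := P t - P α) (R := σ) (fun m h1 h2 => hPS α t m h1 h2) T2
      (by linarith)
    nlinarith
  have B2 : BC w t L (Q t) := by
    rw [hQt]
    apply block_ok w hw ht2 (S := P L - P t) (R := σ) (fun m h1 h2 => hPS t L m h1 h2) T3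
      (by linarith)
    have h1 := (abs_le.mp (hvar α t ht1.le)).2
    nlinarith
  refine ⟨nx', hnx', e9, Q, hQ0, ?_, ?_⟩
  · intro n hn
    rcases lt_or_ge n α with h1 | h1
    · have h2 := lo_le hnx' n
      have h3 : hi nx' n = nx (lo nx' n) := by
        unfold hi
        exact e1 _ (by omega)
      have h4 : Q (lo nx' n) = 10 * G (lo nx' n) := by
        simp only [Q]; rw [if_neg (by omega), if_neg (by omega)]
      rw [h3, h4]
      exact hfull _
    · rcases lt_or_ge n t with h2 | h2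
      · have h3 : hi nx' n = t := by unfold hi; rw [f1 n h1 h2, e4]
        rw [h3, f1 n h1 h2]
        exact B1
      · have h3 : hi nx' n = L := by unfold hi; rw [f2 n h2 hn, e5]
        rw [h3, f2 n h2 hn]
        exact B2
  · rw [range_eq_Ico, ← sum_Ico_consecutive _ (Nat.zero_le α) (by omega : α ≤ L),
      ← sum_Ico_consecutive _ ht1.le ht2.le]
    have s1 : ∑ n ∈ Ico 0 α, Q (lo nx' n) = ∑ n ∈ Ico 0 α, 10 * G (lo nx n) := by
      apply sum_congr rfl
      intro n hn
      rw [mem_Ico] at hn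
      have h2 := lo_le hnx n
      rw [e2 n (by omega)]
      simp only [Q]; rw [if_neg (by omega), if_neg (by omega)]
    have s2 : ∑ n ∈ Ico α t, Q (lo nx' n) = 10 * σ := by
      have : ∑ n ∈ Ico α t, Q (lo nx' n) = ∑ n ∈ Ico α t, Q α := by
        apply sum_congr rfl
        intro n hn
        rw [mem_Ico] at hn
        rw [f1 n hn.1 hn.2]
      rw [this, sum_const, Nat.card_Ico, nsmul_eq_mul, Nat.cast_sub ht1.le, hQα]
      field_simp
    have s3 : ∑ n ∈ Ico t L, Q (lo nx' n) = 10 * σ := by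
      have : ∑ n ∈ Ico t L, Q (lo nx' n) = ∑ n ∈ Ico t L, Q t := by
        apply sum_congr rfl
        intro n hn
        rw [mem_Ico] at hn
        rw [f2 n hn.1 hn.2]
      rw [this, sum_const, Nat.card_Ico, nsmul_eq_mul, Nat.cast_sub ht2.le, hQt]
      field_simp
    have s4 := sum_blocks nx hnx p (fun n => (hp n).le) P hP G hGm α
    rw [hαα] at s4
    have s5 : ((α : ℝ) - α) * G α = 0 := by ring
    rw [s1, s2, s3, ← mul_sum, ← range_eq_Ico]
    have s6 := hPm (show α ≤ L by omega)
    have s7 := hPm (show α + 1 ≤ L by omega)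
    linarith

end Pool.Agent.H28.AN
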