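import Mathlib
import Pool.Agent.H28.AN.E
import Pool.Agent.H28.AN.G2
import Pool.Agent.H28.AN.M

set_option autoImplicit false
set_option linter.unusedSectionVars false
set_option linter.unusedSimpArgs false

namespace Pool.Agent.H28.AN

open Finset

lemma zmod_sum (L : ℕ) [NeZero L] (f : ZMod L → ℝ) :
    ∑ x, f x = ∑ n ∈ range L, f (n : ZMod L) := by
  refine sum_bij' (fun x _ => ZMod.val x) (fun n _ => (n : ZMod L)) ?_ ?_ ?_ ?_ ?_
  · intro x _; exact mem_range.mpr (ZMod.val_lt x)
  · intro n _; exact mem_univ _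
  · intro x _; exact ZMod.natCast_zmod_val x
  · intro n hn; exact ZMod.val_cast_of_lt (mem_range.mp hn)
  · intro x _; rw [ZMod.natCast_zmod_val]

/-- The block structure of a cycle. -/
lemma CS_cyc (L : ℕ) [NeZero L] (nx : ℕ → ℕ) (hnx : ∀ a, a < nx a) (hL : lo nx L = L) :
    CS (Equiv.addRight (1 : ZMod L)) (fun x => lo nx x.val = x.val)
      (fun x => ((lo nx x.val : ℕ) : ZMod L)) (fun x => ((hi nx x.val : ℕ) : ZMod L))
      (fun x => ((rho nx x.val : ℕ) : ZMod L)) (fun x => th nx x.val)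
      (fun x => thp nx x.val) := by
  have hhi : ∀ n, n < L → hi nx n ≤ L := by
    intro n hn
    by_contra h
    push Not at h
    have h1 := lo_le hnx n
    have h2 := lo_block (nx := nx) (n := n) (m := L) (by omega) h
    omega
  have vl : ∀ n : ℕ, n < L → ((n : ℕ) : ZMod L).val = n := fun n hn => ZMod.val_cast_of_lt hn
  have vc : ∀ x : ZMod L, ((x.val : ℕ) : ZMod L) = x := fun x => ZMod.natCast_zmod_val x
  have hx1 : ∀ x : ZMod L, x + 1 = ((x.val + 1 : ℕ) : ZMod L) := by
    intro x; push_cast; rw [vc]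
  have hval1 : ∀ x : ZMod L, x.val + 1 < L → (x + 1).val = x.val + 1 := by
    intro x hx; rw [hx1, vl _ hx]
  have hvalL : ∀ x : ZMod L, x.val + 1 = L → (x + 1).val = 0 := by
    intro x hx
    have : x + 1 = 0 := by rw [hx1, hx]; simp
    rw [this]; simp
  have hsucc : ∀ x : ZMod L, lo nx (x + 1).val = (x + 1).val ↔ x.val + 1 = hi nx x.val := by
    intro x
    have h0 := ZMod.val_lt x
    have h1 := lo_le_lt hnx x.val
    rcases Nat.lt_or_ge (x.val + 1) L with h | h
    · rw [hval1 x h]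
      constructor
      · intro h2
        by_contra h3
        rw [lo_succ_ne h3] at h2
        omega
      · intro h2
        exact lo_succ_eq h2
    · have h2 : x.val + 1 = L := by omega
      have h3 := hhi _ h0
      rw [hvalL x h2]
      constructor
      · intro _; omega
      · intro _; rfl
  have hin : ∀ x : ZMod L, ¬ lo nx (x + 1).val = (x + 1).val →
      x.val + 1 ≠ hi nx x.val ∧ (x + 1).val = x.val + 1 := by
    intro x hx
    have h0 := ZMod.val_lt x
    have h1 := lo_le_lt hnx x.val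
    have h2 : x.val + 1 ≠ hi nx x.val := fun h => hx ((hsucc x).mpr h)
    have h3 := hhi _ h0
    exact ⟨h2, hval1 x (by omega)⟩
  have hlolt : ∀ x : ZMod L, lo nx x.val < L := fun x => by
    have h0 := ZMod.val_lt x
    have h1 := lo_le_lt hnx x.val
    omega
  have hrholt : ∀ x : ZMod L, rho nx x.val < L := fun x => by
    have h0 := ZMod.val_lt x
    have h1 := rho_mem hnx x.val
    have h2 := hhi _ h0
    omega
  refine ⟨?_, ?_, ?_, ?_, ?_, ?_, ?_, ?_, ?_, ?_, ?_⟩
  · intro x h
    simp only [Equiv.coe_addRight] at h ⊢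
    have h1 := (hsucc x).mp h
    refine ⟨?_, thp_last hnx h1, ?_⟩
    · rw [← h1, hx1]
    · rw [rho_last hnx h1]
  · intro x h
    simp only [Equiv.coe_addRight] at h ⊢
    obtain ⟨h1, h2⟩ := hin x h
    have h3 : hi nx (x.val + 1) = hi nx x.val := by unfold hi; rw [lo_succ_ne h1]
    rw [h2]
    refine ⟨by rw [lo_succ_ne h1], by rw [h3], th_succ h1, ?_⟩
    have h4 := rho_succ hnx h1
    rw [← h4]; push_cast; rfl
  · intro x h
    exact th_lo h
  · intro x h
    simp only [Equiv.coe_addRight]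
    have h1 := lo_le_lt hnx x.val
    have h2 : rho nx x.val + 1 = hi nx x.val := by
      unfold rho
      omega
    rw [← h2]; push_cast; rfl
  · intro x _
    show lo nx ((lo nx x.val : ℕ) : ZMod L).val = ((lo nx x.val : ℕ) : ZMod L).val
    rw [vl _ (hlolt x)]
    exact lo_lo _
  · intro x _
    show lo nx ((hi nx x.val : ℕ) : ZMod L).val = ((hi nx x.val : ℕ) : ZMod L).val
    have h0 := ZMod.val_lt x
    rcases Nat.lt_or_ge (hi nx x.val) L with h | h
    · rw [vl _ h]; exact lo_hi hnx _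
    · have h2 := hhi _ h0
      have h3 : hi nx x.val = L := by omega
      rw [h3]
      simp [lo]
  · intro x h
    show ((lo nx x.val : ℕ) : ZMod L) = x
    rw [h, vc]
  · intro x _
    show ((hi nx ((lo nx x.val : ℕ) : ZMod L).val : ℕ) : ZMod L) = _
    rw [vl _ (hlolt x), hi_lo]
  · intro x
    show ((rho nx ((rho nx x.val : ℕ) : ZMod L).val : ℕ) : ZMod L) = x
    rw [vl _ (hrholt x), rho_rho hnx, vc]
  · intro x
    show ((lo nx ((rho nx x.val : ℕ) : ZMod L).val : ℕ) : ZMod L) = _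
    rw [vl _ (hrholt x), lo_rho hnx]
  · intro x
    show ((hi nx ((rho nx x.val : ℕ) : ZMod L).val : ℕ) : ZMod L) = _
    rw [vl _ (hrholt x), hi_rho hnx]

/-- The structure without exchanges on a cycle. -/
lemma CS_triv (L : ℕ) [NeZero L] :
    CS (Equiv.addRight (1 : ZMod L)) (fun _ => False) (fun _ => 0) (fun _ => 0)
      (fun x => -1 - x) (fun _ => 0) (fun _ => 0) := by
  refine ⟨?_, ?_, ?_, ?_, ?_, ?_, ?_, ?_, ?_, ?_, ?_⟩
  · intro _ h; exact h.elim
  · intro x _
    refine ⟨rfl, rfl, rfl, ?_⟩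
    simp only [Equiv.coe_addRight]
    ring
  · intro _ h; exact h.elim
  · intro _ h; exact h.elim
  · intro _ h; exact h.elim
  · intro _ h; exact h.elim
  · intro _ h; exact h.elim
  · intro _ h; exact h.elim
  · intro x; ring
  · intro _; rfl
  · intro _; rfl

/-- Block decompositions of cycles. -/
theorem good2_cyc (L : ℕ) [NeZero L] (w p : ZMod L → ℝ) (hw : ∀ x, 0 ≤ w x)
    (hp : ∀ x, 0 < p x) (hv : ∀ x, |w (x + 1) ^ 2 - w x ^ 2| ≤ p x) :
    Good2 (Equiv.addRight (1 : ZMod L)) w (40 * ∑' x, p x) := by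
  classical
  let P : ℕ → ℝ := fun n => ∑ i ∈ range n, p (i : ZMod L)
  have hPL : ∑' x, p x = P L := by rw [tsum_fintype, zmod_sum]
  rw [hPL]
  have hPs : ∀ n, P (n + 1) = P n + p (n : ZMod L) := fun n => sum_range_succ _ _
  have hPm : Monotone P := monotone_nat_of_le_succ (fun n => by rw [hPs]; linarith [hp n])
  have hP00 : P 0 = 0 := by simp [P]
  have hL1 : 1 ≤ L := Nat.one_le_iff_ne_zero.mpr (NeZero.ne L)
  have hvn : ∀ n : ℕ, |w ((n + 1 : ℕ) : ZMod L) ^ 2 - w (n : ZMod L) ^ 2| ≤ p (n : ZMod L) := by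
    intro n
    push_cast
    exact hv _
  have hvar : ∀ m : ℕ, |w (m : ZMod L) ^ 2 - w ((0 : ℕ) : ZMod L) ^ 2| ≤ P m := by
    intro m
    induction m with
    | zero => simp [P]
    | succ k ih =>
      rw [hPs]
      have h1 : |w ((k + 1 : ℕ) : ZMod L) ^ 2 - w ((0 : ℕ) : ZMod L) ^ 2|
          ≤ |w ((k + 1 : ℕ) : ZMod L) ^ 2 - w (k : ZMod L) ^ 2|
            + |w (k : ZMod L) ^ 2 - w ((0 : ℕ) : ZMod L) ^ 2| := by
        have := abs_add_le (w ((k + 1 : ℕ) : ZMod L) ^ 2 - w (k : ZMod L) ^ 2)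
          (w (k : ZMod L) ^ 2 - w ((0 : ℕ) : ZMod L) ^ 2)
        rwa [sub_add_sub_cancel] at this
      have h2 := hvn k
      linarith
  have hLr : (1 : ℝ) ≤ L := by exact_mod_cast hL1
  by_cases hc : (L : ℝ) = 1 ∨ (L : ℝ) * P L ≤ w ((0 : ℕ) : ZMod L) ^ 2
  · -- no exchange
    let q : ZMod L → ℝ := fun x => (w x - w 0) ^ 2 + (w (-1 - x) - w 0) ^ 2
    refine ⟨_, _, _, _, _, _, q, CS_triv L, Summable.of_finite, ?_, fun x => by positivity,
      ?_, ?_, ?_⟩
    · rw [tsum_fintype]
      have h1 : ∑ x : ZMod L, (w (-1 - x) - w 0) ^ 2 = ∑ x : ZMod L, (w x - w 0) ^ 2 :=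
        Equiv.sum_comp (Equiv.subLeft (-1 : ZMod L)) (fun x => (w x - w 0) ^ 2)
      have h2 : ∑ x : ZMod L, (w x - w 0) ^ 2 ≤ P L := by
        rw [zmod_sum]
        have h3 : ∀ n ∈ range L, (w (n : ZMod L) - w 0) ^ 2 ≤ P L / L := by
          intro n hn
          rw [mem_range] at hn
          rw [le_div_iff₀ (by linarith)]
          have h4 := (hvar n).trans (hPm hn.le)
          have h5 := osc_bound (hw _) (hw _) h4 hLr hc
          simpa using h5
        refine (sum_le_card_nsmul _ _ _ h3).trans ?_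
        rw [card_range, nsmul_eq_mul]
        field_simp
        exact le_rfl
      have h3 : ∑ x, q x = ∑ x : ZMod L, (w x - w 0) ^ 2
          + ∑ x : ZMod L, (w (-1 - x) - w 0) ^ 2 := sum_add_distrib
      rw [h3, h1]
      have := hPm hL1
      have : 0 ≤ P L := by rw [← hP00]; exact hPm (Nat.zero_le L)
      linarith
    · intro x
      simp only [q]
      rw [sub_sub_cancel, add_comm]
    · intro x
      have h1 : (w x - w 0) ^ 2 ≤ q x := by
        simp only [q]; linarith [sq_nonneg (w (-1 - x) - w 0)]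
      exact ⟨h1, h1⟩
    · intro x
      have h1 : 0 ≤ q x := by positivity
      constructor <;> · simp only [sub_self]; nlinarith
  · push Not at hc
    obtain ⟨hc1, hc2⟩ := hc
    have hL2 : 2 ≤ L := by
      have : L ≠ 1 := fun h => hc1 (by rw [h]; simp)
      omega
    have hp0 : p ((L : ℕ) : ZMod L) ≤ P L := by
      have h1 : ((L : ℕ) : ZMod L) = ((0 : ℕ) : ZMod L) := by simp
      rw [h1]
      have h2 := hPm hL1
      rw [hPs 0, hP00] at h2
      linarith
    obtain ⟨nx, hnx, hLL, Q, hQ0, hBC, hsum⟩ := partition_segment L hL2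
      (fun n => w (n : ZMod L)) (fun n => p (n : ZMod L)) P (fun n => hw _) (fun n => hp _)
      (fun n => rfl) hvn hc2 hp0
    have vc : ∀ x : ZMod L, ((x.val : ℕ) : ZMod L) = x := fun x => ZMod.natCast_zmod_val x
    have hhi : ∀ n, n < L → hi nx n ≤ L := by
      intro n hn
      by_contra h
      push Not at h
      have h1 := lo_le hnx n
      have h2 := lo_block (nx := nx) (n := n) (m := L) (by omega) h
      omega
    let q : ZMod L → ℝ := fun x => Q (lo nx x.val)
    have key : ∀ n, (th nx n - thp nx n) ^ 2 * ((hi nx n : ℝ) - lo nx n) ^ 2 ≤ 3 := by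
      intro n
      have h1 := thp_sub hnx n
      have h5 : Real.pi < 3.1416 := Real.pi_lt_d4
      have h6 := Real.pi_pos
      have h7 : (|th nx n - thp nx n| * ((hi nx n : ℝ) - lo nx n)) ^ 2 = (Real.pi / 2) ^ 2 := by
        rw [h1]
      rw [mul_pow, sq_abs] at h7
      nlinarith
    have key2 : ∀ n (y : ℝ), y ^ 2 ≤ ((hi nx n : ℝ) - lo nx n) ^ 2 * Q (lo nx n) →
        y ^ 2 * (th nx n - thp nx n) ^ 2 ≤ 3 * Q (lo nx n) := by
      intro n y hy
      calc y ^ 2 * (th nx n - thp nx n) ^ 2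
          ≤ (((hi nx n : ℝ) - lo nx n) ^ 2 * Q (lo nx n)) * (th nx n - thp nx n) ^ 2 :=
            mul_le_mul_of_nonneg_right hy (sq_nonneg _)
        _ = Q (lo nx n) * ((th nx n - thp nx n) ^ 2 * ((hi nx n : ℝ) - lo nx n) ^ 2) := by ring
        _ ≤ Q (lo nx n) * 3 := mul_le_mul_of_nonneg_left (key n) (hQ0 _)
        _ = 3 * Q (lo nx n) := by ring
    refine ⟨_, _, _, _, _, _, q, CS_cyc L nx hnx hLL, Summable.of_finite, ?_, fun x => hQ0 _,
      ?_, ?_, ?_⟩
    · rw [tsum_fintype, zmod_sum]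
      refine le_trans (le_of_eq ?_) hsum
      apply sum_congr rfl
      intro n hn
      simp only [q]
      rw [ZMod.val_cast_of_lt (mem_range.mp hn)]
    · intro x
      simp only [q]
      have h0 := ZMod.val_lt x
      have h1 := rho_mem hnx x.val
      have h2 := hhi _ h0
      rw [ZMod.val_cast_of_lt (show rho nx x.val < L by omega), lo_rho hnx]
    · intro x
      have h0 := ZMod.val_lt x
      have h1 := lo_le_lt hnx x.val
      have h2 := (hBC x.val h0).1 x.val h1.1 h1.2.le
      simp only [vc] at h2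
      exact h2
    · intro x
      have h0 := ZMod.val_lt x
      have h2 := (hBC x.val h0).2
      exact ⟨key2 _ _ h2.1, key2 _ _ h2.2⟩

end Pool.Agent.H28.AN
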