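import Mathlib
import Pool.Agent.H28.AN.J
import Pool.Agent.H28.AN.G2

set_option autoImplicit false
set_option linter.unusedSectionVars false
set_option linter.unusedSimpArgs false

namespace Pool.Agent.H28.AN

open scoped InnerProductSpace
open Submodule

variable {H : Type} [NormedAddCommGroup H] [InnerProductSpace ℂ H] [CompleteSpace H]

/-- Assembling the pieces: an operator which moves the vectors of a Hilbert basis along a
permutation of a larger index set, with a good block decomposition. -/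
theorem assemble2 {D ι : Type} [Countable D] [Infinite D] [Countable ι]
    (HS TC : (H →L[ℂ] H) → Prop)
    (hHS : ∀ A : H →L[ℂ] H, HS A ↔
        ∃ (κ : Type) (b : HilbertBasis κ ℂ H), Summable (fun i => ‖A (b i)‖ ^ 2))
    (hTC : ∀ A : H →L[ℂ] H, TC A ↔ ∃ B C : H →L[ℂ] H, HS B ∧ HS C ∧ A = B * C)
    (e : HilbertBasis D ℂ H) (T : H →L[ℂ] H) (s : ι ≃ ι) (w : ι → ℝ) 
    (ζ : ι → ℂ) (hζ : ∀ i, ‖ζ i‖ = 1) (K : ℝ) (hgood : Good2 s w K) (emb : D → ι)
    (hemb : Function.Injective emb) (hw : ∀ i, (∀ d, emb d ≠ i) → w i = 0)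
    (hT0 : ∀ d, w (emb d) = 0 → T (e d) = 0)
    (hT : ∀ d, w (emb d) ≠ 0 → ∃ d', s (emb d) = emb d' ∧
      T (e d) = (w (emb d) : ℂ) • ζ (emb d) • e d')
    (C : ℝ) (hC : ∀ i, |w i| ≤ C) (hsum : Summable fun i => |w (s i) ^ 2 - w i ^ 2|) :
    ∃ S : H →L[ℂ] H, TC (star S * S - S * star S) ∧
      ∃ N11 N12 N21 N22 : H →L[ℂ] H,
        star N11 * N11 + star N21 * N21 = N11 * star N11 + N12 * star N12 ∧
        star N11 * N12 + star N21 * N22 = N11 * star N21 + N12 * star N22 ∧
        star N12 * N11 + star N22 * N21 = N21 * star N11 + N22 * star N12 ∧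
        star N12 * N12 + star N22 * N22 = N21 * star N21 + N22 * star N22 ∧
        HS (T - N11) ∧ HS N12 ∧ HS N21 ∧ HS (S - N22) := by
  classical
  have : Infinite ι := Infinite.of_injective emb hemb
  obtain ⟨E, lo, hi, rho, th, thp, q, BB, q1, q2, q3, q4, q5, q6⟩ := hgood
  obtain ⟨φ⟩ : Nonempty ((ι ⊕ ι) ≃ D) := nonempty_equiv_of_countable
  obtain ⟨b, -⟩ := exists_reindex e φ
  -- the complementary index set
  let M : Type := {x : ι ⊕ ι // ∀ d, Sum.inl (emb d) ≠ x}
  have : Infinite M := Infinite.of_injective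
    (fun i : ι => (⟨Sum.inr i, fun d => by simp⟩ : M))
    (fun i j h => by simpa using congrArg Subtype.val h)
  obtain ⟨ψ⟩ : Nonempty (D ≃ M) := nonempty_equiv_of_countable
  obtain ⟨J₁, J₂, j11, j22, j12, j21, hJ, hJ1, hJ2⟩ := exists_split e b
    (fun d => Sum.inl (emb d)) (fun d => (ψ d).1)
    (fun d d' h => hemb (by simpa using h))
    (fun d d' h => ψ.injective (Subtype.ext h))
    (fun d d' h => (ψ d').2 d h)
    (fun x => by
      by_cases h : ∃ d, Sum.inl (emb d) = x
      · exact Or.inl h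
      · right
        push Not at h
        exact ⟨ψ.symm ⟨x, h⟩, by simp⟩)
  -- the big operator
  let π : (ι ⊕ ι) ≃ (ι ⊕ ι) := Equiv.sumCongr s s.symm
  let σ : ι ⊕ ι → ℂ := Sum.elim ζ (fun j => ζ (rho (s.symm j)))
  let g : ι ⊕ ι → ℝ := Sum.elim w (fun j => w (s.symm j))
  have hgC : ∀ x, |g x| ≤ C := by rintro (i | j) <;> exact hC _
  obtain ⟨X, hX, hXc⟩ := exists_wperm b π σ (by rintro (i | j) <;> exact hζ _) g C hgC
  have hX1 : ∀ n, X (b (Sum.inl n)) = (w n : ℂ) • ζ n • b (Sum.inl (s n)) := fun n => hX _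
  have hX3 : ∀ k, X (b (Sum.inr (s k))) = (w k : ℂ) • ζ (rho k) • b (Sum.inr k) := by
    intro k
    have := hX (Sum.inr (s k))
    simpa [g, σ, π] using this
  obtain ⟨N, hN, hd1, hd2⟩ := cdiff_bound BB b w C hC q q4 q5 q6 ζ hζ X hX1 hX3
  have hXN : Summable fun x => ‖(X - N) (b x)‖ ^ 2 := by
    refine Summable.sum _ ?_ ?_
    · exact Summable.of_nonneg_of_le (fun _ => sq_nonneg _) hd1 (q1.mul_left 128)
    · rw [← s.summable_iff]
      exact Summable.of_nonneg_of_le (fun _ => sq_nonneg _) hd2 (q1.mul_left 128)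
  have a11 : ∀ x, (star J₁) (J₁ x) = x := fun x => by
    have := congrArg (fun A : H →L[ℂ] H => A x) j11
    simpa using this
  have a22 : ∀ x, (star J₂) (J₂ x) = x := fun x => by
    have := congrArg (fun A : H →L[ℂ] H => A x) j22
    simpa using this
  have a12 : ∀ x, (star J₁) (J₂ x) = 0 := fun x => by
    have := congrArg (fun A : H →L[ℂ] H => A x) j12
    simpa using this
  have a21 : ∀ x, (star J₂) (J₁ x) = 0 := fun x => by
    have := congrArg (fun A : H →L[ℂ] H => A x) j21
    simpa using this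
  -- X extends T
  have hXT : X * J₁ = J₁ * T := by
    apply ext_basis e
    intro d
    rw [mul_apply_eq_comp, mul_apply_eq_comp, hJ1, hX1]
    by_cases h : w (emb d) = 0
    · rw [hT0 d h, h, map_zero]; simp
    · obtain ⟨d', h1, h2⟩ := hT d h
      rw [h2, map_smul, map_smul, hJ1, h1]
  have e11 : star J₁ * X * J₁ = T := by
    rw [mul_assoc, hXT, ← mul_assoc, j11, one_mul]
  have e21 : star J₂ * X * J₁ = 0 := by
    rw [mul_assoc, hXT, ← mul_assoc, j21, zero_mul]
  -- a vector of the second half of J₂ is not moved to the range of J₁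
  have hXb : ∀ x, (∀ d, Sum.inl (emb d) ≠ x) → (star J₁) (X (b x)) = 0 := by
    intro x hx
    rcases x with i | j
    · rw [hX1, hw i (fun d h => hx d (by rw [h]))]; simp
    · obtain ⟨k, rfl⟩ := s.surjective j
      rw [hX3, map_smul, map_smul]
      have : (star J₁) (b (Sum.inr k)) = 0 := by
        apply eq_zero_of_inner e
        intro m
        rw [ContinuousLinearMap.star_eq_adjoint, ContinuousLinearMap.adjoint_inner_right, hJ1,
          basis_inner, if_neg (by simp)]
      rw [this]; simp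
  have e12 : star J₁ * X * J₂ = 0 := by
    apply ext_basis e
    intro d
    rw [mul_apply_eq_comp, mul_apply_eq_comp, hJ2, hXb _ (ψ d).2]; rfl
  -- the self-commutator of the partner
  set S : H →L[ℂ] H := star J₂ * X * J₂ with hSdef
  have hcommS : star S * S - S * star S = star J₂ * (star X * X - X * star X) * J₂ := by
    have f1 : star J₂ * star X * J₁ = 0 := by
      have := congrArg star e12
      rw [star_mul, star_mul, star_star, star_zero, ← mul_assoc] at this
      exact this
    have f2 : star S = star J₂ * star X * J₂ := by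
      rw [hSdef, star_mul, star_mul, star_star, mul_assoc]
    have f3 : star S * S = star J₂ * star X * X * J₂ := by
      calc star S * S = star J₂ * star X * (J₂ * star J₂) * X * J₂ := by
            rw [f2, hSdef]; noncomm_ring
        _ = star J₂ * star X * (J₁ * star J₁ + J₂ * star J₂) * X * J₂
              - (star J₂ * star X * J₁) * (star J₁ * X * J₂) := by noncomm_ring
        _ = star J₂ * star X * X * J₂ := by rw [hJ, f1]; noncomm_ring
    have f4 : S * star S = star J₂ * X * star X * J₂ := by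
      calc S * star S = star J₂ * X * (J₂ * star J₂) * star X * J₂ := by
            rw [f2, hSdef]; noncomm_ring
        _ = star J₂ * X * (J₁ * star J₁ + J₂ * star J₂) * star X * J₂
              - (star J₂ * X * J₁) * (star J₁ * star X * J₂) := by noncomm_ring
        _ = star J₂ * X * star X * J₂ := by rw [hJ, e21]; noncomm_ring
    rw [f3, f4]; noncomm_ring
  -- the diagonal of the self-commutator of X
  let dd : ι ⊕ ι → ℝ := fun y => g y ^ 2 - g (π.symm y) ^ 2
  have hdd : ∀ y, (star X * X - X * star X) (b y) = (dd y : ℂ) • b y := by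
    intro y
    have := hXc (π.symm y)
    rw [π.apply_symm_apply] at this
    exact this
  have hC0 : 0 ≤ C := le_trans (abs_nonneg _) (hgC (Sum.inl (emb (Classical.arbitrary D))))
  have hddC : ∀ y, |dd y| ≤ C ^ 2 := by
    intro y
    have h1 : g y ^ 2 ≤ C ^ 2 := by rw [← sq_abs]; exact pow_le_pow_left₀ (abs_nonneg _) (hgC y) 2
    have h2 : g (π.symm y) ^ 2 ≤ C ^ 2 := by
      rw [← sq_abs]; exact pow_le_pow_left₀ (abs_nonneg _) (hgC _) 2
    rw [abs_le]
    constructor
    · have := sq_nonneg (g y); show -C ^ 2 ≤ g y ^ 2 - g (π.symm y) ^ 2; linarith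
    · have := sq_nonneg (g (π.symm y)); show g y ^ 2 - g (π.symm y) ^ 2 ≤ C ^ 2; linarith
  have hdds : Summable fun y => |dd y| := by
    refine Summable.sum _ ?_ ?_
    · have h1 := (s.symm.summable_iff).mpr hsum
      refine h1.congr fun i => ?_
      simp [dd, g, π]
    · have h1 := (s.symm.summable_iff).mpr hsum
      refine h1.congr fun i => ?_
      simp only [Function.comp, s.apply_symm_apply]
      rw [abs_sub_comm]
      simp [dd, g, π]
  obtain ⟨A₁, hA1, hA1b⟩ := exists_diag b (fun y => √|dd y|) C (fun y => by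
    rw [abs_of_nonneg (Real.sqrt_nonneg _)]
    exact Real.sqrt_le_iff.mpr ⟨hC0, hddC y⟩)
  obtain ⟨A₂, hA2, hA2b⟩ := exists_diag b (fun y => SignType.sign (dd y) * √|dd y|) C (fun y => by
    rw [abs_mul, abs_of_nonneg (Real.sqrt_nonneg _)]
    have h1 : |((SignType.sign (dd y) : SignType) : ℝ)| ≤ 1 := by
      rcases lt_trichotomy (dd y) 0 with h | h | h
      · rw [sign_neg h]; simp
      · rw [h]; simp
      · rw [sign_pos h]; simp
    have h2 : √|dd y| ≤ C := Real.sqrt_le_iff.mpr ⟨hC0, hddC y⟩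
    have h3 := Real.sqrt_nonneg |dd y|
    nlinarith)
  have hA12 : star X * X - X * star X = A₁ * A₂ := by
    apply ext_basis b
    intro y
    rw [hdd, mul_apply_eq_comp, hA2b, map_smul, hA1b, smul_smul, ← Complex.ofReal_mul]
    congr 2
    have h1 : √|dd y| * √|dd y| = |dd y| := Real.mul_self_sqrt (abs_nonneg _)
    have h2 : ((SignType.sign (dd y) : SignType) : ℝ) * |dd y| = dd y := sign_mul_abs (dd y)
    rw [mul_assoc, h1, h2]
  have le1 : ∀ x, ‖(star J₁) x‖ ^ 2 ≤ ‖x‖ ^ 2 := fun x =>
    pow_le_pow_left₀ (norm_nonneg _) (star_isom_le j11 x) 2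
  have le2 : ∀ x, ‖(star J₂) x‖ ^ 2 ≤ ‖x‖ ^ 2 := fun x =>
    pow_le_pow_left₀ (norm_nonneg _) (star_isom_le j22 x) 2
  have hb1 : ∀ y, ‖b y‖ = 1 := fun y => b.orthonormal.1 y
  refine ⟨S, ?_, ?_⟩
  · rw [hTC]
    refine ⟨star J₂ * A₁, A₂ * J₂, ?_, ?_, ?_⟩
    · rw [hHS]
      refine ⟨_, b, Summable.of_nonneg_of_le (fun _ => sq_nonneg _) (fun y => ?_) hdds⟩
      rw [mul_apply_eq_comp]
      refine (le2 _).trans ?_
      rw [hA1b, norm_smul, hb1, mul_one, Complex.norm_real, Real.norm_eq_abs, sq_abs,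
        Real.sq_sqrt (abs_nonneg _)]
    · rw [hHS]
      refine ⟨_, e, ?_⟩
      have h1 : Summable fun d => |dd (ψ d).1| :=
        hdds.comp_injective (fun d d' h => ψ.injective (Subtype.ext h))
      refine Summable.of_nonneg_of_le (fun _ => sq_nonneg _) (fun d => ?_) h1
      rw [mul_apply_eq_comp, hJ2, hA2b, norm_smul, hb1, mul_one, Complex.norm_real,
        Real.norm_eq_abs, sq_abs, mul_pow, Real.sq_sqrt (abs_nonneg _)]
      have h3 : ((SignType.sign (dd (ψ d).1) : SignType) : ℝ) ^ 2 ≤ 1 := by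
        rcases lt_trichotomy (dd (ψ d).1) 0 with h | h | h
        · rw [sign_neg h]; simp
        · rw [h]; simp
        · rw [sign_pos h]; simp
      have h4 := abs_nonneg (dd (ψ d).1)
      nlinarith
    · rw [hcommS, hA12]; noncomm_ring
  -- the normal operator
  have s1 : Summable (fun n => ‖(X - N) (J₁ (e n))‖ ^ 2) := by
    have h1 : Summable fun d => ‖(X - N) (b (Sum.inl (emb d)))‖ ^ 2 :=
      hXN.comp_injective (i := fun d => Sum.inl (emb d)) (fun d d' h => hemb (by simpa using h))
    refine h1.congr fun d => ?_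
    rw [hJ1]
  have s2 : Summable (fun n => ‖(X - N) (J₂ (e n))‖ ^ 2) := by
    have h1 : Summable fun d => ‖(X - N) (b (ψ d).1)‖ ^ 2 :=
      hXN.comp_injective (i := fun d => (ψ d).1)
        (fun d d' h => ψ.injective (Subtype.ext h))
    refine h1.congr fun d => ?_
    rw [hJ2]
  have comp : ∀ U V : H →L[ℂ] H, ∀ A B : H →L[ℂ] H,
      (star U * A * J₁) * (star J₁ * B * V) + (star U * A * J₂) * (star J₂ * B * V)
        = star U * (A * B) * V := by
    intro U V A B
    calc (star U * A * J₁) * (star J₁ * B * V) + (star U * A * J₂) * (star J₂ * B * V)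
        = star U * A * (J₁ * star J₁ + J₂ * star J₂) * B * V := by noncomm_ring
      _ = star U * (A * B) * V := by rw [hJ, mul_one]; noncomm_ring
  have hst : ∀ U V : H →L[ℂ] H, star (star U * N * V) = star V * star N * U := by
    intro U V
    rw [star_mul, star_mul, star_star, mul_assoc]
  refine ⟨star J₁ * N * J₁, star J₁ * N * J₂, star J₂ * N * J₁, star J₂ * N * J₂,
    ?_, ?_, ?_, ?_, ?_, ?_, ?_, ?_⟩
  · rw [hst, hst, hst, comp, comp, hN]
  · rw [hst, hst, hst, comp, comp, hN]
  · rw [hst, hst, hst, comp, comp, hN]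
  · rw [hst, hst, hst, comp, comp, hN]
  · rw [hHS]
    refine ⟨_, e, Summable.of_nonneg_of_le (fun _ => sq_nonneg _) (fun n => ?_) s1⟩
    have : (T - star J₁ * N * J₁) (e n) = (star J₁) ((X - N) (J₁ (e n))) := by
      conv_lhs => rw [← e11]
      simp only [sub_apply, mul_apply_eq_comp, map_sub]
    rw [this]; exact le1 _
  · rw [hHS]
    refine ⟨_, e, Summable.of_nonneg_of_le (fun _ => sq_nonneg _) (fun n => ?_) s2⟩
    have : (star J₁ * N * J₂) (e n) = -(star J₁) ((X - N) (J₂ (e n))) := by
      have h := congrArg (fun A : H →L[ℂ] H => A (e n)) e12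
      simp only [mul_apply_eq_comp, zero_apply] at h
      simp only [sub_apply, mul_apply_eq_comp, map_sub, h]
      simp
    rw [this, norm_neg]; exact le1 _
  · rw [hHS]
    refine ⟨_, e, Summable.of_nonneg_of_le (fun _ => sq_nonneg _) (fun n => ?_) s1⟩
    have : (star J₂ * N * J₁) (e n) = -(star J₂) ((X - N) (J₁ (e n))) := by
      have h := congrArg (fun A : H →L[ℂ] H => A (e n)) e21
      simp only [mul_apply_eq_comp, zero_apply] at h
      simp only [sub_apply, mul_apply_eq_comp, map_sub, h]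
      simp
    rw [this, norm_neg]; exact le2 _
  · rw [hHS]
    refine ⟨_, e, Summable.of_nonneg_of_le (fun _ => sq_nonneg _) (fun n => ?_) s2⟩
    have : (S - star J₂ * N * J₂) (e n) = (star J₂) ((X - N) (J₂ (e n))) := by
      simp only [hSdef, sub_apply, mul_apply_eq_comp, map_sub]
    rw [this]; exact le2 _

end Pool.Agent.H28.AN
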