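import Mathlib
import Pool.Agent.H28.AN.I

set_option autoImplicit false
set_option linter.unusedSectionVars false
set_option linter.unusedSimpArgs false

namespace Pool.Agent.H28.AN

/-- Block decompositions for a permutation without finite cycles. -/
theorem good_free {ι : Type} (s : Equiv.Perm ι) (hfree : ∀ (i : ι) (n : ℕ), 0 < n → (s ^ n) i ≠ i)
    (w p : ι → ℝ) (hw : ∀ i, 0 ≤ w i) (hp : ∀ i, 0 < p i) (hps : Summable p)
    (hv : ∀ i, |w (s i) ^ 2 - w i ^ 2| ≤ p i) :
    Good s w (18 * ∑' i, p i) := by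
  classical
  let κ : Type := Quotient (Equiv.Perm.SameCycle.setoid s)
  let base : κ → ι := Quotient.out
  let f : (Σ _ : κ, ℤ) → ι := fun x => (s ^ x.2) (base x.1)
  have hfree' : ∀ (i : ι) (n : ℤ), (s ^ n) i = i → n = 0 := by
    intro i n h
    rcases lt_trichotomy n 0 with h0 | h0 | h0
    · exfalso
      have h1 : (s ^ (-n)) i = i := by
        have : (s ^ (-n)) ((s ^ n) i) = i := by
          rw [← Equiv.Perm.mul_apply, ← zpow_add]; simp
        rw [h] at this
        exact this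
      obtain ⟨m, hm⟩ := Int.eq_ofNat_of_zero_le (show 0 ≤ -n by omega)
      rw [hm, zpow_natCast] at h1
      exact hfree i m (by omega) h1
    · exact h0
    · exfalso
      obtain ⟨m, hm⟩ := Int.eq_ofNat_of_zero_le h0.le
      rw [hm, zpow_natCast] at h
      exact hfree i m (by omega) h
  have hinj : Function.Injective f := by
    rintro ⟨c, n⟩ ⟨c', m⟩ h
    have h' : (s ^ n) (base c) = (s ^ m) (base c') := h
    have hcc : c = c' := by
      rw [← Quotient.out_eq c, ← Quotient.out_eq c']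
      apply Quotient.sound
      refine ⟨n - m, ?_⟩
      show (s ^ (n - m)) (base c) = base c'
      have h2 := congrArg (s ^ (-m)) h'
      rw [← Equiv.Perm.mul_apply, ← Equiv.Perm.mul_apply, ← zpow_add, ← zpow_add] at h2
      rw [show -m + n = n - m by ring, show -m + m = 0 by ring] at h2
      simpa using h2
    subst hcc
    have h3 : (s ^ (n - m)) (base c) = base c := by
      have h2 := congrArg (s ^ (-m)) h'
      rw [← Equiv.Perm.mul_apply, ← Equiv.Perm.mul_apply, ← zpow_add, ← zpow_add] at h2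
      rw [show -m + n = n - m by ring, show -m + m = 0 by ring] at h2
      simpa using h2
    have h4 := hfree' _ _ h3
    have h5 : n = m := by omega
    rw [h5]
  have hsurj : Function.Surjective f := by
    intro i
    have h1 : (Equiv.Perm.SameCycle.setoid s).r (base (Quotient.mk _ i)) i :=
      Quotient.exact (Quotient.out_eq (Quotient.mk _ i))
    obtain ⟨n, hn⟩ := h1
    exact ⟨⟨Quotient.mk _ i, n⟩, hn⟩
  let φ : (Σ _ : κ, ℤ) ≃ ι := Equiv.ofBijective f ⟨hinj, hsurj⟩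
  have hφ : ∀ c n, φ ⟨c, n⟩ = (s ^ n) (base c) := fun c n => rfl
  have hstep : ∀ c n, s (φ ⟨c, n⟩) = φ ⟨c, n + 1⟩ := by
    intro c n
    rw [hφ, hφ, ← Equiv.Perm.mul_apply, ← zpow_one_add, add_comm]
  have hpφ : Summable fun x => p (φ x) := (φ.summable_iff (f := p)).mpr hps
  have hp2 := (summable_sigma_of_nonneg (fun x => (hp (φ x)).le)).mp hpφ
  have key : Good (Equiv.sigmaCongrRight (fun _ : κ => Equiv.addRight (1 : ℤ)))
      (fun x : (Σ _ : κ, ℤ) => w (φ ⟨x.1, x.2⟩)) (∑' c : κ, 18 * ∑' n : ℤ, p (φ ⟨c, n⟩)) := by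
    apply good_sigma (fun _ : κ => Equiv.addRight (1 : ℤ)) (fun c n => w (φ ⟨c, n⟩))
    · exact hp2.2.mul_left 18
    · intro c
      apply good_int (fun n => w (φ ⟨c, n⟩)) (fun n => p (φ ⟨c, n⟩)) (fun n => hw _)
        (fun n => hp _) (hp2.1 c)
      intro n
      rw [← hstep]
      exact hv _
  have hK : (∑' c : κ, 18 * ∑' n : ℤ, p (φ ⟨c, n⟩)) = 18 * ∑' i, p i := by
    have h1 : ∑' x, p (φ x) = ∑' i, p i := Equiv.tsum_eq φ p
    have h2 : ∑' x, p (φ x) = ∑' c : κ, ∑' n : ℤ, p (φ ⟨c, n⟩) := hpφ.tsum_sigma' hp2.1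
    rw [tsum_mul_left, ← h2, h1]
  rw [hK] at key
  refine good_equiv φ (Equiv.sigmaCongrRight (fun _ : κ => Equiv.addRight (1 : ℤ))) s
    (fun x : (Σ _ : κ, ℤ) => w (φ ⟨x.1, x.2⟩)) w _ ?_ ?_ key
  · rintro ⟨c, n⟩
    exact hstep c n
  · rintro ⟨c, n⟩
    rfl

/-- Completing a partial injection of `D` to a permutation of `D × ℤ`. -/
theorem exists_completion {D : Type} (P : D → Prop) (π : D → D)
    (hinj : ∀ i j, P i → P j → π i = π j → i = j) :
    ∃ s : Equiv.Perm (D × ℤ),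
      (∀ d, P d → s (d, 0) = (π d, 0)) ∧
      (∀ d, P d → s (π d, -1) = (d, 1)) ∧
      (∀ d n, ¬ (n = 0 ∧ P d) → ¬ (n = -1 ∧ ∃ d', P d' ∧ π d' = d) → s (d, n) = (d, n + 1)) := by
  classical
  let R : D → Prop := fun d => ∃ d', P d' ∧ π d' = d
  let σ : D → D := fun d => if h : R d then h.choose else d
  have hσ : ∀ d, R d → P (σ d) ∧ π (σ d) = d := by
    intro d h
    have : σ d = h.choose := dif_pos h
    rw [this]; exact h.choose_spec
  have hR : ∀ d, P d → R (π d) ∧ σ (π d) = d := by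
    intro d h
    have h1 : R (π d) := ⟨d, h, rfl⟩
    refine ⟨h1, ?_⟩
    have h2 := hσ _ h1
    exact hinj _ _ h2.1 h h2.2
  let f : D × ℤ → D × ℤ := fun x =>
    if x.2 = 0 ∧ P x.1 then (π x.1, 0) else if x.2 = -1 ∧ R x.1 then (σ x.1, 1)
      else (x.1, x.2 + 1)
  let g : D × ℤ → D × ℤ := fun x =>
    if x.2 = 0 ∧ R x.1 then (σ x.1, 0) else if x.2 = 1 ∧ P x.1 then (π x.1, -1)
      else (x.1, x.2 - 1)
  have hgf : ∀ x, g (f x) = x := by
    rintro ⟨d, n⟩
    by_cases h1 : n = 0 ∧ P d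
    · obtain ⟨rfl, h1⟩ := h1
      have e1 : f (d, 0) = (π d, 0) := by simp [f, h1]
      rw [e1]
      simp [g, (hR d h1).1, (hR d h1).2]
    · by_cases h2 : n = -1 ∧ R d
      · obtain ⟨rfl, h2⟩ := h2
        have e1 : f (d, -1) = (σ d, 1) := by simp [f, h2]
        rw [e1]
        simp [g, (hσ d h2).1, (hσ d h2).2]
      · have e1 : f (d, n) = (d, n + 1) := by
          simp only [f]; rw [if_neg h1, if_neg h2]
        rw [e1]
        have h3 : ¬ (n + 1 = 0 ∧ R d) := fun h => h2 ⟨by omega, h.2⟩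
        have h4 : ¬ (n + 1 = 1 ∧ P d) := fun h => h1 ⟨by omega, h.2⟩
        simp only [g]; rw [if_neg h3, if_neg h4]; simp
  have hfg : ∀ x, f (g x) = x := by
    rintro ⟨d, n⟩
    by_cases h1 : n = 0 ∧ R d
    · obtain ⟨rfl, h1⟩ := h1
      have e1 : g (d, 0) = (σ d, 0) := by simp [g, h1]
      rw [e1]
      simp [f, (hσ d h1).1, (hσ d h1).2]
    · by_cases h2 : n = 1 ∧ P d
      · obtain ⟨rfl, h2⟩ := h2
        have e1 : g (d, 1) = (π d, -1) := by simp [g, h2]
        rw [e1]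
        simp [f, (hR d h2).1, (hR d h2).2]
      · have e1 : g (d, n) = (d, n - 1) := by
          simp only [g]; rw [if_neg h1, if_neg h2]
        rw [e1]
        have h3 : ¬ (n - 1 = 0 ∧ P d) := fun h => h2 ⟨by omega, h.2⟩
        have h4 : ¬ (n - 1 = -1 ∧ R d) := fun h => h1 ⟨by omega, h.2⟩
        simp only [f]; rw [if_neg h3, if_neg h4]; simp
  refine ⟨⟨f, g, hgf, hfg⟩, ?_, ?_, ?_⟩
  · intro d h
    show f (d, 0) = _
    simp [f, h]
  · intro d h
    show f (π d, -1) = _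
    simp [f, (hR d h).1, (hR d h).2]
  · intro d n h1 h2
    show f (d, n) = _
    simp only [f]; rw [if_neg h1, if_neg h2]

/-- The completion has no finite cycle if the partial injection has none. -/
theorem completion_free {D : Type} (P : D → Prop) (π : D → D)
    (s : Equiv.Perm (D × ℤ))
    (h1 : ∀ d, P d → s (d, 0) = (π d, 0))
    (h2 : ∀ d, P d → s (π d, -1) = (d, 1))
    (h3 : ∀ d n, ¬ (n = 0 ∧ P d) → ¬ (n = -1 ∧ ∃ d', P d' ∧ π d' = d) → s (d, n) = (d, n + 1))
    (hfree : ∀ i (n : ℕ), 0 < n → (∀ k < n, P (π^[k] i)) → π^[n] i ≠ i)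
    (x : D × ℤ) (n : ℕ) (hn : 0 < n) : (s ^ n) x ≠ x := by
  have step : ∀ y : D × ℤ, (y.2 = 0 ∧ P y.1 ∧ s y = (π y.1, 0)) ∨ y.2 < (s y).2 := by
    rintro ⟨d, m⟩
    by_cases a1 : m = 0 ∧ P d
    · obtain ⟨rfl, a1⟩ := a1
      exact Or.inl ⟨rfl, a1, h1 d a1⟩
    · right
      by_cases a2 : m = -1 ∧ ∃ d', P d' ∧ π d' = d
      · obtain ⟨rfl, d', a3, rfl⟩ := a2
        rw [h2 d' a3]
        norm_num
      · rw [h3 d m a1 a2]
        simp
  have main : ∀ k : ℕ, x.2 ≤ ((s ^ k) x).2 ∧ (x.2 = ((s ^ k) x).2 →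
      (∀ j < k, P (π^[j] x.1)) ∧ (0 < k → x.2 = 0) ∧ ((s ^ k) x).1 = π^[k] x.1) := by
    intro k
    induction k with
    | zero => simp
    | succ k ih =>
      have e : (s ^ (k + 1)) x = s ((s ^ k) x) := by
        rw [pow_succ', Equiv.Perm.mul_apply]
      obtain ⟨i1, i2⟩ := ih
      rw [e]
      rcases step ((s ^ k) x) with ⟨b1, b2, b3⟩ | b
      · rw [b3]
        refine ⟨by simp only; omega, fun hx => ?_⟩
        simp only at hx
        obtain ⟨c1, c2, c3⟩ := i2 (by rw [hx, b1])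
        refine ⟨?_, fun _ => hx, ?_⟩
        · intro j hj
          rcases Nat.lt_succ_iff_lt_or_eq.mp hj with hj | rfl
          · exact c1 j hj
          · rw [← c3]; exact b2
        · show π ((s ^ k) x).1 = _
          rw [c3, Function.iterate_succ_apply']
      · refine ⟨by omega, fun hx => ?_⟩
        exfalso; omega
  intro hx
  obtain ⟨-, m2⟩ := main n
  obtain ⟨c1, -, c3⟩ := m2 (by rw [hx])
  rw [hx] at c3
  exact hfree x.1 n hn c1 c3.symm

end Pool.Agent.H28.AN
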