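import Mathlib
import Pool.Agent.H28.AN.J
import Pool.Agent.H28.AN.K

set_option autoImplicit false
set_option linter.unusedSectionVars false
set_option linter.unusedSimpArgs false

namespace Pool.Agent.H28.AN

open scoped InnerProductSpace
open Submodule

/-- The theorem for weighted partial permutations of a Hilbert basis, given the block
decompositions. -/
theorem final_of_good (H : Type) [NormedAddCommGroup H] [InnerProductSpace ℂ H] [CompleteSpace H]
    (HS TC : (H →L[ℂ] H) → Prop)
    (hHS : ∀ A : H →L[ℂ] H, HS A ↔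
        ∃ (ι : Type) (b : HilbertBasis ι ℂ H), Summable (fun i => ‖A (b i)‖ ^ 2))
    (hTC : ∀ A : H →L[ℂ] H, TC A ↔ ∃ B C : H →L[ℂ] H, HS B ∧ HS C ∧ A = B * C)
    (D : Type) [Countable D] (e : HilbertBasis D ℂ H) (c : D → ℂ) (π : D → D) (T : H →L[ℂ] H)
    (hT : ∀ d, T (e d) = c d • e (π d))
    (hinj : ∀ i j, c i ≠ 0 → c j ≠ 0 → π i = π j → i = j)
    (hG : ∀ s : Equiv.Perm (D × ℤ), (∀ d, c d ≠ 0 → s (d, 0) = (π d, 0)) →
      (∀ d, c d ≠ 0 → s (π d, -1) = (d, 1)) →
      (∀ d n, ¬ (n = 0 ∧ c d ≠ 0) → ¬ (n = -1 ∧ ∃ d', c d' ≠ 0 ∧ π d' = d) →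
        s (d, n) = (d, n + 1)) →
      ∀ w p : D × ℤ → ℝ, (∀ i, 0 ≤ w i) → (∀ i, 0 < p i) → Summable p →
        (∀ i, |w (s i) ^ 2 - w i ^ 2| ≤ p i) → ∃ K, Good s w K)
    (hTT : TC (star T * T - T * star T)) :
    ∃ S : H →L[ℂ] H, TC (star S * S - S * star S) ∧
      ∃ N11 N12 N21 N22 : H →L[ℂ] H,
        star N11 * N11 + star N21 * N21 = N11 * star N11 + N12 * star N12 ∧
        star N11 * N12 + star N21 * N22 = N11 * star N21 + N12 * star N22 ∧
        star N12 * N11 + star N22 * N21 = N21 * star N11 + N22 * star N12 ∧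
        star N12 * N12 + star N22 * N22 = N21 * star N21 + N22 * star N22 ∧
        HS (T - N11) ∧ HS N12 ∧ HS N21 ∧ HS (S - N22) := by
  classical
  rcases finite_or_infinite D with hfin | hinf
  · -- the finite dimensional case
    have hall : ∀ A : H →L[ℂ] H, HS A := fun A =>
      (hHS A).mpr ⟨D, e, Summable.of_finite⟩
    exact ⟨T, hTT, 0, 0, 0, 0, by simp, by simp, by simp, by simp, hall _, hall _, hall _, hall _⟩
  obtain ⟨s, h1, h2, h3⟩ := exists_completion (fun d => c d ≠ 0) π hinj
  let w : D × ℤ → ℝ := fun x => if x.2 = 0 then ‖c x.1‖ else 0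
  let ζ : D × ℤ → ℂ := fun x => if x.2 = 0 ∧ c x.1 ≠ 0 then c x.1 / ‖c x.1‖ else 1
  have hζ : ∀ x, ‖ζ x‖ = 1 := by
    intro x
    simp only [ζ]
    split_ifs with h
    · rw [norm_div]; simp [h.2]
    · simp
  have hw0 : ∀ x, 0 ≤ w x := by
    intro x; simp only [w]; split_ifs <;> simp
  let emb : D → D × ℤ := fun d => (d, 0)
  have hemb : Function.Injective emb := fun d d' h => by simpa [emb] using h
  have hwemb : ∀ d, w (emb d) = ‖c d‖ := fun d => by simp [w, emb]
  have hζemb : ∀ d, c d ≠ 0 → ζ (emb d) = c d / ‖c d‖ := fun d h => by simp [ζ, emb, h]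
  have hCb : ∀ x, |w x| ≤ ‖T‖ := by
    rintro ⟨d, n⟩
    rw [abs_of_nonneg (hw0 _)]
    simp only [w]
    split_ifs with h
    · have h3 := T.le_opNorm (e d)
      rw [hT, norm_smul, e.orthonormal.1, e.orthonormal.1] at h3
      simpa using h3
    · exact norm_nonneg T
  -- the diagonal of the self-commutator
  obtain ⟨B, C, hB, hC, hBC⟩ := (hTC _).mp hTT
  obtain ⟨ι₁, b₁, hb₁⟩ := (hHS _).mp hB
  obtain ⟨ι₂, b₂, hb₂⟩ := (hHS _).mp hC
  have hd := tc_diag b₁ b₂ e hb₁ hb₂
  rw [← hBC] at hd
  -- values of w at the predecessor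
  have hpre : ∀ y : D, (∀ d, c d ≠ 0 → π d = y → w (s.symm (emb y)) = ‖c d‖) ∧
      ((∀ d, c d ≠ 0 → π d ≠ y) → w (s.symm (emb y)) = 0) := by
    intro y
    constructor
    · intro d hd0 hdy
      have e1 : s.symm (emb y) = (d, 0) := by
        rw [Equiv.symm_apply_eq, h1 d hd0, hdy]
      rw [e1]; simp [w]
    · intro hno
      have e1 : s (y, -1) = (y, -1 + 1) := by
        apply h3
        · rintro ⟨h, -⟩; omega
        · rintro ⟨-, d', h4, h5⟩; exact hno d' h4 h5
      have e2 : s.symm (emb y) = (y, -1) := by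
        rw [Equiv.symm_apply_eq, e1]; rfl
      rw [e2]; simp [w]
  have hdiag : ∀ y, ⟪e y, (star T * T - T * star T) (e y)⟫_ℂ
      = ((w (emb y) ^ 2 - w (s.symm (emb y)) ^ 2 : ℝ) : ℂ) := by
    intro y
    have e1 : ⟪e y, (star T * T) (e y)⟫_ℂ = ((w (emb y) ^ 2 : ℝ) : ℂ) := by
      rw [mul_apply_eq_comp, ContinuousLinearMap.star_eq_adjoint,
        ContinuousLinearMap.adjoint_inner_right, hT, inner_smul_left, inner_smul_right,
        basis_inner, if_pos rfl, mul_one, Complex.conj_mul', hwemb]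
      push_cast; rfl
    have e2 : ⟪e y, (T * star T) (e y)⟫_ℂ = ((w (s.symm (emb y)) ^ 2 : ℝ) : ℂ) := by
      by_cases hy : ∃ d, c d ≠ 0 ∧ π d = y
      · obtain ⟨d, hd0, hdy⟩ := hy
        rw [(hpre y).1 d hd0 hdy]
        have hTs : (star T) (e y) = (starRingEnd ℂ (c d)) • e d := by
          apply sub_eq_zero.mp
          apply eq_zero_of_inner e
          intro m
          rw [inner_sub_right, ContinuousLinearMap.star_eq_adjoint,
            ContinuousLinearMap.adjoint_inner_right, hT, inner_smul_left, inner_smul_right,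
            basis_inner, basis_inner]
          by_cases hm : m = d
          · subst hm; rw [if_pos hdy, if_pos rfl]; ring
          · rw [if_neg hm]
            by_cases hcm : c m = 0
            · rw [hcm]; simp
            · rw [if_neg (fun h => hm (hinj m d hcm hd0 (by rw [h, hdy])))]; simp
        rw [mul_apply_eq_comp, hTs, map_smul, hT, smul_smul, inner_smul_right, basis_inner, hdy,
          if_pos rfl, mul_one, Complex.conj_mul']
        push_cast; rfl
      · push Not at hy
        rw [(hpre y).2 hy]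
        have hTs : (star T) (e y) = 0 := by
          apply eq_zero_of_inner e
          intro m
          rw [ContinuousLinearMap.star_eq_adjoint,
            ContinuousLinearMap.adjoint_inner_right, hT, inner_smul_left, basis_inner]
          by_cases hcm : c m = 0
          · rw [hcm]; simp
          · rw [if_neg (hy m hcm)]; simp
        rw [mul_apply_eq_comp, hTs, map_zero, inner_zero_right]
        simp
    rw [sub_apply, inner_sub_right, e1, e2]
    push_cast; ring
  let F : D × ℤ → ℝ := fun x => |w x ^ 2 - w (s.symm x) ^ 2|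
  have hF0 : ∀ x, x ∉ Set.range emb → F x = 0 := by
    rintro ⟨d, n⟩ hx
    have hn : n ≠ 0 := fun h => hx ⟨d, by rw [h]⟩
    have e1 : w (d, n) = 0 := by simp [w, hn]
    have e2 : w (s.symm (d, n)) = 0 := by
      by_cases a1 : n = 1 ∧ c d ≠ 0
      · have e3 : s.symm (d, n) = (π d, -1) := by
          rw [Equiv.symm_apply_eq, h2 d a1.2, a1.1]
        rw [e3]; simp [w]
      · have e3 : s (d, n - 1) = (d, n - 1 + 1) := by
          apply h3
          · rintro ⟨h, h'⟩; exact a1 ⟨by omega, h'⟩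
          · rintro ⟨h, -⟩; exact hn (by omega)
        have e4 : s.symm (d, n) = (d, n - 1) := by
          rw [Equiv.symm_apply_eq, e3]; simp
        rw [e4]
        simp only [w]
        split_ifs with h
        · have : n = 1 := by omega
          by_contra hc
          exact a1 ⟨this, fun h0 => hc (by rw [h0]; simp)⟩
        · rfl
    simp [F, e1, e2]
  have hFs : Summable F := by
    rw [← hemb.summable_iff hF0]
    refine hd.congr fun y => ?_
    rw [hdiag, Complex.norm_real, Real.norm_eq_abs]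
    rfl
  have hsum : Summable fun x => |w (s x) ^ 2 - w x ^ 2| := by
    have h4 := (s.summable_iff (f := F)).mpr hFs
    refine h4.congr fun x => ?_
    simp [F]
  have : Encodable (D × ℤ) := Encodable.ofCountable _
  obtain ⟨ε, hε0, cε, hε1, -⟩ := posSumOfEncodable (one_pos : (0 : ℝ) < 1) (D × ℤ)
  obtain ⟨K, hK⟩ := hG s h1 h2 h3 w (fun x => |w (s x) ^ 2 - w x ^ 2| + ε x) hw0
    (fun x => add_pos_of_nonneg_of_pos (abs_nonneg _) (hε0 x)) (hsum.add hε1.summable)
    (fun x => by linarith [hε0 x])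
  refine assemble HS TC hHS hTC e T s w hw0 ζ hζ K hK emb hemb ?_ ?_ ?_ ‖T‖ hCb hsum
  · rintro ⟨d, n⟩ h
    have hn : n ≠ 0 := fun h0 => h d (by rw [h0])
    simp [w, hn]
  · intro d h
    rw [hwemb, norm_eq_zero] at h
    rw [hT, h, zero_smul]
  · intro d h
    rw [hwemb, norm_ne_zero_iff] at h
    refine ⟨π d, h1 d h, ?_⟩
    rw [hT, hwemb, hζemb d h, smul_smul]
    congr 1
    have : (‖c d‖ : ℂ) ≠ 0 := by simpa using h
    field_simp

end Pool.Agent.H28.AN
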