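import Mathlib
import Pool.Agent.H28.AN.Cy

set_option autoImplicit false
set_option linter.unusedSectionVars false
set_option linter.unusedSimpArgs false

namespace Pool.Agent.H28.AN

lemma good2_mono {ι : Type} {s : ι ≃ ι} {w : ι → ℝ} {K K' : ℝ} (h : Good2 s w K) (hK : K ≤ K') :
    Good2 s w K' := by
  obtain ⟨E, lo, hi, rho, th, thp, q, B, g1, g2, g3, g4, g5, g6⟩ := h
  exact ⟨E, lo, hi, rho, th, thp, q, B, g1, g2.trans hK, g3, g4, g5, g6⟩

lemma good2_zmod (L : ℕ) (w p : ZMod L → ℝ) (hw : ∀ x, 0 ≤ w x)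
    (hp : ∀ x, 0 < p x) (hps : Summable p) (hv : ∀ x, |w (x + 1) ^ 2 - w x ^ 2| ≤ p x) :
    Good2 (Equiv.addRight (1 : ZMod L)) w (40 * ∑' x, p x) := by
  rcases L with _ | L
  · have h0 : 0 ≤ ∑' x : ZMod 0, p x := tsum_nonneg (fun x => (hp x).le)
    have h1 : Good2 (Equiv.addRight (1 : ℤ)) w (18 * ∑' x : ℤ, p x) :=
      good2_of_good (good_int w p hw hp hps hv)
    have h2 : (∑' x : ZMod 0, p x) = ∑' x : ℤ, p x := rfl
    refine good2_mono h1 ?_
    rw [← h2]
    linarith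
  · exact good2_cyc (L + 1) w p hw hp hv

/-- Block decompositions for arbitrary permutations. -/
theorem good2_perm {ι : Type} (s : Equiv.Perm ι)
    (w p : ι → ℝ) (hw : ∀ i, 0 ≤ w i) (hp : ∀ i, 0 < p i) (hps : Summable p)
    (hv : ∀ i, |w (s i) ^ 2 - w i ^ 2| ≤ p i) :
    Good2 s w (40 * ∑' i, p i) := by
  classical
  let κ : Type := Quotient (Equiv.Perm.SameCycle.setoid s)
  let base : κ → ι := Quotient.out
  let per : κ → ℕ := fun c => Function.minimalPeriod (s • ·) (base c)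
  have key : ∀ c (m n : ℤ), (s ^ m) (base c) = (s ^ n) (base c) ↔
      ((m : ZMod (per c)) = (n : ZMod (per c))) := by
    intro c m n
    have h1 : (s ^ m) (base c) = (s ^ n) (base c) ↔ (s ^ (n - m)) (base c) = base c := by
      constructor
      · intro h
        have h2 := congrArg (s ^ (-m)) h
        rw [← Equiv.Perm.mul_apply, ← Equiv.Perm.mul_apply, ← zpow_add, ← zpow_add] at h2
        rw [show -m + n = n - m by ring, show -m + m = 0 by ring] at h2
        simpa using h2.symm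
      · intro h
        have h2 := congrArg (s ^ m) h
        rw [← Equiv.Perm.mul_apply, ← zpow_add, show m + (n - m) = n by ring] at h2
        exact h2.symm
    rw [h1, ZMod.intCast_eq_intCast_iff_dvd_sub]
    exact MulAction.zpow_smul_eq_iff_minimalPeriod_dvd (a := s) (b := base c) (n := n - m)
  let f : (Σ c : κ, ZMod (per c)) → ι := fun x => (s ^ (x.2.cast : ℤ)) (base x.1)
  have hf : ∀ (c : κ) (x : ZMod (per c)), f ⟨c, x⟩ = (s ^ (x.cast : ℤ)) (base c) :=
    fun c x => rfl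
  have hinj : Function.Injective f := by
    rintro ⟨c, x⟩ ⟨c', y⟩ h
    rw [hf, hf] at h
    have hcc : c = c' := by
      rw [← Quotient.out_eq c, ← Quotient.out_eq c']
      apply Quotient.sound
      refine ⟨(x.cast : ℤ) - (y.cast : ℤ), ?_⟩
      show (s ^ ((x.cast : ℤ) - (y.cast : ℤ))) (base c) = base c'
      have h2 := congrArg (s ^ (-(y.cast : ℤ))) h
      rw [← Equiv.Perm.mul_apply, ← Equiv.Perm.mul_apply, ← zpow_add, ← zpow_add] at h2
      rw [show -(y.cast : ℤ) + (x.cast : ℤ) = (x.cast : ℤ) - (y.cast : ℤ) by ring,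
        show -(y.cast : ℤ) + (y.cast : ℤ) = 0 by ring] at h2
      simpa using h2
    subst hcc
    have h3 := (key c _ _).mp h
    rw [ZMod.intCast_zmod_cast, ZMod.intCast_zmod_cast] at h3
    rw [h3]
  have hsurj : Function.Surjective f := by
    intro i
    have h1 : (Equiv.Perm.SameCycle.setoid s).r (base (Quotient.mk _ i)) i :=
      Quotient.exact (Quotient.out_eq (Quotient.mk _ i))
    obtain ⟨n, hn⟩ := h1
    refine ⟨⟨Quotient.mk _ i, (n : ZMod _)⟩, ?_⟩
    rw [hf]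
    refine Eq.trans ?_ hn
    exact (key _ _ _).mpr (by rw [ZMod.intCast_zmod_cast])
  let φ : (Σ c : κ, ZMod (per c)) ≃ ι := Equiv.ofBijective f ⟨hinj, hsurj⟩
  have hφ : ∀ c (x : ZMod (per c)), φ ⟨c, x⟩ = (s ^ (x.cast : ℤ)) (base c) := fun c n => rfl
  have hstep : ∀ c (x : ZMod (per c)), s (φ ⟨c, x⟩) = φ ⟨c, x + 1⟩ := by
    intro c x
    have h1 : s ((s ^ (x.cast : ℤ)) (base c)) = (s ^ (1 + (x.cast : ℤ))) (base c) := by
      rw [zpow_one_add, Equiv.Perm.mul_apply]
    rw [hφ, hφ, h1, key]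
    push_cast
    exact add_comm 1 x
  have hpφ : Summable fun x => p (φ x) := (φ.summable_iff (f := p)).mpr hps
  have hp2 := (summable_sigma_of_nonneg (fun x => (hp (φ x)).le)).mp hpφ
  have good : Good2 (Equiv.sigmaCongrRight (fun c : κ => Equiv.addRight (1 : ZMod (per c))))
      (fun x : (Σ c : κ, ZMod (per c)) => w (φ ⟨x.1, x.2⟩))
      (∑' c : κ, 40 * ∑' n : ZMod (per c), p (φ ⟨c, n⟩)) := by
    apply good2_sigma (fun c : κ => Equiv.addRight (1 : ZMod (per c))) (fun c n => w (φ ⟨c, n⟩))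
    · exact hp2.2.mul_left 40
    · intro c
      apply good2_zmod (per c) (fun n => w (φ ⟨c, n⟩)) (fun n => p (φ ⟨c, n⟩)) (fun n => hw _)
        (fun n => hp _) (hp2.1 c)
      intro n
      rw [← hstep]
      exact hv _
  have hK : (∑' c : κ, 40 * ∑' n : ZMod (per c), p (φ ⟨c, n⟩)) = 40 * ∑' i, p i := by
    have h1 : ∑' x, p (φ x) = ∑' i, p i := Equiv.tsum_eq φ p
    have h2 : ∑' x, p (φ x) = ∑' c : κ, ∑' n : ZMod (per c), p (φ ⟨c, n⟩) :=
      hpφ.tsum_sigma' hp2.1
    rw [tsum_mul_left, ← h2, h1]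
  rw [hK] at good
  refine good2_equiv φ (Equiv.sigmaCongrRight (fun c : κ => Equiv.addRight (1 : ZMod (per c)))) s
    (fun x : (Σ c : κ, ZMod (per c)) => w (φ ⟨x.1, x.2⟩)) w _ ?_ ?_ good
  · rintro ⟨c, n⟩
    exact hstep c n
  · rintro ⟨c, n⟩
    rfl

end Pool.Agent.H28.AN
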