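import Mathlib
import Pool.Agent.H28.AN.P1
import Pool.Agent.H28.AN.Pe

set_option autoImplicit false
set_option linter.unusedSectionVars false
set_option linter.unusedSimpArgs false

namespace Pool.Agent.H28.AN

open Finset

/-- The permutation `s` with weights `w` and the additional function `m` has a block
decomposition of total cost at most `K`. -/
def Good3 {ι V : Type} [NormedAddCommGroup V] (s : ι ≃ ι) (w : ι → ℝ) (m : ι → V) (K : ℝ) :
    Prop :=
  ∃ (E : ι → Prop) (lo hi rho : ι → ι) (th thp q : ι → ℝ), CS s E lo hi rho th thp ∧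
    Summable q ∧ (∑' n, q n ≤ K) ∧ (∀ n, 0 ≤ q n) ∧ (∀ n, q (rho n) = q n) ∧
    (∀ n, (w n - w (lo n)) ^ 2 ≤ q n ∧ (w n - w (hi n)) ^ 2 ≤ q n) ∧
    (∀ n, w (lo n) ^ 2 * (th n - thp n) ^ 2 ≤ 3 * q n ∧
      w (hi n) ^ 2 * (th n - thp n) ^ 2 ≤ 3 * q n) ∧
    (∀ n, ‖m n - m (lo n)‖ ^ 2 ≤ q n ∧ ‖m (s n) - m (hi n)‖ ^ 2 ≤ q n) ∧
    (∀ n, Real.sin (th n) ^ 2 * ‖m (s (rho n)) - m (lo n)‖ ^ 2 ≤ q n ∧
      Real.sin (th n) ^ 2 * ‖m n - m (hi n)‖ ^ 2 ≤ q n)

lemma good3_mono {ι V : Type} [NormedAddCommGroup V] {s : ι ≃ ι} {w : ι → ℝ} {m : ι → V}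
    {K K' : ℝ} (h : Good3 s w m K) (hK : K ≤ K') : Good3 s w m K' := by
  obtain ⟨E, lo, hi, rho, th, thp, q, B, g1, g2, g3, g4, g5, g6, g7, g8⟩ := h
  exact ⟨E, lo, hi, rho, th, thp, q, B, g1, g2.trans hK, g3, g4, g5, g6, g7, g8⟩

lemma good3_sigma {κ V : Type} [NormedAddCommGroup V] {τ : κ → Type} (s : ∀ j, τ j ≃ τ j)
    (w : ∀ j, τ j → ℝ) (m : ∀ j, τ j → V)
    (K : κ → ℝ) (hK : Summable K) (h : ∀ j, Good3 (s j) (w j) (m j) (K j)) :
    Good3 (Equiv.sigmaCongrRight s) (fun x : Sigma τ => w x.1 x.2)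
      (fun x : Sigma τ => m x.1 x.2) (∑' j, K j) := by
  choose E lo hi rho th thp q B g1 g2 g3 g4 g5 g6 g7 g8 using h
  have hsum : Summable (fun x : Sigma τ => q x.1 x.2) := by
    rw [summable_sigma_of_nonneg (fun x => g3 x.1 x.2)]
    exact ⟨g1, Summable.of_nonneg_of_le (fun j => tsum_nonneg (g3 j)) g2 hK⟩
  refine ⟨_, _, _, _, _, _, fun x => q x.1 x.2, CS_sigma B, hsum, ?_, fun x => g3 x.1 x.2,
    fun x => g4 x.1 x.2, fun x => g5 x.1 x.2, fun x => g6 x.1 x.2, fun x => g7 x.1 x.2,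
    fun x => g8 x.1 x.2⟩
  rw [hsum.tsum_sigma' g1]
  exact Summable.tsum_le_tsum g2
    (Summable.of_nonneg_of_le (fun j => tsum_nonneg (g3 j)) g2 hK) hK

/-- Transport of block structures along a bijection. -/
lemma good3_equiv {ι ι' V : Type} [NormedAddCommGroup V] (φ : ι ≃ ι') (s : ι ≃ ι)
    (s' : ι' ≃ ι') (w : ι → ℝ) (w' : ι' → ℝ) (m : ι → V) (m' : ι' → V) (K : ℝ) (hs : ∀ i, s' (φ i) = φ (s i)) (hw : ∀ i, w' (φ i) = w i)
    (hm : ∀ i, m' (φ i) = m i) (h : Good3 s w m K) : Good3 s' w' m' K := by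
  obtain ⟨E, lo, hi, rho, th, thp, q, B, g1, g2, g3, g4, g5, g6, g7, g8⟩ := h
  have hs' : ∀ y, s' y = φ (s (φ.symm y)) := fun y => by
    rw [← hs, φ.apply_symm_apply]
  have hw' : ∀ y, w' y = w (φ.symm y) := fun y => by
    rw [← hw, φ.apply_symm_apply]
  have hm' : ∀ y, m' y = m (φ.symm y) := fun y => by
    rw [← hm, φ.apply_symm_apply]
  refine ⟨fun y => E (φ.symm y), fun y => φ (lo (φ.symm y)), fun y => φ (hi (φ.symm y)),
    fun y => φ (rho (φ.symm y)), fun y => th (φ.symm y), fun y => thp (φ.symm y),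
    fun y => q (φ.symm y), ?_, ?_, ?_,
    fun y => g3 _, fun y => by simp only [φ.symm_apply_apply]; exact g4 _,
    fun y => by simp only [hw', φ.symm_apply_apply]; exact g5 _,
    fun y => by simp only [hw', φ.symm_apply_apply]; exact g6 _,
    fun y => by simp only [hm', hs', φ.symm_apply_apply]; exact g7 _,
    fun y => by simp only [hm', hs', φ.symm_apply_apply]; exact g8 _⟩
  · constructor
    · intro y h
      simp only [hs', φ.symm_apply_apply, EmbeddingLike.apply_eq_iff_eq] at h ⊢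
      exact B.endp _ h
    · intro y h
      simp only [hs', φ.symm_apply_apply, EmbeddingLike.apply_eq_iff_eq] at h ⊢
      exact B.inner _ h
    · intro y h
      exact B.start _ h
    · intro y h
      simp only [hs', φ.symm_apply_apply, EmbeddingLike.apply_eq_iff_eq]
      exact B.last _ h
    · intro y h
      simp only [hs', φ.symm_apply_apply] at h ⊢
      exact B.E_lo _ h
    · intro y h
      simp only [φ.symm_apply_apply]
      exact B.E_hi _ h
    · intro y h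
      show φ (lo (φ.symm y)) = y
      rw [B.lo_self _ h, φ.apply_symm_apply]
    · intro y h
      simp only [hs', φ.symm_apply_apply, EmbeddingLike.apply_eq_iff_eq] at h ⊢
      exact B.hi_lo _ h
    · intro y; simp only [φ.symm_apply_apply, B.rho_rho, φ.apply_symm_apply]
    · intro y; simp only [φ.symm_apply_apply, EmbeddingLike.apply_eq_iff_eq]; exact B.lo_rho _
    · intro y; simp only [φ.symm_apply_apply, EmbeddingLike.apply_eq_iff_eq]; exact B.hi_rho _
  · exact (φ.symm.summable_iff (f := q)).mpr g1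
  · rw [φ.symm.tsum_eq (f := q)]
    exact g2


lemma CS_of_BS {ι : Type} {s : ι ≃ ι} {lo hi rho : ι → ι} {pos len : ι → ℝ}
    (B : BS s lo hi rho pos len) :
    CS s (fun i => lo i = i) lo hi rho (bth pos len) (bthp pos len) := by
  constructor
  · intro i h
    exact ⟨(B.endp i h).1, bthp_last B h, (B.endp i h).2.2⟩
  · intro i h
    obtain ⟨e1, e2, e3, e4, e5⟩ := B.inner i h
    exact ⟨e1, e2, bth_succ B h, e5⟩
  · intro i h
    exact bth_lo B h
  · exact B.last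
  · intro i _
    exact B.lo_lo i
  · intro i _
    exact B.lo_hi i
  · intro i h
    exact h
  · intro i _
    exact B.hi_lo i
  · exact B.rho_rho
  · exact B.lo_rho
  · exact B.hi_rho

lemma th_bound_of_len {ι : Type} {s : ι ≃ ι} {lo hi rho : ι → ι} {pos len : ι → ℝ}
    (B : BS s lo hi rho pos len) (n : ι) {y q : ℝ} (hq : 0 ≤ q) (hy : y ^ 2 ≤ len n ^ 2 * q) :
    y ^ 2 * (bth pos len n - bthp pos len n) ^ 2 ≤ 3 * q := by
  have key : (bth pos len n - bthp pos len n) ^ 2 * len n ^ 2 ≤ 3 := by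
    have h1 := bthp_sub B n
    have h5 : Real.pi < 3.1416 := Real.pi_lt_d4
    have h6 := Real.pi_pos
    have h7 : (|bth pos len n - bthp pos len n| * len n) ^ 2 = (Real.pi / 2) ^ 2 := by rw [h1]
    rw [mul_pow, sq_abs] at h7
    nlinarith
  calc y ^ 2 * (bth pos len n - bthp pos len n) ^ 2
      ≤ (len n ^ 2 * q) * (bth pos len n - bthp pos len n) ^ 2 :=
        mul_le_mul_of_nonneg_right hy (sq_nonneg _)
    _ = q * ((bth pos len n - bthp pos len n) ^ 2 * len n ^ 2) := by ring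
    _ ≤ q * 3 := mul_le_mul_of_nonneg_left key hq
    _ = 3 * q := by ring

section
variable {V : Type} [NormedAddCommGroup V]

/-- The bounds for the additional function on a block of natural numbers. -/
lemma BV_use {nx : ℕ → ℕ} (hnx : ∀ a, a < nx a) {w : ℕ → ℝ} {m : ℕ → V} {n : ℕ} {Q : ℝ}
    (hQ : 0 ≤ Q) (h : BV w m (lo nx n) (hi nx n) Q) :
    ‖m n - m (lo nx n)‖ ^ 2 ≤ Q ∧ ‖m (n + 1) - m (hi nx n)‖ ^ 2 ≤ Q ∧
      ((n = lo nx n ∧ n + 1 = hi nx n) ∨
        (‖m (rho nx n + 1) - m (lo nx n)‖ ^ 2 ≤ Q ∧ ‖m n - m (hi nx n)‖ ^ 2 ≤ Q ∧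
          ‖m (rho nx n) - m (hi nx n)‖ ^ 2 ≤ Q ∧ ‖m (n + 1) - m (lo nx n)‖ ^ 2 ≤ Q)) := by
  have h1 := lo_le_lt hnx n
  have h2 := rho_mem hnx n
  rcases h.2 with h3 | h3
  · have e1 : n = lo nx n := by omega
    have e2 : n + 1 = hi nx n := by omega
    refine ⟨?_, ?_, Or.inl ⟨e1, e2⟩⟩
    · rw [← e1]; simpa using hQ
    · rw [← e2]; simpa using hQ
  · exact ⟨(h3 n h1.1 h1.2.le).1, (h3 (n + 1) (by omega) (by omega)).2,
      Or.inr ⟨(h3 (rho nx n + 1) (by omega) (by omega)).1, (h3 n h1.1 h1.2.le).2,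
        (h3 (rho nx n) h2.1 h2.2.le).2, (h3 (n + 1) (by omega) (by omega)).1⟩⟩

lemma sin_bound {θ Q y : ℝ} (hQ : 0 ≤ Q) (h : θ = 0 ∨ y ^ 2 ≤ Q) :
    Real.sin θ ^ 2 * y ^ 2 ≤ Q := by
  rcases h with h | h
  · rw [h, Real.sin_zero]; simpa using hQ
  · have h1 : Real.sin θ ^ 2 ≤ 1 := Real.sin_sq_le_one θ
    nlinarith [sq_nonneg y]

theorem good3_int (w p : ℤ → ℝ) (m : ℤ → V) (hw : ∀ n, 0 ≤ w n) (hp : ∀ n, 0 < p n)
    (hps : Summable p)
    (hv : ∀ n, |w (n + 1) ^ 2 - w n ^ 2| + min (w n) (w (n + 1)) * ‖m (n + 1) - m n‖ ≤ p n) :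
    Good3 (Equiv.addRight (1 : ℤ)) w m (30 * ∑' n, p n) := by
  classical
  have hps1 : Summable fun n : ℕ => p (n : ℤ) :=
    hps.comp_injective (fun a b h => by exact_mod_cast h)
  have hps2 : Summable fun n : ℕ => p (-((n : ℤ) + 1)) :=
    hps.comp_injective (fun a b h => by
      have h' : -((a : ℤ) + 1) = -((b : ℤ) + 1) := h
      omega)
  obtain ⟨nx₁, hnx₁, Q₁, a3, a4, a1, a2⟩ := greedy3 (fun n : ℕ => w (n : ℤ))
    (fun n : ℕ => p (n : ℤ)) (fun n : ℕ => m (n : ℤ)) (fun n => hw _) (fun n => hp _) hps1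
    (fun n => by have := hv (n : ℤ); push_cast; exact this)
  obtain ⟨nx₂, hnx₂, Q₂, b3, b4, b1, b2⟩ := greedy3 (fun n : ℕ => w (-(n : ℤ)))
    (fun n : ℕ => p (-((n : ℤ) + 1))) (fun n : ℕ => m (-(n : ℤ))) (fun n => hw _)
    (fun n => hp _) hps2
    (fun n => by
      have := hv (-((n : ℤ) + 1))
      rw [show -((n : ℤ) + 1) + 1 = -(n : ℤ) by ring, abs_sub_comm, norm_sub_rev,
        min_comm] at this
      push_cast; exact this)
  let q₁ : ℕ → ℝ := fun n => Q₁ (lo nx₁ n)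
  let q₂ : ℕ → ℝ := fun n => Q₂ (lo nx₂ n)
  have g3 : ∀ n m, zl nx₁ nx₂ n ≤ m → m < zh nx₁ nx₂ n →
      zl nx₁ nx₂ m = zl nx₁ nx₂ n ∧ zh nx₁ nx₂ m = zh nx₁ nx₂ n ∧ zq q₁ q₂ m = zq q₁ q₂ n := by
    rintro (n | n) (m | m) h1 h2
    · simp only [zl, zh, zq] at h1 h2 ⊢
      have h1' : lo nx₁ n ≤ m := by simpa using h1
      have h2' : m < hi nx₁ n := by simpa using h2
      simp only [q₁]
      rw [lo_block h1' h2', hi_block h1' h2']
      simp
    · simp only [zl, zh, zq] at h1 h2 ⊢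
      omega
    · simp only [zl, zh, zq] at h1 h2 ⊢
      have : (Int.ofNat m) = (m : ℤ) := rfl
      omega
    · simp only [zl, zh, zq] at h1 h2 ⊢
      have h1' : lo nx₂ n ≤ m := by omega
      have h2' : m < hi nx₂ n := by omega
      simp only [q₂]
      rw [lo_block h1' h2', hi_block h1' h2']
      simp
  have g1 : ∀ n, zl nx₁ nx₂ n ≤ n := by
    rintro (n | n)
    · simp only [zl]
      have := lo_le hnx₁ n
      have : (Int.ofNat n) = (n : ℤ) := rfl
      omega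
    · simp only [zl]
      have := lt_hi hnx₂ n
      omega
  have g2 : ∀ n, n < zh nx₁ nx₂ n := by
    rintro (n | n)
    · simp only [zh]
      have := lt_hi hnx₁ n
      have : (Int.ofNat n) = (n : ℤ) := rfl
      omega
    · simp only [zh]
      have := lo_le hnx₂ n
      omega
  have g4 : ∀ n, zl nx₁ nx₂ (zh nx₁ nx₂ n) = zh nx₁ nx₂ n := by
    rintro (n | n)
    · simp only [zh]
      have e : ((hi nx₁ n : ℕ) : ℤ) = Int.ofNat (hi nx₁ n) := rfl
      rw [e]
      simp only [zl]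
      rw [lo_hi hnx₁]
      rfl
    · simp only [zh]
      rcases hl : lo nx₂ n with _ | k
      · show zl nx₁ nx₂ (Int.ofNat 0) = 0
        simp only [zl]
        rfl
      · have h1 : k + 1 = hi nx₂ k := by
          by_contra h2
          have h3 := lo_lo (nx := nx₂) n
          rw [hl, lo_succ_ne h2] at h3
          have := lo_le hnx₂ k
          omega
        have e : -((k + 1 : ℕ) : ℤ) = Int.negSucc k := rfl
        rw [e]
        simp only [zl]
        rw [← h1]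
        rfl
  have sq : HasSum (zq q₁ q₂) ((∑' n, q₁ n) + ∑' n, q₂ n) := by
    apply HasSum.of_nat_of_neg_add_one
    · exact a1.hasSum
    · exact b1.hasSum
  have BI := BS_int _ _ g1 g2 (fun n m h1 h2 => ⟨(g3 n m h1 h2).1, (g3 n m h1 h2).2.1⟩) g4
  have hzq0 : ∀ n, 0 ≤ zq q₁ q₂ n := by
    rintro (n | n)
    · exact a3 _
    · exact b3 _
  have hrho : ∀ n, zq q₁ q₂ (zl nx₁ nx₂ n + zh nx₁ nx₂ n - 1 - n) = zq q₁ q₂ n := by
    intro n
    have := g1 n
    have := g2 n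
    exact (g3 n _ (by omega) (by omega)).2.2
  have hth0 : ∀ n, zl nx₁ nx₂ n = n → bth (fun n : ℤ => (n : ℝ) - zl nx₁ nx₂ n)
      (fun n : ℤ => (zh nx₁ nx₂ n : ℝ) - zl nx₁ nx₂ n) n = 0 := fun n h => bth_lo BI h
  refine ⟨_, zl nx₁ nx₂, zh nx₁ nx₂, _, _, _, zq q₁ q₂, CS_of_BS BI, sq.summable, ?_, hzq0, hrho,
      ?_, ?_, ?_, ?_⟩
  · rw [sq.tsum_eq, tsum_of_nat_of_neg_add_one hps1 hps2, mul_add]
    exact add_le_add a2 b2
  · rintro (n | n)
    · have h1 := lo_le_lt hnx₁ n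
      exact (a4 n).1.1 n h1.1 h1.2.le
    · have h1 := lo_le hnx₂ n
      have h2 := lt_hi hnx₂ n
      have h3 := (b4 n).1.1 (n + 1) (by omega) (by omega)
      exact ⟨h3.2, h3.1⟩
  · rintro (n | n)
    · have h1 := (a4 n).1.2
      constructor
      · apply th_bound_of_len BI _ (hzq0 _)
        simp only [zl, zh, zq]
        push_cast
        exact h1.1
      · apply th_bound_of_len BI _ (hzq0 _)
        simp only [zl, zh, zq]
        push_cast
        exact h1.2
    · have h1 := (b4 n).1.2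
      have e : (-(lo nx₂ n : ℝ) - -(hi nx₂ n : ℝ)) = (hi nx₂ n : ℝ) - lo nx₂ n := by ring
      constructor
      · apply th_bound_of_len BI _ (hzq0 _)
        simp only [zl, zh, zq]
        push_cast
        rw [e]
        exact h1.2
      · apply th_bound_of_len BI _ (hzq0 _)
        simp only [zl, zh, zq]
        push_cast
        rw [e]
        exact h1.1
  · rintro (n | n)
    · obtain ⟨u1, u2, -⟩ := BV_use hnx₁ (a3 _) (a4 n)
      exact ⟨u1, u2⟩
    · obtain ⟨u1, u2, -⟩ := BV_use hnx₂ (b3 _) (b4 n)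
      refine ⟨u2, ?_⟩
      have e : (Equiv.addRight (1 : ℤ)) (Int.negSucc n) = -(n : ℤ) := by
        show Int.negSucc n + 1 = -(n : ℤ)
        omega
      rw [e]
      exact u1
  · rintro (n | n)
    · obtain ⟨-, -, u3⟩ := BV_use hnx₁ (a3 _) (a4 n)
      have h1 := lo_le_lt hnx₁ n
      have e : (Equiv.addRight (1 : ℤ)) (zl nx₁ nx₂ (Int.ofNat n) + zh nx₁ nx₂ (Int.ofNat n) - 1
          - Int.ofNat n) = ((rho nx₁ n + 1 : ℕ) : ℤ) := by
        show zl nx₁ nx₂ (Int.ofNat n) + zh nx₁ nx₂ (Int.ofNat n) - 1 - Int.ofNat n + 1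
          = ((rho nx₁ n + 1 : ℕ) : ℤ)
        simp only [zl, zh, rho]
        have : (Int.ofNat n) = (n : ℤ) := rfl
        omega
      rw [e]
      constructor
      · apply sin_bound (hzq0 _)
        rcases u3 with u3 | u3
        · left; apply hth0; show ((lo nx₁ n : ℕ) : ℤ) = (n : ℤ); exact_mod_cast u3.1.symm
        · right; exact u3.1
      · apply sin_bound (hzq0 _)
        rcases u3 with u3 | u3
        · left; apply hth0; show ((lo nx₁ n : ℕ) : ℤ) = (n : ℤ); exact_mod_cast u3.1.symm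
        · right; exact u3.2.1
    · obtain ⟨-, -, u3⟩ := BV_use hnx₂ (b3 _) (b4 n)
      have h1 := lo_le_lt hnx₂ n
      have e : (Equiv.addRight (1 : ℤ)) (zl nx₁ nx₂ (Int.negSucc n)
          + zh nx₁ nx₂ (Int.negSucc n) - 1 - Int.negSucc n) = -((rho nx₂ n : ℕ) : ℤ) := by
        show zl nx₁ nx₂ (Int.negSucc n) + zh nx₁ nx₂ (Int.negSucc n) - 1 - Int.negSucc n + 1
          = -((rho nx₂ n : ℕ) : ℤ)
        simp only [zl, zh, rho]
        omega
      have e0 : ∀ _ : n = lo nx₂ n ∧ n + 1 = hi nx₂ n,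
          zl nx₁ nx₂ (Int.negSucc n) = Int.negSucc n := by
        intro h
        simp only [zl]
        rw [← h.2]
        rfl
      rw [e]
      constructor
      · apply sin_bound (hzq0 _)
        rcases u3 with u3 | u3
        · left; exact hth0 _ (e0 u3)
        · right; exact u3.2.2.1
      · apply sin_bound (hzq0 _)
        rcases u3 with u3 | u3
        · left; exact hth0 _ (e0 u3)
        · right; exact u3.2.2.2

end

end Pool.Agent.H28.AN
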