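import Mathlib
import Pool.Agent.H28.AN.P2

set_option autoImplicit false
set_option linter.unusedSectionVars false
set_option linter.unusedSimpArgs false

namespace Pool.Agent.H28.AN

open Finset

section
variable {V : Type} [NormedAddCommGroup V]

lemma m_osc (w p P : ℕ → ℝ) (m : ℕ → V) (hw : ∀ n, 0 ≤ w n) (hp : ∀ n, 0 < p n)
    (hPs : ∀ n, P (n + 1) = P n + p n)
    (hv' : ∀ n, |w (n + 1) ^ 2 - w n ^ 2| + min (w n) (w (n + 1)) * ‖m (n + 1) - m n‖ ≤ p n)
    {a b : ℕ} (hΛ2 : (2 : ℝ) ≤ (b : ℝ) - a)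
    (h1' : ((b : ℝ) - a) * (P b - P a) ≤ w a ^ 2) :
    ∀ x, a ≤ x → x ≤ b → ((b : ℝ) - a) * ‖m x - m a‖ ^ 2 ≤ 9 / 4 * (P b - P a) := by
  have hab : a < b := by
    by_contra h
    push Not at h
    have : (b : ℝ) ≤ a := by exact_mod_cast h
    linarith
  have hb : b ≠ a + 1 := by
    intro h
    rw [h] at hΛ2
    push_cast at hΛ2
    linarith
  have hv : ∀ n, |w (n + 1) ^ 2 - w n ^ 2| ≤ p n := fun n => by
    have h1 := hv' n
    have h2 : 0 ≤ min (w n) (w (n + 1)) * ‖m (n + 1) - m n‖ :=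
      mul_nonneg (le_min (hw _) (hw _)) (norm_nonneg _)
    linarith
  have hPm : Monotone P := monotone_nat_of_le_succ (fun n => by rw [hPs]; linarith [hp n])
  have hvar : ∀ a m, a ≤ m → |w m ^ 2 - w a ^ 2| ≤ P m - P a := by
    intro a m h
    induction m, h using Nat.le_induction with
    | base => simp
    | succ k hk ih =>
      rw [hPs]
      have h1 : |w (k + 1) ^ 2 - w a ^ 2| ≤ |w (k + 1) ^ 2 - w k ^ 2| + |w k ^ 2 - w a ^ 2| := by
        have := abs_add_le (w (k + 1) ^ 2 - w k ^ 2) (w k ^ 2 - w a ^ 2)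
        rwa [sub_add_sub_cancel] at this
      have h2 := hv k
      linarith
  have hPS : ∀ x, a ≤ x → x ≤ b → |w x ^ 2 - w a ^ 2| ≤ P b - P a := by
    intro x h1 h2
    have := hvar a x h1
    have := hPm h2
    linarith
  set Λ := (b : ℝ) - a with hΛdef
  set S := P b - P a with hSdef
  have hS0 : 0 < S := by
    have h3 := hPm (show a + 1 ≤ b by omega)
    rw [hPs] at h3
    have := hp a
    linarith
  have hwa2 : 0 < w a ^ 2 := by nlinarith
  have hwa : 0 < w a := by
    rcases (hw a).lt_or_eq with h | h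
    · exact h
    · rw [← h] at hwa2; norm_num at hwa2
  have hwx : ∀ x, a ≤ x → x ≤ b → 2 / 3 * w a ≤ w x := by
    intro x hx1 hx2
    have h3 := (abs_le.mp (hPS x hx1 hx2)).1
    by_contra hc
    push Not at hc
    have h4 : w x ^ 2 < (2 / 3 * w a) ^ 2 := by
      have := hw x
      nlinarith
    nlinarith
  have hstep : ∀ x, a ≤ x → x ≤ b → ‖m x - m a‖ * w a ≤ 3 / 2 * (P x - P a) := by
    intro x hx
    induction x, hx using Nat.le_induction with
    | base => intro _; simp
    | succ k hk ih =>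
      intro hk1
      have ih' := ih (by omega)
      rw [hPs]
      have h3 : ‖m (k + 1) - m a‖ ≤ ‖m (k + 1) - m k‖ + ‖m k - m a‖ := by
        have := norm_add_le (m (k + 1) - m k) (m k - m a)
        rwa [sub_add_sub_cancel] at this
      have h4 : 2 / 3 * w a ≤ min (w k) (w (k + 1)) :=
        le_min (hwx k hk (by omega)) (hwx (k + 1) (by omega) hk1)
      have h5 := hv' k
      have h6 := abs_nonneg (w (k + 1) ^ 2 - w k ^ 2)
      have h7 : (2 / 3 * w a) * ‖m (k + 1) - m k‖ ≤ p k := by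
        have := mul_le_mul_of_nonneg_right h4 (norm_nonneg (m (k + 1) - m k))
        linarith
      nlinarith [norm_nonneg (m (k + 1) - m k), norm_nonneg (m k - m a)]
  have hbound : ∀ x, a ≤ x → x ≤ b → Λ * ‖m x - m a‖ ^ 2 ≤ 9 / 4 * S := by
    intro x hx1 hx2
    have h3 := hstep x hx1 hx2
    have h4 := hPm hx2
    have h5 : ‖m x - m a‖ * w a ≤ 3 / 2 * S := by linarith
    have h6 : (‖m x - m a‖ * w a) ^ 2 ≤ (3 / 2 * S) ^ 2 :=
      pow_le_pow_left₀ (by positivity) h5 2
    have h7 : Λ * ‖m x - m a‖ ^ 2 * w a ^ 2 ≤ 9 / 4 * S * w a ^ 2 := by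
      calc Λ * ‖m x - m a‖ ^ 2 * w a ^ 2 = Λ * (‖m x - m a‖ * w a) ^ 2 := by ring
        _ ≤ Λ * (3 / 2 * S) ^ 2 := mul_le_mul_of_nonneg_left h6 (by linarith)
        _ = 9 / 4 * S * (Λ * S) := by ring
        _ ≤ 9 / 4 * S * w a ^ 2 := mul_le_mul_of_nonneg_left h1' (by positivity)
    exact le_of_mul_le_mul_right h7 hwa2
  exact hbound

/-- Block decompositions of cycles. -/
theorem good3_cyc (L : ℕ) [NeZero L] (w p : ZMod L → ℝ) (m : ZMod L → V) (hw : ∀ x, 0 ≤ w x)
    (hp : ∀ x, 0 < p x)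
    (hv' : ∀ x, |w (x + 1) ^ 2 - w x ^ 2| + min (w x) (w (x + 1)) * ‖m (x + 1) - m x‖ ≤ p x) :
    Good3 (Equiv.addRight (1 : ZMod L)) w m (40 * ∑' x, p x) := by
  classical
  have hv : ∀ n, |w (n + 1) ^ 2 - w n ^ 2| ≤ p n := fun n => by
    have h1 := hv' n
    have h2 : 0 ≤ min (w n) (w (n + 1)) * ‖m (n + 1) - m n‖ :=
      mul_nonneg (le_min (hw _) (hw _)) (norm_nonneg _)
    linarith
  let P : ℕ → ℝ := fun n => ∑ i ∈ range n, p (i : ZMod L)
  have hPL : ∑' x, p x = P L := by rw [tsum_fintype, zmod_sum]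
  rw [hPL]
  have hPs : ∀ n, P (n + 1) = P n + p (n : ZMod L) := fun n => sum_range_succ _ _
  have hPm : Monotone P := monotone_nat_of_le_succ (fun n => by rw [hPs]; linarith [hp n])
  have hP00 : P 0 = 0 := by simp [P]
  have hL1 : 1 ≤ L := Nat.one_le_iff_ne_zero.mpr (NeZero.ne L)
  have hvn : ∀ n : ℕ, |w ((n + 1 : ℕ) : ZMod L) ^ 2 - w (n : ZMod L) ^ 2| ≤ p (n : ZMod L) := by
    intro n
    push_cast
    exact hv _
  have hvn' : ∀ n : ℕ, |w ((n + 1 : ℕ) : ZMod L) ^ 2 - w (n : ZMod L) ^ 2|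
      + min (w (n : ZMod L)) (w ((n + 1 : ℕ) : ZMod L))
        * ‖m ((n + 1 : ℕ) : ZMod L) - m (n : ZMod L)‖ ≤ p (n : ZMod L) := by
    intro n
    push_cast
    exact hv' _
  have hvar : ∀ m : ℕ, |w (m : ZMod L) ^ 2 - w ((0 : ℕ) : ZMod L) ^ 2| ≤ P m := by
    intro m
    induction m with
    | zero => simp [P]
    | succ k ih =>
      rw [hPs]
      have h1 : |w ((k + 1 : ℕ) : ZMod L) ^ 2 - w ((0 : ℕ) : ZMod L) ^ 2|
          ≤ |w ((k + 1 : ℕ) : ZMod L) ^ 2 - w (k : ZMod L) ^ 2|
            + |w (k : ZMod L) ^ 2 - w ((0 : ℕ) : ZMod L) ^ 2| := by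
        have := abs_add_le (w ((k + 1 : ℕ) : ZMod L) ^ 2 - w (k : ZMod L) ^ 2)
          (w (k : ZMod L) ^ 2 - w ((0 : ℕ) : ZMod L) ^ 2)
        rwa [sub_add_sub_cancel] at this
      have h2 := hvn k
      linarith
  have hLr : (1 : ℝ) ≤ L := by exact_mod_cast hL1
  by_cases hc : (L : ℝ) = 1 ∨ (L : ℝ) * P L ≤ w ((0 : ℕ) : ZMod L) ^ 2
  · -- no exchange
    let u : ZMod L → ℝ := fun x => (w x - w 0) ^ 2
    let v : ZMod L → ℝ := fun x => ‖m x - m 0‖ ^ 2
    let q : ZMod L → ℝ := fun x => (u x + u (-1 - x)) + (v x + v (-1 - x))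
      + (v (x + 1) + v (-1 - x + 1))
    have hu0 : ∀ x, 0 ≤ u x := fun x => sq_nonneg _
    have hv0 : ∀ x, 0 ≤ v x := fun x => sq_nonneg _
    have hPL0 : 0 ≤ P L := by rw [← hP00]; exact hPm (Nat.zero_le L)
    have hq0 : ∀ x, 0 ≤ q x := fun x => by
      have := hu0 x; have := hu0 (-1 - x); have := hv0 x; have := hv0 (-1 - x)
      have := hv0 (x + 1); have := hv0 (-1 - x + 1)
      simp only [q]; linarith
    refine ⟨_, _, _, _, _, _, q, CS_triv L, Summable.of_finite, ?_, hq0, ?_, ?_, ?_, ?_, ?_⟩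
    · rw [tsum_fintype]
      have r1 : ∀ f : ZMod L → ℝ, ∑ x : ZMod L, f (-1 - x) = ∑ x : ZMod L, f x := fun f =>
        Equiv.sum_comp (Equiv.subLeft (-1 : ZMod L)) f
      have r2 : ∀ f : ZMod L → ℝ, ∑ x : ZMod L, f (x + 1) = ∑ x : ZMod L, f x := fun f =>
        Equiv.sum_comp (Equiv.addRight (1 : ZMod L)) f
      have r3 : ∑ x : ZMod L, v (-1 - x + 1) = ∑ x : ZMod L, v x := by
        rw [r1 (fun y => v (y + 1)), r2]
      have hU : ∑ x : ZMod L, u x ≤ P L := by
        rw [zmod_sum]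
        have h3 : ∀ n ∈ range L, u (n : ZMod L) ≤ P L / L := by
          intro n hn
          rw [mem_range] at hn
          rw [le_div_iff₀ (by linarith)]
          have h4 := (hvar n).trans (hPm hn.le)
          have h5 := osc_bound (hw _) (hw _) h4 hLr hc
          simpa [u] using h5
        refine (sum_le_card_nsmul _ _ _ h3).trans ?_
        rw [card_range, nsmul_eq_mul]
        field_simp
        exact le_rfl
      have hVb : ∑ x : ZMod L, v x ≤ 9 / 4 * P L := by
        rw [zmod_sum]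
        have h3 : ∀ n ∈ range L, v (n : ZMod L) ≤ (9 / 4 * P L) / L := by
          intro n hn
          rw [mem_range] at hn
          rw [le_div_iff₀ (by linarith)]
          by_cases hL1' : L = 1
          · have hn0 : n = 0 := by omega
            have : v (n : ZMod L) = 0 := by simp [v, hn0]
            rw [this]; linarith
          · have hL2 : (2 : ℝ) ≤ L := by exact_mod_cast (show 2 ≤ L by omega)
            have hc' : (L : ℝ) * P L ≤ w ((0 : ℕ) : ZMod L) ^ 2 := by
              rcases hc with hc | hc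
              · linarith
              · exact hc
            have h6 := m_osc (fun n => w (n : ZMod L)) (fun n => p (n : ZMod L)) P
              (fun n => m (n : ZMod L)) (fun n => hw _) (fun n => hp _) hPs hvn'
              (a := 0) (b := L) (by push_cast; linarith)
              (by rw [hP00]; push_cast; simpa using hc') n (Nat.zero_le _) hn.le
            rw [hP00] at h6
            simp only [v]
            have h7 : ((0 : ℕ) : ZMod L) = 0 := by simp
            rw [h7] at h6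
            push_cast at h6
            linarith
        refine (sum_le_card_nsmul _ _ _ h3).trans ?_
        rw [card_range, nsmul_eq_mul]
        field_simp
        exact le_rfl
      have h3 : ∑ x, q x = (∑ x : ZMod L, u x + ∑ x : ZMod L, u (-1 - x))
          + (∑ x : ZMod L, v x + ∑ x : ZMod L, v (-1 - x))
          + (∑ x : ZMod L, v (x + 1) + ∑ x : ZMod L, v (-1 - x + 1)) := by
        simp only [q, sum_add_distrib]
      rw [h3, r1, r1, r2, r3]
      linarith
    · intro x
      simp only [q]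
      have e1 : -1 - (-1 - x) = x := by ring
      rw [e1]
      ring
    · intro x
      have h1 : (w x - w 0) ^ 2 ≤ q x := by
        have := hu0 (-1 - x); have := hv0 x; have := hv0 (-1 - x)
        have := hv0 (x + 1); have := hv0 (-1 - x + 1)
        simp only [q, u] at *; linarith
      exact ⟨h1, h1⟩
    · intro x
      have h1 := hq0 x
      constructor <;> · simp only [sub_self]; nlinarith
    · intro x
      have := hu0 x; have := hu0 (-1 - x); have := hv0 x; have := hv0 (-1 - x)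
      have := hv0 (x + 1); have := hv0 (-1 - x + 1)
      constructor
      · show v x ≤ q x
        simp only [q]; linarith
      · show v (x + 1) ≤ q x
        simp only [q]; linarith
    · intro x
      have h1 := hq0 x
      exact ⟨sin_bound h1 (Or.inl rfl), sin_bound h1 (Or.inl rfl)⟩
  · push Not at hc
    obtain ⟨hc1, hc2⟩ := hc
    have hL2 : 2 ≤ L := by
      have : L ≠ 1 := fun h => hc1 (by rw [h]; simp)
      omega
    have hp0 : p ((L : ℕ) : ZMod L) ≤ P L := by
      have h1 : ((L : ℕ) : ZMod L) = ((0 : ℕ) : ZMod L) := by simp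
      rw [h1]
      have h2 := hPm hL1
      rw [hPs 0, hP00] at h2
      linarith
    obtain ⟨nx, hnx, hLL, Q, hQ0, hBC, hsum⟩ := partition_segment2 L hL2
      (fun n => w (n : ZMod L)) (fun n => p (n : ZMod L)) P (fun n => m (n : ZMod L))
      (fun n => hw _) (fun n => hp _) (fun n => rfl) hvn' hc2 hp0
    have vc : ∀ x : ZMod L, ((x.val : ℕ) : ZMod L) = x := fun x => ZMod.natCast_zmod_val x
    have hhi : ∀ n, n < L → hi nx n ≤ L := by
      intro n hn
      by_contra h
      push Not at h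
      have h1 := lo_le hnx n
      have h2 := lo_block (nx := nx) (n := n) (m := L) (by omega) h
      omega
    let q : ZMod L → ℝ := fun x => Q (lo nx x.val)
    have key : ∀ n, (th nx n - thp nx n) ^ 2 * ((hi nx n : ℝ) - lo nx n) ^ 2 ≤ 3 := by
      intro n
      have h1 := thp_sub hnx n
      have h5 : Real.pi < 3.1416 := Real.pi_lt_d4
      have h6 := Real.pi_pos
      have h7 : (|th nx n - thp nx n| * ((hi nx n : ℝ) - lo nx n)) ^ 2 = (Real.pi / 2) ^ 2 := by
        rw [h1]
      rw [mul_pow, sq_abs] at h7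
      nlinarith
    have key2 : ∀ n (y : ℝ), y ^ 2 ≤ ((hi nx n : ℝ) - lo nx n) ^ 2 * Q (lo nx n) →
        y ^ 2 * (th nx n - thp nx n) ^ 2 ≤ 3 * Q (lo nx n) := by
      intro n y hy
      calc y ^ 2 * (th nx n - thp nx n) ^ 2
          ≤ (((hi nx n : ℝ) - lo nx n) ^ 2 * Q (lo nx n)) * (th nx n - thp nx n) ^ 2 :=
            mul_le_mul_of_nonneg_right hy (sq_nonneg _)
        _ = Q (lo nx n) * ((th nx n - thp nx n) ^ 2 * ((hi nx n : ℝ) - lo nx n) ^ 2) := by ring
        _ ≤ Q (lo nx n) * 3 := mul_le_mul_of_nonneg_left (key n) (hQ0 _)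
        _ = 3 * Q (lo nx n) := by ring
    refine ⟨_, _, _, _, _, _, q, CS_cyc L nx hnx hLL, Summable.of_finite, ?_, fun x => hQ0 _,
      ?_, ?_, ?_, ?_, ?_⟩
    · rw [tsum_fintype, zmod_sum]
      refine le_trans (le_of_eq ?_) hsum
      apply sum_congr rfl
      intro n hn
      simp only [q]
      rw [ZMod.val_cast_of_lt (mem_range.mp hn)]
    · intro x
      simp only [q]
      have h0 := ZMod.val_lt x
      have h1 := rho_mem hnx x.val
      have h2 := hhi _ h0
      rw [ZMod.val_cast_of_lt (show rho nx x.val < L by omega), lo_rho hnx]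
    · intro x
      have h0 := ZMod.val_lt x
      have h1 := lo_le_lt hnx x.val
      have h2 := (hBC x.val h0).1.1 x.val h1.1 h1.2.le
      simp only [vc] at h2
      exact h2
    · intro x
      have h0 := ZMod.val_lt x
      have h2 := (hBC x.val h0).1.2
      exact ⟨key2 _ _ h2.1, key2 _ _ h2.2⟩
    · intro x
      have h0 := ZMod.val_lt x
      obtain ⟨u1, u2, -⟩ := BV_use hnx (hQ0 _) (hBC x.val h0)
      have e1 : (Equiv.addRight (1 : ZMod L)) x = ((x.val + 1 : ℕ) : ZMod L) := by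
        show x + 1 = _
        push_cast; rw [vc]
      rw [e1]
      simp only [vc] at u1
      exact ⟨u1, u2⟩
    · intro x
      have h0 := ZMod.val_lt x
      obtain ⟨-, -, u3⟩ := BV_use hnx (hQ0 _) (hBC x.val h0)
      have e1 : (Equiv.addRight (1 : ZMod L)) ((rho nx x.val : ℕ) : ZMod L)
          = ((rho nx x.val + 1 : ℕ) : ZMod L) := by
        show ((rho nx x.val : ℕ) : ZMod L) + 1 = _
        push_cast; rfl
      rw [e1]
      simp only [vc] at u3
      constructor
      · apply sin_bound (hQ0 _)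
        rcases u3 with u3 | u3
        · left; exact th_lo u3.1.symm
        · right; exact u3.1
      · apply sin_bound (hQ0 _)
        rcases u3 with u3 | u3
        · left; exact th_lo u3.1.symm
        · right; exact u3.2.1

lemma good3_zmod (L : ℕ) (w p : ZMod L → ℝ) (m : ZMod L → V) (hw : ∀ x, 0 ≤ w x)
    (hp : ∀ x, 0 < p x) (hps : Summable p)
    (hv : ∀ x, |w (x + 1) ^ 2 - w x ^ 2| + min (w x) (w (x + 1)) * ‖m (x + 1) - m x‖ ≤ p x) :
    Good3 (Equiv.addRight (1 : ZMod L)) w m (40 * ∑' x, p x) := by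
  rcases L with _ | L
  · have h0 : 0 ≤ ∑' x : ZMod 0, p x := tsum_nonneg (fun x => (hp x).le)
    have h1 : Good3 (Equiv.addRight (1 : ℤ)) w m (30 * ∑' x : ℤ, p x) :=
      good3_int w p m hw hp hps hv
    have h2 : (∑' x : ZMod 0, p x) = ∑' x : ℤ, p x := rfl
    refine good3_mono h1 ?_
    rw [← h2]
    linarith
  · exact good3_cyc (L + 1) w p m hw hp hv

/-- Block decompositions for arbitrary permutations. -/
theorem good3_perm {ι : Type} (s : Equiv.Perm ι)
    (w p : ι → ℝ) (m : ι → V) (hw : ∀ i, 0 ≤ w i) (hp : ∀ i, 0 < p i) (hps : Summable p)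
    (hv : ∀ i, |w (s i) ^ 2 - w i ^ 2| + min (w i) (w (s i)) * ‖m (s i) - m i‖ ≤ p i) :
    Good3 s w m (40 * ∑' i, p i) := by
  classical
  let κ : Type := Quotient (Equiv.Perm.SameCycle.setoid s)
  let base : κ → ι := Quotient.out
  let per : κ → ℕ := fun c => Function.minimalPeriod (s • ·) (base c)
  have key : ∀ c (m n : ℤ), (s ^ m) (base c) = (s ^ n) (base c) ↔
      ((m : ZMod (per c)) = (n : ZMod (per c))) := by
    intro c m n
    have h1 : (s ^ m) (base c) = (s ^ n) (base c) ↔ (s ^ (n - m)) (base c) = base c := by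
      constructor
      · intro h
        have h2 := congrArg (s ^ (-m)) h
        rw [← Equiv.Perm.mul_apply, ← Equiv.Perm.mul_apply, ← zpow_add, ← zpow_add] at h2
        rw [show -m + n = n - m by ring, show -m + m = 0 by ring] at h2
        simpa using h2.symm
      · intro h
        have h2 := congrArg (s ^ m) h
        rw [← Equiv.Perm.mul_apply, ← zpow_add, show m + (n - m) = n by ring] at h2
        exact h2.symm
    rw [h1, ZMod.intCast_eq_intCast_iff_dvd_sub]
    exact MulAction.zpow_smul_eq_iff_minimalPeriod_dvd (a := s) (b := base c) (n := n - m)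
  let f : (Σ c : κ, ZMod (per c)) → ι := fun x => (s ^ (x.2.cast : ℤ)) (base x.1)
  have hf : ∀ (c : κ) (x : ZMod (per c)), f ⟨c, x⟩ = (s ^ (x.cast : ℤ)) (base c) :=
    fun c x => rfl
  have hinj : Function.Injective f := by
    rintro ⟨c, x⟩ ⟨c', y⟩ h
    rw [hf, hf] at h
    have hcc : c = c' := by
      rw [← Quotient.out_eq c, ← Quotient.out_eq c']
      apply Quotient.sound
      refine ⟨(x.cast : ℤ) - (y.cast : ℤ), ?_⟩
      show (s ^ ((x.cast : ℤ) - (y.cast : ℤ))) (base c) = base c'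
      have h2 := congrArg (s ^ (-(y.cast : ℤ))) h
      rw [← Equiv.Perm.mul_apply, ← Equiv.Perm.mul_apply, ← zpow_add, ← zpow_add] at h2
      rw [show -(y.cast : ℤ) + (x.cast : ℤ) = (x.cast : ℤ) - (y.cast : ℤ) by ring,
        show -(y.cast : ℤ) + (y.cast : ℤ) = 0 by ring] at h2
      simpa using h2
    subst hcc
    have h3 := (key c _ _).mp h
    rw [ZMod.intCast_zmod_cast, ZMod.intCast_zmod_cast] at h3
    rw [h3]
  have hsurj : Function.Surjective f := by
    intro i
    have h1 : (Equiv.Perm.SameCycle.setoid s).r (base (Quotient.mk _ i)) i :=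
      Quotient.exact (Quotient.out_eq (Quotient.mk _ i))
    obtain ⟨n, hn⟩ := h1
    refine ⟨⟨Quotient.mk _ i, (n : ZMod _)⟩, ?_⟩
    rw [hf]
    refine Eq.trans ?_ hn
    exact (key _ _ _).mpr (by rw [ZMod.intCast_zmod_cast])
  let φ : (Σ c : κ, ZMod (per c)) ≃ ι := Equiv.ofBijective f ⟨hinj, hsurj⟩
  have hφ : ∀ c (x : ZMod (per c)), φ ⟨c, x⟩ = (s ^ (x.cast : ℤ)) (base c) := fun c n => rfl
  have hstep : ∀ c (x : ZMod (per c)), s (φ ⟨c, x⟩) = φ ⟨c, x + 1⟩ := by
    intro c x
    have h1 : s ((s ^ (x.cast : ℤ)) (base c)) = (s ^ (1 + (x.cast : ℤ))) (base c) := by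
      rw [zpow_one_add, Equiv.Perm.mul_apply]
    rw [hφ, hφ, h1, key]
    push_cast
    exact add_comm 1 x
  have hpφ : Summable fun x => p (φ x) := (φ.summable_iff (f := p)).mpr hps
  have hp2 := (summable_sigma_of_nonneg (fun x => (hp (φ x)).le)).mp hpφ
  have good : Good3 (Equiv.sigmaCongrRight (fun c : κ => Equiv.addRight (1 : ZMod (per c))))
      (fun x : (Σ c : κ, ZMod (per c)) => w (φ ⟨x.1, x.2⟩))
      (fun x : (Σ c : κ, ZMod (per c)) => m (φ ⟨x.1, x.2⟩))
      (∑' c : κ, 40 * ∑' n : ZMod (per c), p (φ ⟨c, n⟩)) := by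
    apply good3_sigma (fun c : κ => Equiv.addRight (1 : ZMod (per c))) (fun c n => w (φ ⟨c, n⟩))
      (fun c n => m (φ ⟨c, n⟩))
    · exact hp2.2.mul_left 40
    · intro c
      apply good3_zmod (per c) (fun n => w (φ ⟨c, n⟩)) (fun n => p (φ ⟨c, n⟩))
        (fun n => m (φ ⟨c, n⟩)) (fun n => hw _) (fun n => hp _) (hp2.1 c)
      intro n
      rw [← hstep]
      exact hv _
  have hK : (∑' c : κ, 40 * ∑' n : ZMod (per c), p (φ ⟨c, n⟩)) = 40 * ∑' i, p i := by
    have h1 : ∑' x, p (φ x) = ∑' i, p i := Equiv.tsum_eq φ p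
    have h2 : ∑' x, p (φ x) = ∑' c : κ, ∑' n : ZMod (per c), p (φ ⟨c, n⟩) :=
      hpφ.tsum_sigma' hp2.1
    rw [tsum_mul_left, ← h2, h1]
  rw [hK] at good
  refine good3_equiv φ (Equiv.sigmaCongrRight (fun c : κ => Equiv.addRight (1 : ZMod (per c)))) s
    (fun x : (Σ c : κ, ZMod (per c)) => w (φ ⟨x.1, x.2⟩)) w
    (fun x : (Σ c : κ, ZMod (per c)) => m (φ ⟨x.1, x.2⟩)) m _ ?_ ?_ ?_ good
  · rintro ⟨c, n⟩
    exact hstep c n
  · rintro ⟨c, n⟩
    rfl
  · rintro ⟨c, n⟩
    rfl

end

end Pool.Agent.H28.AN
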