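import Mathlib
import Pool.Agent.H28.AN.J
import Pool.Agent.H28.AN.Alg
import Pool.Agent.H28.AN.G2

set_option autoImplicit false
set_option linter.unusedSectionVars false
set_option linter.unusedSimpArgs false

namespace Pool.Agent.H28.AN

open scoped InnerProductSpace
open Submodule

variable {H : Type} [NormedAddCommGroup H] [InnerProductSpace ℂ H] [CompleteSpace H]

/-- Bounded complex diagonal operators. -/
lemma exists_cdiag {ι : Type} (b : HilbertBasis ι ℂ H) (μ : ι → ℂ) (C : ℝ)
    (hμ : ∀ i, ‖μ i‖ ≤ C) :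
    ∃ D : H →L[ℂ] H, (∀ i, D (b i) = μ i • b i) ∧
      (∀ i, (star D) (b i) = (starRingEnd ℂ (μ i)) • b i) := by
  obtain ⟨A, hA1, hA⟩ := exists_diag b (fun i => (μ i).re) C
    (fun i => (Complex.abs_re_le_norm _).trans (hμ i))
  obtain ⟨B, hB1, hB⟩ := exists_diag b (fun i => (μ i).im) C
    (fun i => (Complex.abs_im_le_norm _).trans (hμ i))
  refine ⟨A + Complex.I • B, ?_, ?_⟩
  · intro i
    rw [add_apply, smul_apply, hA, hB, smul_smul, ← add_smul]
    congr 1
    rw [mul_comm]
    exact Complex.re_add_im (μ i)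
  · intro i
    rw [star_add, star_smul, hA1, hB1, add_apply, smul_apply, hA, hB, smul_smul, ← add_smul]
    congr 1
    apply Complex.ext <;> simp

/-- Operators with a summable weighted permutation action are products of two Hilbert-Schmidt
operators. -/
lemma tc_of_action {D Ω : Type} (e : HilbertBasis D ℂ H) (b : HilbertBasis Ω ℂ H) (π : Ω ≃ Ω)
    (σ : Ω → ℂ) (hσ : ∀ x, ‖σ x‖ = 1) (δ : Ω → ℂ) (hδ : Summable fun x => ‖δ x‖)
    (Y : H →L[ℂ] H) (hY : ∀ x, Y (b x) = δ x • σ x • b (π x)) : tc e Y := by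
  classical
  have hon : Orthonormal ℂ (fun x => σ x • b (π x)) := by
    constructor
    · intro i
      rw [norm_smul, hσ, b.orthonormal.1, one_mul]
    · intro i j hij
      simp only
      rw [inner_smul_left, inner_smul_right, b.orthonormal.2 (fun h => hij (π.injective h))]
      simp
  obtain ⟨V, -, hV⟩ := exists_isom b _ hon
  have hbd : ∀ x, ‖δ x‖ ≤ ∑' y, ‖δ y‖ := fun x => hδ.le_tsum x (fun _ _ => norm_nonneg _)
  have hbd2 : ∀ x, √‖δ x‖ ≤ √(∑' y, ‖δ y‖) := fun x => Real.sqrt_le_sqrt (hbd x)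
  obtain ⟨A, hA, -⟩ := exists_cdiag b (fun x => ((√‖δ x‖ : ℝ) : ℂ)) (√(∑' y, ‖δ y‖)) (fun x => by
    rw [Complex.norm_real, Real.norm_eq_abs, abs_of_nonneg (Real.sqrt_nonneg _)]
    exact hbd2 x)
  have hnorm : ∀ x, ‖δ x / ((√‖δ x‖ : ℝ) : ℂ)‖ = √‖δ x‖ := by
    intro x
    rw [norm_div, Complex.norm_real, Real.norm_eq_abs, abs_of_nonneg (Real.sqrt_nonneg _)]
    exact Real.div_sqrt
  obtain ⟨B, hB, -⟩ := exists_cdiag b (fun x => δ x / ((√‖δ x‖ : ℝ) : ℂ)) (√(∑' y, ‖δ y‖))
    (fun x => by rw [hnorm]; exact hbd2 x)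
  have hb1 : ∀ y, ‖b y‖ = 1 := fun y => b.orthonormal.1 y
  have hsA : hs e A := by
    apply hs_indep b e
    refine hδ.congr fun x => ?_
    rw [hA, norm_smul, hb1, mul_one, Complex.norm_real, Real.norm_eq_abs, sq_abs,
      Real.sq_sqrt (norm_nonneg _)]
  have hsB : hs e B := by
    apply hs_indep b e
    refine hδ.congr fun x => ?_
    rw [hB, norm_smul, hb1, mul_one, hnorm, Real.sq_sqrt (norm_nonneg _)]
  have hYe : Y = V * (A * B) := by
    apply ext_basis b
    intro x
    rw [hY, mul_apply_eq_comp, mul_apply_eq_comp, hB, map_smul, hA, map_smul, map_smul, hV,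
      smul_smul (δ x / ((√‖δ x‖ : ℝ) : ℂ)) ((√‖δ x‖ : ℝ) : ℂ) (σ x • b (π x))]
    congr 1
    by_cases h : δ x = 0
    · rw [h]; simp
    · have h1 : ((√‖δ x‖ : ℝ) : ℂ) ≠ 0 := by
        have : 0 < √‖δ x‖ := Real.sqrt_pos.mpr (norm_pos_iff.mpr h)
        exact_mod_cast this.ne'
      field_simp
  rw [hYe]
  exact tc_mul_left _ _ ⟨A, B, hsA, hsB, rfl⟩

/-- Elements of the star algebra generated by a family commute modulo a star ideal, if the
generators and their adjoints do. -/
lemma comm_mod2 {Ω : Type} (I : (H →L[ℂ] H) → Prop) (h0 : I 0)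
    (hadd : ∀ A B, I A → I B → I (A + B))
    (hml : ∀ X A, I A → I (X * A)) (hmr : ∀ X A, I A → I (A * X)) (hstar : ∀ A, I A → I (star A))
    (S : Ω → (H →L[ℂ] H)) (hS : ∀ a b, I (S a * S b - S b * S a))
    (hS' : ∀ a b, I (S a * star (S b) - star (S b) * S a)) (A B : H →L[ℂ] H)
    (hA : A ∈ StarAlgebra.adjoin ℂ (Set.range S))
    (hB : B ∈ StarAlgebra.adjoin ℂ (Set.range S)) : I (A * B - B * A) := by
  have hneg : ∀ A, I A → I (-A) := fun A h => by
    have := hml (-1) A h
    rwa [neg_one_mul] at this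
  have step1 : ∀ A ∈ StarAlgebra.adjoin ℂ (Set.range S), ∀ b,
      I (A * S b - S b * A) ∧ I (A * star (S b) - star (S b) * A) := by
    intro A hA
    induction hA using StarAlgebra.adjoin_induction with
    | mem x hx =>
      obtain ⟨a, rfl⟩ := hx
      intro b
      exact ⟨hS a b, hS' a b⟩
    | algebraMap r =>
      intro b
      have e : ∀ Y : H →L[ℂ] H, (algebraMap ℂ (H →L[ℂ] H)) r * Y
          - Y * (algebraMap ℂ (H →L[ℂ] H)) r = 0 := fun Y => by
        rw [Algebra.commutes, sub_self]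
      rw [e, e]
      exact ⟨h0, h0⟩
    | add x y _ _ hx hy =>
      intro b
      have e : ∀ Y : H →L[ℂ] H, (x + y) * Y - Y * (x + y) = (x * Y - Y * x) + (y * Y - Y * y) :=
        fun Y => by noncomm_ring
      rw [e, e]
      exact ⟨hadd _ _ (hx b).1 (hy b).1, hadd _ _ (hx b).2 (hy b).2⟩
    | mul x y _ _ hx hy =>
      intro b
      have e : ∀ Y : H →L[ℂ] H, (x * y) * Y - Y * (x * y)
          = x * (y * Y - Y * y) + (x * Y - Y * x) * y := fun Y => by noncomm_ring
      rw [e, e]
      exact ⟨hadd _ _ (hml _ _ (hy b).1) (hmr _ _ (hx b).1),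
        hadd _ _ (hml _ _ (hy b).2) (hmr _ _ (hx b).2)⟩
    | star x _ hx =>
      intro b
      have e1 : star x * S b - S b * star x = -star (x * star (S b) - star (S b) * x) := by
        simp only [star_sub, star_mul, star_star]; noncomm_ring
      have e2 : star x * star (S b) - star (S b) * star x = -star (x * S b - S b * x) := by
        simp only [star_sub, star_mul, star_star]; noncomm_ring
      rw [e1, e2]
      exact ⟨hneg _ (hstar _ (hx b).2), hneg _ (hstar _ (hx b).1)⟩
  have step2 : ∀ B ∈ StarAlgebra.adjoin ℂ (Set.range S),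
      ∀ A ∈ StarAlgebra.adjoin ℂ (Set.range S), I (A * B - B * A) := by
    intro B hB
    induction hB using StarAlgebra.adjoin_induction with
    | mem x hx =>
      intro A hA
      obtain ⟨a, rfl⟩ := hx
      exact (step1 A hA a).1
    | algebraMap r =>
      intro A _
      rw [Algebra.commutes, sub_self]
      exact h0
    | add x y _ _ hx hy =>
      intro A hA
      have e : A * (x + y) - (x + y) * A = (A * x - x * A) + (A * y - y * A) := by noncomm_ring
      rw [e]
      exact hadd _ _ (hx A hA) (hy A hA)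
    | mul x y _ _ hx hy =>
      intro A hA
      have e : A * (x * y) - (x * y) * A = (A * x - x * A) * y + x * (A * y - y * A) := by
        noncomm_ring
      rw [e]
      exact hadd _ _ (hmr _ _ (hx A hA)) (hml _ _ (hy A hA))
    | star x _ hx =>
      intro A hA
      have e : A * star x - star x * A = -star (star A * x - x * star A) := by
        simp only [star_sub, star_mul, star_star]; noncomm_ring
      rw [e]
      exact hneg _ (hstar _ (hx _ (star_mem hA)))
  exact step2 B hB A hA

section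
variable {D : Type} {e : HilbertBasis D ℂ H}

/-- The class of operators with a partner is stable under passing to the generated star
algebra. -/
theorem algebra_step2 {Ω : Type} {J₁ J₂ : H →L[ℂ] H} (j11 : star J₁ * J₁ = 1)
    (j22 : star J₂ * J₂ = 1)
    (j12 : star J₁ * J₂ = 0) (j21 : star J₂ * J₁ = 0) (hJ : J₁ * star J₁ + J₂ * star J₂ = 1)
    (T S N : Ω → (H →L[ℂ] H)) (hN : ∀ a b, N a * N b = N b * N a)
    (hN' : ∀ a b, N a * star (N b) = star (N b) * N a)
    (hX : ∀ a, hs e (J₁ * T a * star J₁ + J₂ * S a * star J₂ - N a))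
    (hS : ∀ a b, tc e (S a * S b - S b * S a))
    (hS' : ∀ a b, tc e (S a * star (S b) - star (S b) * S a)) (A : H →L[ℂ] H)
    (hA : A ∈ StarAlgebra.adjoin ℂ (Set.range T)) :
    ∃ B M : H →L[ℂ] H, star M * M = M * star M ∧
      hs e (J₁ * A * star J₁ + J₂ * B * star J₂ - M) ∧ tc e (star B * B - B * star B) := by
  have key : ∃ B M : H →L[ℂ] H, B ∈ StarAlgebra.adjoin ℂ (Set.range S) ∧
      M ∈ StarAlgebra.adjoin ℂ (Set.range N) ∧
      hs e (J₁ * A * star J₁ + J₂ * B * star J₂ - M) := by
    induction hA using StarAlgebra.adjoin_induction with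
    | mem x hx =>
      obtain ⟨a, rfl⟩ := hx
      exact ⟨S a, N a, StarAlgebra.subset_adjoin ℂ _ ⟨a, rfl⟩,
        StarAlgebra.subset_adjoin ℂ _ ⟨a, rfl⟩, hX a⟩
    | algebraMap r =>
      refine ⟨algebraMap ℂ _ r, algebraMap ℂ _ r, algebraMap_mem _ r, algebraMap_mem _ r, ?_⟩
      have e1 : J₁ * (algebraMap ℂ (H →L[ℂ] H)) r * star J₁
          + J₂ * (algebraMap ℂ (H →L[ℂ] H)) r * star J₂ - (algebraMap ℂ (H →L[ℂ] H)) r = 0 := by
        rw [← Algebra.commutes r J₁, ← Algebra.commutes r J₂, mul_assoc, mul_assoc, ← mul_add, hJ,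
          mul_one, sub_self]
      rw [e1]
      exact hs_zero
    | add x y _ _ hx hy =>
      obtain ⟨B, M, hB, hM, h⟩ := hx
      obtain ⟨B', M', hB', hM', h'⟩ := hy
      refine ⟨B + B', M + M', add_mem hB hB', add_mem hM hM', ?_⟩
      have e1 : J₁ * (x + y) * star J₁ + J₂ * (B + B') * star J₂ - (M + M')
          = (J₁ * x * star J₁ + J₂ * B * star J₂ - M)
            + (J₁ * y * star J₁ + J₂ * B' * star J₂ - M') := by noncomm_ring
      rw [e1]
      exact hs_add h h'
    | mul x y _ _ hx hy =>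
      obtain ⟨B, M, hB, hM, h⟩ := hx
      obtain ⟨B', M', hB', hM', h'⟩ := hy
      refine ⟨B * B', M * M', mul_mem hB hB', mul_mem hM hM', ?_⟩
      have e0 : (J₁ * x * star J₁ + J₂ * B * star J₂) * (J₁ * y * star J₁ + J₂ * B' * star J₂)
          = J₁ * (x * y) * star J₁ + J₂ * (B * B') * star J₂ := by
        have e1 : (J₁ * x * star J₁ + J₂ * B * star J₂) * (J₁ * y * star J₁ + J₂ * B' * star J₂)
            = J₁ * x * (star J₁ * J₁) * y * star J₁ + J₁ * x * (star J₁ * J₂) * B' * star J₂
              + J₂ * B * (star J₂ * J₁) * y * star J₁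
              + J₂ * B * (star J₂ * J₂) * B' * star J₂ := by noncomm_ring
        rw [e1, j11, j22, j12, j21]
        noncomm_ring
      have e2 : J₁ * (x * y) * star J₁ + J₂ * (B * B') * star J₂ - M * M'
          = (J₁ * x * star J₁ + J₂ * B * star J₂ - M)
              * (J₁ * y * star J₁ + J₂ * B' * star J₂)
            + M * (J₁ * y * star J₁ + J₂ * B' * star J₂ - M') := by
        rw [← e0]; noncomm_ring
      rw [e2]
      exact hs_add (hs_mul_right _ h) (hs_mul_left _ h')
    | star x _ hx =>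
      obtain ⟨B, M, hB, hM, h⟩ := hx
      refine ⟨star B, star M, star_mem hB, star_mem hM, ?_⟩
      have e1 : J₁ * star x * star J₁ + J₂ * star B * star J₂ - star M
          = star (J₁ * x * star J₁ + J₂ * B * star J₂ - M) := by
        simp only [star_sub, star_add, star_mul, star_star]; noncomm_ring
      rw [e1]
      exact hs_star h
  obtain ⟨B, M, hB, hM, h⟩ := key
  refine ⟨B, M, ?_, h, ?_⟩
  · have h1 := comm_mod2 (fun A => A = 0) rfl (fun A B hA hB => by rw [hA, hB, add_zero])
      (fun X A hA => by rw [hA, mul_zero]) (fun X A hA => by rw [hA, zero_mul])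
      (fun A hA => by rw [hA, star_zero]) N (fun a b => by rw [hN, sub_self])
      (fun a b => by rw [hN', sub_self]) (star M) M (star_mem hM) hM
    exact sub_eq_zero.mp h1
  · exact comm_mod2 (tc e) tc_zero (tc_add j11 j22 j12 j21) tc_mul_left tc_mul_right tc_star S
      hS hS' (star B) B (star_mem hB) hB

end

/-- Values of a function along the cycles. -/
def bval {ι α : Type} (s : ι ≃ ι) (lo hi : ι → ι) (m : ι → α) : ι ⊕ ι → α
  | Sum.inl i => m (lo i)
  | Sum.inr j => m (hi (s.symm j))

lemma bval_perm {ι α : Type} {s : ι ≃ ι} {E : ι → Prop} {lo hi rho : ι → ι} {th thp : ι → ℝ}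
    (B : CS s E lo hi rho th thp) (m : ι → α) (i : ι ⊕ ι) :
    bval s lo hi m (cperm s E lo hi i) = bval s lo hi m i := by
  rcases i with i | j
  · simp only [cperm]
    split_ifs with h
    · simp only [bval]
      have h1 : E (s (s.symm (lo i))) := by
        rw [s.apply_symm_apply]; exact B.E_lo i h
      have h2 := (B.endp _ h1).1
      rw [h2, s.apply_symm_apply]
    · simp only [bval]
      rw [(B.inner i h).1]
  · simp only [cperm]
    split_ifs with h
    · simp only [bval]
      rw [B.lo_self _ (B.E_hi _ h)]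
    · simp only [bval]
      have h1 : ¬ E (s (s.symm (s.symm j))) := by
        rw [s.apply_symm_apply]; exact h
      have h2 := (B.inner _ h1).2.1
      rw [s.apply_symm_apply] at h2
      rw [h2]

end Pool.Agent.H28.AN
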