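import Mathlib
import Pool.Agent.H28.AN.P3

set_option autoImplicit false
set_option linter.unusedSectionVars false
set_option linter.unusedSimpArgs false

namespace Pool.Agent.H28.AN

open scoped InnerProductSpace
open Submodule

section
variable {ι : Type} {s : ι ≃ ι} {E : ι → Prop} {lo hi rho : ι → ι} {th thp : ι → ℝ}
variable {H : Type} [NormedAddCommGroup H] [InnerProductSpace ℂ H] [CompleteSpace H]

/-- The comparison of the doubled weighted shift with a normal operator. -/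
theorem cdiff2 (BB : CS s E lo hi rho th thp) (b : HilbertBasis (ι ⊕ ι) ℂ H)
    (w : ι → ℝ) (C : ℝ) (hC : ∀ n, |w n| ≤ C) (q : ι → ℝ) (hqρ : ∀ n, q (rho n) = q n)
    (h1 : ∀ n, (w n - w (lo n)) ^ 2 ≤ q n ∧ (w n - w (hi n)) ^ 2 ≤ q n)
    (h2 : ∀ n, w (lo n) ^ 2 * (th n - thp n) ^ 2 ≤ 3 * q n ∧
      w (hi n) ^ 2 * (th n - thp n) ^ 2 ≤ 3 * q n)
    (ζ : ι → ℂ) (hζ : ∀ i, ‖ζ i‖ = 1) (X : H →L[ℂ] H)
    (hX1 : ∀ n, X (b (Sum.inl n)) = (w n : ℂ) • ζ n • b (Sum.inl (s n)))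
    (hX3 : ∀ k, X (b (Sum.inr (s k))) = (w k : ℂ) • ζ (rho k) • b (Sum.inr k))
    {J : Type} (m : ι → J → ℂ) (C' : ℝ) (hm : ∀ i j, ‖m i j‖ ≤ C')
    (h3 : ∀ n j, ‖m n j - m (lo n) j‖ ^ 2 ≤ q n ∧ ‖m (s n) j - m (hi n) j‖ ^ 2 ≤ q n)
    (h4 : ∀ n j, Real.sin (th n) ^ 2 * ‖m (s (rho n)) j - m (lo n) j‖ ^ 2 ≤ q n ∧
      Real.sin (th n) ^ 2 * ‖m n j - m (hi n) j‖ ^ 2 ≤ q n)
    (Y : J → (H →L[ℂ] H)) (hY1 : ∀ j n, Y j (b (Sum.inl n)) = m n j • b (Sum.inl n))
    (hY2 : ∀ j n, Y j (b (Sum.inr n)) = m n j • b (Sum.inr n)) :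
    ∃ N : Option J → (H →L[ℂ] H), (∀ a b, N a * N b = N b * N a) ∧
      (∀ a b, N a * star (N b) = star (N b) * N a) ∧
      (∀ n, ‖(X - N none) (b (Sum.inl n))‖ ^ 2 ≤ 128 * q n) ∧
      (∀ k, ‖(X - N none) (b (Sum.inr (s k)))‖ ^ 2 ≤ 128 * q k) ∧
      (∀ j n, ‖(Y j - N (some j)) (b (Sum.inl n))‖ ^ 2 ≤ 128 * q n) ∧
      (∀ j k, ‖(Y j - N (some j)) (b (Sum.inr (s k)))‖ ^ 2 ≤ 128 * q k) := by
  classical
  set c : ι → ℝ := fun n => Real.cos (th n) with hc
  set d : ι → ℝ := fun n => Real.sin (th n) with hs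
  have hcs : ∀ n, c n ^ 2 + d n ^ 2 = 1 := fun n => Real.cos_sq_add_sin_sq _
  obtain ⟨r, hr⟩ := exists_brot b s rho BB.rho_rho c d hcs
  obtain ⟨N, hN1, hN⟩ := exists_normal r (cperm s E lo hi) (cperm_inj BB) (cperm_surj BB)
    (csgn s E rho ζ) (norm_csgn hζ) (bwt s lo hi w) C (by rintro (n | k) <;> exact hC _)
    (cwt_perm BB w)
  have hq0 : ∀ n, 0 ≤ q n := fun n => le_trans (sq_nonneg _) (h1 n).1
  have hb1 : ∀ i, ‖b i‖ ^ 2 ≤ 1 := fun i => by rw [b.orthonormal.1 i]; norm_num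
  have habsc : ∀ n, |c n| ≤ 1 := fun n => Real.abs_cos_le_one _
  have habss : ∀ n, |d n| ≤ 1 := fun n => Real.abs_sin_le_one _
  have hcd : ∀ n, |c n - Real.cos (thp n)| ≤ |th n - thp n| :=
    fun n => Real.abs_cos_sub_cos_le _ _
  have hsd : ∀ n, |d n - Real.sin (thp n)| ≤ |th n - thp n| :=
    fun n => Real.abs_sin_sub_sin_le _ _
  -- the rotated vectors of the first half
  have hE : ∀ n, (X - N) (r (Sum.inl n))
      = ζ n • (((c n * w n - w (lo n) * Real.cos (thp n) : ℝ) : ℂ) • b (Sum.inl (s n))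
        + ((d n * w (rho n) - w (lo n) * Real.sin (thp n) : ℝ) : ℂ)
          • b (Sum.inr (rho n))) := by
    intro n
    rw [sub_apply, hN, hr (cperm s E lo hi (Sum.inl n)), cstep_e BB, hr (Sum.inl n)]
    simp only [brot, map_add, map_smul, hX1, hX3, csgn, bwt, BB.rho_rho]
    push_cast
    module
  have hF : ∀ k, (X - N) (r (Sum.inr (s k)))
      = ζ (rho k) •
        (((-(d (rho k) * w (rho k) - w (hi k) * Real.sin (thp (rho k))) : ℝ) : ℂ)
          • b (Sum.inl (s (rho k)))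
        + ((c (rho k) * w k - w (hi k) * Real.cos (thp (rho k)) : ℝ) : ℂ)
          • b (Sum.inr k)) := by
    intro k
    rw [sub_apply, hN, hr (cperm s E lo hi (Sum.inr (s k))), cstep_f BB, hr (Sum.inr (s k))]
    simp only [brot, map_add, map_smul, hX1, hX3, bwt, s.symm_apply_apply]
    push_cast
    module
  have hE2 : ∀ n, ‖(X - N) (r (Sum.inl n))‖ ^ 2 ≤ 32 * q n := by
    intro n
    rw [hE, norm_smul, hζ, one_mul]
    have e1 := scalar_bound2 (habsc n) (hcd n) (h1 n).1 (h2 n).1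
    have g1 := (h1 (rho n)).1
    rw [BB.lo_rho, hqρ] at g1
    have e2 := scalar_bound2 (habss n) (hsd n) g1 (h2 n).1
    rw [← norm_ofReal_sq] at e1 e2
    have e3 := norm_comb (hb1 (Sum.inl (s n))) (hb1 (Sum.inr (rho n))) e1 e2
    linarith
  have hF2 : ∀ k, ‖(X - N) (r (Sum.inr (s k)))‖ ^ 2 ≤ 32 * q k := by
    intro k
    rw [hF, norm_smul, hζ, one_mul]
    have g1 := (h1 (rho k)).2
    rw [BB.hi_rho, hqρ] at g1
    have g2 := (h2 (rho k)).2
    rw [BB.hi_rho, hqρ] at g2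
    have e1 := scalar_bound2 (habss (rho k)) (hsd (rho k)) g1 g2
    have e2 := scalar_bound2 (habsc (rho k)) (hcd (rho k)) (h1 k).2 g2
    rw [← neg_sq, ← norm_ofReal_sq] at e1
    rw [← norm_ofReal_sq] at e2
    have e3 := norm_comb (hb1 (Sum.inl (s (rho k)))) (hb1 (Sum.inr k)) e1 e2
    linarith
  have hcsC : ∀ n, (c n : ℂ) * c n + (d n : ℂ) * d n = 1 := by
    intro n
    have := hcs n
    have h2 : ((c n * c n + d n * d n : ℝ) : ℂ) = ((1 : ℝ) : ℂ) := by
      congr 1; linarith [this]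
    push_cast at h2
    exact h2
  have inv1 : ∀ n, b (Sum.inl n) = (c n : ℂ) • r (Sum.inl n)
      + (-(d n : ℂ)) • r (Sum.inr (s (rho n))) := by
    intro n
    rw [hr, hr]
    simp only [brot, BB.rho_rho, s.symm_apply_apply, smul_add, smul_smul]
    have : b (Sum.inl n) = ((c n : ℂ) * c n + (d n : ℂ) * d n) • b (Sum.inl n) := by
      rw [hcsC, one_smul]
    conv_lhs => rw [this]
    module
  have inv2 : ∀ n, b (Sum.inr (s (rho n))) = (d n : ℂ) • r (Sum.inl n)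
      + (c n : ℂ) • r (Sum.inr (s (rho n))) := by
    intro n
    rw [hr, hr]
    simp only [brot, BB.rho_rho, s.symm_apply_apply, smul_add, smul_smul]
    have : b (Sum.inr (s (rho n)))
        = ((c n : ℂ) * c n + (d n : ℂ) * d n) • b (Sum.inr (s (rho n))) := by
      rw [hcsC, one_smul]
    conv_lhs => rw [this]
    module
  have hc1 : ∀ n, ‖(c n : ℂ)‖ ^ 2 ≤ 1 := fun n => by
    rw [norm_ofReal_sq]; nlinarith [hcs n, sq_nonneg (d n)]
  have hs1 : ∀ n, ‖(d n : ℂ)‖ ^ 2 ≤ 1 := fun n => by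
    rw [norm_ofReal_sq]; nlinarith [hcs n, sq_nonneg (c n)]
  have hs1' : ∀ n, ‖(-(d n : ℂ))‖ ^ 2 ≤ 1 := fun n => by rw [norm_neg]; exact hs1 n
  -- the diagonal operators
  have hDex : ∀ j, ∃ D : H →L[ℂ] H, (∀ i, D (r i) = bval s lo hi (fun i => m i j) i • r i) ∧
      (∀ i, (star D) (r i) = (starRingEnd ℂ (bval s lo hi (fun i => m i j) i)) • r i) := by
    intro j
    exact exists_cdiag r _ C' (by rintro (i | i) <;> exact hm _ _)
  choose Dg hD hDs using hDex
  have hμ : ∀ j i, bval s lo hi (fun i => m i j) (cperm s E lo hi i)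
      = bval s lo hi (fun i => m i j) i := fun j i => bval_perm BB _ i
  have c1 : ∀ j, N * Dg j = Dg j * N := by
    intro j
    apply ext_basis r
    intro i
    rw [mul_apply_eq_comp, mul_apply_eq_comp, hD, map_smul, hN, map_smul, map_smul, hD, hμ]
    module
  have c2 : ∀ j, N * star (Dg j) = star (Dg j) * N := by
    intro j
    apply ext_basis r
    intro i
    rw [mul_apply_eq_comp, mul_apply_eq_comp, hDs, map_smul, hN, map_smul, map_smul, hDs, hμ]
    module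
  have c3 : ∀ j k, Dg j * Dg k = Dg k * Dg j := by
    intro j k
    apply ext_basis r
    intro i
    rw [mul_apply_eq_comp, mul_apply_eq_comp, hD, hD, map_smul, map_smul, hD, hD]
    module
  have c4 : ∀ j k, Dg j * star (Dg k) = star (Dg k) * Dg j := by
    intro j k
    apply ext_basis r
    intro i
    rw [mul_apply_eq_comp, mul_apply_eq_comp, hD, hDs, map_smul, map_smul, hD, hDs]
    module
  have c5 : ∀ j, Dg j * star N = star N * Dg j := by
    intro j
    have := congrArg star (c2 j)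
    rw [star_mul, star_mul, star_star] at this
    exact this
  have hEY : ∀ j n, (Y j - Dg j) (r (Sum.inl n))
      = ((c n : ℂ) * (m n j - m (lo n) j)) • b (Sum.inl n)
        + ((d n : ℂ) * (m (s (rho n)) j - m (lo n) j)) • b (Sum.inr (s (rho n))) := by
    intro j n
    rw [sub_apply, hD, hr (Sum.inl n)]
    simp only [brot, map_add, map_smul, hY1, hY2, bval]
    module
  have hFY : ∀ j k, (Y j - Dg j) (r (Sum.inr (s k)))
      = (-((d (rho k) : ℂ) * (m (rho k) j - m (hi k) j))) • b (Sum.inl (rho k))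
        + ((c (rho k) : ℂ) * (m (s k) j - m (hi k) j)) • b (Sum.inr (s k)) := by
    intro j k
    rw [sub_apply, hD, hr (Sum.inr (s k))]
    simp only [brot, map_add, map_smul, hY1, hY2, bval, s.symm_apply_apply]
    module
  have hcle : ∀ n, c n ^ 2 ≤ 1 := fun n => by nlinarith [hcs n, sq_nonneg (d n)]
  have hEY2 : ∀ j n, ‖(Y j - Dg j) (r (Sum.inl n))‖ ^ 2 ≤ 4 * q n := by
    intro j n
    rw [hEY]
    have e1 : ‖(c n : ℂ) * (m n j - m (lo n) j)‖ ^ 2 ≤ q n := by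
      rw [norm_mul, mul_pow, norm_ofReal_sq]
      have := (h3 n j).1
      have := hcle n
      nlinarith [sq_nonneg ‖m n j - m (lo n) j‖, sq_nonneg (c n)]
    have e2 : ‖(d n : ℂ) * (m (s (rho n)) j - m (lo n) j)‖ ^ 2 ≤ q n := by
      rw [norm_mul, mul_pow, norm_ofReal_sq]
      exact (h4 n j).1
    have e3 := norm_comb (hb1 (Sum.inl n)) (hb1 (Sum.inr (s (rho n)))) e1 e2
    linarith
  have hFY2 : ∀ j k, ‖(Y j - Dg j) (r (Sum.inr (s k)))‖ ^ 2 ≤ 4 * q k := by
    intro j k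
    rw [hFY]
    have e1 : ‖-((d (rho k) : ℂ) * (m (rho k) j - m (hi k) j))‖ ^ 2 ≤ q k := by
      rw [norm_neg, norm_mul, mul_pow, norm_ofReal_sq]
      have := (h4 (rho k) j).2
      rw [BB.hi_rho, hqρ] at this
      exact this
    have e2 : ‖(c (rho k) : ℂ) * (m (s k) j - m (hi k) j)‖ ^ 2 ≤ q k := by
      rw [norm_mul, mul_pow, norm_ofReal_sq]
      have := (h3 k j).2
      have := hcle (rho k)
      nlinarith [sq_nonneg ‖m (s k) j - m (hi k) j‖, sq_nonneg (c (rho k))]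
    have e3 := norm_comb (hb1 (Sum.inl (rho k))) (hb1 (Sum.inr (s k))) e1 e2
    linarith
  have bound1 : ∀ (W : H →L[ℂ] H) (K : ℝ), 0 ≤ K →
      (∀ n, ‖W (r (Sum.inl n))‖ ^ 2 ≤ K * q n) → (∀ k, ‖W (r (Sum.inr (s k)))‖ ^ 2 ≤ K * q k) →
      (∀ n, ‖W (b (Sum.inl n))‖ ^ 2 ≤ 4 * K * q n) ∧
      (∀ k, ‖W (b (Sum.inr (s k)))‖ ^ 2 ≤ 4 * K * q k) := by
    intro W K hK w1 w2
    constructor
    · intro n
      have f1 := w1 n
      have f2 := w2 (rho n)
      rw [hqρ] at f2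
      rw [inv1 n, map_add, map_smul, map_smul]
      have f3 := norm_comb f1 f2 (hc1 n) (hs1' n)
      linarith
    · have key : ∀ n, ‖W (b (Sum.inr (s (rho n))))‖ ^ 2 ≤ 4 * K * q n := by
        intro n
        have f1 := w1 n
        have f2 := w2 (rho n)
        rw [hqρ] at f2
        rw [inv2 n, map_add, map_smul, map_smul]
        have f3 := norm_comb f1 f2 (hs1 n) (hc1 n)
        linarith
      intro k
      have := key (rho k)
      rw [BB.rho_rho, hqρ] at this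
      exact this
  have b1 := bound1 (X - N) 32 (by norm_num) hE2 hF2
  have b2 := fun j => bound1 (Y j - Dg j) 4 (by norm_num) (hEY2 j) (hFY2 j)
  refine ⟨fun a => match a with | none => N | some j => Dg j, ?_, ?_, ?_, ?_, ?_, ?_⟩
  · rintro (_ | j) (_ | k)
    · rfl
    · exact c1 k
    · exact (c1 j).symm
    · exact c3 j k
  · rintro (_ | j) (_ | k)
    · exact hN1.symm
    · exact c2 k
    · exact c5 j
    · exact c4 j k
  · intro n
    have := b1.1 n
    show ‖(X - N) (b (Sum.inl n))‖ ^ 2 ≤ _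
    linarith
  · intro k
    have := b1.2 k
    show ‖(X - N) (b (Sum.inr (s k)))‖ ^ 2 ≤ _
    linarith
  · intro j n
    have := (b2 j).1 n
    show ‖(Y j - Dg j) (b (Sum.inl n))‖ ^ 2 ≤ _
    have := hq0 n
    linarith
  · intro j k
    have := (b2 j).2 k
    show ‖(Y j - Dg j) (b (Sum.inr (s k)))‖ ^ 2 ≤ _
    have := hq0 k
    linarith

end

end Pool.Agent.H28.AN
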