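import Mathlib
import Pool.Agent.H28.AN.P4
import Pool.Agent.H28.AN.P2b

set_option autoImplicit false
set_option linter.unusedSectionVars false
set_option linter.unusedSimpArgs false

namespace Pool.Agent.H28.AN

open scoped InnerProductSpace
open Submodule

variable {H : Type} [NormedAddCommGroup H] [InnerProductSpace ℂ H] [CompleteSpace H]

/-- The operators `T` and `M j` as one family. -/
def gen {J : Type} (T : H →L[ℂ] H) (M : J → (H →L[ℂ] H)) : Option J → (H →L[ℂ] H)
  | none => T
  | some j => M j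

/-- Assembling the pieces. -/
theorem assemble4 {D ι J : Type} [Fintype J] [Countable D] [Infinite D] [Countable ι]
    (e : HilbertBasis D ℂ H) (T : H →L[ℂ] H) (s : ι ≃ ι) (w : ι → ℝ) (m : ι → J → ℂ)
    (ζ : ι → ℂ) (hζ : ∀ i, ‖ζ i‖ = 1) (K : ℝ) (hgood : Good3 s w m K) (emb : D → ι)
    (hemb : Function.Injective emb) (hw : ∀ i, (∀ d, emb d ≠ i) → w i = 0)
    (hT0 : ∀ d, w (emb d) = 0 → T (e d) = 0)
    (hT : ∀ d, w (emb d) ≠ 0 → ∃ d', s (emb d) = emb d' ∧
      T (e d) = (w (emb d) : ℂ) • ζ (emb d) • e d')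
    (C : ℝ) (hC : ∀ i, |w i| ≤ C) (hsum : Summable fun i => |w (s i) ^ 2 - w i ^ 2|)
    (C' : ℝ) (hm : ∀ i j, ‖m i j‖ ≤ C') (M : J → (H →L[ℂ] H))
    (hM : ∀ j d, M j (e d) = m (emb d) j • e d)
    (hsum2 : ∀ j, Summable fun i => |w i| * ‖m (s i) j - m i j‖) :
    ∃ (S N : Option J → (H →L[ℂ] H)) (J₁ J₂ : H →L[ℂ] H), star J₁ * J₁ = 1 ∧
      star J₂ * J₂ = 1 ∧ star J₁ * J₂ = 0 ∧
      star J₂ * J₁ = 0 ∧ J₁ * star J₁ + J₂ * star J₂ = 1 ∧
      (∀ a b, N a * N b = N b * N a) ∧ (∀ a b, N a * star (N b) = star (N b) * N a) ∧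
      (∀ a, hs e (J₁ * gen T M a * star J₁ + J₂ * S a * star J₂ - N a)) ∧
      (∀ a b, tc e (S a * S b - S b * S a)) ∧
      (∀ a b, tc e (S a * star (S b) - star (S b) * S a)) := by
  classical
  have : Infinite ι := Infinite.of_injective emb hemb
  obtain ⟨E, lo, hi, rho, th, thp, q, BB, q1, q2, q3, q4, q5, q6, q7, q8⟩ := hgood
  obtain ⟨φ⟩ : Nonempty ((ι ⊕ ι) ≃ D) := nonempty_equiv_of_countable
  obtain ⟨b, -⟩ := exists_reindex e φ
  -- the complementary index set
  let Mc : Type := {x : ι ⊕ ι // ∀ d, Sum.inl (emb d) ≠ x}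
  have : Infinite Mc := Infinite.of_injective
    (fun i : ι => (⟨Sum.inr i, fun d => by simp⟩ : Mc))
    (fun i j h => by simpa using congrArg Subtype.val h)
  obtain ⟨ψ⟩ : Nonempty (D ≃ Mc) := nonempty_equiv_of_countable
  obtain ⟨J₁, J₂, j11, j22, j12, j21, hJ, hJ1, hJ2⟩ := exists_split e b
    (fun d => Sum.inl (emb d)) (fun d => (ψ d).1)
    (fun d d' h => hemb (by simpa using h))
    (fun d d' h => ψ.injective (Subtype.ext h))
    (fun d d' h => (ψ d').2 d h)
    (fun x => by
      by_cases h : ∃ d, Sum.inl (emb d) = x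
      · exact Or.inl h
      · right
        push Not at h
        exact ⟨ψ.symm ⟨x, h⟩, by simp⟩)
  -- the big operators
  let π : (ι ⊕ ι) ≃ (ι ⊕ ι) := Equiv.sumCongr s s.symm
  let σ : ι ⊕ ι → ℂ := Sum.elim ζ (fun j => ζ (rho (s.symm j)))
  let g : ι ⊕ ι → ℝ := Sum.elim w (fun j => w (s.symm j))
  let μ : J → ι ⊕ ι → ℂ := fun j => Sum.elim (fun i => m i j) (fun i => m i j)
  have hgC : ∀ x, |g x| ≤ C := by rintro (i | j) <;> exact hC _
  have hσ : ∀ x, ‖σ x‖ = 1 := by rintro (i | j) <;> exact hζ _
  obtain ⟨X, hX, hXc⟩ := exists_wperm b π σ hσ g C hgC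
  have hX1 : ∀ n, X (b (Sum.inl n)) = (w n : ℂ) • ζ n • b (Sum.inl (s n)) := fun n => hX _
  have hX3 : ∀ k, X (b (Sum.inr (s k))) = (w k : ℂ) • ζ (rho k) • b (Sum.inr k) := by
    intro k
    have := hX (Sum.inr (s k))
    simpa [g, σ, π] using this
  have hYex : ∀ j, ∃ D : H →L[ℂ] H, (∀ x, D (b x) = μ j x • b x) ∧
      (∀ x, (star D) (b x) = (starRingEnd ℂ (μ j x)) • b x) := by
    intro j
    exact exists_cdiag b _ C' (by rintro (i | i) <;> exact hm _ _)
  choose Y hY hYs using hYex
  obtain ⟨N, n1, n2, hd1, hd2, hd3, hd4⟩ := cdiff2 BB b w C hC q q4 q5 q6 ζ hζ X hX1 hX3 m C' hm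
    (fun n j => ⟨(pow_le_pow_left₀ (norm_nonneg _) (norm_le_pi_norm (m n - m (lo n)) j) 2).trans
        (q7 n).1,
      (pow_le_pow_left₀ (norm_nonneg _) (norm_le_pi_norm (m (s n) - m (hi n)) j) 2).trans
        (q7 n).2⟩)
    (fun n j => ⟨(mul_le_mul_of_nonneg_left (pow_le_pow_left₀ (norm_nonneg _)
        (norm_le_pi_norm (m (s (rho n)) - m (lo n)) j) 2) (sq_nonneg _)).trans (q8 n).1,
      (mul_le_mul_of_nonneg_left (pow_le_pow_left₀ (norm_nonneg _)
        (norm_le_pi_norm (m n - m (hi n)) j) 2) (sq_nonneg _)).trans (q8 n).2⟩)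
    Y (fun j n => hY j _) (fun j n => hY j _)
  let XX : Option J → (H →L[ℂ] H) := gen X Y
  have hXN : ∀ a, hs e (XX a - N a) := by
    intro a
    apply hs_indep b e
    rcases a with _ | j
    · refine Summable.sum _ ?_ ?_
      · exact Summable.of_nonneg_of_le (fun _ => sq_nonneg _) hd1 (q1.mul_left 128)
      · rw [← s.summable_iff]
        exact Summable.of_nonneg_of_le (fun _ => sq_nonneg _) hd2 (q1.mul_left 128)
    · refine Summable.sum _ ?_ ?_
      · exact Summable.of_nonneg_of_le (fun _ => sq_nonneg _) (hd3 j) (q1.mul_left 128)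
      · rw [← s.summable_iff]
        exact Summable.of_nonneg_of_le (fun _ => sq_nonneg _) (hd4 j) (q1.mul_left 128)
  -- the blocks of the big operators
  have hstarb : ∀ x, (∀ d, Sum.inl (emb d) ≠ x) → (star J₁) (b x) = 0 := by
    intro x hx
    apply eq_zero_of_inner e
    intro k
    rw [ContinuousLinearMap.star_eq_adjoint, ContinuousLinearMap.adjoint_inner_right, hJ1,
      basis_inner, if_neg (hx k)]
  have hXT : ∀ a, XX a * J₁ = J₁ * gen T M a := by
    rintro (_ | j)
    · apply ext_basis e
      intro d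
      show (X * J₁) (e d) = (J₁ * T) (e d)
      rw [mul_apply_eq_comp, mul_apply_eq_comp, hJ1, hX1]
      by_cases h : w (emb d) = 0
      · rw [hT0 d h, h, map_zero]; simp
      · obtain ⟨d', h1, h2⟩ := hT d h
        rw [h2, map_smul, map_smul, hJ1, h1]
    · apply ext_basis e
      intro d
      show (Y j * J₁) (e d) = (J₁ * M j) (e d)
      rw [mul_apply_eq_comp, mul_apply_eq_comp, hJ1, hY, hM, map_smul, hJ1]
      rfl
  have e11 : ∀ a, star J₁ * XX a * J₁ = gen T M a := fun a => by
    rw [mul_assoc, hXT, ← mul_assoc, j11, one_mul]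
  have e21 : ∀ a, star J₂ * XX a * J₁ = 0 := fun a => by
    rw [mul_assoc, hXT, ← mul_assoc, j21, zero_mul]
  have e12 : ∀ a, star J₁ * XX a * J₂ = 0 := by
    rintro (_ | j)
    · apply ext_basis e
      intro d
      show (star J₁ * X * J₂) (e d) = _
      rw [mul_apply_eq_comp, mul_apply_eq_comp, hJ2]
      have hx := (ψ d).2
      generalize (ψ d).1 = x at hx
      rcases x with i | j
      · rw [hX1, hw i (fun d h => hx d (by rw [h]))]; simp
      · obtain ⟨k, rfl⟩ := s.surjective j
        rw [hX3, map_smul, map_smul, hstarb _ (fun d => by simp)]; simp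
    · apply ext_basis e
      intro d
      show (star J₁ * Y j * J₂) (e d) = _
      rw [mul_apply_eq_comp, mul_apply_eq_comp, hJ2, hY, map_smul, hstarb _ (ψ d).2]; simp
  let S : Option J → (H →L[ℂ] H) := fun a => star J₂ * XX a * J₂
  have hSS : ∀ a b, S a * S b - S b * S a = star J₂ * (XX a * XX b - XX b * XX a) * J₂ := by
    intro a b
    have key : ∀ a b, S a * S b = star J₂ * (XX a * XX b) * J₂ := by
      intro a b
      calc S a * S b = star J₂ * XX a * (J₁ * star J₁ + J₂ * star J₂) * XX b * J₂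
              - (star J₂ * XX a * J₁) * (star J₁ * XX b * J₂) := by simp only [S]; noncomm_ring
        _ = star J₂ * (XX a * XX b) * J₂ := by rw [hJ, e21]; noncomm_ring
    rw [key, key]; noncomm_ring
  have hSS' : ∀ a b, S a * star (S b) - star (S b) * S a
      = star J₂ * (XX a * star (XX b) - star (XX b) * XX a) * J₂ := by
    intro a b
    have f1 : ∀ a, star J₂ * star (XX a) * J₁ = 0 := by
      intro a
      have := congrArg star (e12 a)
      rw [star_mul, star_mul, star_star, star_zero, ← mul_assoc] at this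
      exact this
    have f2 : star (S b) = star J₂ * star (XX b) * J₂ := by
      simp only [S]
      rw [star_mul, star_mul, star_star, mul_assoc]
    have k1 : S a * star (S b) = star J₂ * (XX a * star (XX b)) * J₂ := by
      calc S a * star (S b)
          = star J₂ * XX a * (J₁ * star J₁ + J₂ * star J₂) * star (XX b) * J₂
              - (star J₂ * XX a * J₁) * (star J₁ * star (XX b) * J₂) := by
            rw [f2]; simp only [S]; noncomm_ring
        _ = star J₂ * (XX a * star (XX b)) * J₂ := by rw [hJ, e21]; noncomm_ring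
    have k2 : star (S b) * S a = star J₂ * (star (XX b) * XX a) * J₂ := by
      calc star (S b) * S a
          = star J₂ * star (XX b) * (J₁ * star J₁ + J₂ * star J₂) * XX a * J₂
              - (star J₂ * star (XX b) * J₁) * (star J₁ * XX a * J₂) := by
            rw [f2]; simp only [S]; noncomm_ring
        _ = star J₂ * (star (XX b) * XX a) * J₂ := by rw [hJ, f1]; noncomm_ring
    rw [k1, k2]; noncomm_ring
  -- commutators of the big operators
  have tneg : ∀ A : H →L[ℂ] H, tc e A → tc e (-A) := fun A h => by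
    have := tc_mul_left (-1) A h
    rwa [neg_one_mul] at this
  have t00 : tc e (X * star X - star X * X) := by
    have h1 : tc e (star X * X - X * star X) := by
      apply tc_of_action e b (Equiv.refl _) (fun _ => 1) (fun _ => by simp)
        (fun y => ((g y ^ 2 - g (π.symm y) ^ 2 : ℝ) : ℂ))
      · refine Summable.sum _ ?_ ?_
        · have h1 := (s.symm.summable_iff).mpr hsum
          refine h1.congr fun i => ?_
          rw [Function.comp, Function.comp, Complex.norm_real, Real.norm_eq_abs]
          simp [g, π]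
        · have h1 := (s.symm.summable_iff).mpr hsum
          refine h1.congr fun i => ?_
          rw [Function.comp, Function.comp, Complex.norm_real, Real.norm_eq_abs]
          simp only [s.apply_symm_apply]
          rw [abs_sub_comm]
          simp [g, π]
      · intro y
        have := hXc (π.symm y)
        rw [π.apply_symm_apply] at this
        rw [this, one_smul]
        rfl
    have := tneg _ h1
    rwa [neg_sub] at this
  have tXY : ∀ (j : J) (Z : H →L[ℂ] H) (ν : ι ⊕ ι → ℂ), (∀ x, Z (b x) = ν x • b x) →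
      (∀ x y, ‖ν x - ν y‖ = ‖μ j x - μ j y‖) → tc e (X * Z - Z * X) := by
    intro j Z ν hZ hν
    apply tc_of_action e b π σ hσ (fun x => (g x : ℂ) * (ν x - ν (π x)))
    · refine Summable.sum _ ?_ ?_
      · refine (hsum2 j).congr fun i => ?_
        rw [Function.comp, norm_mul, Complex.norm_real, Real.norm_eq_abs, hν, norm_sub_rev]
        simp [g, π, μ]
      · have h1 := (s.symm.summable_iff).mpr (hsum2 j)
        refine h1.congr fun i => ?_
        rw [Function.comp, Function.comp, norm_mul, Complex.norm_real, Real.norm_eq_abs, hν,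
          s.apply_symm_apply]
        simp [g, π, μ]
    · intro x
      rw [sub_apply, mul_apply_eq_comp, mul_apply_eq_comp, hZ, map_smul, hX, map_smul, map_smul,
        hZ]
      module
  have t0j : ∀ j, tc e (X * Y j - Y j * X) := fun j =>
    tXY j (Y j) (μ j) (hY j) (fun _ _ => rfl)
  have t0j' : ∀ j, tc e (X * star (Y j) - star (Y j) * X) := fun j =>
    tXY j (star (Y j)) (fun x => starRingEnd ℂ (μ j x)) (hYs j) (fun x y => by
      rw [← map_sub, RCLike.norm_conj])
  have tjk : ∀ j k, Y j * Y k - Y k * Y j = 0 := by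
    intro j k
    apply ext_basis b
    intro x
    rw [sub_apply, mul_apply_eq_comp, mul_apply_eq_comp, hY, hY, map_smul, map_smul, hY, hY,
      smul_comm, sub_self]
    rfl
  have tjk' : ∀ j k, Y j * star (Y k) - star (Y k) * Y j = 0 := by
    intro j k
    apply ext_basis b
    intro x
    rw [sub_apply, mul_apply_eq_comp, mul_apply_eq_comp, hY, hYs, map_smul, map_smul, hY, hYs,
      smul_comm, sub_self]
    rfl
  have tXX : ∀ a b, tc e (XX a * XX b - XX b * XX a) := by
    rintro (_ | j) (_ | k)
    · show tc e (X * X - X * X)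
      rw [sub_self]; exact tc_zero
    · exact t0j k
    · have := tneg _ (t0j j)
      rwa [neg_sub] at this
    · show tc e (Y j * Y k - Y k * Y j)
      rw [tjk]; exact tc_zero
  have tXX' : ∀ a b, tc e (XX a * star (XX b) - star (XX b) * XX a) := by
    rintro (_ | j) (_ | k)
    · exact t00
    · exact t0j' k
    · have := tc_star _ (t0j' j)
      have e1 : star (X * star (Y j) - star (Y j) * X) = Y j * star X - star X * Y j := by
        rw [star_sub, star_mul, star_mul, star_star]
      rw [e1] at this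
      exact this
    · show tc e (Y j * star (Y k) - star (Y k) * Y j)
      rw [tjk']; exact tc_zero
  refine ⟨S, N, J₁, J₂, j11, j22, j12, j21, hJ, n1, n2, ?_, ?_, ?_⟩
  · intro a
    have e1 : J₁ * gen T M a * star J₁ + J₂ * S a * star J₂ = XX a := by
      have e2 : XX a = (J₁ * star J₁ + J₂ * star J₂) * XX a * (J₁ * star J₁ + J₂ * star J₂) := by
        rw [hJ, one_mul, mul_one]
      have e3 : (J₁ * star J₁ + J₂ * star J₂) * XX a * (J₁ * star J₁ + J₂ * star J₂)
          = J₁ * (star J₁ * XX a * J₁) * star J₁ + J₁ * (star J₁ * XX a * J₂) * star J₂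
            + J₂ * (star J₂ * XX a * J₁) * star J₁ + J₂ * (star J₂ * XX a * J₂) * star J₂ := by
        noncomm_ring
      rw [e2, e3, e11, e12, e21]
      simp only [S]
      noncomm_ring
    rw [e1]
    exact hXN a
  · intro a b
    rw [hSS]
    exact tc_mul_right _ _ (tc_mul_left _ _ (tXX a b))
  · intro a b
    rw [hSS']
    exact tc_mul_right _ _ (tc_mul_left _ _ (tXX' a b))

end Pool.Agent.H28.AN
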