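import Mathlib
import Pool.Agent.H28.AN.P5
import Pool.Agent.H28.AN.K
import Pool.Agent.H28.AN.Pe

set_option autoImplicit false
set_option linter.unusedSectionVars false
set_option linter.unusedSimpArgs false

namespace Pool.Agent.H28.AN

open scoped InnerProductSpace
open Submodule

/-- The theorem for Hilbert-Schmidt perturbations of the operators in the star algebra generated by
a weighted partial permutation of a Hilbert basis and finitely many diagonal operators commuting
with it modulo the trace class. -/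
theorem final_family (H : Type) [NormedAddCommGroup H] [InnerProductSpace ℂ H] [CompleteSpace H]
    (HS TC : (H →L[ℂ] H) → Prop)
    (hHS : ∀ A : H →L[ℂ] H, HS A ↔
        ∃ (ι : Type) (b : HilbertBasis ι ℂ H), Summable (fun i => ‖A (b i)‖ ^ 2))
    (hTC : ∀ A : H →L[ℂ] H, TC A ↔ ∃ B C : H →L[ℂ] H, HS B ∧ HS C ∧ A = B * C)
    (D : Type) [Countable D] (e : HilbertBasis D ℂ H) (c : D → ℂ) (π : D → D) (T : H →L[ℂ] H)
    (hT : ∀ d, T (e d) = c d • e (π d))
    (hinj : ∀ i j, c i ≠ 0 → c j ≠ 0 → π i = π j → i = j)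
    (hTT : TC (star T * T - T * star T)) (J : Type) [Fintype J] (Q : J → (H →L[ℂ] H))
    (ν : J → D → ℂ) (hQ : ∀ j d, Q j (e d) = ν j d • e d)
    (hQT : ∀ j, TC (Q j * T - T * Q j)) (A : H →L[ℂ] H)
    (hA : A ∈ StarAlgebra.adjoin ℂ (Set.range (gen T Q))) (T' : H →L[ℂ] H)
    (hT' : HS (T' - A)) :
    ∃ S : H →L[ℂ] H, TC (star S * S - S * star S) ∧
      ∃ N11 N12 N21 N22 : H →L[ℂ] H,
        star N11 * N11 + star N21 * N21 = N11 * star N11 + N12 * star N12 ∧
        star N11 * N12 + star N21 * N22 = N11 * star N21 + N12 * star N22 ∧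
        star N12 * N11 + star N22 * N21 = N21 * star N11 + N22 * star N12 ∧
        star N12 * N12 + star N22 * N22 = N21 * star N21 + N22 * star N22 ∧
        HS (T' - N11) ∧ HS N12 ∧ HS N21 ∧ HS (S - N22) := by
  classical
  rcases finite_or_infinite D with hfin | hinf
  · -- the finite dimensional case
    have hall : ∀ A : H →L[ℂ] H, HS A := fun A =>
      (hHS A).mpr ⟨D, e, Summable.of_finite⟩
    exact ⟨T, hTT, 0, 0, 0, 0, by simp, by simp, by simp, by simp, hall _, hall _, hall _, hall _⟩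
  have hHSe : ∀ A : H →L[ℂ] H, HS A ↔ hs e A := by
    intro A
    rw [hHS]
    constructor
    · rintro ⟨ι, b, hb⟩
      exact hs_indep b e hb
    · intro h
      exact ⟨D, e, h⟩
  have hTCe : ∀ A : H →L[ℂ] H, TC A ↔ tc e A := by
    intro A
    rw [hTC]
    constructor
    · rintro ⟨B, C, h1, h2, h3⟩
      exact ⟨B, C, (hHSe B).mp h1, (hHSe C).mp h2, h3⟩
    · rintro ⟨B, C, h1, h2, h3⟩
      exact ⟨B, C, (hHSe B).mpr h1, (hHSe C).mpr h2, h3⟩
  obtain ⟨s, h1, h2, h3⟩ := exists_completion (fun d => c d ≠ 0) π hinj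
  let w : D × ℤ → ℝ := fun x => if x.2 = 0 then ‖c x.1‖ else 0
  let ζ : D × ℤ → ℂ := fun x => if x.2 = 0 ∧ c x.1 ≠ 0 then c x.1 / ‖c x.1‖ else 1
  have hζ : ∀ x, ‖ζ x‖ = 1 := by
    intro x
    simp only [ζ]
    split_ifs with h
    · rw [norm_div]; simp [h.2]
    · simp
  have hw0 : ∀ x, 0 ≤ w x := by
    intro x; simp only [w]; split_ifs <;> simp
  let emb : D → D × ℤ := fun d => (d, 0)
  have hemb : Function.Injective emb := fun d d' h => by simpa [emb] using h
  have hwemb : ∀ d, w (emb d) = ‖c d‖ := fun d => by simp [w, emb]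
  have hζemb : ∀ d, c d ≠ 0 → ζ (emb d) = c d / ‖c d‖ := fun d h => by simp [ζ, emb, h]
  have hCb : ∀ x, |w x| ≤ ‖T‖ := by
    rintro ⟨d, n⟩
    rw [abs_of_nonneg (hw0 _)]
    simp only [w]
    split_ifs with h
    · have h3 := T.le_opNorm (e d)
      rw [hT, norm_smul, e.orthonormal.1, e.orthonormal.1] at h3
      simpa using h3
    · exact norm_nonneg T
  -- the diagonal of the self-commutator
  obtain ⟨B, C, hB, hC, hBC⟩ := (hTC _).mp hTT
  obtain ⟨ι₁, b₁, hb₁⟩ := (hHS _).mp hB
  obtain ⟨ι₂, b₂, hb₂⟩ := (hHS _).mp hC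
  have hd := tc_diag b₁ b₂ e hb₁ hb₂
  rw [← hBC] at hd
  -- values of w at the predecessor
  have hpre : ∀ y : D, (∀ d, c d ≠ 0 → π d = y → w (s.symm (emb y)) = ‖c d‖) ∧
      ((∀ d, c d ≠ 0 → π d ≠ y) → w (s.symm (emb y)) = 0) := by
    intro y
    constructor
    · intro d hd0 hdy
      have e1 : s.symm (emb y) = (d, 0) := by
        rw [Equiv.symm_apply_eq, h1 d hd0, hdy]
      rw [e1]; simp [w]
    · intro hno
      have e1 : s (y, -1) = (y, -1 + 1) := by
        apply h3
        · rintro ⟨h, -⟩; omega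
        · rintro ⟨-, d', h4, h5⟩; exact hno d' h4 h5
      have e2 : s.symm (emb y) = (y, -1) := by
        rw [Equiv.symm_apply_eq, e1]; rfl
      rw [e2]; simp [w]
  have hdiag : ∀ y, ⟪e y, (star T * T - T * star T) (e y)⟫_ℂ
      = ((w (emb y) ^ 2 - w (s.symm (emb y)) ^ 2 : ℝ) : ℂ) := by
    intro y
    have e1 : ⟪e y, (star T * T) (e y)⟫_ℂ = ((w (emb y) ^ 2 : ℝ) : ℂ) := by
      rw [mul_apply_eq_comp, ContinuousLinearMap.star_eq_adjoint,
        ContinuousLinearMap.adjoint_inner_right, hT, inner_smul_left, inner_smul_right,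
        basis_inner, if_pos rfl, mul_one, Complex.conj_mul', hwemb]
      push_cast; rfl
    have e2 : ⟪e y, (T * star T) (e y)⟫_ℂ = ((w (s.symm (emb y)) ^ 2 : ℝ) : ℂ) := by
      by_cases hy : ∃ d, c d ≠ 0 ∧ π d = y
      · obtain ⟨d, hd0, hdy⟩ := hy
        rw [(hpre y).1 d hd0 hdy]
        have hTs : (star T) (e y) = (starRingEnd ℂ (c d)) • e d := by
          apply sub_eq_zero.mp
          apply eq_zero_of_inner e
          intro m
          rw [inner_sub_right, ContinuousLinearMap.star_eq_adjoint,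
            ContinuousLinearMap.adjoint_inner_right, hT, inner_smul_left, inner_smul_right,
            basis_inner, basis_inner]
          by_cases hm : m = d
          · subst hm; rw [if_pos hdy, if_pos rfl]; ring
          · rw [if_neg hm]
            by_cases hcm : c m = 0
            · rw [hcm]; simp
            · rw [if_neg (fun h => hm (hinj m d hcm hd0 (by rw [h, hdy])))]; simp
        rw [mul_apply_eq_comp, hTs, map_smul, hT, smul_smul, inner_smul_right, basis_inner, hdy,
          if_pos rfl, mul_one, Complex.conj_mul']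
        push_cast; rfl
      · push Not at hy
        rw [(hpre y).2 hy]
        have hTs : (star T) (e y) = 0 := by
          apply eq_zero_of_inner e
          intro m
          rw [ContinuousLinearMap.star_eq_adjoint,
            ContinuousLinearMap.adjoint_inner_right, hT, inner_smul_left, basis_inner]
          by_cases hcm : c m = 0
          · rw [hcm]; simp
          · rw [if_neg (hy m hcm)]; simp
        rw [mul_apply_eq_comp, hTs, map_zero, inner_zero_right]
        simp
    rw [sub_apply, inner_sub_right, e1, e2]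
    push_cast; ring
  let F : D × ℤ → ℝ := fun x => |w x ^ 2 - w (s.symm x) ^ 2|
  have hF0 : ∀ x, x ∉ Set.range emb → F x = 0 := by
    rintro ⟨d, n⟩ hx
    have hn : n ≠ 0 := fun h => hx ⟨d, by rw [h]⟩
    have e1 : w (d, n) = 0 := by simp [w, hn]
    have e2 : w (s.symm (d, n)) = 0 := by
      by_cases a1 : n = 1 ∧ c d ≠ 0
      · have e3 : s.symm (d, n) = (π d, -1) := by
          rw [Equiv.symm_apply_eq, h2 d a1.2, a1.1]
        rw [e3]; simp [w]
      · have e3 : s (d, n - 1) = (d, n - 1 + 1) := by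
          apply h3
          · rintro ⟨h, h'⟩; exact a1 ⟨by omega, h'⟩
          · rintro ⟨h, -⟩; exact hn (by omega)
        have e4 : s.symm (d, n) = (d, n - 1) := by
          rw [Equiv.symm_apply_eq, e3]; simp
        rw [e4]
        simp only [w]
        split_ifs with h
        · have : n = 1 := by omega
          by_contra hc
          exact a1 ⟨this, fun h0 => hc (by rw [h0]; simp)⟩
        · rfl
    simp [F, e1, e2]
  have hFs : Summable F := by
    rw [← hemb.summable_iff hF0]
    refine hd.congr fun y => ?_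
    rw [hdiag, Complex.norm_real, Real.norm_eq_abs]
    rfl
  have hsum : Summable fun x => |w (s x) ^ 2 - w x ^ 2| := by
    have h4 := (s.summable_iff (f := F)).mpr hFs
    refine h4.congr fun x => ?_
    simp [F]
  -- the commutators with the diagonal operators
  let m : D × ℤ → J → ℂ := fun x j => ν j x.1
  have hνb : ∀ j d, ‖ν j d‖ ≤ ‖Q j‖ := by
    intro j d
    have h3 := (Q j).le_opNorm (e d)
    rw [hQ, norm_smul, e.orthonormal.1] at h3
    simpa using h3
  have hm : ∀ (x : D × ℤ) (j : J), ‖m x j‖ ≤ ∑ j, ‖Q j‖ := fun x j =>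
    (hνb j x.1).trans (Finset.single_le_sum (fun j _ => norm_nonneg (Q j)) (Finset.mem_univ j))
  have hsumD : ∀ j, Summable fun d => ‖c d‖ * ‖ν j (π d) - ν j d‖ := by
    intro j
    obtain ⟨B, C, hB, hC, hBC⟩ := (hTCe _).mp (hQT j)
    have hB' := hs_star hB
    have hsup : Summable fun d : {d : D // c d ≠ 0} =>
        ‖c d.1‖ * ‖ν j (π d.1) - ν j d.1‖ := by
      have g1 : Summable fun d : {d : D // c d ≠ 0} => ‖(star B) (e (π d.1))‖ ^ 2 :=
        Summable.comp_injective hB' (i := fun d : {d : D // c d ≠ 0} => π d.1)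
          (fun d d' h => Subtype.ext (hinj _ _ d.2 d'.2 h))
      have g2 : Summable fun d : {d : D // c d ≠ 0} => ‖C (e d.1)‖ ^ 2 :=
        Summable.comp_injective hC Subtype.val_injective
      refine Summable.of_nonneg_of_le (fun _ => by positivity) (fun d => ?_) (g1.add g2)
      have g3 : ‖c d.1‖ * ‖ν j (π d.1) - ν j d.1‖
          = ‖⟪(star B) (e (π d.1)), C (e d.1)⟫_ℂ‖ := by
        rw [ContinuousLinearMap.star_eq_adjoint, ContinuousLinearMap.adjoint_inner_left,
          ← mul_apply_eq_comp, ← hBC, sub_apply, mul_apply_eq_comp, mul_apply_eq_comp, hQ, hT,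
          map_smul, map_smul, hQ, hT, smul_smul, smul_smul, ← sub_smul, inner_smul_right,
          basis_inner, if_pos rfl, mul_one, ← norm_mul]
        congr 1
        ring
      rw [g3]
      have g4 := norm_inner_le_norm (𝕜 := ℂ) ((star B) (e (π d.1))) (C (e d.1))
      nlinarith [sq_nonneg (‖(star B) (e (π d.1))‖ - ‖C (e d.1)‖),
        sq_nonneg (‖(star B) (e (π d.1))‖), sq_nonneg (‖C (e d.1)‖)]
    exact (Subtype.val_injective.summable_iff (fun d hd => by
      have : c d = 0 := by
        by_contra h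
        exact hd ⟨⟨d, h⟩, rfl⟩
      rw [this]; simp)).mp hsup
  have hsum2 : ∀ j, Summable fun x => |w x| * ‖m (s x) j - m x j‖ := by
    intro j
    rw [← hemb.summable_iff (f := fun x => |w x| * ‖m (s x) j - m x j‖) (by
      rintro ⟨d, n⟩ hx
      have hn : n ≠ 0 := fun h => hx ⟨d, by rw [h]⟩
      have e1 : w (d, n) = 0 := by simp [w, hn]
      show |w (d, n)| * _ = 0
      rw [e1]; simp)]
    refine (hsumD j).congr fun d => ?_
    show ‖c d‖ * ‖ν j (π d) - ν j d‖ = |w (emb d)| * ‖m (s (emb d)) j - m (emb d) j‖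
    rw [hwemb, abs_of_nonneg (norm_nonneg _)]
    by_cases h : c d = 0
    · rw [h]; simp
    · have e1 : s (emb d) = (π d, 0) := h1 d h
      rw [e1]
  have : Encodable (D × ℤ) := Encodable.ofCountable _
  obtain ⟨ε, hε0, cε, hε1, -⟩ := posSumOfEncodable (one_pos : (0 : ℝ) < 1) (D × ℤ)
  have hsumJ : Summable fun x => ∑ j, |w x| * ‖m (s x) j - m x j‖ :=
    summable_sum (fun j _ => hsum2 j)
  have hJ0 : ∀ x, 0 ≤ ∑ j, |w x| * ‖m (s x) j - m x j‖ := fun x =>
    Finset.sum_nonneg (fun j _ => by positivity)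
  have hK := good3_perm s w
    (fun x => |w (s x) ^ 2 - w x ^ 2| + ∑ j, |w x| * ‖m (s x) j - m x j‖ + ε x) m hw0
    (fun x => add_pos_of_nonneg_of_pos (add_nonneg (abs_nonneg _) (hJ0 x)) (hε0 x))
    ((hsum.add hsumJ).add hε1.summable)
    (fun x => by
      have e1 : min (w x) (w (s x)) * ‖m (s x) - m x‖
          ≤ ∑ j, |w x| * ‖m (s x) j - m x j‖ := by
        have e2 : ‖m (s x) - m x‖ ≤ ∑ j, ‖m (s x) j - m x j‖ := by
          rw [pi_norm_le_iff_of_nonneg (Finset.sum_nonneg fun j _ => norm_nonneg _)]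
          intro j
          exact Finset.single_le_sum (f := fun j => ‖m (s x) j - m x j‖)
            (fun j _ => norm_nonneg _) (Finset.mem_univ j)
        rw [← Finset.mul_sum, abs_of_nonneg (hw0 x)]
        exact mul_le_mul (min_le_left _ _) e2 (norm_nonneg _) (hw0 x)
      have := hε0 x
      linarith)
  obtain ⟨S, N, J₁, J₂, j11, j22, j12, j21, hJ, hN, hN', hX, hS, hS'⟩ :=
    assemble4 e T s w m ζ hζ _ hK emb hemb (by
      rintro ⟨d, n⟩ h
      have hn : n ≠ 0 := fun h0 => h d (by rw [h0])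
      simp [w, hn]) (by
      intro d h
      rw [hwemb, norm_eq_zero] at h
      rw [hT, h, zero_smul]) (by
      intro d h
      rw [hwemb, norm_ne_zero_iff] at h
      refine ⟨π d, h1 d h, ?_⟩
      rw [hT, hwemb, hζemb d h, smul_smul]
      congr 1
      have : (‖c d‖ : ℂ) ≠ 0 := by simpa using h
      field_simp) ‖T‖ hCb hsum (∑ j, ‖Q j‖) hm Q (fun j d => hQ j d) hsum2
  obtain ⟨B', M, hM, hXM, hB'⟩ := algebra_step2 j11 j22 j12 j21 hJ (gen T Q) S N hN hN' hX hS hS' A hA
  have comp : ∀ U V : H →L[ℂ] H, ∀ A B : H →L[ℂ] H,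
      (star U * A * J₁) * (star J₁ * B * V) + (star U * A * J₂) * (star J₂ * B * V)
        = star U * (A * B) * V := by
    intro U V A B
    calc (star U * A * J₁) * (star J₁ * B * V) + (star U * A * J₂) * (star J₂ * B * V)
        = star U * A * (J₁ * star J₁ + J₂ * star J₂) * B * V := by noncomm_ring
      _ = star U * (A * B) * V := by rw [hJ, mul_one]; noncomm_ring
  have hst : ∀ U V : H →L[ℂ] H, star (star U * M * V) = star V * star M * U := by
    intro U V
    rw [star_mul, star_mul, star_star, mul_assoc]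
  refine ⟨B', (hTCe _).mpr hB', star J₁ * M * J₁, star J₁ * M * J₂, star J₂ * M * J₁,
    star J₂ * M * J₂, ?_, ?_, ?_, ?_, ?_, ?_, ?_, ?_⟩
  · rw [hst, hst, hst, comp, comp, hM]
  · rw [hst, hst, hst, comp, comp, hM]
  · rw [hst, hst, hst, comp, comp, hM]
  · rw [hst, hst, hst, comp, comp, hM]
  · rw [hHSe]
    have e1 : star J₁ * (J₁ * A * star J₁ + J₂ * B' * star J₂ - M) * J₁
        = (star J₁ * J₁) * A * (star J₁ * J₁) + (star J₁ * J₂) * B' * (star J₂ * J₁)
          - star J₁ * M * J₁ := by noncomm_ring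
    rw [j11, j12, j21] at e1
    have e2 : T' - star J₁ * M * J₁
        = (T' - A) + star J₁ * (J₁ * A * star J₁ + J₂ * B' * star J₂ - M) * J₁ := by
      rw [e1]; noncomm_ring
    rw [e2]
    exact hs_add ((hHSe _).mp hT') (hs_mul_right _ (hs_mul_left _ hXM))
  · rw [hHSe]
    have e1 : star J₁ * (J₁ * A * star J₁ + J₂ * B' * star J₂ - M) * J₂
        = (star J₁ * J₁) * A * (star J₁ * J₂) + (star J₁ * J₂) * B' * (star J₂ * J₂)
          - star J₁ * M * J₂ := by noncomm_ring
    rw [j11, j12, j22] at e1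
    have e2 : star J₁ * M * J₂
        = -(star J₁ * (J₁ * A * star J₁ + J₂ * B' * star J₂ - M) * J₂) := by
      rw [e1]; noncomm_ring
    rw [e2]
    exact hs_neg (hs_mul_right _ (hs_mul_left _ hXM))
  · rw [hHSe]
    have e1 : star J₂ * (J₁ * A * star J₁ + J₂ * B' * star J₂ - M) * J₁
        = (star J₂ * J₁) * A * (star J₁ * J₁) + (star J₂ * J₂) * B' * (star J₂ * J₁)
          - star J₂ * M * J₁ := by noncomm_ring
    rw [j11, j21, j22] at e1
    have e2 : star J₂ * M * J₁
        = -(star J₂ * (J₁ * A * star J₁ + J₂ * B' * star J₂ - M) * J₁) := by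
      rw [e1]; noncomm_ring
    rw [e2]
    exact hs_neg (hs_mul_right _ (hs_mul_left _ hXM))
  · rw [hHSe]
    have e1 : star J₂ * (J₁ * A * star J₁ + J₂ * B' * star J₂ - M) * J₂
        = (star J₂ * J₁) * A * (star J₁ * J₂) + (star J₂ * J₂) * B' * (star J₂ * J₂)
          - star J₂ * M * J₂ := by noncomm_ring
    rw [j12, j21, j22] at e1
    have e2 : B' - star J₂ * M * J₂
        = star J₂ * (J₁ * A * star J₁ + J₂ * B' * star J₂ - M) * J₂ := by
      rw [e1]; noncomm_ring
    rw [e2]
    exact hs_mul_right _ (hs_mul_left _ hXM)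

/-- Every element of the star algebra generated by `T` and a set of operators is in the star
algebra generated by `T` and a finite subset. -/
lemma adjoin_finite {H : Type} [NormedAddCommGroup H] [InnerProductSpace ℂ H] [CompleteSpace H]
    (T : H →L[ℂ] H) (𝒟 : Set (H →L[ℂ] H)) (A : H →L[ℂ] H)
    (hA : A ∈ StarAlgebra.adjoin ℂ (insert T 𝒟)) :
    ∃ F : Finset (H →L[ℂ] H), (∀ x ∈ F, x ∈ 𝒟) ∧
      A ∈ StarAlgebra.adjoin ℂ (insert T (F : Set (H →L[ℂ] H))) := by
  classical
  have hmono : ∀ (F G : Finset (H →L[ℂ] H)) (A : H →L[ℂ] H), F ⊆ G →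
      A ∈ StarAlgebra.adjoin ℂ (insert T (F : Set (H →L[ℂ] H))) →
      A ∈ StarAlgebra.adjoin ℂ (insert T (G : Set (H →L[ℂ] H))) := by
    intro F G A h hA
    exact StarAlgebra.adjoin_mono (Set.insert_subset_insert (by exact_mod_cast h)) hA
  induction hA using StarAlgebra.adjoin_induction with
  | mem x hx =>
    rcases hx with rfl | hx
    · exact ⟨∅, by simp, StarAlgebra.subset_adjoin ℂ _ (Set.mem_insert _ _)⟩
    · exact ⟨{x}, by simpa using hx, StarAlgebra.subset_adjoin ℂ _ (by simp)⟩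
  | algebraMap r => exact ⟨∅, by simp, algebraMap_mem _ r⟩
  | add x y _ _ hx hy =>
    obtain ⟨F, f1, f2⟩ := hx
    obtain ⟨G, g1, g2⟩ := hy
    refine ⟨F ∪ G, ?_, add_mem (hmono _ _ _ Finset.subset_union_left f2)
      (hmono _ _ _ Finset.subset_union_right g2)⟩
    intro x hx
    rcases Finset.mem_union.mp hx with h | h
    · exact f1 x h
    · exact g1 x h
  | mul x y _ _ hx hy =>
    obtain ⟨F, f1, f2⟩ := hx
    obtain ⟨G, g1, g2⟩ := hy
    refine ⟨F ∪ G, ?_, mul_mem (hmono _ _ _ Finset.subset_union_left f2)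
      (hmono _ _ _ Finset.subset_union_right g2)⟩
    intro x hx
    rcases Finset.mem_union.mp hx with h | h
    · exact f1 x h
    · exact g1 x h
  | star x _ hx =>
    obtain ⟨F, f1, f2⟩ := hx
    exact ⟨F, f1, star_mem f2⟩

/-- The theorem for Hilbert-Schmidt perturbations of the operators in the star algebra generated by
a weighted partial permutation of a Hilbert basis and all diagonal operators commuting
with it modulo the trace class. -/
theorem final_set (H : Type) [NormedAddCommGroup H] [InnerProductSpace ℂ H] [CompleteSpace H]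
    (HS TC : (H →L[ℂ] H) → Prop)
    (hHS : ∀ A : H →L[ℂ] H, HS A ↔
        ∃ (ι : Type) (b : HilbertBasis ι ℂ H), Summable (fun i => ‖A (b i)‖ ^ 2))
    (hTC : ∀ A : H →L[ℂ] H, TC A ↔ ∃ B C : H →L[ℂ] H, HS B ∧ HS C ∧ A = B * C)
    (D : Type) [Countable D] (e : HilbertBasis D ℂ H) (c : D → ℂ) (π : D → D) (T : H →L[ℂ] H)
    (hT : ∀ d, T (e d) = c d • e (π d))
    (hinj : ∀ i j, c i ≠ 0 → c j ≠ 0 → π i = π j → i = j)
    (hTT : TC (star T * T - T * star T)) (A : H →L[ℂ] H)
    (hA : A ∈ StarAlgebra.adjoin ℂ (insert T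
      {M : H →L[ℂ] H | (∃ ν : D → ℂ, ∀ d, M (e d) = ν d • e d) ∧ TC (M * T - T * M)}))
    (T' : H →L[ℂ] H) (hT' : HS (T' - A)) :
    ∃ S : H →L[ℂ] H, TC (star S * S - S * star S) ∧
      ∃ N11 N12 N21 N22 : H →L[ℂ] H,
        star N11 * N11 + star N21 * N21 = N11 * star N11 + N12 * star N12 ∧
        star N11 * N12 + star N21 * N22 = N11 * star N21 + N12 * star N22 ∧
        star N12 * N11 + star N22 * N21 = N21 * star N11 + N22 * star N12 ∧
        star N12 * N12 + star N22 * N22 = N21 * star N21 + N22 * star N22 ∧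
        HS (T' - N11) ∧ HS N12 ∧ HS N21 ∧ HS (S - N22) := by
  classical
  obtain ⟨F, f1, f2⟩ := adjoin_finite T _ A hA
  choose ν hν using fun j : F => (f1 j.1 j.2).1
  refine final_family H HS TC hHS hTC D e c π T hT hinj hTT F (fun j => j.1) ν hν
    (fun j => (f1 j.1 j.2).2) A ?_ T' hT'
  refine StarAlgebra.adjoin_mono ?_ f2
  rintro x (rfl | hx)
  · exact ⟨none, rfl⟩
  · exact ⟨some ⟨x, hx⟩, rfl⟩

end Pool.Agent.H28.AN
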