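import Mathlib
import Pool.Agent.H28.AN.F

set_option autoImplicit false

namespace Pool.Agent.H28.AN.Unilateral

open Pool.Agent.H28.AN
open scoped InnerProductSpace
open Submodule

/-- Multiplying the vectors of a Hilbert basis by unimodular constants. -/
lemma exists_phase {H : Type} [NormedAddCommGroup H] [InnerProductSpace ℂ H] [CompleteSpace H]
    {ι : Type} (b : HilbertBasis ι ℂ H) (z : ι → ℂ) (hz : ∀ i, ‖z i‖ = 1) :
    ∃ b' : HilbertBasis ι ℂ H, ∀ i, b' i = z i • b i := by
  have hon : Orthonormal ℂ (fun i => z i • b i) := by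
    constructor
    · intro i
      rw [norm_smul, hz, b.orthonormal.1 i, one_mul]
    · intro i j hij
      simp only
      rw [inner_smul_left, inner_smul_right, b.orthonormal.2 hij]
      simp
  have hsp : ⊤ ≤ (span ℂ (Set.range (fun i => z i • b i))).topologicalClosure := by
    rw [← b.dense_span]
    apply Submodule.topologicalClosure_mono
    rw [span_le]
    rintro _ ⟨i, rfl⟩
    have hz0 : z i ≠ 0 := by
      intro h; have := hz i; rw [h] at this; simp at this
    have h1 : b i = (z i)⁻¹ • (z i • b i) := by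
      rw [smul_smul, inv_mul_cancel₀ hz0, one_smul]
    rw [h1]
    exact smul_mem _ _ (subset_span ⟨i, rfl⟩)
  exact ⟨HilbertBasis.mk hon hsp, fun i => by rw [HilbertBasis.coe_mk]⟩

theorem result :
    ∀ (H : Type) [NormedAddCommGroup H] [InnerProductSpace ℂ H] [CompleteSpace H]
      (HS TC : (H →L[ℂ] H) → Prop),
      (∀ A : H →L[ℂ] H, HS A ↔
        ∃ (ι : Type) (b : HilbertBasis ι ℂ H), Summable (fun i => ‖A (b i)‖ ^ 2)) →
      (∀ A : H →L[ℂ] H, TC A ↔
        ∃ B C : H →L[ℂ] H, HS B ∧ HS C ∧ A = B * C) →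
      ∀ (T : H →L[ℂ] H) (e : HilbertBasis ℕ ℂ H) (c : ℕ → ℂ),
        (∀ n, T (e n) = c n • e (n + 1)) →
        TC (star T * T - T * star T) →
        TC (star (star T) * star T - star T * star (star T)) ∧
          ∃ N11 N12 N21 N22 : H →L[ℂ] H,
            star N11 * N11 + star N21 * N21 = N11 * star N11 + N12 * star N12 ∧
            star N11 * N12 + star N21 * N22 = N11 * star N21 + N12 * star N22 ∧
            star N12 * N11 + star N22 * N21 = N21 * star N11 + N22 * star N12 ∧
            star N12 * N12 + star N22 * N22 = N21 * star N21 + N22 * star N22 ∧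
            HS (T - N11) ∧ HS N12 ∧ HS N21 ∧ HS (star T - N22) := by
  classical
  intro H _ _ _ HS TC hHS hTC T e c hT hTT
  -- phases
  let z : ℕ → ℂ := fun n => Nat.rec 1 (fun m y => if c m = 0 then 1 else y * (c m / ‖c m‖)) n
  have hz1 : ∀ n, z (n + 1) = if c n = 0 then 1 else z n * (c n / ‖c n‖) := fun n => rfl
  have hz : ∀ n, ‖z n‖ = 1 := by
    intro n
    induction n with
    | zero => simp [z]
    | succ n ih =>
      rw [hz1]
      split_ifs with h
      · simp
      · rw [norm_mul, ih, norm_div]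
        simp [h]
  obtain ⟨e', he'⟩ := exists_phase e z hz
  let w : ℕ → ℝ := fun n => ‖c n‖
  have hT' : ∀ n, T (e' n) = (w n : ℂ) • e' (n + 1) := by
    intro n
    rw [he', he', map_smul, hT, smul_smul, smul_smul, hz1]
    congr 1
    by_cases h : c n = 0
    · simp [h, w]
    · rw [if_neg h]
      have : (‖c n‖ : ℂ) ≠ 0 := by simpa using h
      show z n * c n = (‖c n‖ : ℂ) * (z n * (c n / ‖c n‖))
      field_simp
  -- the self-commutator
  obtain ⟨B, C, hB, hC, hBC⟩ := (hTC _).mp hTT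
  obtain ⟨ι₁, b₁, hb₁⟩ := (hHS _).mp hB
  obtain ⟨ι₂, b₂, hb₂⟩ := (hHS _).mp hC
  have hd := tc_diag b₁ b₂ e' hb₁ hb₂
  rw [← hBC] at hd
  have hdiag : ∀ n, ⟪e' (n + 1), (star T * T - T * star T) (e' (n + 1))⟫_ℂ
      = ((w (n + 1) ^ 2 - w n ^ 2 : ℝ) : ℂ) := by
    intro n
    have h1 : ⟪e' (n + 1), (star T * T) (e' (n + 1))⟫_ℂ = ((w (n + 1) ^ 2 : ℝ) : ℂ) := by
      rw [mul_apply_eq_comp, ContinuousLinearMap.star_eq_adjoint,
        ContinuousLinearMap.adjoint_inner_right, hT', inner_smul_left, inner_smul_right,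
        basis_inner]
      simp; ring
    have hTs : (star T) (e' (n + 1)) = (w n : ℂ) • e' n := by
      have h3 : ∀ m, ⟪e' m, (star T) (e' (n + 1)) - (w n : ℂ) • e' n⟫_ℂ = 0 := by
        intro m
        rw [inner_sub_right, ContinuousLinearMap.star_eq_adjoint,
          ContinuousLinearMap.adjoint_inner_right, hT', inner_smul_left, inner_smul_right,
          basis_inner, basis_inner]
        by_cases h : m = n
        · subst h; simp
        · simp [h]
      have h4 := (hasSum_parseval e' ((star T) (e' (n + 1)) - (w n : ℂ) • e' n)).tsum_eq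
      simp only [h3] at h4
      have h5 : ‖(star T) (e' (n + 1)) - (w n : ℂ) • e' n‖ = 0 := by simpa using h4.symm
      exact sub_eq_zero.mp (norm_eq_zero.mp h5)
    have h2 : ⟪e' (n + 1), (T * star T) (e' (n + 1))⟫_ℂ = ((w n ^ 2 : ℝ) : ℂ) := by
      rw [mul_apply_eq_comp, hTs, map_smul, hT', smul_smul, inner_smul_right, basis_inner]
      simp; ring
    rw [sub_apply, inner_sub_right, h1, h2]
    push_cast; ring
  have hs : Summable fun n => |w (n + 1) ^ 2 - w n ^ 2| := by
    have h1 := (summable_nat_add_iff 1).mpr hd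
    refine h1.congr fun n => ?_
    rw [hdiag, Complex.norm_real, Real.norm_eq_abs]
  obtain ⟨N11, N12, N21, N22, q1, q2, q3, q4, k1, k2, k3, k4⟩ :=
    core e' T w (fun n => norm_nonneg _) hT' hs
  refine ⟨?_, N11, N12, N21, N22, q1, q2, q3, q4, (hHS _).mpr ⟨ℕ, e', k1⟩,
    (hHS _).mpr ⟨ℕ, e', k2⟩, (hHS _).mpr ⟨ℕ, e', k3⟩, (hHS _).mpr ⟨ℕ, e', k4⟩⟩
  rw [hTC]
  refine ⟨-B, C, ?_, hC, ?_⟩
  · rw [hHS]
    refine ⟨ι₁, b₁, ?_⟩
    simpa using hb₁
  · rw [star_star, neg_mul, ← hBC]
    abel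

end Pool.Agent.H28.AN.Unilateral
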